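import Pool.Agent.H88.A4.Iface
import Pool.Agent.H67.WA.Defs

/-!
# (W1#), sharp form of the core theorem of W1 (MP_b39724, T3): definitions

`K` any number field, `d = [K : ℚ]`. Notation of `H88/A4` and `H67/WA` (`sz`, `vol`, `ni`, `nz`, `T3`,
`dt`, `cn`, `tb`, `tc`).
* `Inr m D P`: the prime `P` is good, does not contain `D` and `-D` is not a square modulo `P`.
* `lf`, `Fc`: the number of classes at the finite places (D3 ≠ 0); `lf0`, `Fc0`: for `c1 = c2 = 0`.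
* `Ec c b = dt b * dt c - D2 ^ 2`, `dl c b = D2 ^ 2 - 4 dt b dt c`, `D2 = b1 c3 + b3 c1 - 2 b2 c2`.
* `Hc m X D = exp (∑_{N P ≤ X, not inert} 1 / N P)`.
-/

open scoped NumberField
open H88.A4 Pool.Agent.H67.WA

noncomputable section

namespace H88.WS

variable {K : Type} [Field K] [NumberField K]

/-- inert primes for `D = det c` -/
def Inr (m : ℕ) (D : 𝓞 K) (P : Ideal (𝓞 K)) : Prop :=
  (m : 𝓞 K) ∉ P ∧ D ∉ P ∧ ∀ x : 𝓞 K, x ^ 2 + D ∉ P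

open Classical in
/-- the primes dividing `I` -/
def pf (I : Ideal (𝓞 K)) : Finset (Ideal (𝓞 K)) :=
  (UniqueFactorizationMonoid.normalizedFactors I).toFinset

open Classical in
/-- the exponent of `P` in `I` -/
def od (P I : Ideal (𝓞 K)) : ℕ := (UniqueFactorizationMonoid.normalizedFactors I).count P

open Classical in
/-- local number of classes, `D = D3 ≠ 0`, `g = gb gc` -/
def lf (m : ℕ) (D : 𝓞 K) (g P : Ideal (𝓞 K)) (k : ℕ) : ℕ :=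
  if g ≤ P then 1 else if (m : 𝓞 K) ∈ P then (k + 1) ^ 48 else if Inr m D P then 1 else k + 1

/-- number of classes, `x = E` -/
def Fc (m : ℕ) (D : 𝓞 K) (g : Ideal (𝓞 K)) (x : 𝓞 K) : ℕ :=
  ∏ P ∈ pf (Ideal.span {x}), lf m D g P (od P (Ideal.span {x}))

open Classical in
/-- local number of classes for `c1 = c2 = 0`, `D = c3` -/
def lf0 (m : ℕ) (D : 𝓞 K) (g P : Ideal (𝓞 K)) (k : ℕ) : ℕ :=
  if g ≤ P then 1 else if (m : 𝓞 K) ∈ P then (k + 1) ^ 48 else if D ∈ P then k + 1 else 2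

/-- number of classes for `c1 = c2 = 0`, `D = c3`, `x = E = -(b1 c3)^2` -/
def Fc0 (m : ℕ) (D : 𝓞 K) (g : Ideal (𝓞 K)) (x : 𝓞 K) : ℕ :=
  ∏ P ∈ pf (Ideal.span {x}), lf0 m D g P (od P (Ideal.span {x}))

/-- the mixed discriminant -/
def mx (b c : T3 K) : 𝓞 K := b.1 * c.2.2 + b.2.2 * c.1 - 2 * b.2.1 * c.2.1

/-- `E` as a quadratic form in `b` -/
def Ec (c b : T3 K) : 𝓞 K := dt b * dt c - mx b c ^ 2

/-- `D2 ^ 2 - 4 D1 D3` -/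
def dl (c b : T3 K) : 𝓞 K := mx b c ^ 2 - 4 * (dt b * dt c)

/-- all entries of `b` satisfy a condition -/
def T3.All (P : 𝓞 K → Prop) (b : T3 K) : Prop := P b.1 ∧ P b.2.1 ∧ P b.2.2

/-- `max |c_i|_φ` -/
def sx (φ : K →+* ℂ) (c : T3 K) : ℝ := max (sz φ c.1) (max (sz φ c.2.1) (sz φ c.2.2))

/-- prime ideals of norm at most `X` -/
def PrK (K : Type) [Field K] [NumberField K] (X : ℝ) : Set (Ideal (𝓞 K)) :=
  {P | P.IsPrime ∧ P ≠ ⊥ ∧ ni P ≤ X}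

open Classical in
/-- `∏ (1 + 1 / N P)` over the primes of norm at most `X` which are not inert -/
def Hc (m : ℕ) (X : ℝ) (D : 𝓞 K) : ℝ :=
  Real.exp (∑ᶠ P ∈ PrK K X, if Inr m D P then 0 else (ni P)⁻¹)

open Classical in
/-- the quadratic character of `-D` at `P` -/
def ch (m : ℕ) (D : 𝓞 K) (P : Ideal (𝓞 K)) : ℝ :=
  if Inr m D P then -1 else if (m : 𝓞 K) ∈ P ∨ D ∈ P then 0 else 1

/-- `∑_{w < N P ≤ z} χ_P(D) / N P` -/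
def Xs (m : ℕ) (w z : ℝ) (D : 𝓞 K) : ℝ :=
  ∑ᶠ P ∈ PrK K z \ PrK K w, ch m D P * (ni P)⁻¹

/-- the box of the three entries -/
def Bx (C s ρ1 ρ2 : ℝ) (b : T3 K) : Prop :=
  Bd (C * s * ρ1 ^ 2) b.1 ∧ Bd (C * s * (ρ1 * ρ2)) b.2.1 ∧ Bd (C * s * ρ2 ^ 2) b.2.2

/-- the weight `∏ (|det b| / s ^ 2) ^ (-θ)` -/
def Wt (θ s : ℝ) (b : T3 K) : ℝ := ∏ φ : K →+* ℂ, (sz φ (dt b) / s ^ 2) ^ (-θ)

/-- the weight cut at `lam` -/
def Wl (θ s lam : ℝ) (b : T3 K) : ℝ :=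
  ∏ φ : K →+* ℂ, (max (sz φ (dt b) / s ^ 2) lam) ^ (-θ)

/-- nondegenerate at the embedding `φ`, up to `exp Λ` -/
def Nd (s t Λ : ℝ) (β : Blk (𝓞 K)) (φ : K →+* ℂ) : Prop :=
  (sz φ β.b1 ≤ Real.exp Λ * s ∧ sz φ β.b2 ≤ Real.exp Λ * s ∧ sz φ β.b3 ≤ Real.exp Λ * s) ∧
  (sz φ β.c1 ≤ Real.exp Λ * t ∧ sz φ β.c2 ≤ Real.exp Λ * t ∧ sz φ β.c3 ≤ Real.exp Λ * t) ∧
  Real.exp (-Λ) * s ^ 2 ≤ sz φ β.D1 ∧ Real.exp (-Λ) * (s * t) ^ 2 ≤ sz φ β.E ∧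
  Real.exp (-Λ) * (s * t) ^ 2 ≤ sz φ (β.D2 ^ 2 - 4 * (β.D1 * β.D3))

/-- the blocks of `S` are determined by `(u, v)` and the three determinants -/
def Inj (S : Finset (𝓞 K × 𝓞 K × Blk (𝓞 K))) : Prop :=
  ∀ x ∈ S, ∀ y ∈ S, x.1 = y.1 → x.2.1 = y.2.1 → x.2.2.D1 = y.2.2.D1 → x.2.2.D2 = y.2.2.D2 →
    x.2.2.D3 = y.2.2.D3 → x = y

end H88.WS
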