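import Pool.Agent.H88.WS.Defs

/-!
# (W1#): the statements of the chapters (think 1185 and the text, MP_b39724)
-/

open scoped NumberField
open H88.A4 Pool.Agent.H67.WA

noncomputable section

namespace H88.WS

variable (K : Type) [Field K] [NumberField K]

/-- LOC, `D3 ≠ 0`: classes at the finite places, exact number -/
def Loc2Stmt : Prop :=
  ∀ M : ℕ, M ≠ 0 → ∃ m m2 : ℕ, m ≠ 0 ∧ m2 ≠ 0 ∧ 6 ∣ m ∧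
    ∀ β : Blk (𝓞 K), β.E ≠ 0 → β.D1 ≠ 0 → β.D3 ≠ 0 →
      ∃ gb gc : Ideal (𝓞 K), Squarefree gb ∧ Squarefree gc ∧ IsCoprime gb gc ∧
        IsCoprime gb (cn (tc β)) ∧ (β.b1 ∈ gb ∧ β.b2 ∈ gb ∧ β.b3 ∈ gb) ∧
        (β.c1 ∈ gc ∧ β.c2 ∈ gc ∧ β.c3 ∈ gc ∧ β.D1 ∈ gc) ∧
        ∃ cl : Row (𝓞 K) → ℕ, (∀ π, cl π < Fc m β.D3 (gb * gc) β.E) ∧
          ∀ (C s t : ℝ) (u v u' v' r r' ρ ρ' : 𝓞 K) (π π' : Row (𝓞 K)),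
            Adm M C s t u v → Sol β π r r' u v → Adm M C s t u' v' → Sol β π' ρ ρ' u' v' →
            cl π = cl π' → ∀ x ∈ gb * gc, β.E ∣ (m2 : 𝓞 K) * x * β.br π π'

/-- LOC for `c1 = c2 = 0` -/
def Loc0Stmt : Prop :=
  ∀ M : ℕ, M ≠ 0 → ∃ m m2 : ℕ, m ≠ 0 ∧ m2 ≠ 0 ∧ 6 ∣ m ∧
    ∀ β : Blk (𝓞 K), β.c1 = 0 → β.c2 = 0 → β.E ≠ 0 → β.D1 ≠ 0 →
      ∃ gb gc : Ideal (𝓞 K), Squarefree gb ∧ Squarefree gc ∧ IsCoprime gb gc ∧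
        (β.b1 ∈ gb ∧ β.b2 ∈ gb ∧ β.b3 ∈ gb) ∧ (β.c3 ∈ gc ∧ β.D1 ∈ gc) ∧
        ∃ cl : Row (𝓞 K) → ℕ, (∀ π, cl π < Fc0 m β.c3 (gb * gc) β.E) ∧
          ∀ (C s t : ℝ) (u v u' v' r r' ρ ρ' : 𝓞 K) (π π' : Row (𝓞 K)),
            Adm M C s t u v → Sol β π r r' u v → Adm M C s t u' v' → Sol β π' ρ ρ' u' v' →
            cl π = cl π' → ∀ x ∈ gb * gc, β.E ∣ (m2 : 𝓞 K) * x * β.br π π'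

/-- COM, `D3 ≠ 0`: completions with the number of classes and of boxes -/
def Com2Stmt : Prop :=
  ∀ M : ℕ, M ≠ 0 → ∃ m : ℕ, m ≠ 0 ∧ 6 ∣ m ∧ ∀ C : ℝ, 1 ≤ C → ∃ C' : ℝ, 0 < C' ∧
    ∀ s t H : ℝ, 0 < s → 0 < t → s ≤ H → t ≤ H → 1 ≤ H →
    ∀ β : Blk (𝓞 K), β.E ≠ 0 → β.D1 ≠ 0 → β.D3 ≠ 0 → β.All (Bd H) →
      ∃ gb gc : Ideal (𝓞 K), Squarefree gb ∧ Squarefree gc ∧ IsCoprime gb gc ∧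
        IsCoprime gb (cn (tc β)) ∧ (β.b1 ∈ gb ∧ β.b2 ∈ gb ∧ β.b3 ∈ gb) ∧
        (β.c1 ∈ gc ∧ β.c2 ∈ gc ∧ β.c3 ∈ gc ∧ β.D1 ∈ gc) ∧
        ∀ Λ : (K →+* ℂ) → ℝ, (∀ φ, 1 ≤ Λ φ ∧ (1 + Real.log H ≤ Λ φ ∨ Nd s t (Λ φ) β φ)) →
        ∀ S : Finset (𝓞 K × 𝓞 K), (∀ x ∈ S, Adm M C s t x.1 x.2 ∧ Rep H β x.1 x.2) →
          (S.card : ℝ) ≤ C' * Fc m β.D3 (gb * gc) β.E * (∏ φ, Λ φ) *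
            (1 + ni gb * ni gc * ∏ φ : K →+* ℂ, Dt s t β φ ^ (-(3 / 2) : ℝ))

/-- COM for `c1 = c2 = 0` -/
def Com0Stmt : Prop :=
  ∀ M : ℕ, M ≠ 0 → ∃ m : ℕ, m ≠ 0 ∧ 6 ∣ m ∧ ∀ C : ℝ, 1 ≤ C → ∃ C' : ℝ, 0 < C' ∧
    ∀ s t H : ℝ, 0 < s → 0 < t → s ≤ H → t ≤ H → 1 ≤ H →
    ∀ β : Blk (𝓞 K), β.c1 = 0 → β.c2 = 0 → β.E ≠ 0 → β.D1 ≠ 0 → β.All (Bd H) →
      ∃ gb gc : Ideal (𝓞 K), Squarefree gb ∧ Squarefree gc ∧ IsCoprime gb gc ∧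
        (β.b1 ∈ gb ∧ β.b2 ∈ gb ∧ β.b3 ∈ gb) ∧ (β.c3 ∈ gc ∧ β.D1 ∈ gc) ∧
        ∀ Λ : (K →+* ℂ) → ℝ, (∀ φ, 1 ≤ Λ φ ∧ (1 + Real.log H ≤ Λ φ ∨ Nd s t (Λ φ) β φ)) →
        ∀ S : Finset (𝓞 K × 𝓞 K), (∀ x ∈ S, Adm M C s t x.1 x.2 ∧ Rep H β x.1 x.2) →
          (S.card : ℝ) ≤ C' * Fc0 m β.c3 (gb * gc) β.E * (∏ φ, Λ φ) *
            (1 + ni gb * ni gc * ∏ φ : K →+* ℂ, Dt s t β φ ^ (-(3 / 2) : ℝ))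

/-- AVG (c6): average of the number of classes over `b` in a cube, `c` fixed -/
def AvgStmt : Prop :=
  ∀ m : ℕ, m ≠ 0 → 6 ∣ m → ∀ (A : ℕ) (δ ε : ℝ), 0 < δ → 0 < ε → ∃ C : ℝ, 0 < C ∧
    ∀ X y : ℝ, 3 ≤ X → X ^ δ ≤ y → y ≤ X ^ A → ∀ c : T3 K, T3.All (Bd (X ^ A)) c → dt c ≠ 0 →
    ni (cn c) ≤ y ^ ((Module.finrank ℚ K : ℝ) / 8) →
    ∀ h : Ideal (𝓞 K), h ≠ ⊥ → IsCoprime h (cn c) → ni h ≤ y ^ ((Module.finrank ℚ K : ℝ) / 8) →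
    ∀ b0 : T3 K, T3.All (Bd (X ^ A)) b0 → ∀ S : Finset (T3 K),
      (∀ b ∈ S, T3.All (Bd y) (b - b0) ∧ T3.All (fun x => x ∈ h) b ∧ Ec c b ≠ 0) →
      ∑ b ∈ S, (Fc m (dt c) h (Ec c b) : ℝ) ≤
        C * y ^ (3 * Module.finrank ℚ K) * (ni h)⁻¹ ^ 3 * ni (cn c) ^ ε *
          (Real.log (Real.log X) + 3) ^ C * Hc m X (dt c)

variable {K} in
/-- the cube of the points `c0 + (∑ x_i ω_i, ..)` with `0 ≤ x_i < n` -/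
def cube (n : ℕ) (c0 : T3 K) : Set (T3 K) :=
  {c | ∀ i, (0 ≤ (NumberField.RingOfIntegers.basis K).repr (c.1 - c0.1) i ∧
      (NumberField.RingOfIntegers.basis K).repr (c.1 - c0.1) i < n) ∧
    (0 ≤ (NumberField.RingOfIntegers.basis K).repr (c.2.1 - c0.2.1) i ∧
      (NumberField.RingOfIntegers.basis K).repr (c.2.1 - c0.2.1) i < n) ∧
    (0 ≤ (NumberField.RingOfIntegers.basis K).repr (c.2.2 - c0.2.2) i ∧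
      (NumberField.RingOfIntegers.basis K).repr (c.2.2 - c0.2.2) i < n)}

/-- AVC (c7): second moment over `c` -/
def AvcStmt : Prop :=
  ∀ m : ℕ, m ≠ 0 → 6 ∣ m → ∃ C : ℝ, 0 < C ∧ ∀ (w z : ℝ) (n : ℕ), 2 ≤ w → w ≤ z → z ^ 4 ≤ n →
    ∀ (c0 : T3 K) (S : Finset (T3 K)), (∀ c ∈ S, c ∈ cube n c0 ∧ dt c ≠ 0 ∧ 1 < Xs m w z (dt c)) →
      (S.card : ℝ) ≤ C * (n : ℝ) ^ (3 * Module.finrank ℚ K) / w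

/-- SUM, sharp: the cut weight over a fat box intersected with an ideal -/
def SwStmt : Prop :=
  ∀ θ : ℝ, 0 ≤ θ → θ < 1 → ∀ C : ℝ, 1 ≤ C → ∃ C' : ℝ, 0 < C' ∧
    ∀ s ρ1 ρ2 lam : ℝ, 1 ≤ s → s ^ (-(1 / 100) : ℝ) ≤ ρ1 → ρ1 ≤ ρ2 → ρ2 ≤ C * s ^ (1 / 100 : ℝ) →
    s ^ (-(1 / 50) : ℝ) ≤ lam → lam ≤ 1 → ∀ h : Ideal (𝓞 K), h ≠ ⊥ →
    ni h ≤ s ^ ((Module.finrank ℚ K : ℝ) / 50) → ∀ S : Finset (T3 K),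
      (∀ b ∈ S, Bx C s ρ1 ρ2 b ∧ T3.All (fun x => x ∈ h) b) →
      ∑ b ∈ S, Wl θ s lam b ≤ C' * s ^ (3 * Module.finrank ℚ K) *
        (ρ1 * ρ2) ^ ((3 - 2 * θ) * (Module.finrank ℚ K : ℝ)) * (ni h)⁻¹ ^ 3

/-- SUM, lossy, `b1 ≠ 0` -/
def OlAStmt : Prop :=
  ∀ θ : ℝ, 1 / 2 ≤ θ → θ < 1 → ∀ C : ℝ, 1 ≤ C → ∀ ε : ℝ, 0 < ε → ∃ C' : ℝ, 0 < C' ∧
    ∀ s ρ1 ρ2 : ℝ, 1 ≤ C * s → Rho C ρ1 ρ2 → ρ2 ≤ C * s → ∀ S : Finset (T3 K),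
      (∀ b ∈ S, Bx C s ρ1 ρ2 b ∧ b.1 ≠ 0 ∧ dt b ≠ 0) →
      ∑ b ∈ S, ni (cn b) * Wt θ s b ≤ C' * s ^ ε *
        (s ^ (3 * Module.finrank ℚ K) * (ρ1 * ρ2) ^ ((3 - 2 * θ) * (Module.finrank ℚ K : ℝ)) +
          s ^ ((1 + 2 * θ) * (Module.finrank ℚ K : ℝ)) * ρ1 ^ (2 * Module.finrank ℚ K))

/-- SUM, lossy, `b1 = 0` -/
def OlZStmt : Prop :=
  ∀ θ : ℝ, 1 / 2 ≤ θ → θ < 1 → ∀ C : ℝ, 1 ≤ C → ∀ ε : ℝ, 0 < ε → ∃ C' : ℝ, 0 < C' ∧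
    ∀ s ρ1 ρ2 : ℝ, 1 ≤ C * s → Rho C ρ1 ρ2 → ρ2 ≤ C * s → ∀ S : Finset (T3 K),
      (∀ b ∈ S, Bx C s ρ1 ρ2 b ∧ b.1 = 0 ∧ dt b ≠ 0) →
      ∑ b ∈ S, ni (cn b) * Wt θ s b ≤ C' * s ^ ε *
        (s ^ (2 * Module.finrank ℚ K) +
          s ^ ((1 + 2 * θ) * (Module.finrank ℚ K : ℝ)) * ρ2 ^ (2 * Module.finrank ℚ K))

/-- SUM, lossy with a saving: the degenerate `b` of a fat box -/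
def OdStmt : Prop :=
  ∀ θ : ℝ, 1 / 2 ≤ θ → θ < 1 → ∀ C : ℝ, 1 ≤ C → ∃ C' κ : ℝ, 0 < C' ∧ 0 < κ ∧
    ∀ s ρ1 ρ2 : ℝ, 1 ≤ s → Rho C ρ1 ρ2 → s ^ (-(1 / 100) : ℝ) ≤ ρ1 → ∀ S : Finset (T3 K),
      (∀ b ∈ S, Bx C s ρ1 ρ2 b ∧ b.1 ≠ 0 ∧ dt b ≠ 0 ∧
        ((∃ φ : K →+* ℂ, sz φ (dt b) ≤ s ^ (2 - 1 / 50 : ℝ)) ∨
          s ^ ((Module.finrank ℚ K : ℝ) / 50) ≤ ni (cn b))) →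
      ∑ b ∈ S, ni (cn b) * Wt θ s b ≤ C' * s ^ (3 * (Module.finrank ℚ K : ℝ) - κ)

/-- EXB: `E_c(b)` or `D2^2 - 4 D1 D3` small at one embedding -/
def ExbStmt : Prop :=
  ∀ C : ℝ, 1 ≤ C → ∃ C' : ℝ, 0 < C' ∧ ∀ s ρ1 ρ2 μ : ℝ, 1 ≤ s → 0 < ρ1 → ρ1 ≤ ρ2 → 1 ≤ s * ρ1 ^ 2 →
    0 < μ → μ ≤ 1 → 1 ≤ μ * s → ∀ (c : T3 K) (φ : K →+* ℂ), c ≠ 0 → ∀ S : Finset (T3 K),
      (∀ b ∈ S, Bx C s ρ1 ρ2 b ∧ (sz φ (Ec c b) ≤ μ ^ 2 * (s * sx φ c) ^ 2 ∨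
        sz φ (dl c b) ≤ μ ^ 2 * (s * sx φ c) ^ 2)) →
      (S.card : ℝ) ≤ C' * s ^ (3 * Module.finrank ℚ K) * (ρ1 * ρ2) ^ (3 * Module.finrank ℚ K) *
        (μ / ρ1 ^ 2)

/-- EZ: the case `E = 0` with a saving -/
def EZ2Stmt : Prop :=
  ∀ M : ℕ, M ≠ 0 → ∀ C : ℝ, 1 ≤ C → ∀ ε : ℝ, 0 < ε → ∃ C' : ℝ, 0 < C' ∧
    ∀ s t : ℝ, Rg C s t → ∀ S : Finset (𝓞 K × 𝓞 K × 𝓞 K × 𝓞 K),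
      (∀ x ∈ S, Adm M C s t x.1 x.2.1 ∧ PQ M C s t x.1 x.2.1 x.2.2.1 x.2.2.2) →
      (S.card : ℝ) ≤ C' * (s * t) ^ (5 / 2 * (Module.finrank ℚ K : ℝ) + ε)

/-- DEG: the case `D3 = 0` -/
def Deg2Stmt : Prop :=
  ∀ M : ℕ, M ≠ 0 → ∀ C : ℝ, 1 ≤ C → ∀ A : ℕ, ∃ C' κ : ℝ, 0 < C' ∧ 0 < κ ∧
    ∀ s t : ℝ, Rg C s t → ∀ S : Finset (𝓞 K × 𝓞 K × Blk (𝓞 K)), Inj S →
      (∀ x ∈ S, Adm M C s t x.1 x.2.1 ∧ Deg C s t x.2.2 ∧ x.2.2.All (Bd (Hp C A s)) ∧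
        Rep (Hp C A s) x.2.2 x.1 x.2.1) →
      (S.card : ℝ) ≤ C' * (s * t) ^ (3 * Module.finrank ℚ K) * t ^ (-κ) *
        Real.log (2 + s) ^ (5 / 4 : ℝ)

/-- BLK: the blocks of the main case for one shape, without the freedom `x2 → x2 + O x1` -/
def BlkStmt : Prop :=
  ∀ M : ℕ, M ≠ 0 → ∀ C : ℝ, 1 ≤ C → ∀ A : ℕ, ∃ C' κ : ℝ, 0 < C' ∧ 0 < κ ∧
    ∀ s t ρ1 ρ2 : ℝ, Rg C s t → Rho C ρ1 ρ2 → ∀ S : Finset (𝓞 K × 𝓞 K × Blk (𝓞 K)),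
      (∀ x ∈ S, Adm M C s t x.1 x.2.1 ∧ Main C s t ρ1 ρ2 x.2.2 ∧ x.2.2.All (Bd (Hp C A s)) ∧
        Rep (Hp C A s) x.2.2 x.1 x.2.1) →
      (S.card : ℝ) ≤ C' * (s * t) ^ (3 * Module.finrank ℚ K) * (ρ2 / ρ1) ^ Module.finrank ℚ K *
        ρ1 ^ κ * Real.log (2 + s) ^ (5 / 4 : ℝ) ∧
      (Real.exp (Real.sqrt (Real.log (2 + s))) ≤ t →
        (S.card : ℝ) ≤ C' * (s * t) ^ (3 * Module.finrank ℚ K) *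
          (ρ2 / ρ1) ^ Module.finrank ℚ K * ρ1 ^ κ * Real.log (2 + s) ^ (7 / 8 : ℝ))

/-- MAIN: the main case for one shape -/
def Main2Stmt : Prop :=
  ∀ M : ℕ, M ≠ 0 → ∀ C : ℝ, 1 ≤ C → ∀ A : ℕ, ∃ C' κ : ℝ, 0 < C' ∧ 0 < κ ∧
    ∀ s t ρ1 ρ2 : ℝ, Rg C s t → Rho C ρ1 ρ2 → ∀ S : Finset (𝓞 K × 𝓞 K × Blk (𝓞 K)), Inj S →
      (∀ x ∈ S, Adm M C s t x.1 x.2.1 ∧ Main C s t ρ1 ρ2 x.2.2 ∧ x.2.2.All (Bd (Hp C A s)) ∧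
        Rep (Hp C A s) x.2.2 x.1 x.2.1) →
      (S.card : ℝ) ≤ C' * (s * t) ^ (3 * Module.finrank ℚ K) *
        ρ1 ^ κ * Real.log (2 + s) ^ (5 / 4 : ℝ) ∧
      (Real.exp (Real.sqrt (Real.log (2 + s))) ≤ t →
        (S.card : ℝ) ≤ C' * (s * t) ^ (3 * Module.finrank ℚ K) *
          ρ1 ^ κ * Real.log (2 + s) ^ (7 / 8 : ℝ))

end H88.WS
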