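import Pool.Agent.H88.WS.Ib
import Pool.Agent.H63.MA.LBd
import Pool.Agent.H38.TD.MertB

/-!
# [H88 WS MRT] Mertens for the primes of `K`, two sided (W1#, MP_b39724)

PROOF. `prk_fin`: the ideals of bounded norm are finitely many (`Ideal.finite_setOf_absNorm_le`; the nonzero ones are enough). By `H63.MA.pz_all` (file `H63/MA/LBd.lean`):
`|∑_v N(v)^(-σ) - log (1/(σ - 1))| ≤ C` for `1 < σ ≤ 2`, `v` over the finite places (`Pl K`; `v.asIdeal` is a bijection onto the nonzero primes; `ni v.asIdeal = nm v`).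
CHEBYSHEV: `∑_{N P ≤ x} log (N P)/N P ≤ C1 log x` for `x ≥ 3`: `∑_v log (N v) N(v)^(-σ)`: for `σ = 1 + 1/log x`, `σ' = 1 + 1/(2 log x)`, `log N ≤ 2 log x (N^(1/(2 log x)))`
(`log z ≤ z^a/a` with `a = 1/(2 log x)`), so for every prime `(log N P) N P^(-σ) ≤ 2 log x N P^(-σ')`: too weak by a `log log`. Instead use the rational primes: over every rational prime `p`
there are at most `d` primes `P`, and `N P ≥ p`: `∑_{N P ≤ x} log (N P)/N P ≤ d ∑_{p ≤ x} sup_k (k log p)/p^k ≤ d ∑_{p ≤ x} log p / p * 2 ≤ 2 d (log x + C)`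
(`k/p^(k-1) ≤ 2`), with Mertens for `ℚ` (Mathlib or pool: `H1/Mertens.lean`, `H2/MT/Mer.lean`, `H61/UN/Mt.lean`, ..; only the upper bound `∑_{p ≤ x} log p/p ≤ C log x` for `x ≥ 3` is needed; it follows from
`∏_{p ≤ n} p ≤ 4^n` by dyadic blocks: `∑_{2^j < p ≤ 2^(j+1)} log p/p ≤ 2^(-j) log (4^(2^(j+1))) = 2 log 4`).
UPPER BOUND: `σ = 1 + 1/log x`: `N P^(-1) ≤ N P^(-σ) + N P^(-1) (1 - N P^(-1/log x)) ≤ N P^(-σ) + N P^(-1) log (N P)/log x`, sum over `N P ≤ x`: `≤ log log x + C + C1`.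
LOWER BOUND: `∑_{N P ≤ x} N P^(-1) ≥ ∑_{N P ≤ x} N P^(-σ) = ∑_P N P^(-σ) - ∑_{N P > x} N P^(-σ)`, and the tail is bounded: dyadic blocks `x^(j) < N P ≤ x^(j+1)`, `j ≥ 1`:
`N P^(-σ) ≤ N P^(-1) e^(-j)` and `∑_{x^j < N P ≤ x^(j+1)} N P^(-1) ≤ (1/(j log x)) ∑ log (N P)/N P ≤ (1/(j log x)) C1 (j + 1) log x ≤ 2 C1`.
(`finsum` over a finite set = `Finset.sum` over `toFinset`: `finsum_mem_eq_finite_toFinset_sum`.)
-/

open scoped NumberField
open H88.A4 Pool.Agent.H67.WA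

noncomputable section

namespace H88.WS

variable (K : Type) [Field K] [NumberField K]

private theorem mrt_set (x : ℝ) :
    PrK K x = (fun v : H63.MA.Pl K => v.asIdeal) '' {v | (H63.MA.nm v : ℝ) ≤ x} := by
  ext P
  constructor
  · rintro ⟨h1, h2, h3⟩
    exact ⟨⟨P, h1, h2⟩, h3, rfl⟩
  · rintro ⟨v, hv, rfl⟩
    exact ⟨v.isPrime, v.ne_bot, hv⟩

private theorem mrt_fin (x : ℝ) : {v : H63.MA.Pl K | (H63.MA.nm v : ℝ) ≤ x}.Finite := by
  have h := H38.TD.po_finite (K := K) ∅ x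
  refine (h.image Subtype.val).subset fun v hv => ?_
  exact ⟨⟨v, Set.notMem_empty v⟩, hv, rfl⟩

theorem prk_fin (x : ℝ) : (PrK K x).Finite := by
  rw [mrt_set]
  exact (mrt_fin K x).image _

private theorem mrt_inj : Function.Injective (fun v : H63.MA.Pl K => v.asIdeal) :=
  fun _ _ h => IsDedekindDomain.HeightOneSpectrum.ext h

private theorem mrt_sum (x : ℝ) : ∑ᶠ P ∈ PrK K x, (ni P)⁻¹ =
    ∑ v ∈ (mrt_fin K x).toFinset, ((H63.MA.nm v : ℝ))⁻¹ := by
  rw [mrt_set, finsum_mem_image (mrt_inj K).injOn, finsum_mem_eq_finite_toFinset_sum _ (mrt_fin K x)]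
  rfl

private theorem mrt_cheb : ∃ C : ℝ, 0 < C ∧ ∀ x : ℝ, 2 ≤ x → ∀ W : Finset (H63.MA.Pl K),
    (∀ v ∈ W, (H63.MA.nm v : ℝ) ≤ x) →
      ∑ v ∈ W, Real.log (H63.MA.nm v) / (H63.MA.nm v : ℝ) ≤ C * Real.log x := by
  obtain ⟨C, hC, hlog⟩ := H38.TD.mert_log K ∅
  refine ⟨C, hC, fun x hx W hW => ?_⟩
  have h1 := hlog 0 x hx
  have h2 : ∑ v ∈ W, Real.log (H63.MA.nm v) / (H63.MA.nm v : ℝ) ≤
      ∑ v ∈ (H38.TD.Zs (K := K) ∅ 0 x).map (Function.Embedding.subtype _),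
        Real.log (H63.MA.nm v) / (H63.MA.nm v : ℝ) := by
    refine Finset.sum_le_sum_of_subset_of_nonneg ?_ fun v _ _ => ?_
    · intro v hv
      rw [Finset.mem_map]
      refine ⟨⟨v, Set.notMem_empty v⟩, (H38.TD.mem_Zs ∅ 0 x _).2 ⟨hW v hv, ?_⟩, rfl⟩
      show (0 : ℝ) < (H38.TD.nv v : ℝ)
      exact_mod_cast H38.TD.nv_pos v
    · apply div_nonneg (Real.log_nonneg _) (Nat.cast_nonneg _)
      exact_mod_cast H38.TD.nv_pos v
  rw [Finset.sum_map] at h2
  exact h2.trans h1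

private theorem mrt_geo (J : ℕ) :
    ∑ j ∈ Finset.range J, ((j : ℝ) + 1) * Real.exp (-(j : ℝ)) ≤ 2 * (1 - Real.exp (-(1 / 2)))⁻¹ := by
  have hr : Real.exp (-(1 / 2)) < 1 := by
    rw [Real.exp_lt_one_iff]
    norm_num
  have h0 : 0 ≤ Real.exp (-(1 / 2)) := (Real.exp_pos _).le
  calc ∑ j ∈ Finset.range J, ((j : ℝ) + 1) * Real.exp (-(j : ℝ))
      ≤ ∑ j ∈ Finset.range J, 2 * Real.exp (-(1 / 2)) ^ j := by
        refine Finset.sum_le_sum fun j _ => ?_
        have h1 : (j : ℝ) / 2 + 1 ≤ Real.exp ((j : ℝ) / 2) := Real.add_one_le_exp _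
        have h2 : Real.exp (-(1 / 2)) ^ j = Real.exp ((j : ℝ) / 2) * Real.exp (-(j : ℝ)) := by
          rw [← Real.exp_nat_mul, ← Real.exp_add]
          congr 1
          ring
        rw [h2, ← mul_assoc]
        refine mul_le_mul_of_nonneg_right ?_ (Real.exp_pos _).le
        linarith [(Nat.cast_nonneg j : (0 : ℝ) ≤ j)]
    _ = 2 * ∑ j ∈ Finset.range J, Real.exp (-(1 / 2)) ^ j := by rw [Finset.mul_sum]
    _ ≤ 2 * ∑' j : ℕ, Real.exp (-(1 / 2)) ^ j := by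
        refine mul_le_mul_of_nonneg_left ?_ (by norm_num)
        exact (summable_geometric_of_lt_one h0 hr).sum_le_tsum _ fun j _ => pow_nonneg h0 j
    _ = _ := by rw [tsum_geometric_of_lt_one h0 hr]

private theorem mrt_rpow (v : H63.MA.Pl K) {L : ℝ} (hL : 0 < L) :
    (H63.MA.nm v : ℝ) ^ (-(1 + 1 / L)) =
      (H63.MA.nm v : ℝ)⁻¹ * Real.exp (-(Real.log (H63.MA.nm v) / L)) := by
  have h0 : (0 : ℝ) < H63.MA.nm v := by exact_mod_cast H38.TD.nv_pos v
  rw [Real.rpow_def_of_pos h0, ← Real.exp_log (inv_pos.2 h0), ← Real.exp_add, Real.log_inv]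
  congr 1
  field_simp
  ring

/-- the tail -/
private theorem mrt_tail {C : ℝ} (hC : 0 < C) (hch : ∀ x : ℝ, 2 ≤ x → ∀ W : Finset (H63.MA.Pl K),
    (∀ v ∈ W, (H63.MA.nm v : ℝ) ≤ x) →
      ∑ v ∈ W, Real.log (H63.MA.nm v) / (H63.MA.nm v : ℝ) ≤ C * Real.log x) {x : ℝ} (hx : 3 ≤ x)
    (W : Finset (H63.MA.Pl K)) (hW : ∀ v ∈ W, x < H63.MA.nm v) :
    ∑ v ∈ W, (H63.MA.nm v : ℝ) ^ (-(1 + 1 / Real.log x)) ≤
      C * (2 * (1 - Real.exp (-(1 / 2)))⁻¹) := by
  have hx0 : 0 < x := by linarith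
  have hL : 0 < Real.log x := Real.log_pos (by linarith)
  set L := Real.log x with hLd
  have hpos : ∀ v : H63.MA.Pl K, (0 : ℝ) < H63.MA.nm v := fun v => by exact_mod_cast H38.TD.nv_pos v
  have hlog0 : ∀ v : H63.MA.Pl K, 0 ≤ Real.log (H63.MA.nm v) := fun v =>
    Real.log_nonneg (by exact_mod_cast H38.TD.nv_pos v)
  obtain ⟨J, hJ⟩ : ∃ J : ℕ, ∀ v ∈ W, Real.log (H63.MA.nm v) / L < J := by
    obtain ⟨J, hJ⟩ := exists_nat_gt (∑ v ∈ W, Real.log (H63.MA.nm v) / L)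
    refine ⟨J, fun v hv => lt_of_le_of_lt ?_ hJ⟩
    exact Finset.single_le_sum (f := fun v => Real.log (H63.MA.nm v) / L)
      (fun v _ => div_nonneg (hlog0 v) hL.le) hv
  have hterm : ∀ v ∈ W, (H63.MA.nm v : ℝ) ^ (-(1 + 1 / L)) ≤
      (1 / L) * ∑ j ∈ Finset.range J, Real.exp (-(j : ℝ)) *
        (if Real.log (H63.MA.nm v) ≤ ((j : ℝ) + 1) * L then
          Real.log (H63.MA.nm v) / (H63.MA.nm v : ℝ) else 0) := by
    intro v hv
    rw [mrt_rpow K v hL]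
    have h1 : L ≤ Real.log (H63.MA.nm v) := Real.log_le_log hx0 (hW v hv).le
    set t := Real.log (H63.MA.nm v) / L with ht
    have ht0 : 0 ≤ t := div_nonneg (hlog0 v) hL.le
    have hj : ⌊t⌋₊ ∈ Finset.range J := by
      rw [Finset.mem_range, Nat.floor_lt ht0]
      exact hJ v hv
    have h2 : Real.log (H63.MA.nm v) ≤ (((⌊t⌋₊ : ℕ) : ℝ) + 1) * L := by
      have h3 := (Nat.lt_floor_add_one t).le
      rw [ht, div_le_iff₀ hL] at h3
      exact h3
    have h4 : Real.exp (-((⌊t⌋₊ : ℕ) : ℝ)) * (Real.log (H63.MA.nm v) / (H63.MA.nm v : ℝ)) ≤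
        ∑ j ∈ Finset.range J, Real.exp (-(j : ℝ)) *
        (if Real.log (H63.MA.nm v) ≤ ((j : ℝ) + 1) * L then
          Real.log (H63.MA.nm v) / (H63.MA.nm v : ℝ) else 0) := by
      have h5 := Finset.single_le_sum (f := fun j : ℕ => Real.exp (-(j : ℝ)) *
        (if Real.log (H63.MA.nm v) ≤ ((j : ℝ) + 1) * L then
          Real.log (H63.MA.nm v) / (H63.MA.nm v : ℝ) else 0)) (fun j _ => by
            refine mul_nonneg (Real.exp_pos _).le ?_
            split_ifs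
            · exact div_nonneg (hlog0 v) (hpos v).le
            · exact le_rfl) hj
      simp only [if_pos h2] at h5
      exact h5
    have h6 : Real.exp (-t) ≤ Real.exp (-((⌊t⌋₊ : ℕ) : ℝ)) :=
      Real.exp_le_exp.2 (neg_le_neg (Nat.floor_le ht0))
    calc (H63.MA.nm v : ℝ)⁻¹ * Real.exp (-t)
        ≤ (1 / L) * (Real.exp (-((⌊t⌋₊ : ℕ) : ℝ)) *
            (Real.log (H63.MA.nm v) / (H63.MA.nm v : ℝ))) := by
          have h7 : (H63.MA.nm v : ℝ)⁻¹ ≤ (1 / L) * (Real.log (H63.MA.nm v) / (H63.MA.nm v : ℝ)) := by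
            rw [one_div, ← mul_div_assoc, inv_mul_eq_div, inv_eq_one_div]
            refine div_le_div_of_nonneg_right ?_ (hpos v).le
            rwa [one_le_div hL]
          calc (H63.MA.nm v : ℝ)⁻¹ * Real.exp (-t)
              ≤ ((1 / L) * (Real.log (H63.MA.nm v) / (H63.MA.nm v : ℝ))) *
                  Real.exp (-((⌊t⌋₊ : ℕ) : ℝ)) :=
                mul_le_mul h7 h6 (Real.exp_pos _).le ((inv_pos.2 (hpos v)).le.trans h7)
            _ = _ := by ring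
      _ ≤ _ := mul_le_mul_of_nonneg_left h4 (by positivity)
  calc ∑ v ∈ W, (H63.MA.nm v : ℝ) ^ (-(1 + 1 / L))
      ≤ ∑ v ∈ W, (1 / L) * ∑ j ∈ Finset.range J, Real.exp (-(j : ℝ)) *
        (if Real.log (H63.MA.nm v) ≤ ((j : ℝ) + 1) * L then
          Real.log (H63.MA.nm v) / (H63.MA.nm v : ℝ) else 0) := Finset.sum_le_sum hterm
    _ = (1 / L) * ∑ j ∈ Finset.range J, Real.exp (-(j : ℝ)) * ∑ v ∈ W,
        (if Real.log (H63.MA.nm v) ≤ ((j : ℝ) + 1) * L then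
          Real.log (H63.MA.nm v) / (H63.MA.nm v : ℝ) else 0) := by
        rw [← Finset.mul_sum, Finset.sum_comm]
        simp only [Finset.mul_sum]
    _ ≤ (1 / L) * ∑ j ∈ Finset.range J, Real.exp (-(j : ℝ)) * (C * (((j : ℝ) + 1) * L)) := by
        refine mul_le_mul_of_nonneg_left (Finset.sum_le_sum fun j _ => ?_) (by positivity)
        refine mul_le_mul_of_nonneg_left ?_ (Real.exp_pos _).le
        rw [← Finset.sum_filter]
        have h8 : (1 : ℝ) ≤ (j : ℝ) + 1 := by linarith [(Nat.cast_nonneg j : (0 : ℝ) ≤ j)]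
        have h9 := hch (x ^ ((j : ℝ) + 1)) (by
          calc (2 : ℝ) ≤ x := by linarith
            _ = x ^ (1 : ℝ) := (Real.rpow_one x).symm
            _ ≤ _ := Real.rpow_le_rpow_of_exponent_le (by linarith) h8)
          (W.filter fun v => Real.log (H63.MA.nm v) ≤ ((j : ℝ) + 1) * L) (fun v hv => by
            rw [Finset.mem_filter] at hv
            rw [← Real.log_le_log_iff (hpos v) (Real.rpow_pos_of_pos hx0 _), Real.log_rpow hx0]
            exact hv.2)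
        rwa [Real.log_rpow hx0] at h9
    _ = C * ∑ j ∈ Finset.range J, ((j : ℝ) + 1) * Real.exp (-(j : ℝ)) := by
        rw [Finset.mul_sum, Finset.mul_sum]
        refine Finset.sum_congr rfl fun j _ => ?_
        field_simp
    _ ≤ _ := mul_le_mul_of_nonneg_left (mrt_geo J) hC.le

theorem mrt : ∃ C : ℝ, 0 < C ∧ ∀ x : ℝ, 3 ≤ x →
    |∑ᶠ P ∈ PrK K x, (ni P)⁻¹ - Real.log (Real.log x)| ≤ C := by
  classical
  obtain ⟨C₁, hC₁, hch⟩ := mrt_cheb K
  obtain ⟨C₂, hpz⟩ := H63.MA.pz_all K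
  have hr : Real.exp (-(1 / 2)) < 1 := by
    rw [Real.exp_lt_one_iff]
    norm_num
  have hT : 0 < 2 * (1 - Real.exp (-(1 / 2)))⁻¹ := by
    have : 0 < 1 - Real.exp (-(1 / 2)) := by linarith
    positivity
  refine ⟨|C₂| + C₁ + C₁ * (2 * (1 - Real.exp (-(1 / 2)))⁻¹), by positivity, fun x hx => ?_⟩
  have hx0 : 0 < x := by linarith
  have hL1 : 1 < Real.log x := by
    rw [Real.lt_log_iff_exp_lt hx0]
    exact lt_of_lt_of_le (Real.exp_one_lt_d9.trans (by norm_num)) hx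
  have hL : 0 < Real.log x := by linarith
  have hs1 : (1 : ℝ) < 1 + 1 / Real.log x := by
    have : 0 < 1 / Real.log x := by positivity
    linarith
  have hs2 : 1 + 1 / Real.log x ≤ 2 := by
    have : 1 / Real.log x ≤ 1 := by
      rw [div_le_one hL]
      exact hL1.le
    linarith
  have h1 := hpz (1 + 1 / Real.log x) hs1 hs2
  rw [show 1 / (1 + 1 / Real.log x - 1) = Real.log x by
    rw [add_sub_cancel_left, one_div_one_div]] at h1
  have hPZ : H63.MA.PZ (Set.univ : Set (H63.MA.Pl K)) (1 + 1 / Real.log x) =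
      ∑' v : H63.MA.Pl K, (H63.MA.nm v : ℝ) ^ (-(1 + 1 / Real.log x)) := by
    unfold H63.MA.PZ
    simp only [Set.indicator_univ]
  have hsum := H63.MA.pz_summable K hs1
  rw [hPZ] at h1
  rw [mrt_sum]
  have hpos : ∀ v : H63.MA.Pl K, (0 : ℝ) < H63.MA.nm v := fun v => by exact_mod_cast H38.TD.nv_pos v
  have hup : ∑ v ∈ (mrt_fin K x).toFinset, ((H63.MA.nm v : ℝ))⁻¹ ≤
      (∑' v : H63.MA.Pl K, (H63.MA.nm v : ℝ) ^ (-(1 + 1 / Real.log x))) + C₁ := by
    have h2 := hch x (by linarith) (mrt_fin K x).toFinset (fun v hv => by simpa using hv)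
    calc ∑ v ∈ (mrt_fin K x).toFinset, ((H63.MA.nm v : ℝ))⁻¹
        ≤ ∑ v ∈ (mrt_fin K x).toFinset, ((H63.MA.nm v : ℝ) ^ (-(1 + 1 / Real.log x)) +
            (Real.log (H63.MA.nm v) / (H63.MA.nm v : ℝ)) / Real.log x) := by
          refine Finset.sum_le_sum fun v _ => ?_
          rw [mrt_rpow K v hL]
          have h3 : -(Real.log (H63.MA.nm v) / Real.log x) + 1 ≤
              Real.exp (-(Real.log (H63.MA.nm v) / Real.log x)) := Real.add_one_le_exp _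
          have h4 : (0 : ℝ) < (H63.MA.nm v : ℝ)⁻¹ := inv_pos.2 (hpos v)
          have h5 : (Real.log (H63.MA.nm v) / (H63.MA.nm v : ℝ)) / Real.log x =
              (H63.MA.nm v : ℝ)⁻¹ * (Real.log (H63.MA.nm v) / Real.log x) := by
            rw [div_eq_mul_inv, div_eq_mul_inv, div_eq_mul_inv]
            ring
          rw [h5, ← mul_add]
          calc (H63.MA.nm v : ℝ)⁻¹ = (H63.MA.nm v : ℝ)⁻¹ * 1 := (mul_one _).symm
            _ ≤ _ := mul_le_mul_of_nonneg_left (by linarith) h4.le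
      _ = ∑ v ∈ (mrt_fin K x).toFinset, (H63.MA.nm v : ℝ) ^ (-(1 + 1 / Real.log x)) +
            (∑ v ∈ (mrt_fin K x).toFinset, Real.log (H63.MA.nm v) / (H63.MA.nm v : ℝ)) /
              Real.log x := by
          rw [Finset.sum_add_distrib, Finset.sum_div]
      _ ≤ _ := by
          refine add_le_add (hsum.sum_le_tsum _ fun v _ => Real.rpow_nonneg (hpos v).le _) ?_
          rw [div_le_iff₀ hL]
          exact h2
  have hlo : (∑' v : H63.MA.Pl K, (H63.MA.nm v : ℝ) ^ (-(1 + 1 / Real.log x))) ≤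
      ∑ v ∈ (mrt_fin K x).toFinset, ((H63.MA.nm v : ℝ))⁻¹ +
        C₁ * (2 * (1 - Real.exp (-(1 / 2)))⁻¹) := by
    refine hsum.tsum_le_of_sum_le fun s => ?_
    rw [← Finset.sum_filter_add_sum_filter_not s (fun v => (H63.MA.nm v : ℝ) ≤ x)]
    refine add_le_add ?_ (mrt_tail K hC₁ hch hx _ fun v hv => ?_)
    · calc ∑ v ∈ s.filter (fun v => (H63.MA.nm v : ℝ) ≤ x),
            (H63.MA.nm v : ℝ) ^ (-(1 + 1 / Real.log x))
          ≤ ∑ v ∈ s.filter (fun v => (H63.MA.nm v : ℝ) ≤ x), ((H63.MA.nm v : ℝ))⁻¹ := by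
            refine Finset.sum_le_sum fun v _ => ?_
            rw [← Real.rpow_neg_one]
            refine Real.rpow_le_rpow_of_exponent_le ?_ (by linarith)
            exact_mod_cast H38.TD.nv_pos v
        _ ≤ _ := by
            refine Finset.sum_le_sum_of_subset_of_nonneg ?_ fun v _ _ => (inv_pos.2 (hpos v)).le
            intro v hv
            rw [Finset.mem_filter] at hv
            simpa using hv.2
    · rw [Finset.mem_filter] at hv
      exact not_le.1 hv.2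
  have hC2 := abs_le.1 (h1.trans (le_abs_self C₂))
  rw [abs_le]
  constructor
  · linarith [hC2.1, hC₁.le]
  · have : 0 < C₁ * (2 * (1 - Real.exp (-(1 / 2)))⁻¹) := by positivity
    linarith [hC2.2]

end H88.WS
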