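import Pool.Agent.H88.WS.Ib
import Pool.Agent.H67.WA.Cnt
import Pool.Agent.H63.MA.PZb

/-!
# [H88 WS IDS] Sums over ideals (W1#, MP_b39724)

PROOF. `∑_{I ∈ G} ni(I)^(-a) ≤ C` for `a > 1` and every finite set `G` of nonzero ideals: the family `ni(I)^(-a)` over the nonzero ideals is summable. Either use
`H63.MA.ideal_summable` (file `Pool/Agent/H63/MA/LBd.lean` or its imports: `Summable fun I : Ideal (𝓞 K) => if I = ⊥ then 0 else (absNorm I) ^ (-s)` or similar),
and `Summable.sum_le_tsum`, or directly: `ideal_card K` (used in `H67/WA/Cnt.lean`, `ids`) gives `#{I : ni I ≤ x} ≤ C x`; the dyadic block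
`2^j ≤ ni I < 2^(j+1)` contributes at most `C 2^(j+1) 2^(-a j)`, geometric as `a > 1`.
-/

open scoped NumberField
open H88.A4 Pool.Agent.H67.WA

noncomputable section

namespace H88.WS

variable (K : Type) [Field K] [NumberField K]

theorem ids_conv (a : ℝ) (ha : 1 < a) : ∃ C : ℝ, 0 < C ∧ ∀ G : Finset (Ideal (𝓞 K)),
    (∀ I ∈ G, I ≠ ⊥) → ∑ I ∈ G, ni I ^ (-a) ≤ C := by
  classical
  have hs := H63.MA.ideal_summable K ha
  have hnn : ∀ I : Ideal (𝓞 K), (0 : ℝ) ≤ (if I = ⊥ then 0 else (Ideal.absNorm I : ℝ) ^ (-a)) := by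
    intro I
    split_ifs
    · exact le_refl 0
    · positivity
  refine ⟨(∑' I : Ideal (𝓞 K), if I = ⊥ then 0 else (Ideal.absNorm I : ℝ) ^ (-a)) + 1,
    add_pos_of_nonneg_of_pos (tsum_nonneg hnn) one_pos, fun G hG => ?_⟩
  have h1 : ∑ I ∈ G, ni I ^ (-a) = ∑ I ∈ G, if I = ⊥ then 0 else (Ideal.absNorm I : ℝ) ^ (-a) := by
    refine Finset.sum_congr rfl fun I hI => ?_
    rw [if_neg (hG I hI)]
    rfl
  rw [h1]
  exact (hs.sum_le_tsum G fun I _ => hnn I).trans (by linarith)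

end H88.WS
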