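import Pool.Agent.H88.WS.Fin
import Pool.Agent.H1.LC.LC2
import Pool.Agent.H1.LC.LC0
import Pool.Agent.H57.EZ.Main
import Pool.Agent.H77.PX.Avg
import Pool.Agent.H77.PX.Avc
import Pool.Agent.H86.WB.Sw
import Pool.Agent.H86.WB.Ol
import Pool.Agent.H86.WB.Exb

/-!
# (W1#): `CoreSharp K` from the case `D3 = 0` (MP_b39724)
-/

open scoped NumberField
open H88.A4 Pool.Agent.H67.WA

noncomputable section

namespace H88.WS

/-- the main case -/
theorem main2 (K : Type) [Field K] [NumberField K] : Main2Stmt K :=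
  main2_of K (H1.LC.loc2Stmt K) (H77.PX.avg K) (H77.PX.avc K) (H86.WB.sw K) (H86.WB.ola K)
    (H86.WB.olz K) (H86.WB.od K) (H86.WB.exb K)

/-- completions in the case `c1 = c2 = 0` -/
theorem com0 (K : Type) [Field K] [NumberField K] : Com0Stmt K := H51.CM.com0 K (H1.LC.loc0Stmt K)

open H38.ML H63.MA in
/-- `CoreSharp K` from the case `D3 = 0` -/
theorem core_sharp_deg (K : IntermediateField ℚ QBar) [NumberField K] (ζ : K)
    (hζ : IsPrimitiveRoot ζ 3) (hD : Deg2Stmt K) : H48.T3.CoreSharp K :=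
  core_sharp_of K ζ hζ
    (reduction K (redField K (Pool.Agent.H67.WA.mink K)) (Pool.Agent.H67.WA.block_red K))
    (all_of K (main2 K)) hD (H57.EZ.ez2 K) (Pool.Agent.H12.WM.eZeroAlg K)

end H88.WS
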