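import Pool.Agent.H88.WS.Ib

/-!
# [H88 WS GRD] Cubes in `(𝓞 K)^3` (W1#, MP_b39724)

`ix n b` (file `Ib`) is the vector of the quotients (floor) of the coordinates of `b` by `n`. `3 d` coordinates.

PROOF. `grd_dist`: if `ix n b = ix n b'` all coordinates of `b - b'` have absolute value `< n`, and
`x = ∑ (repr x i) ω_i` gives `‖φ x‖ ≤ ∑ |repr x i| ‖φ ω_i‖ ≤ n ∑_i ∑_ψ ‖ψ ω_i‖`; `C0` = that sum + 1.
`grd_cube`: `c0` = the point with the coordinates `n q_i` where `q = ix n b`:
`0 ≤ x - n q < n ↔ x / n = q` (`Int.ediv_emod_unique`, `Int.floor`-free: `Int.ediv_eq_iff_of_pos` or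
`Int.mul_ediv_le`..); coordinates of a difference are differences.
`grd_set`: for every `b` the set of the `b'` with `ix n b' = ix n b` is finite with exactly `n ^ (3 d)` elements:
image of `Fintype.piFinset (fun _ => range n ×ˢ range n ×ˢ range n)`-type sets of coordinates `n q_i + j_i` under the
linear equivalence `(repr)`; `card` of the index type is `d` (`Module.finrank_eq_card_chooseBasisIndex` and
`NumberField.RingOfIntegers.rank`). `grd_sum`: let `q` run over the indices of the points of `S`, `S'` = the union of the sets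
of `grd_set` over `b ∈ S` (these sets for different indices are disjoint). For `b ∈ S` average `h2` over the
`n ^ (3 d)` points of its cube `Q_b`: `W b ≤ c1 (n ^ (3 d))⁻¹ ∑_{b' ∈ Q_b} W' b'`. So
`∑_{b ∈ S} F b W b = ∑_q ∑_{b ∈ S, ix b = q} F b W b ≤ ∑_q (∑_{b ∈ S, ix b = q} F b) c1 (n ^ (3 d))⁻¹ ∑_{b' ∈ Q_q} W' b' ≤
c1 Φ (n ^ (3 d))⁻¹ ∑_{b' ∈ S'} W' b'` (`c1 W' b' ≥ W b ≥ 0` in the cubes used, so `c1 ∑ W' ≥ 0`).
-/

open scoped NumberField
open H88.A4 Pool.Agent.H67.WA

noncomputable section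

namespace H88.WS

variable (K : Type) [Field K] [NumberField K]

private theorem div_close (a b n : ℤ) (hn : 0 < n) (h : a / n = b / n) : |a - b| ≤ n := by
  have h1 := Int.mul_ediv_add_emod a n
  have h2 := Int.mul_ediv_add_emod b n
  have h3 := Int.emod_nonneg a hn.ne'
  have h4 := Int.emod_nonneg b hn.ne'
  have h5 := Int.emod_lt_of_pos a hn
  have h6 := Int.emod_lt_of_pos b hn
  rw [h] at h1
  rw [abs_le]
  constructor <;> linarith

private theorem div_iff (a q n : ℤ) (hn : 0 < n) :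
    a / n = q ↔ (0 ≤ a - n * q ∧ a - n * q < n) := by
  constructor
  · rintro rfl
    have h1 := Int.mul_ediv_add_emod a n
    have h3 := Int.emod_nonneg a hn.ne'
    have h5 := Int.emod_lt_of_pos a hn
    constructor <;> linarith
  · rintro ⟨h1, h2⟩
    exact ((Int.ediv_emod_unique (r := a - n * q) hn).2 ⟨by ring, h1, h2⟩).1

private theorem bd_of_repr (n : ℕ) (x : 𝓞 K)
    (hx : ∀ i, |(NumberField.RingOfIntegers.basis K).repr x i| ≤ (n : ℤ)) :
    Bd ((1 + ∑ i, ∑ ψ : K →+* ℂ, ‖ψ ((NumberField.RingOfIntegers.basis K i : 𝓞 K) : K)‖) * n)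
      x := by
  intro φ
  have h1 : (x : K) = ∑ i, ((NumberField.RingOfIntegers.basis K).repr x i : K) *
      ((NumberField.RingOfIntegers.basis K i : 𝓞 K) : K) := by
    have h0 := congrArg (algebraMap (𝓞 K) K) ((NumberField.RingOfIntegers.basis K).sum_repr x)
    rw [map_sum] at h0
    refine h0.symm.trans (Finset.sum_congr rfl fun i _ => ?_)
    rw [zsmul_eq_mul, map_mul, map_intCast]
  have h2 : φ (x : K) = ∑ i, ((NumberField.RingOfIntegers.basis K).repr x i : ℂ) *
      φ ((NumberField.RingOfIntegers.basis K i : 𝓞 K) : K) := by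
    rw [h1, map_sum]
    apply Finset.sum_congr rfl
    intro i _
    rw [map_mul, map_intCast]
  have h3 : ‖φ (x : K)‖ ≤ ∑ i, (n : ℝ) *
      ∑ ψ : K →+* ℂ, ‖ψ ((NumberField.RingOfIntegers.basis K i : 𝓞 K) : K)‖ := by
    rw [h2]
    refine (norm_sum_le _ _).trans (Finset.sum_le_sum fun i _ => ?_)
    rw [norm_mul]
    apply mul_le_mul
    · rw [Complex.norm_intCast]
      exact_mod_cast hx i
    · exact Finset.single_le_sum (f := fun ψ : K →+* ℂ =>
        ‖ψ ((NumberField.RingOfIntegers.basis K i : 𝓞 K) : K)‖)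
        (fun _ _ => norm_nonneg _) (Finset.mem_univ φ)
    · exact norm_nonneg _
    · exact Nat.cast_nonneg _
  rw [← Finset.mul_sum] at h3
  have h4 : (0 : ℝ) ≤ n := Nat.cast_nonneg _
  nlinarith

theorem grd_dist : ∃ C0 : ℝ, 1 ≤ C0 ∧ ∀ n : ℕ, 0 < n → ∀ b b' : T3 K, ix n b = ix n b' →
    T3.All (Bd (C0 * n)) (b - b') := by
  refine ⟨1 + ∑ i, ∑ ψ : K →+* ℂ, ‖ψ ((NumberField.RingOfIntegers.basis K i : 𝓞 K) : K)‖,
    ?_, ?_⟩
  · have : 0 ≤ ∑ i, ∑ ψ : K →+* ℂ, ‖ψ ((NumberField.RingOfIntegers.basis K i : 𝓞 K) : K)‖ :=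
      Finset.sum_nonneg fun _ _ => Finset.sum_nonneg fun _ _ => norm_nonneg _
    linarith
  · intro n hn b b' h
    have hn' : (0 : ℤ) < n := by exact_mod_cast hn
    refine ⟨bd_of_repr K n _ fun i => ?_, bd_of_repr K n _ fun i => ?_,
      bd_of_repr K n _ fun i => ?_⟩
    · have := congrArg Prod.fst (congrFun h i)
      rw [Prod.fst_sub, map_sub, Finsupp.sub_apply]
      exact div_close _ _ _ hn' this
    · have := congrArg (fun z => z.2.1) (congrFun h i)
      rw [Prod.snd_sub, Prod.fst_sub, map_sub, Finsupp.sub_apply]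
      exact div_close _ _ _ hn' this
    · have := congrArg (fun z => z.2.2) (congrFun h i)
      rw [Prod.snd_sub, Prod.snd_sub, map_sub, Finsupp.sub_apply]
      exact div_close _ _ _ hn' this

variable {K}

private theorem repr_symm (f : Module.Free.ChooseBasisIndex ℤ (𝓞 K) → ℤ)
    (i : Module.Free.ChooseBasisIndex ℤ (𝓞 K)) :
    (NumberField.RingOfIntegers.basis K).repr
      ((NumberField.RingOfIntegers.basis K).equivFun.symm f) i = f i :=
  congrFun ((NumberField.RingOfIntegers.basis K).equivFun.apply_symm_apply f) i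

theorem grd_cube (n : ℕ) (hn : 0 < n) (b : T3 K) :
    ∃ c0 : T3 K, ∀ b' : T3 K, ix n b' = ix n b ↔ b' ∈ cube n c0 := by
  have hn' : (0 : ℤ) < n := by exact_mod_cast hn
  refine ⟨((NumberField.RingOfIntegers.basis K).equivFun.symm (fun i => (n : ℤ) * (ix n b i).1),
    (NumberField.RingOfIntegers.basis K).equivFun.symm (fun i => (n : ℤ) * (ix n b i).2.1),
    (NumberField.RingOfIntegers.basis K).equivFun.symm (fun i => (n : ℤ) * (ix n b i).2.2)),
    fun b' => ?_⟩
  rw [funext_iff]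
  unfold cube
  rw [Set.mem_ofPred_eq]
  apply forall_congr'
  intro i
  rw [map_sub, map_sub, map_sub, Finsupp.sub_apply, Finsupp.sub_apply, Finsupp.sub_apply,
    repr_symm, repr_symm, repr_symm, ← div_iff _ _ _ hn', ← div_iff _ _ _ hn',
    ← div_iff _ _ _ hn', Prod.ext_iff, Prod.ext_iff]
  rfl

private def coE : T3 K ≃ (Module.Free.ChooseBasisIndex ℤ (𝓞 K) → ℤ × ℤ × ℤ) where
  toFun b := fun i => ((NumberField.RingOfIntegers.basis K).repr b.1 i,
    (NumberField.RingOfIntegers.basis K).repr b.2.1 i,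
    (NumberField.RingOfIntegers.basis K).repr b.2.2 i)
  invFun f := ((NumberField.RingOfIntegers.basis K).equivFun.symm (fun i => (f i).1),
    (NumberField.RingOfIntegers.basis K).equivFun.symm (fun i => (f i).2.1),
    (NumberField.RingOfIntegers.basis K).equivFun.symm (fun i => (f i).2.2))
  left_inv b := by
    refine Prod.ext ?_ (Prod.ext ?_ ?_)
    · exact (NumberField.RingOfIntegers.basis K).equivFun.symm_apply_apply b.1
    · exact (NumberField.RingOfIntegers.basis K).equivFun.symm_apply_apply b.2.1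
    · exact (NumberField.RingOfIntegers.basis K).equivFun.symm_apply_apply b.2.2
  right_inv f := by
    funext i
    simp only [repr_symm]

theorem grd_set (n : ℕ) (hn : 0 < n) (b : T3 K) : ∃ Q : Finset (T3 K),
    (∀ b', b' ∈ Q ↔ ix n b' = ix n b) ∧ Q.card = n ^ (3 * Module.finrank ℚ K) := by
  classical
  have hn' : (0 : ℤ) < n := by exact_mod_cast hn
  refine ⟨(Fintype.piFinset fun i : Module.Free.ChooseBasisIndex ℤ (𝓞 K) =>
    Finset.Ico ((n : ℤ) * (ix n b i).1) ((n : ℤ) * (ix n b i).1 + n) ×ˢ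
    (Finset.Ico ((n : ℤ) * (ix n b i).2.1) ((n : ℤ) * (ix n b i).2.1 + n) ×ˢ
    Finset.Ico ((n : ℤ) * (ix n b i).2.2) ((n : ℤ) * (ix n b i).2.2 + n))).map
      (coE (K := K)).symm.toEmbedding, fun b' => ?_, ?_⟩
  · rw [Finset.mem_map_equiv, Equiv.symm_symm, Fintype.mem_piFinset, funext_iff]
    apply forall_congr'
    intro i
    rw [Finset.mem_product, Finset.mem_product, Finset.mem_Ico, Finset.mem_Ico, Finset.mem_Ico]
    have e1 := div_iff ((NumberField.RingOfIntegers.basis K).repr b'.1 i) (ix n b i).1 n hn'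
    have e2 := div_iff ((NumberField.RingOfIntegers.basis K).repr b'.2.1 i) (ix n b i).2.1 n hn'
    have e3 := div_iff ((NumberField.RingOfIntegers.basis K).repr b'.2.2 i) (ix n b i).2.2 n hn'
    have e4 : ix n b' i = ix n b i ↔
        ((NumberField.RingOfIntegers.basis K).repr b'.1 i / (n : ℤ) = (ix n b i).1 ∧
        (NumberField.RingOfIntegers.basis K).repr b'.2.1 i / (n : ℤ) = (ix n b i).2.1 ∧
        (NumberField.RingOfIntegers.basis K).repr b'.2.2 i / (n : ℤ) = (ix n b i).2.2) := by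
      rw [Prod.ext_iff, Prod.ext_iff]
      rfl
    rw [e4, e1, e2, e3]
    have f1 : (coE b' i).1 = (NumberField.RingOfIntegers.basis K).repr b'.1 i := rfl
    have f2 : (coE b' i).2.1 = (NumberField.RingOfIntegers.basis K).repr b'.2.1 i := rfl
    have f3 : (coE b' i).2.2 = (NumberField.RingOfIntegers.basis K).repr b'.2.2 i := rfl
    rw [f1, f2, f3]
    constructor
    · rintro ⟨⟨h1, h2⟩, ⟨h3, h4⟩, h5, h6⟩
      exact ⟨⟨by linarith, by linarith⟩, ⟨by linarith, by linarith⟩, by linarith, by linarith⟩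
    · rintro ⟨⟨h1, h2⟩, ⟨h3, h4⟩, h5, h6⟩
      exact ⟨⟨by linarith, by linarith⟩, ⟨by linarith, by linarith⟩, by linarith, by linarith⟩
  · rw [Finset.card_map, Fintype.card_piFinset]
    have h1 : ∀ i : Module.Free.ChooseBasisIndex ℤ (𝓞 K),
        (Finset.Ico ((n : ℤ) * (ix n b i).1) ((n : ℤ) * (ix n b i).1 + n) ×ˢ
        (Finset.Ico ((n : ℤ) * (ix n b i).2.1) ((n : ℤ) * (ix n b i).2.1 + n) ×ˢ
        Finset.Ico ((n : ℤ) * (ix n b i).2.2) ((n : ℤ) * (ix n b i).2.2 + n))).card =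
        n ^ 3 := by
      intro i
      rw [Finset.card_product, Finset.card_product, Int.card_Ico, Int.card_Ico, Int.card_Ico,
        add_sub_cancel_left, add_sub_cancel_left, add_sub_cancel_left, Int.toNat_natCast]
      ring
    rw [Finset.prod_congr rfl fun i _ => h1 i, Finset.prod_const, ← pow_mul, Finset.card_univ,
      ← Module.finrank_eq_card_chooseBasisIndex, NumberField.RingOfIntegers.rank]

open Classical in
theorem grd_sum (n : ℕ) (hn : 0 < n) (S : Finset (T3 K)) (F W W' : T3 K → ℝ) (Φ c1 : ℝ)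
    (hF : ∀ b ∈ S, 0 ≤ F b) (hW : ∀ b ∈ S, 0 ≤ W b)
    (h1 : ∀ b0 ∈ S, ∑ b ∈ S.filter (fun b => ix n b = ix n b0), F b ≤ Φ)
    (h2 : ∀ b ∈ S, ∀ b', ix n b' = ix n b → W b ≤ c1 * W' b') :
    ∃ S' : Finset (T3 K), (∀ b' ∈ S', ∃ b ∈ S, ix n b' = ix n b) ∧
      ∑ b ∈ S, F b * W b ≤
        c1 * Φ * ((n : ℝ) ^ (3 * Module.finrank ℚ K))⁻¹ * ∑ b' ∈ S', W' b' := by
  choose Q hQ hc using fun b : T3 K => grd_set n hn b
  have hN : (0 : ℝ) < (n : ℝ) ^ (3 * Module.finrank ℚ K) := by positivity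
  refine ⟨S.biUnion Q, fun b' hb' => ?_, ?_⟩
  · obtain ⟨b, hb, h⟩ := Finset.mem_biUnion.1 hb'
    exact ⟨b, hb, (hQ b b').1 h⟩
  · have key : ∀ b ∈ S, W b ≤ ((n : ℝ) ^ (3 * Module.finrank ℚ K))⁻¹ *
        ∑ b' ∈ Q b, c1 * W' b' := by
      intro b hb
      have h3 : ∑ b' ∈ Q b, W b ≤ ∑ b' ∈ Q b, c1 * W' b' :=
        Finset.sum_le_sum fun b' hb' => h2 b hb b' ((hQ b b').1 hb')
      rw [Finset.sum_const, hc, nsmul_eq_mul, Nat.cast_pow] at h3
      rw [inv_mul_eq_div, le_div_iff₀ hN]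
      linarith
    have e1 : ∀ b ∈ S, ∑ b' ∈ Q b, c1 * W' b' =
        ∑ b' ∈ S.biUnion Q, if ix n b' = ix n b then c1 * W' b' else 0 := by
      intro b hb
      rw [← Finset.sum_filter]
      apply Finset.sum_congr _ fun _ _ => rfl
      ext b'
      rw [Finset.mem_filter, Finset.mem_biUnion]
      constructor
      · intro h
        exact ⟨⟨b, hb, h⟩, (hQ b b').1 h⟩
      · rintro ⟨_, h⟩
        exact (hQ b b').2 h
    calc ∑ b ∈ S, F b * W b
        ≤ ∑ b ∈ S, F b * (((n : ℝ) ^ (3 * Module.finrank ℚ K))⁻¹ *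
          ∑ b' ∈ S.biUnion Q, if ix n b' = ix n b then c1 * W' b' else 0) := by
          apply Finset.sum_le_sum
          intro b hb
          apply mul_le_mul_of_nonneg_left _ (hF b hb)
          rw [← e1 b hb]
          exact key b hb
      _ = ((n : ℝ) ^ (3 * Module.finrank ℚ K))⁻¹ * ∑ b' ∈ S.biUnion Q,
          (∑ b ∈ S.filter (fun b => ix n b = ix n b'), F b) * (c1 * W' b') := by
          rw [Finset.mul_sum]
          have h5 : ∀ b ∈ S, F b * (((n : ℝ) ^ (3 * Module.finrank ℚ K))⁻¹ *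
              ∑ b' ∈ S.biUnion Q, if ix n b' = ix n b then c1 * W' b' else 0) =
              ∑ b' ∈ S.biUnion Q, ((n : ℝ) ^ (3 * Module.finrank ℚ K))⁻¹ *
                ((if ix n b = ix n b' then F b else 0) * (c1 * W' b')) := by
            intro b _
            rw [Finset.mul_sum, Finset.mul_sum]
            apply Finset.sum_congr rfl
            intro b' _
            by_cases h6 : ix n b' = ix n b
            · rw [if_pos h6, if_pos h6.symm]
              ring
            · rw [if_neg h6, if_neg fun h => h6 h.symm]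
              ring
          rw [Finset.sum_congr rfl h5, Finset.sum_comm]
          apply Finset.sum_congr rfl
          intro b' _
          rw [← Finset.mul_sum, ← Finset.sum_mul, Finset.sum_filter]
      _ ≤ ((n : ℝ) ^ (3 * Module.finrank ℚ K))⁻¹ * ∑ b' ∈ S.biUnion Q, Φ * (c1 * W' b') := by
          apply mul_le_mul_of_nonneg_left _ (inv_nonneg.2 hN.le)
          apply Finset.sum_le_sum
          intro b' hb'
          obtain ⟨b, hb, h⟩ := Finset.mem_biUnion.1 hb'
          have h6 := (hQ b b').1 h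
          have h7 : 0 ≤ c1 * W' b' := (hW b hb).trans (h2 b hb b' h6)
          apply mul_le_mul_of_nonneg_right _ h7
          rw [h6]
          exact h1 b hb
      _ = c1 * Φ * ((n : ℝ) ^ (3 * Module.finrank ℚ K))⁻¹ * ∑ b' ∈ S.biUnion Q, W' b' := by
          rw [← Finset.mul_sum, ← Finset.mul_sum]
          ring

end H88.WS
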