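import Pool.Agent.H88.WS.Fcb

/-!
# [H88 WS LOS] `LosStmt` from `CntStmt` (W1#, MP_b39724)

PROOF. Let `M, C, A, ε` be given; `m` from `CntStmt`. (1) For one block `β` (`Main`, `All`): the number `n(β)` of the `(u, v)` with
`(u, v, β) ∈ S` is, by the first bound of `CntStmt`, at most
`C1 Fc m D3 h E L^d (ni h Wt (3/4) s b) (ni (cn c) Wt (3/4) t c)`, `b = tb β`, `c = tc β`, `d = [K : ℚ]`, `L = log (2 + s)`.
`ni h ≤ ni (cn b)`: all entries of `b` are in `h`, so `cn b ≤ h` (`cn_le`), `cn b ≠ ⊥` (`D1 ≠ 0`, `cn_ne`), `ni_le_of_le`.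
`Fc m D3 h E ≤ C2 nz(E)^ε'` (`fc_le`), and `nz E ≤ (4 C^4 s t)^(2 d)`-type bound: by `Sz`, `|D1| ≤ 2 C^2 s^2 (ρ1 ρ2)^2`, .., `(ρ1 ρ2)^2 = ρ1 (ρ1 ρ2^2) ≤ C^2`,
so `|E|_φ ≤ 20 C^8 (s t)^2 ≤ 20 C^8 s^4`, `nz E ≤ (20 C^8)^d s^(4 d)`. With `ε' = ε / (8 d)`: `Fc ≤ C3 s^(ε/2)` (`s ≥ 1/C`).
`L^d ≤ C4 s^(ε/2)` for `s ≥ 1/C` (`Real.log_le_rpow_div`, `2 + s ≤ (2 C + 1) s`).
So `n(β) ≤ C5 s^ε (ni (cn b) Wt (3/4) s b) (ni (cn c) Wt (3/4) t c)`.
(2) `S.card = ∑_β n(β)` over the blocks occurring (`Finset.card_eq_sum_card_image` or fiberwise over `x ↦ x.2.2`; the fibre over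
`β` is in bijection with the set of its `(u, v)`). The map `β ↦ (tb β, tc β)` is injective (`tbc_inj`) into `T1 ×ˢ T2`, all terms are
`≥ 0`, so the sum is at most `∑_{(b, c) ∈ T1 ×ˢ T2} C5 s^ε (..)(..)` = the claim (`Finset.sum_mul_sum`).
-/

open scoped NumberField
open H88.A4 Pool.Agent.H67.WA

noncomputable section

namespace H88.WS

section

variable {K : Type} [Field K] [NumberField K]

private theorem los_wt (θ s : ℝ) (b : T3 K) : 0 ≤ Wt θ s b :=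
  Finset.prod_nonneg fun φ _ => Real.rpow_nonneg (div_nonneg (sz_nonneg φ _) (sq_nonneg s)) _

private theorem los_D {x y z : 𝓞 K} {φ : K →+* ℂ} {a b c : ℝ} (h1 : sz φ x ≤ a) (h2 : sz φ y ≤ b) (h3 : sz φ z ≤ c) :
    sz φ (x * y - z ^ 2) ≤ a * b + c ^ 2 := by
  refine (sz_sub φ _ _).trans ?_
  rw [sz_mul, sz_pow]
  have ha : 0 ≤ a := (sz_nonneg φ x).trans h1
  have h4 := mul_le_mul h1 h2 (sz_nonneg φ y) ha
  have h5 := pow_le_pow_left₀ (sz_nonneg φ z) h3 2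
  linarith

private theorem los_E {C s t ρ1 ρ2 : ℝ} (hC : 1 ≤ C) (h : Rg C s t) (hρ : Rho C ρ1 ρ2) {β : Blk (𝓞 K)}
    (hS : Sz C s t ρ1 ρ2 β) (φ : K →+* ℂ) : sz φ β.E ≤ 20 * C ^ 8 * s ^ 4 := by
  obtain ⟨hρ0, hρ12, hρC, hρρ⟩ := hρ
  obtain ⟨ht, hts⟩ := h
  have hC0 : 0 < C := by linarith
  have ht0 : 0 < t := by
    by_contra hcon
    push Not at hcon
    nlinarith
  have hs0 : 0 < s := by linarith
  have hρ20 : 0 < ρ2 := by linarith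
  have hP : (ρ1 * ρ2) ^ 2 ≤ C ^ 2 := by
    have h1 : (ρ1 * ρ2) ^ 2 = ρ1 * (ρ1 * ρ2 ^ 2) := by ring
    have h2 : C ^ 2 = C * C := by ring
    rw [h1, h2]
    exact mul_le_mul hρC hρρ (by positivity) hC0.le
  have h1 : sz φ β.b1 ≤ C * s * ρ1 ^ 2 := hS.sb1 φ
  have h2 : sz φ β.b2 ≤ C * s * (ρ1 * ρ2) := hS.sb2 φ
  have h3 : sz φ β.b3 ≤ C * s * ρ2 ^ 2 := hS.sb3 φ
  have k1 : sz φ β.c1 ≤ C * t * ρ1 ^ 2 := hS.sc1 φ
  have k2 : sz φ β.c2 ≤ C * t * (ρ1 * ρ2) := hS.sc2 φ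
  have k3 : sz φ β.c3 ≤ C * t * ρ2 ^ 2 := hS.sc3 φ
  have e1 : sz φ β.D1 ≤ 2 * C ^ 4 * s ^ 2 := by
    refine (los_D h1 h3 h2).trans ?_
    have : C * s * ρ1 ^ 2 * (C * s * ρ2 ^ 2) + (C * s * (ρ1 * ρ2)) ^ 2 = 2 * C ^ 2 * s ^ 2 * (ρ1 * ρ2) ^ 2 := by ring
    rw [this]
    calc 2 * C ^ 2 * s ^ 2 * (ρ1 * ρ2) ^ 2 ≤ 2 * C ^ 2 * s ^ 2 * C ^ 2 := mul_le_mul_of_nonneg_left hP (by positivity)
      _ = 2 * C ^ 4 * s ^ 2 := by ring
  have e3 : sz φ β.D3 ≤ 2 * C ^ 4 * t ^ 2 := by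
    refine (los_D k1 k3 k2).trans ?_
    have : C * t * ρ1 ^ 2 * (C * t * ρ2 ^ 2) + (C * t * (ρ1 * ρ2)) ^ 2 = 2 * C ^ 2 * t ^ 2 * (ρ1 * ρ2) ^ 2 := by ring
    rw [this]
    calc 2 * C ^ 2 * t ^ 2 * (ρ1 * ρ2) ^ 2 ≤ 2 * C ^ 2 * t ^ 2 * C ^ 2 := mul_le_mul_of_nonneg_left hP (by positivity)
      _ = 2 * C ^ 4 * t ^ 2 := by ring
  have e2 : sz φ β.D2 ≤ 4 * C ^ 4 * (s * t) := by
    unfold Blk.D2
    refine (sz_sub φ _ _).trans ((add_le_add (sz_add φ _ _) le_rfl).trans ?_)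
    rw [sz_mul, sz_mul, sz_mul, sz_mul, sz_two]
    have m1 : sz φ β.b1 * sz φ β.c3 ≤ C * s * ρ1 ^ 2 * (C * t * ρ2 ^ 2) :=
      mul_le_mul h1 k3 (sz_nonneg φ _) (by positivity)
    have m2 : sz φ β.b3 * sz φ β.c1 ≤ C * s * ρ2 ^ 2 * (C * t * ρ1 ^ 2) :=
      mul_le_mul h3 k1 (sz_nonneg φ _) (by positivity)
    have m3 : sz φ β.b2 * sz φ β.c2 ≤ C * s * (ρ1 * ρ2) * (C * t * (ρ1 * ρ2)) :=
      mul_le_mul h2 k2 (sz_nonneg φ _) (by positivity)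
    have m4 : 4 * C ^ 2 * (s * t) * (ρ1 * ρ2) ^ 2 ≤ 4 * C ^ 2 * (s * t) * C ^ 2 :=
      mul_le_mul_of_nonneg_left hP (by positivity)
    nlinarith
  have e4 : sz φ β.E ≤ 20 * C ^ 8 * (s * t) ^ 2 := by
    refine (los_D e1 e3 e2).trans (le_of_eq ?_)
    ring
  refine e4.trans ?_
  have h5 : (s * t) ^ 2 ≤ s ^ 4 := by
    have : s * t ≤ s * s := mul_le_mul_of_nonneg_left hts hs0.le
    calc (s * t) ^ 2 ≤ (s * s) ^ 2 := pow_le_pow_left₀ (by positivity) this 2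
      _ = s ^ 4 := by ring
  exact mul_le_mul_of_nonneg_left h5 (by positivity)

end

variable (K : Type) [Field K] [NumberField K]

/-- one block -/
private theorem los_one (h : CntStmt K) (M : ℕ) (hM : M ≠ 0) (C : ℝ) (hC : 1 ≤ C) (A : ℕ) (ε : ℝ) (hε : 0 < ε) :
    ∃ C' : ℝ, 0 < C' ∧ ∀ s t ρ1 ρ2 : ℝ, Rg C s t → Rho C ρ1 ρ2 → ∀ β : Blk (𝓞 K), Main C s t ρ1 ρ2 β →
      β.All (Bd (Hp C A s)) → ∀ S : Finset (𝓞 K × 𝓞 K),
        (∀ x ∈ S, Adm M C s t x.1 x.2 ∧ Rep (Hp C A s) β x.1 x.2) →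
        (S.card : ℝ) ≤ C' * s ^ ε * ((ni (cn (tb β)) * Wt (3 / 4) s (tb β)) *
          (ni (cn (tc β)) * Wt (3 / 4) t (tc β))) := by
  obtain ⟨m, -, -, h1⟩ := h M hM
  obtain ⟨C1, hC1, h2⟩ := h1 C hC A
  have hd : (0 : ℝ) < Module.finrank ℚ K := by exact_mod_cast Module.finrank_pos
  obtain ⟨C2, hC2, h3⟩ := fc_le K (ε / (8 * Module.finrank ℚ K)) (by positivity)
  have hC0 : 0 < C := by linarith
  obtain ⟨a, ha⟩ : ∃ a : ℝ, a = ε / (2 * Module.finrank ℚ K) := ⟨_, rfl⟩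
  have ha0 : 0 < a := by
    rw [ha]
    positivity
  obtain ⟨C3, hC3⟩ : ∃ C3 : ℝ, C3 = (20 * C ^ 8) ^ (ε / 8) := ⟨_, rfl⟩
  have hC30 : 0 < C3 := by
    rw [hC3]
    positivity
  obtain ⟨C4, hC4⟩ : ∃ C4 : ℝ, C4 = (2 * C + 1) ^ (ε / 2) / a ^ Module.finrank ℚ K := ⟨_, rfl⟩
  have hC40 : 0 < C4 := by
    rw [hC4]
    positivity
  refine ⟨C1 * (C2 * C3) * C4, by positivity, ?_⟩
  intro s t ρ1 ρ2 hRg hRho β hβ hAll S hS
  have ht0 : 0 < t := by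
    by_contra hcon
    push Not at hcon
    have := hRg.1
    nlinarith
  have hs0 : 0 < s := lt_of_lt_of_le ht0 hRg.2
  have hs1 : 1 ≤ C * s := hRg.1.trans (mul_le_mul_of_nonneg_left hRg.2 hC0.le)
  obtain ⟨hSz, -, hD1, hD3, hE⟩ := id hβ
  obtain ⟨g, hg, -, hgb, h4⟩ := h2 s t ρ1 ρ2 hRg hRho β hβ hAll
  have h5 := (h4 S hS).1
  -- the ideal
  have hb0 : dt (tb β) ≠ 0 := by rw [dt_tb]; exact hD1
  have hc0 : dt (tc β) ≠ 0 := by rw [dt_tc]; exact hD3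
  have hni : ni g ≤ ni (cn (tb β)) := ni_le_of_le (cn_le hgb.1 hgb.2.1 hgb.2.2) (cn_ne hb0)
  -- the number of classes
  have hF : (Fc m β.D3 g β.E : ℝ) ≤ C2 * C3 * s ^ (ε / 2) := by
    refine (h3 m β.D3 g β.E hE).trans ?_
    have h6 : nz β.E ≤ (20 * C ^ 8 * s ^ 4) ^ Module.finrank ℚ K := by
      have := nz_le_vol (R := fun _ : K →+* ℂ => 20 * C ^ 8 * s ^ 4) (los_E hC hRg hRho hSz)
      rwa [vol_const] at this
    have h7 : nz β.E ^ (ε / (8 * Module.finrank ℚ K)) ≤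
        ((20 * C ^ 8 * s ^ 4) ^ Module.finrank ℚ K) ^ (ε / (8 * Module.finrank ℚ K)) :=
      Real.rpow_le_rpow (nz_nonneg _) h6 (by positivity)
    have h8 : ((20 * C ^ 8 * s ^ 4) ^ Module.finrank ℚ K) ^ (ε / (8 * Module.finrank ℚ K)) =
        C3 * s ^ (ε / 2) := by
      rw [← Real.rpow_natCast, ← Real.rpow_mul (by positivity), Real.mul_rpow (by positivity) (by positivity),
        ← Real.rpow_natCast s 4, ← Real.rpow_mul hs0.le, hC3]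
      congr 2
      · field_simp
      · push_cast
        field_simp
        ring
    rw [h8] at h7
    calc C2 * nz β.E ^ (ε / (8 * Module.finrank ℚ K)) ≤ C2 * (C3 * s ^ (ε / 2)) :=
          mul_le_mul_of_nonneg_left h7 hC2.le
      _ = C2 * C3 * s ^ (ε / 2) := by ring
  -- the logarithm
  have hL : Real.log (2 + s) ^ Module.finrank ℚ K ≤ C4 * s ^ (ε / 2) := by
    have h6 : Real.log (2 + s) ≤ (2 + s) ^ a / a := Real.log_le_rpow_div (by linarith) ha0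
    have h7 : 0 ≤ Real.log (2 + s) := Real.log_nonneg (by linarith)
    have h8 := pow_le_pow_left₀ h7 h6 (Module.finrank ℚ K)
    refine h8.trans ?_
    have h9 : (2 + s) ≤ (2 * C + 1) * s := by nlinarith
    rw [div_pow, ← Real.rpow_natCast ((2 + s) ^ a), ← Real.rpow_mul (by linarith)]
    have h10 : a * (Module.finrank ℚ K : ℝ) = ε / 2 := by
      rw [ha]
      field_simp
    rw [h10, hC4]
    have h11 : (2 + s) ^ (ε / 2) ≤ (2 * C + 1) ^ (ε / 2) * s ^ (ε / 2) := by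
      rw [← Real.mul_rpow (by positivity) hs0.le]
      exact Real.rpow_le_rpow (by linarith) h9 (by positivity)
    rw [div_mul_eq_mul_div]
    exact div_le_div_of_nonneg_right h11 (by positivity)
  have hsε : s ^ (ε / 2) * s ^ (ε / 2) = s ^ ε := by
    rw [← Real.rpow_add hs0]
    congr 1
    ring
  have hW1 := los_wt (3 / 4) s (tb β)
  have hW2 := los_wt (3 / 4) t (tc β)
  have hn := ni_nonneg (cn (tc β))
  have hn1 := ni_nonneg (cn (tb β))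
  have hLn : 0 ≤ Real.log (2 + s) ^ Module.finrank ℚ K := pow_nonneg (Real.log_nonneg (by linarith)) _
  refine h5.trans ?_
  have hsp : 0 < s ^ (ε / 2) := Real.rpow_pos_of_pos hs0 _
  calc C1 * (Fc m β.D3 g β.E : ℝ) * Real.log (2 + s) ^ Module.finrank ℚ K * (ni g * Wt (3 / 4) s (tb β)) *
        (ni (cn (tc β)) * Wt (3 / 4) t (tc β))
      ≤ C1 * (C2 * C3 * s ^ (ε / 2)) * (C4 * s ^ (ε / 2)) * (ni (cn (tb β)) * Wt (3 / 4) s (tb β)) *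
        (ni (cn (tc β)) * Wt (3 / 4) t (tc β)) := by
        refine mul_le_mul_of_nonneg_right ?_ (mul_nonneg hn hW2)
        refine mul_le_mul ?_ (mul_le_mul_of_nonneg_right hni hW1) (mul_nonneg (ni_nonneg _) hW1) (by positivity)
        refine mul_le_mul ?_ hL hLn (by positivity)
        exact mul_le_mul_of_nonneg_left hF hC1.le
    _ = C1 * (C2 * C3) * C4 * s ^ ε * ((ni (cn (tb β)) * Wt (3 / 4) s (tb β)) *
          (ni (cn (tc β)) * Wt (3 / 4) t (tc β))) := by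
        rw [← hsε]
        ring

theorem los_of (h : CntStmt K) : LosStmt K := by
  classical
  intro M hM C hC A ε hε
  obtain ⟨C', hC', h1⟩ := los_one K h M hM C hC A ε hε
  refine ⟨C', hC', ?_⟩
  intro s t ρ1 ρ2 hRg hRho S T1 T2 hS
  have hC0 : 0 < C := by linarith
  have ht0 : 0 < t := by
    by_contra hcon
    push Not at hcon
    have := hRg.1
    nlinarith
  have hs0 : 0 < s := lt_of_lt_of_le ht0 hRg.2
  have hsε : 0 < s ^ ε := Real.rpow_pos_of_pos hs0 _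
  have hmaps : ∀ x ∈ S, (tb x.2.2, tc x.2.2) ∈ T1 ×ˢ T2 := fun x hx =>
    Finset.mem_product.2 ⟨(hS x hx).2.1, (hS x hx).2.2⟩
  have h2 : (S.card : ℝ) = ∑ p ∈ T1 ×ˢ T2, ((S.filter fun x => (tb x.2.2, tc x.2.2) = p).card : ℝ) := by
    have := Finset.card_eq_sum_card_fiberwise (s := S) (f := fun x : 𝓞 K × 𝓞 K × Blk (𝓞 K) => (tb x.2.2, tc x.2.2))
      (t := T1 ×ˢ T2) (fun x hx => hmaps x (Finset.mem_coe.1 hx))
    exact_mod_cast this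
  have h3 : ∀ p ∈ T1 ×ˢ T2, ((S.filter fun x => (tb x.2.2, tc x.2.2) = p).card : ℝ) ≤
      C' * s ^ ε * ((ni (cn p.1) * Wt (3 / 4) s p.1) * (ni (cn p.2) * Wt (3 / 4) t p.2)) := by
    intro p _
    rcases (S.filter fun x => (tb x.2.2, tc x.2.2) = p).eq_empty_or_nonempty with h4 | ⟨x0, hx0⟩
    · rw [h4]
      have h5 := ni_nonneg (cn p.1)
      have h6 := ni_nonneg (cn p.2)
      have h7 := los_wt (3 / 4) s p.1
      have h8 := los_wt (3 / 4) t p.2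
      simp only [Finset.card_empty, Nat.cast_zero]
      positivity
    · obtain ⟨hx0S, hx0p⟩ := Finset.mem_filter.1 hx0
      have hp1 : p.1 = tb x0.2.2 := by rw [← hx0p]
      have hp2 : p.2 = tc x0.2.2 := by rw [← hx0p]
      have hsame : ∀ x ∈ S.filter (fun x => (tb x.2.2, tc x.2.2) = p), x.2.2 = x0.2.2 := by
        intro x hx
        have h5 := (Finset.mem_filter.1 hx).2
        apply tbc_inj
        · rw [← hp1, ← h5]
        · rw [← hp2, ← h5]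
      have hinj : Set.InjOn (fun x : 𝓞 K × 𝓞 K × Blk (𝓞 K) => (x.1, x.2.1))
          (S.filter (fun x => (tb x.2.2, tc x.2.2) = p) : Set (𝓞 K × 𝓞 K × Blk (𝓞 K))) := by
        intro x hx y hy hxy
        have h5 := hsame x (Finset.mem_coe.1 hx)
        have h6 := hsame y (Finset.mem_coe.1 hy)
        have h7 := Prod.mk.inj hxy
        exact Prod.ext h7.1 (Prod.ext h7.2 (h5.trans h6.symm))
      have h5 := Finset.card_image_of_injOn hinj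
      rw [← h5, hp1, hp2]
      obtain ⟨⟨-, hMain, hAll, -⟩, -⟩ := hS x0 hx0S
      refine h1 s t ρ1 ρ2 hRg hRho x0.2.2 hMain hAll _ ?_
      intro y hy
      obtain ⟨x, hx, rfl⟩ := Finset.mem_image.1 hy
      obtain ⟨⟨hAdm, -, -, hRep⟩, -⟩ := hS x (Finset.mem_filter.1 hx).1
      rw [hsame x hx] at hRep
      exact ⟨hAdm, hRep⟩
  rw [h2]
  refine (Finset.sum_le_sum h3).trans (le_of_eq ?_)
  rw [← Finset.mul_sum, Finset.sum_product, mul_assoc (C' * s ^ ε), Finset.sum_mul_sum]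

end H88.WS
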