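import Pool.Agent.H88.WS.Ib

/-!
# [H88 WS RHO] `AllStmt`: the main case for all shapes, from `Main2Stmt` (W1#, MP_b39724)

PROOF. Copy `H88/A4/CRho.lean` (theorem `main_all`; its private lemmas `crho_emb`, `crho_dy`, `crho_main`, `crho_rng` may be copied). `M, C, A` given; `Main2Stmt` with `8 C`: constants `C0, κ`.
For `x ∈ S` choose `(i, j)` with `Rho (8 C) (2^i) (2^j)` and `Main (8 C) s t (2^i) (2^j)` (dyadic scales of `ρ1, ρ2`). Subsets of `S` satisfy `Inj`. So every class `(i, j)` has at most `C0 (s t)^(3d) (2^i)^κ L^(5/4)` elements (resp. `L^(7/8)`), `L = log (2 + s)`.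
It remains to bound `∑ (2^i)^κ` over the occurring `(i, j)` (a finite set of pairs) by a constant depending on `C, κ`: here `2^i ≤ 8 C` and `2^i ≤ 2^j`, `2^i (2^j)^2 ≤ 8 C`. Let `a = log2 (8 C)`: `i ≤ a`, `i ≤ j`, `2 j ≤ a - i`, so `|i| ≤ a - i + a ..`; precisely
`|j| ≤ a + |i|` and `(2^i)^κ ≤ (8 C)^κ·2^κ.. 2^(-κ |i|)`-type: for `i ≤ 0` it is `2^(-κ |i|)`, for `0 < i ≤ a` it is `≤ (8 C)^(2 κ) 2^(-κ |i|)`. So `(2^i)^κ ≤ (8 C)^(2κ) 2^(-κ |i|) ≤ (8 C)^(2 κ) 2^(κ a) 2^(-κ |i|/2) 2^(-κ |j|/2)`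
(`|i| ≥ (|i| + |j| - a)/2`). With `r = 2^(-κ/2) < 1` the sum over any finite set of pairs of integers is at most `C'' (∑_{i ∈ ℤ} r^|i|)^2 ≤ C'' (2/(1 - r))^2` (the finite set is contained in a square `Icc (-N) N ×ˢ Icc (-N) N`,
`∑_{i ∈ Icc (-N) N} r^|i| ≤ 2/(1 - r)` by the geometric series).
-/

open scoped NumberField
open H88.A4 Pool.Agent.H67.WA

noncomputable section

namespace H88.WS

variable (K : Type) [Field K] [NumberField K]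

/-- the main case for all shapes -/
def AllStmt : Prop :=
  ∀ M : ℕ, M ≠ 0 → ∀ C : ℝ, 1 ≤ C → ∀ A : ℕ, ∃ C' : ℝ, 0 < C' ∧
    ∀ s t : ℝ, Rg C s t → ∀ S : Finset (𝓞 K × 𝓞 K × Blk (𝓞 K)), Inj S →
      (∀ x ∈ S, Adm M C s t x.1 x.2.1 ∧ (∃ ρ1 ρ2 : ℝ, Rho C ρ1 ρ2 ∧ Main C s t ρ1 ρ2 x.2.2) ∧
        x.2.2.All (Bd (Hp C A s)) ∧ Rep (Hp C A s) x.2.2 x.1 x.2.1) →
      (S.card : ℝ) ≤ C' * (s * t) ^ (3 * Module.finrank ℚ K) * Real.log (2 + s) ^ (5 / 4 : ℝ) ∧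
      (Real.exp (Real.sqrt (Real.log (2 + s))) ≤ t →
        (S.card : ℝ) ≤ C' * (s * t) ^ (3 * Module.finrank ℚ K) *
          Real.log (2 + s) ^ (7 / 8 : ℝ))

private lemma crho_bd {H H' : ℝ} (h : H ≤ H') {x : 𝓞 K} (hx : Bd H x) : Bd H' x :=
  fun φ => (hx φ).trans h

/-- dyadic scale of a positive number -/
private lemma crho_dy (ρ : ℝ) (h : 0 < ρ) : ∃ i : ℤ, ρ ≤ (2 : ℝ) ^ i ∧ (2 : ℝ) ^ i < 2 * ρ := by
  obtain ⟨n, hn1, hn2⟩ := exists_mem_Ioc_zpow (x := ρ) (y := 2) h (by norm_num)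
  refine ⟨n + 1, hn2, ?_⟩
  rw [zpow_add₀ (by norm_num), zpow_one]
  linarith

private lemma crho_main {C s t ρ1 ρ2 : ℝ} (hC : 1 ≤ C) (hs : 0 < s) (ht : 0 < t) (hR : Rho C ρ1 ρ2)
    (β : Blk (𝓞 K)) (hM : Main C s t ρ1 ρ2 β) (i j : ℤ) (hi1 : ρ1 ≤ (2 : ℝ) ^ i)
    (hi2 : (2 : ℝ) ^ i < 2 * ρ1) (hj1 : ρ2 ≤ (2 : ℝ) ^ j) (hj2 : (2 : ℝ) ^ j < 2 * ρ2) :
    Rho (8 * C) ((2 : ℝ) ^ i) ((2 : ℝ) ^ j) ∧ Main (8 * C) s t ((2 : ℝ) ^ i) ((2 : ℝ) ^ j) β := by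
  obtain ⟨h0, h12, h1C, h122⟩ := hR
  have hρ2 : 0 < ρ2 := h0.trans_le h12
  have hij : i ≤ j := by
    have h1 : (2 : ℝ) ^ i < 2 * (2 : ℝ) ^ j := by linarith
    have h2 : (2 : ℝ) ^ i < (2 : ℝ) ^ (j + 1) := by
      rw [zpow_add₀ (by norm_num), zpow_one]
      linarith
    have h3 := (zpow_lt_zpow_iff_right₀ (by norm_num : (1 : ℝ) < 2)).1 h2
    omega
  have p1 : 0 < (2 : ℝ) ^ i := by positivity
  have p2 : 0 < (2 : ℝ) ^ j := by positivity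
  constructor
  · refine ⟨p1, (zpow_le_zpow_iff_right₀ (by norm_num : (1 : ℝ) < 2)).2 hij, by linarith, ?_⟩
    calc (2 : ℝ) ^ i * ((2 : ℝ) ^ j) ^ 2 ≤ (2 * ρ1) * (2 * ρ2) ^ 2 := by gcongr
      _ = 8 * (ρ1 * ρ2 ^ 2) := by ring
      _ ≤ 8 * C := by linarith
  · obtain ⟨hS, hr⟩ := hM
    have q1 : ρ1 ^ 2 ≤ ((2 : ℝ) ^ i) ^ 2 := by gcongr
    have q2 : ρ1 * ρ2 ≤ (2 : ℝ) ^ i * (2 : ℝ) ^ j := by gcongr
    have q3 : ρ2 ^ 2 ≤ ((2 : ℝ) ^ j) ^ 2 := by gcongr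
    have c1 : C * s ≤ 8 * C * s := by nlinarith
    have c2 : C * t ≤ 8 * C * t := by nlinarith
    refine ⟨⟨crho_bd K ?_ hS.sb1, crho_bd K ?_ hS.sb2, crho_bd K ?_ hS.sb3, crho_bd K ?_ hS.sc1,
      crho_bd K ?_ hS.sc2, crho_bd K ?_ hS.sc3⟩, hr⟩ <;>
      exact mul_le_mul (by assumption) (by assumption) (by positivity) (by positivity)

private lemma crho_sum (κ : ℝ) (hκ : 0 < κ) (C : ℝ) : ∃ Z : ℝ, 0 < Z ∧
    ∀ T : Finset (ℤ × ℤ), (∀ b ∈ T, Rho C ((2 : ℝ) ^ b.1) ((2 : ℝ) ^ b.2)) →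
    ∑ b ∈ T, ((2 : ℝ) ^ b.1) ^ κ ≤ Z := by
  obtain ⟨R, hR⟩ : ∃ R : ℝ, R = (2 : ℝ) ^ (-(κ / 2)) := ⟨_, rfl⟩
  have hR0 : 0 < R := by
    rw [hR]
    positivity
  have hR1 : R < 1 := by
    rw [hR]
    exact Real.rpow_lt_one_of_one_lt_of_neg (by norm_num) (by linarith)
  obtain ⟨a, ha⟩ := pow_unbounded_of_one_lt C (by norm_num : (1 : ℝ) < 2)
  have hg := summable_geometric_of_lt_one hR0.le hR1
  have hs1 : Summable (fun i : ℤ => R ^ i.natAbs) := by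
    refine Summable.of_nat_of_neg ?_ ?_
    · simpa only [Int.natAbs_natCast] using hg
    · simpa only [Int.natAbs_neg, Int.natAbs_natCast] using hg
  have hs2 : Summable (fun b : ℤ × ℤ => R ^ b.1.natAbs * R ^ b.2.natAbs) :=
    hs1.mul_of_nonneg hs1 (fun i => pow_nonneg hR0.le _) (fun i => pow_nonneg hR0.le _)
  have hn : ∀ b : ℤ × ℤ, 0 ≤ R ^ b.1.natAbs * R ^ b.2.natAbs := fun b =>
    mul_nonneg (pow_nonneg hR0.le _) (pow_nonneg hR0.le _)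
  have h2a : 0 < (2 : ℝ) ^ (2 * (a : ℝ) * κ) := by positivity
  refine ⟨(2 : ℝ) ^ (2 * (a : ℝ) * κ) *
    (1 + ∑' b : ℤ × ℤ, R ^ b.1.natAbs * R ^ b.2.natAbs), ?_, fun T hT => ?_⟩
  · have h1 : 0 ≤ ∑' b : ℤ × ℤ, R ^ b.1.natAbs * R ^ b.2.natAbs := tsum_nonneg hn
    refine mul_pos h2a ?_
    linarith
  have h1 : ∀ b ∈ T, ((2 : ℝ) ^ b.1) ^ κ ≤
      (2 : ℝ) ^ (2 * (a : ℝ) * κ) * (R ^ b.1.natAbs * R ^ b.2.natAbs) := by
    rintro ⟨i, j⟩ hb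
    obtain ⟨-, h2, h3, h4⟩ := hT _ hb
    simp only at h2 h3 h4 ⊢
    have one2 : (1 : ℝ) < 2 := by norm_num
    have e2 : (2 : ℝ) ^ (a : ℤ) = (2 : ℝ) ^ a := zpow_natCast _ _
    have h5 : i ≤ j := (zpow_le_zpow_iff_right₀ one2).1 h2
    have h6 : i ≤ a := (zpow_le_zpow_iff_right₀ one2).1 (by
      rw [e2]
      exact h3.trans ha.le)
    have h7 : i + j * 2 ≤ a := by
      refine (zpow_le_zpow_iff_right₀ one2).1 ?_
      rw [e2, zpow_add₀ (by norm_num), zpow_mul, zpow_ofNat]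
      exact h4.trans ha.le
    have h8 : 2 * i + (i.natAbs : ℤ) + (j.natAbs : ℤ) ≤ 4 * a := by omega
    have h9 : 2 * (i : ℝ) + ((i.natAbs : ℤ) : ℝ) + ((j.natAbs : ℤ) : ℝ) ≤ 4 * a := by
      exact_mod_cast h8
    rw [Int.cast_natCast, Int.cast_natCast] at h9
    have h10 := mul_nonneg hκ.le (sub_nonneg.2 h9)
    rw [← Real.rpow_intCast, ← Real.rpow_mul (by norm_num), ← Real.rpow_natCast R,
      ← Real.rpow_natCast R, hR, ← Real.rpow_mul (by norm_num), ← Real.rpow_mul (by norm_num),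
      ← Real.rpow_add (by norm_num), ← Real.rpow_add (by norm_num)]
    refine Real.rpow_le_rpow_of_exponent_le (by norm_num) ?_
    nlinarith
  calc ∑ b ∈ T, ((2 : ℝ) ^ b.1) ^ κ ≤
      ∑ b ∈ T, (2 : ℝ) ^ (2 * (a : ℝ) * κ) * (R ^ b.1.natAbs * R ^ b.2.natAbs) :=
        Finset.sum_le_sum h1
    _ = (2 : ℝ) ^ (2 * (a : ℝ) * κ) * ∑ b ∈ T, (R ^ b.1.natAbs * R ^ b.2.natAbs) :=
        (Finset.mul_sum _ _ _).symm
    _ ≤ _ := by
        refine mul_le_mul_of_nonneg_left ?_ h2a.le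
        have h2 := hs2.sum_le_tsum T (fun b _ => hn b)
        linarith

theorem all_of (h : Main2Stmt K) : AllStmt K := by
  classical
  intro M hM C hC A
  have hC0 : 0 < C := by linarith
  obtain ⟨C0, κ, hC0', hκ, hmain⟩ := h M hM (8 * C) (by linarith) A
  obtain ⟨Z, hZ, hsumZ⟩ := crho_sum κ hκ (8 * C)
  refine ⟨C0 * Z, by positivity, fun s t hR S hI hS => ?_⟩
  obtain ⟨hR1, hR2⟩ := hR
  have ht : 0 < t := by
    by_contra h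
    push Not at h
    nlinarith
  have hs : 0 < s := by linarith
  have hst : 0 < s * t := mul_pos hs ht
  have hL : 0 ≤ Real.log (2 + s) := Real.log_nonneg (by linarith)
  have hcls : ∀ x ∈ S, ∃ ij : ℤ × ℤ, Rho (8 * C) ((2 : ℝ) ^ ij.1) ((2 : ℝ) ^ ij.2) ∧
      Main (8 * C) s t ((2 : ℝ) ^ ij.1) ((2 : ℝ) ^ ij.2) x.2.2 := by
    intro x hx
    obtain ⟨-, ⟨ρ1, ρ2, hρ, hM⟩, -, -⟩ := hS x hx
    obtain ⟨i, hi1, hi2⟩ := crho_dy ρ1 hρ.1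
    obtain ⟨j, hj1, hj2⟩ := crho_dy ρ2 (hρ.1.trans_le hρ.2.1)
    exact ⟨(i, j), crho_main K hC hs ht hρ x.2.2 hM i j hi1 hi2 hj1 hj2⟩
  choose! f hf2 hf3 using hcls
  obtain ⟨T, hT⟩ : ∃ T : Finset (ℤ × ℤ), T = S.image f := ⟨_, rfl⟩
  have hrho : ∀ b ∈ T, Rho (8 * C) ((2 : ℝ) ^ b.1) ((2 : ℝ) ^ b.2) := by
    intro b hb
    rw [hT] at hb
    obtain ⟨x, hx, rfl⟩ := Finset.mem_image.1 hb
    exact hf2 x hx
  have hsum : (S.card : ℝ) = ∑ b ∈ T, ((S.filter fun x => f x = b).card : ℝ) := by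
    rw [Finset.card_eq_sum_card_fiberwise (f := f) (t := T)
      (fun x hx => by rw [hT]; exact Finset.mem_image_of_mem f hx)]
    push_cast
    rfl
  have hone : ∀ b ∈ T, ((S.filter fun x => f x = b).card : ℝ) ≤
      C0 * (s * t) ^ (3 * Module.finrank ℚ K) * ((2 : ℝ) ^ b.1) ^ κ *
        Real.log (2 + s) ^ (5 / 4 : ℝ) ∧
      (Real.exp (Real.sqrt (Real.log (2 + s))) ≤ t → ((S.filter fun x => f x = b).card : ℝ) ≤
        C0 * (s * t) ^ (3 * Module.finrank ℚ K) * ((2 : ℝ) ^ b.1) ^ κ *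
        Real.log (2 + s) ^ (7 / 8 : ℝ)) := by
    intro b hb
    refine hmain s t ((2 : ℝ) ^ b.1) ((2 : ℝ) ^ b.2) ⟨by linarith, hR2⟩ (hrho b hb) _ ?_
      fun x hx => ?_
    · intro x hx y hy
      exact hI x (Finset.mem_filter.1 hx).1 y (Finset.mem_filter.1 hy).1
    rw [Finset.mem_filter] at hx
    obtain ⟨hA, -, hAll, hRep⟩ := hS x hx.1
    have hMn := hf3 x hx.1
    rw [hx.2] at hMn
    have hH : Hp C A s ≤ Hp (8 * C) A s := by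
      unfold Hp
      gcongr
      linarith
    refine ⟨⟨hA.u0, hA.v0, fun φ => (hA.ule φ).trans ?_, fun φ => (hA.uge φ).trans ?_,
      fun φ => (hA.vle φ).trans ?_, fun φ => (hA.vge φ).trans ?_, hA.squ, hA.sqv, hA.cop⟩, hMn, ?_, ?_⟩
    · gcongr
      linarith
    · gcongr
      linarith
    · gcongr
      linarith
    · gcongr
      linarith
    · obtain ⟨g1, g2, g3, g4, g5, g6⟩ := hAll
      exact ⟨crho_bd K hH g1, crho_bd K hH g2, crho_bd K hH g3, crho_bd K hH g4, crho_bd K hH g5,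
        crho_bd K hH g6⟩
    · obtain ⟨π, r, r', ⟨g1, g2, g3, g4⟩, hsol⟩ := hRep
      exact ⟨π, r, r', ⟨crho_bd K hH g1, crho_bd K hH g2, crho_bd K hH g3, crho_bd K hH g4⟩, hsol⟩
  have hfin : ∀ q : ℝ, 0 ≤ q → (∀ b ∈ T, ((S.filter fun x => f x = b).card : ℝ) ≤
      C0 * (s * t) ^ (3 * Module.finrank ℚ K) * ((2 : ℝ) ^ b.1) ^ κ * q) →
      (S.card : ℝ) ≤ C0 * Z * (s * t) ^ (3 * Module.finrank ℚ K) * q := by
    intro q hq hb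
    rw [hsum]
    calc ∑ b ∈ T, ((S.filter fun x => f x = b).card : ℝ) ≤
        ∑ b ∈ T, C0 * (s * t) ^ (3 * Module.finrank ℚ K) * ((2 : ℝ) ^ b.1) ^ κ * q :=
          Finset.sum_le_sum hb
      _ = C0 * (s * t) ^ (3 * Module.finrank ℚ K) * q * ∑ b ∈ T, ((2 : ℝ) ^ b.1) ^ κ := by
          rw [Finset.mul_sum]
          refine Finset.sum_congr rfl fun b _ => ?_
          ring
      _ ≤ C0 * (s * t) ^ (3 * Module.finrank ℚ K) * q * Z :=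
          mul_le_mul_of_nonneg_left (hsumZ T hrho) (by positivity)
      _ = _ := by ring
  exact ⟨hfin _ (Real.rpow_nonneg hL _) (fun b hb => (hone b hb).1),
    fun ht2 => hfin _ (Real.rpow_nonneg hL _) (fun b hb => (hone b hb).2 ht2)⟩

end H88.WS
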