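import Pool.Agent.H88.WS.Ib

/-!
# [H88 WS BD] `Bd1Stmt`, `Bd2Stmt` from `LosStmt`, `CaStmt`, `OlAStmt`, `OlZStmt`, `OdStmt` (W1#, MP_b39724)

Notation: `d = [K : ℚ]`, `θ = 3/4` (`1 + 2 θ = 5/2`, `3 - 2 θ = 3/2`). `Sz` gives `Bx C s ρ1 ρ2 (tb β)`, `Bx C t ρ1 ρ2 (tc β)`. `ρ1 ≤ C`, `ρ2^2 ≤ C/ρ1 ≤ C s^(1/200)`. `ρ1 ρ2 ≤ C`.
PROOF of `bd1`. `κ0` from `OdStmt` (`θ = 3/4`), `κ = min κ0 (1/8) / 2`, `ε = κ/8`. `LosStmt` (`ε`) with `T1`, `T2` the images of `S`. The `b`-sum: (Z) `b1 = 0`: `OlZStmt` (constant `≥ C`; `ρ2 ≤ C9 s` by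
`ρ2^2 ≤ C s^(1/200)`, `s ≥ 1`): `≤ C1 s^ε (s^(2d) + s^(5d/2) ρ2^(2d)) ≤ C2 s^(ε + 5d/2 + d/200) ≤ C2 s^(3d - 1/4 ..)` (`d ≥ 1`: `5d/2 + d/200 ≤ 3d - 2/5`). (D) `b1 ≠ 0`, `¬ Ndg`: `|dt b|_φ < s^(2 - 1/50)` for some `φ` or
`ni (cn b) > s^(d/50)`; `OdStmt` (`s^(-1/100) ≤ s^(-1/200) ≤ ρ1`): `≤ C3 s^(3d - κ0)`. So the `b`-sum is `≤ C4 s^(3d - 2κ + ε)`. The `c`-sum by `CaStmt` (size `t`): `≤ C5 t^ε t^(3d) (ρ2/ρ1)^d`, `t^ε ≤ C6 s^ε` (`1/C ≤ t ≤ s`; `s ≥ 1`).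
Product: `s^(3ε - 2κ) ≤ s^(-κ)`.
PROOF of `bd2`. `b`-sum by `CaStmt`: `≤ C1 s^ε s^(3d) (ρ2/ρ1)^d`. `c`-sum over the `c` with `s^(d/10) < ni (cn c)`: `ni (cn c)^2 ≤ nz (dt c) ≤ (2 C^4)^d t^(2d)` (`ni_cn_sq`), so `s^(1/10) ≤ C2 t`. If `t < 1` then `s ≤ C3` and `CaStmt`
is enough (all `s`-powers are bounded; `(ρ2/ρ1)^d ≤ C4` as `ρ1 ≥ s^(-1/200)`, `ρ2 ≤ C4`). Let `t ≥ 1`. CLAIM: `c`-sum `≤ C5 t^(3d - κ1)` with `κ1 > 0` depending on `C` only: (Z) `c1 = 0`: `OlZStmt` (`ρ2 ≤ C9 t`: from `c2 ≠ 0`, `1 ≤ C t ρ1 ρ2`, `ρ1 ρ2^2 ≤ C`):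
`≤ C6 t^ε' (t^(2d) + t^(5d/2) ρ2^(2d))`, `ρ2^(2d) ≤ C7 s^(d/200) ≤ C8 t^(d/20)`: exponent `≤ 3d - 9d/20 + ε'`. (A) `c1 ≠ 0` and `ρ1 < t^(-1/200)`: `OlAStmt` (`1 ≤ C t ρ1^2`, hence `ρ2 ≤ C9 t`): `≤ C6 t^ε' (t^(3d) (ρ1 ρ2)^(3d/2) + t^(5d/2) ρ1^(2d))`,
`t^(-1/2) ≤ C' ρ1`, so `≤ C7 t^(3d + ε') (ρ1 ρ2)^(3d/2) ≤ C8 t^(3d + ε') ρ1^(3d/4)` (`(ρ1 ρ2)^2 ≤ C ρ1`) `≤ C8 t^(3d + ε' - 3d/800)`. (D) `c1 ≠ 0`, `ρ1 ≥ t^(-1/200)`: `ni (cn c) > s^(d/10) ≥ t^(d/50)`, so `OdStmt` (`s := t`): `≤ C9 t^(3d - κ0)`.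
Then `t^(-κ1) ≤ C10 s^(-κ1/10)`, `κ = κ1/20`, `ε ≤ κ/4`.
-/

open scoped NumberField
open H88.A4 Pool.Agent.H67.WA

noncomputable section

namespace H88.WS

section aux

variable {K : Type} [Field K] [NumberField K]

private theorem bdx_bd {A B : ℝ} (h : A ≤ B) {x : 𝓞 K} (hx : Bd A x) : Bd B x :=
  fun φ => (hx φ).trans h

private theorem bdx_bx {C C9 s ρ1 ρ2 : ℝ} (hC : C ≤ C9) (hs : 0 ≤ s) (h1 : 0 ≤ ρ1) (h2 : 0 ≤ ρ2)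
    {b : T3 K} (hb : Bx C s ρ1 ρ2 b) : Bx C9 s ρ1 ρ2 b := by
  refine ⟨bdx_bd ?_ hb.1, bdx_bd ?_ hb.2.1, bdx_bd ?_ hb.2.2⟩ <;> gcongr

/-- a nonzero integer is at least `1` at some place -/
private theorem bdx_one {R : ℝ} {x : 𝓞 K} (hx : x ≠ 0) (h : Bd R x) : 1 ≤ R := by
  have h1 := one_le_nz hx
  have h2 : nz x ≤ vol (fun _ : K →+* ℂ => R) := nz_le_vol fun φ => h φ
  rw [vol_const] at h2
  have hR : 0 ≤ R := by
    obtain ⟨φ⟩ : Nonempty (K →+* ℂ) := inferInstance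
    exact (norm_nonneg _).trans (h φ)
  by_contra hlt
  push Not at hlt
  have h3 : R ^ Module.finrank ℚ K < 1 := pow_lt_one₀ hR hlt Module.finrank_pos.ne'
  linarith

private theorem bdx_wt (θ t : ℝ) (c : T3 K) : 0 ≤ Wt θ t c :=
  Finset.prod_nonneg fun φ _ => Real.rpow_nonneg (div_nonneg (sz_nonneg _ _) (sq_nonneg _)) _

/-- the content is not large -/
private theorem bdx_cn {C t ρ1 ρ2 : ℝ} (hC : 1 ≤ C) (ht : 0 < t) (hρ : H88.A4.Rho C ρ1 ρ2) {c : T3 K}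
    (hb : Bx C t ρ1 ρ2 c) (hc : dt c ≠ 0) : ni (cn c) ≤ (2 * C ^ 2 * t) ^ Module.finrank ℚ K := by
  obtain ⟨h1, h2, h3, h4⟩ := hρ
  have hC0 : 0 < C := by linarith
  have h2' : 0 < ρ2 := lt_of_lt_of_le h1 h2
  have hp : (ρ1 * ρ2) ^ 2 ≤ C ^ 2 := by
    calc (ρ1 * ρ2) ^ 2 = ρ1 * (ρ1 * ρ2 ^ 2) := by ring
      _ ≤ C * C := mul_le_mul h3 h4 (by positivity) hC0.le
      _ = C ^ 2 := by ring
  have h5 : ∀ φ : K →+* ℂ, sz φ (dt c) ≤ (2 * C ^ 2 * t) ^ 2 := by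
    intro φ
    have a1 : sz φ c.1 ≤ C * t * ρ1 ^ 2 := hb.1 φ
    have a2 : sz φ c.2.1 ≤ C * t * (ρ1 * ρ2) := hb.2.1 φ
    have a3 : sz φ c.2.2 ≤ C * t * ρ2 ^ 2 := hb.2.2 φ
    calc sz φ (dt c) ≤ sz φ (c.1 * c.2.2) + sz φ (c.2.1 ^ 2) := sz_sub φ _ _
      _ = sz φ c.1 * sz φ c.2.2 + sz φ c.2.1 ^ 2 := by rw [sz_mul, sz_pow]
      _ ≤ (C * t * ρ1 ^ 2) * (C * t * ρ2 ^ 2) + (C * t * (ρ1 * ρ2)) ^ 2 := by
          refine add_le_add (mul_le_mul a1 a3 (sz_nonneg _ _) (by positivity)) ?_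
          exact pow_le_pow_left₀ (sz_nonneg _ _) a2 2
      _ = 2 * (C * t) ^ 2 * (ρ1 * ρ2) ^ 2 := by ring
      _ ≤ 2 * (C * t) ^ 2 * C ^ 2 := by gcongr
      _ ≤ 4 * (C * t) ^ 2 * C ^ 2 := by
          have : 0 ≤ (C * t) ^ 2 * C ^ 2 := by positivity
          linarith
      _ = (2 * C ^ 2 * t) ^ 2 := by ring
  have h6 : ni (cn c) ^ 2 ≤ ((2 * C ^ 2 * t) ^ Module.finrank ℚ K) ^ 2 := by
    refine (ni_cn_sq hc).trans ((nz_le_vol h5).trans (le_of_eq ?_))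
    rw [vol_const, ← pow_mul, ← pow_mul, mul_comm 2 (Module.finrank ℚ K)]
  exact le_of_pow_le_pow_left₀ two_ne_zero (by positivity) h6

/-- the box of `b` -/
private theorem bdx_tb {C s t ρ1 ρ2 : ℝ} {β : Blk (𝓞 K)} (h : Sz C s t ρ1 ρ2 β) :
    Bx C s ρ1 ρ2 (tb β) := ⟨h.sb1, h.sb2, h.sb3⟩

/-- the box of `c` -/
private theorem bdx_tc {C s t ρ1 ρ2 : ℝ} {β : Blk (𝓞 K)} (h : Sz C s t ρ1 ρ2 β) :
    Bx C t ρ1 ρ2 (tc β) := ⟨h.sc1, h.sc2, h.sc3⟩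

end aux

/-- the logarithms of the sizes -/
private structure Lh (d Sg T R1 R2 L : ℝ) : Prop where
  hd : 1 ≤ d
  hL : 0 ≤ L
  hS : 0 ≤ Sg
  hT : 0 ≤ L + T
  h12 : R1 ≤ R2
  h1 : R1 ≤ L
  h2 : R1 + 2 * R2 ≤ L
  h3 : -(1 / 200) * Sg ≤ R1

private theorem bdx_1a {d Sg T R1 R2 L κ ε : ℝ} (h : Lh d Sg T R1 R2 L) (hκ : 2 * κ ≤ 1 / 8) :
    ε * Sg + 2 * d * Sg ≤ d * L + ((3 * d - 2 * κ) * Sg + ε * Sg) := by
  obtain ⟨hd, hL, hS, hT, h12, h1, h2, h3⟩ := h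
  have a1 : 0 ≤ (d - 2 * κ) * Sg := mul_nonneg (by linarith) hS
  have a4 : 0 ≤ d * L := mul_nonneg (by linarith) hL
  nlinarith

private theorem bdx_1b {d Sg T R1 R2 L κ ε : ℝ} (h : Lh d Sg T R1 R2 L) (hκ : 2 * κ ≤ 1 / 8) :
    ε * Sg + (5 / 2 * d * Sg + 2 * d * R2) ≤ d * L + ((3 * d - 2 * κ) * Sg + ε * Sg) := by
  obtain ⟨hd, hL, hS, hT, h12, h1, h2, h3⟩ := h
  have a1 : 0 ≤ (99 / 200 * d - 2 * κ) * Sg := mul_nonneg (by linarith) hS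
  have a2 : 0 ≤ d * (L + Sg / 200 - 2 * R2) := mul_nonneg (by linarith) (by linarith)
  nlinarith

private theorem bdx_1c {d Sg T R1 R2 L κ ε κ0 : ℝ} (h : Lh d Sg T R1 R2 L) (hκ : 2 * κ ≤ κ0) (hε : 0 ≤ ε) :
    (3 * d - κ0) * Sg ≤ d * L + ((3 * d - 2 * κ) * Sg + ε * Sg) := by
  obtain ⟨hd, hL, hS, hT, h12, h1, h2, h3⟩ := h
  have a1 : 0 ≤ (κ0 - 2 * κ) * Sg := mul_nonneg (by linarith) hS
  have a2 : 0 ≤ ε * Sg := mul_nonneg hε hS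
  have a4 : 0 ≤ d * L := mul_nonneg (by linarith) hL
  nlinarith

private theorem bdx_2z1 {d Sg T R1 R2 L κ : ℝ} (h : Lh d Sg T R1 R2 L) (hST : Sg ≤ 10 * (L + T)) (hκ0 : 0 ≤ κ)
    (hκ : κ ≤ 1 / 40000) : κ * T + 2 * d * T ≤ 5 * d * L + (3 * d * T - 2 * κ * Sg) := by
  obtain ⟨hd, hL, hS, hT, h12, h1, h2, h3⟩ := h
  have a1 : 0 ≤ (d - 21 * κ) * (L + T) := mul_nonneg (by linarith) hT
  have a2 : 0 ≤ κ * (10 * (L + T) - Sg) := mul_nonneg hκ0 (by linarith)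
  have a4 : 0 ≤ d * L := mul_nonneg (by linarith) hL
  have a5 : 0 ≤ κ * L := mul_nonneg hκ0 hL
  nlinarith

private theorem bdx_2z2 {d Sg T R1 R2 L κ : ℝ} (h : Lh d Sg T R1 R2 L) (hST : Sg ≤ 10 * (L + T)) (hκ0 : 0 ≤ κ)
    (hκ : κ ≤ 1 / 40000) :
    κ * T + (5 / 2 * d * T + 2 * d * R2) ≤ 5 * d * L + (3 * d * T - 2 * κ * Sg) := by
  obtain ⟨hd, hL, hS, hT, h12, h1, h2, h3⟩ := h
  have a1 : 0 ≤ (9 / 20 * d - 21 * κ) * (L + T) := mul_nonneg (by linarith) hT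
  have a2 : 0 ≤ κ * (10 * (L + T) - Sg) := mul_nonneg hκ0 (by linarith)
  have a3 : 0 ≤ d * (L + Sg / 200 - 2 * R2) := mul_nonneg (by linarith) (by linarith)
  have a6 : 0 ≤ d * (10 * (L + T) - Sg) := mul_nonneg (by linarith) (by linarith)
  have a4 : 0 ≤ d * L := mul_nonneg (by linarith) hL
  have a5 : 0 ≤ κ * L := mul_nonneg hκ0 hL
  nlinarith

private theorem bdx_2a1 {d Sg T R1 R2 L κ : ℝ} (h : Lh d Sg T R1 R2 L) (hST : Sg ≤ 10 * (L + T)) (hκ0 : 0 ≤ κ)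
    (hκ : κ ≤ 1 / 40000) (hc : T < 0 ∨ R1 ≤ -(1 / 200) * T) :
    κ * T + (3 * d * T + 3 / 2 * d * (R1 + R2)) ≤ 5 * d * L + (3 * d * T - 2 * κ * Sg) := by
  obtain ⟨hd, hL, hS, hT, h12, h1, h2, h3⟩ := h
  have a2 : 0 ≤ κ * (10 * (L + T) - Sg) := mul_nonneg hκ0 (by linarith)
  have a3 : 0 ≤ d * (L - R1 - 2 * R2) := mul_nonneg (by linarith) (by linarith)
  have a4 : 0 ≤ d * L := mul_nonneg (by linarith) hL
  have a5 : 0 ≤ κ * L := mul_nonneg hκ0 hL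
  have a7 : 0 ≤ (d - 40 * κ) * L := mul_nonneg (by linarith) hL
  by_cases hT0 : T < 0
  · have a6 : 0 ≤ κ * (-T) := mul_nonneg hκ0 (by linarith)
    have a8 : 0 ≤ d * (L - R1) := mul_nonneg (by linarith) (by linarith)
    nlinarith
  · have hT1 : 0 ≤ T := not_lt.1 hT0
    have hc' : R1 ≤ -(1 / 200) * T := hc.resolve_left hT0
    have a8 : 0 ≤ d * (-(1 / 200) * T - R1) := mul_nonneg (by linarith) (by linarith)
    have a9 : 0 ≤ (3 / 800 * d - 21 * κ) * T := mul_nonneg (by linarith) hT1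
    nlinarith

private theorem bdx_2a2 {d Sg T R1 R2 L κ : ℝ} (h : Lh d Sg T R1 R2 L) (hST : Sg ≤ 10 * (L + T)) (hκ0 : 0 ≤ κ)
    (hκ : κ ≤ 1 / 40000) :
    κ * T + (5 / 2 * d * T + 2 * d * R1) ≤ 5 * d * L + (3 * d * T - 2 * κ * Sg) := by
  obtain ⟨hd, hL, hS, hT, h12, h1, h2, h3⟩ := h
  have a1 : 0 ≤ (1 / 2 * d - 21 * κ) * (L + T) := mul_nonneg (by linarith) hT
  have a2 : 0 ≤ κ * (10 * (L + T) - Sg) := mul_nonneg hκ0 (by linarith)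
  have a3 : 0 ≤ d * (L - R1) := mul_nonneg (by linarith) (by linarith)
  have a4 : 0 ≤ d * L := mul_nonneg (by linarith) hL
  have a5 : 0 ≤ κ * L := mul_nonneg hκ0 hL
  nlinarith

private theorem bdx_2d {d Sg T R1 R2 L κ κ0 : ℝ} (h : Lh d Sg T R1 R2 L) (hST : Sg ≤ 10 * (L + T)) (hκ0 : 0 ≤ κ)
    (hκ : κ ≤ 1 / 40000) (hκκ : 20 * κ ≤ κ0) (hT0 : 0 ≤ T) :
    (3 * d - κ0) * T ≤ 5 * d * L + (3 * d * T - 2 * κ * Sg) := by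
  obtain ⟨hd, hL, hS, hT, h12, h1, h2, h3⟩ := h
  have a2 : 0 ≤ κ * (10 * (L + T) - Sg) := mul_nonneg hκ0 (by linarith)
  have a3 : 0 ≤ (κ0 - 20 * κ) * T := mul_nonneg (by linarith) hT0
  have a7 : 0 ≤ (d - 40 * κ) * L := mul_nonneg (by linarith) hL
  have a4 : 0 ≤ d * L := mul_nonneg (by linarith) hL
  nlinarith

private theorem bdx_exp {x : ℝ} (hx : 0 < x) (y : ℝ) : x ^ y = Real.exp (y * Real.log x) := by
  rw [Real.rpow_def_of_pos hx, mul_comm]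

private theorem bdx_expn {x : ℝ} (hx : 0 < x) (k : ℕ) : x ^ k = Real.exp (k * Real.log x) := by
  rw [← Real.rpow_natCast, bdx_exp hx]

variable (K : Type) [Field K] [NumberField K]

theorem bd1_of (h : LosStmt K) (h0 : CaStmt K) (h2 : OlZStmt K) (h3 : OdStmt K) : Bd1Stmt K := by
  classical
  intro M hM C hC A
  have hC0 : 0 < C := by linarith
  obtain ⟨C3, κ0, hC3, hκ0, hD⟩ := h3 (3 / 4) (by norm_num) (by norm_num) C hC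
  obtain ⟨κ, hκ⟩ : ∃ κ : ℝ, κ = min κ0 (1 / 8) / 2 := ⟨_, rfl⟩
  have hκp : 0 < κ := by rw [hκ]; exact half_pos (lt_min hκ0 (by norm_num))
  have hκa : 2 * κ ≤ κ0 := by rw [hκ]; have := min_le_left κ0 (1 / 8); linarith
  have hκb : 2 * κ ≤ 1 / 8 := by rw [hκ]; have := min_le_right κ0 (1 / 8); linarith
  obtain ⟨ε, hε⟩ : ∃ ε : ℝ, ε = κ / 8 := ⟨_, rfl⟩
  have hεp : 0 < ε := by rw [hε]; linarith
  obtain ⟨C0, hC0', hlos⟩ := h M hM C hC A ε hεp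
  obtain ⟨C1, hC1, hca⟩ := h0 C hC ε hεp
  obtain ⟨C2, hC2, hZ⟩ := h2 (3 / 4) (by norm_num) (by norm_num) C hC ε hεp
  obtain ⟨d, hd⟩ : ∃ d : ℕ, d = Module.finrank ℚ K := ⟨_, rfl⟩
  have hd1 : 1 ≤ d := by rw [hd]; exact Module.finrank_pos
  have hdr : (1 : ℝ) ≤ d := by exact_mod_cast hd1
  obtain ⟨L, hL⟩ : ∃ L : ℝ, L = Real.log C := ⟨_, rfl⟩
  have hL0 : 0 ≤ L := by rw [hL]; exact Real.log_nonneg hC
  obtain ⟨E, hE⟩ : ∃ E : ℝ, E = Real.exp (d * L) := ⟨_, rfl⟩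
  have hE0 : 0 < E := by rw [hE]; exact Real.exp_pos _
  rw [← hd] at hZ hca hD
  refine ⟨C0 * ((2 * C2 + C3) * E) * C1, κ, by positivity, hκp, ?_⟩
  intro s t ρ1 ρ2 hs hRg hρ hρs S hS
  rw [← hd]
  obtain ⟨hCt, hts⟩ := hRg
  obtain ⟨hr1, hr2, hr3, hr4⟩ := hρ
  have hr5 : 0 < ρ2 := lt_of_lt_of_le hr1 hr2
  have hs0 : 0 < s := by linarith
  have ht0 : 0 < t := by
    by_contra hn
    push Not at hn
    nlinarith
  obtain ⟨Sg, hSg⟩ : ∃ Sg : ℝ, Sg = Real.log s := ⟨_, rfl⟩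
  obtain ⟨T, hT⟩ : ∃ T : ℝ, T = Real.log t := ⟨_, rfl⟩
  obtain ⟨R1, hR1⟩ : ∃ R1 : ℝ, R1 = Real.log ρ1 := ⟨_, rfl⟩
  obtain ⟨R2, hR2⟩ : ∃ R2 : ℝ, R2 = Real.log ρ2 := ⟨_, rfl⟩
  have hlg : Lh d Sg T R1 R2 L := by
    refine ⟨hdr, hL0, ?_, ?_, ?_, ?_, ?_, ?_⟩
    · rw [hSg]; exact Real.log_nonneg hs
    · rw [hL, hT, ← Real.log_mul hC0.ne' ht0.ne']
      exact Real.log_nonneg hCt
    · rw [hR1, hR2]
      exact Real.log_le_log hr1 hr2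
    · rw [hR1, hL]
      exact Real.log_le_log hr1 hr3
    · have h5 := Real.log_le_log (by positivity) hr4
      rw [Real.log_mul hr1.ne' (by positivity), Real.log_pow] at h5
      rw [hR1, hR2, hL]
      exact_mod_cast h5
    · have h5 := Real.log_le_log (Real.rpow_pos_of_pos hs0 _) hρs
      rw [Real.log_rpow hs0] at h5
      rw [hSg, hR1]
      exact h5
  -- the sum over `b`
  obtain ⟨Q, hQ⟩ : ∃ Q : ℝ, Q = s ^ (3 * d) * s ^ (-(2 * κ)) * s ^ ε := ⟨_, rfl⟩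
  have hQ0 : 0 < Q := by rw [hQ]; positivity
  have hEQ : E * Q = Real.exp (d * L + ((3 * d - 2 * κ) * Sg + ε * Sg)) := by
    rw [hE, hQ, bdx_expn hs0, bdx_exp hs0, bdx_exp hs0, ← hSg, ← Real.exp_add, ← Real.exp_add, ← Real.exp_add]
    congr 1
    push_cast
    ring
  set T1 : Finset (T3 K) := S.image fun x => tb x.2.2 with hT1
  set T2 : Finset (T3 K) := S.image fun x => tc x.2.2 with hT2
  have m1 : ∀ b ∈ T1, Bx C s ρ1 ρ2 b ∧ dt b ≠ 0 ∧ (b.1 = 0 ∨ ¬ Ndg s b) := by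
    intro b hb
    obtain ⟨x, hx, rfl⟩ := Finset.mem_image.1 hb
    obtain ⟨⟨-, hm, -, -⟩, h5⟩ := hS x hx
    exact ⟨bdx_tb hm.1, hm.2.2.1, h5⟩
  have m2 : ∀ c ∈ T2, Bx C t ρ1 ρ2 c ∧ dt c ≠ 0 := by
    intro c hc
    obtain ⟨x, hx, rfl⟩ := Finset.mem_image.1 hc
    obtain ⟨⟨-, hm, -, -⟩, -⟩ := hS x hx
    exact ⟨bdx_tc hm.1, hm.2.2.2.1⟩
  have hrange : ρ2 ≤ C * s := by
    rw [← Real.log_le_log_iff hr5 (by positivity), Real.log_mul hC0.ne' hs0.ne', ← hR2, ← hL, ← hSg]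
    obtain ⟨-, -, hS0, -, -, -, h6, h7⟩ := hlg
    linarith
  have hCs : 1 ≤ C * s := hCt.trans (mul_le_mul_of_nonneg_left hts hC0.le)
  have e1 : s ^ ε * s ^ (2 * d) ≤ E * Q := by
    rw [hEQ, bdx_exp hs0, bdx_expn hs0, ← hSg, ← Real.exp_add]
    refine Real.exp_le_exp.2 ?_
    have := bdx_1a (ε := ε) hlg hκb
    push_cast
    linarith
  have e2 : s ^ ε * (s ^ ((1 + 2 * (3 / 4)) * (d : ℝ)) * ρ2 ^ (2 * d)) ≤ E * Q := by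
    rw [hEQ, bdx_exp hs0, bdx_exp hs0, bdx_expn hr5, ← hSg, ← hR2, ← Real.exp_add, ← Real.exp_add]
    refine Real.exp_le_exp.2 ?_
    have := bdx_1b (ε := ε) hlg hκb
    push_cast
    linarith
  have e3 : s ^ (3 * (d : ℝ) - κ0) ≤ E * Q := by
    rw [hEQ, bdx_exp hs0, ← hSg]
    refine Real.exp_le_exp.2 ?_
    have := bdx_1c (ε := ε) hlg hκa hεp.le
    linarith
  have kZ : ∑ b ∈ T1.filter (fun b => ¬ b.1 ≠ 0), ni (cn b) * Wt (3 / 4) s b ≤ 2 * C2 * (E * Q) := by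
    have h5 := hZ s ρ1 ρ2 hCs ⟨hr1, hr2, hr3, hr4⟩ hrange (T1.filter (fun b => ¬ b.1 ≠ 0)) (by
      intro b hb
      obtain ⟨hb1, hb2⟩ := Finset.mem_filter.1 hb
      exact ⟨(m1 b hb1).1, not_not.1 hb2, (m1 b hb1).2.1⟩)
    refine h5.trans ?_
    calc C2 * s ^ ε * (s ^ (2 * d) + s ^ ((1 + 2 * (3 / 4)) * (d : ℝ)) * ρ2 ^ (2 * d))
        = C2 * (s ^ ε * s ^ (2 * d)) + C2 * (s ^ ε * (s ^ ((1 + 2 * (3 / 4)) * (d : ℝ)) * ρ2 ^ (2 * d))) := by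
          ring
      _ ≤ C2 * (E * Q) + C2 * (E * Q) := by gcongr
      _ = 2 * C2 * (E * Q) := by ring
  have hρ100 : s ^ (-(1 / 100) : ℝ) ≤ ρ1 :=
    (Real.rpow_le_rpow_of_exponent_le hs (by norm_num)).trans hρs
  have kD : ∑ b ∈ T1.filter (fun b => b.1 ≠ 0), ni (cn b) * Wt (3 / 4) s b ≤ C3 * (E * Q) := by
    have h5 := hD s ρ1 ρ2 hs ⟨hr1, hr2, hr3, hr4⟩ hρ100 (T1.filter (fun b => b.1 ≠ 0)) (by
      intro b hb
      obtain ⟨hb1, hb2⟩ := Finset.mem_filter.1 hb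
      obtain ⟨h6, h7, h8⟩ := m1 b hb1
      refine ⟨h6, hb2, h7, ?_⟩
      rcases h8 with h8 | h8
      · exact absurd h8 hb2
      · unfold Ndg at h8
        rw [← hd] at h8
        rw [not_and_or] at h8
        rcases h8 with h8 | h8
        · push Not at h8
          obtain ⟨φ, hφ⟩ := h8
          exact Or.inl ⟨φ, hφ.le⟩
        · exact Or.inr (not_le.1 h8).le)
    exact h5.trans (mul_le_mul_of_nonneg_left e3 hC3.le)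
  have kb : ∑ b ∈ T1, ni (cn b) * Wt (3 / 4) s b ≤ (2 * C2 + C3) * E * Q := by
    rw [← Finset.sum_filter_add_sum_filter_not T1 (fun b => b.1 ≠ 0)]
    calc _ ≤ C3 * (E * Q) + 2 * C2 * (E * Q) := add_le_add kD kZ
      _ = _ := by ring
  have kc := hca t ρ1 ρ2 hCt ⟨hr1, hr2, hr3, hr4⟩ T2 m2
  have hq0 : 0 < ρ2 / ρ1 := by positivity
  have htε : t ^ ε ≤ s ^ ε := Real.rpow_le_rpow ht0.le hts hεp.le
  have kc' : ∑ c ∈ T2, ni (cn c) * Wt (3 / 4) t c ≤ C1 * s ^ ε * t ^ (3 * d) * (ρ2 / ρ1) ^ d := by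
    refine kc.trans ?_
    gcongr
  have hcs0 : 0 ≤ ∑ c ∈ T2, ni (cn c) * Wt (3 / 4) t c :=
    Finset.sum_nonneg fun c _ => mul_nonneg (ni_nonneg _) (bdx_wt _ _ _)
  have hfin := hlos s t ρ1 ρ2 ⟨hCt, hts⟩ ⟨hr1, hr2, hr3, hr4⟩ S T1 T2 (fun x hx =>
    ⟨(hS x hx).1, Finset.mem_image_of_mem _ hx, Finset.mem_image_of_mem _ hx⟩)
  have hsε : 0 < s ^ ε := Real.rpow_pos_of_pos hs0 ε
  have hlast : s ^ (-(2 * κ)) * (s ^ ε * s ^ ε * s ^ ε) ≤ s ^ (-κ) := by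
    rw [← Real.rpow_add hs0, ← Real.rpow_add hs0, ← Real.rpow_add hs0]
    refine Real.rpow_le_rpow_of_exponent_le hs ?_
    rw [hε]
    linarith
  calc (S.card : ℝ) ≤ C0 * s ^ ε * (∑ b ∈ T1, ni (cn b) * Wt (3 / 4) s b) *
        (∑ c ∈ T2, ni (cn c) * Wt (3 / 4) t c) := hfin
    _ ≤ C0 * s ^ ε * ((2 * C2 + C3) * E * Q) * (C1 * s ^ ε * t ^ (3 * d) * (ρ2 / ρ1) ^ d) := by
        gcongr
    _ = C0 * ((2 * C2 + C3) * E) * C1 * (s * t) ^ (3 * d) * (ρ2 / ρ1) ^ d *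
        (s ^ (-(2 * κ)) * (s ^ ε * s ^ ε * s ^ ε)) := by
        rw [hQ, mul_pow]
        ring
    _ ≤ C0 * ((2 * C2 + C3) * E) * C1 * (s * t) ^ (3 * d) * (ρ2 / ρ1) ^ d * s ^ (-κ) :=
        mul_le_mul_of_nonneg_left hlast (by positivity)

theorem bd2_of (h : LosStmt K) (h0 : CaStmt K) (h1 : OlAStmt K) (h2 : OlZStmt K)
    (h3 : OdStmt K) : Bd2Stmt K := by
  classical
  intro M hM C hC A
  have hC0 : 0 < C := by linarith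
  have hC9 : 1 ≤ C ^ 2 := one_le_pow₀ hC
  have hCC9 : C ≤ C ^ 2 := by nlinarith
  obtain ⟨C3, κ0, hC3, hκ0, hD⟩ := h3 (3 / 4) (by norm_num) (by norm_num) C hC
  obtain ⟨κ, hκ⟩ : ∃ κ : ℝ, κ = min κ0 (1 / 1000) / 40 := ⟨_, rfl⟩
  have hκp : 0 < κ := by rw [hκ]; exact div_pos (lt_min hκ0 (by norm_num)) (by norm_num)
  have hκa : 20 * κ ≤ κ0 := by rw [hκ]; have := min_le_left κ0 (1 / 1000); linarith
  have hκb : κ ≤ 1 / 40000 := by rw [hκ]; have := min_le_right κ0 (1 / 1000); linarith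
  obtain ⟨ε, hε⟩ : ∃ ε : ℝ, ε = κ / 4 := ⟨_, rfl⟩
  have hεp : 0 < ε := by rw [hε]; linarith
  obtain ⟨C0, hC0', hlos⟩ := h M hM C hC A ε hεp
  obtain ⟨C4, hC4, hca⟩ := h0 C hC ε hεp
  obtain ⟨C1, hC1, hA⟩ := h1 (3 / 4) (by norm_num) (by norm_num) (C ^ 2) hC9 κ hκp
  obtain ⟨C2, hC2, hZ⟩ := h2 (3 / 4) (by norm_num) (by norm_num) (C ^ 2) hC9 κ hκp
  obtain ⟨d, hd⟩ : ∃ d : ℕ, d = Module.finrank ℚ K := ⟨_, rfl⟩
  have hd1 : 1 ≤ d := by rw [hd]; exact Module.finrank_pos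
  have hdr : (1 : ℝ) ≤ d := by exact_mod_cast hd1
  obtain ⟨L, hL⟩ : ∃ L : ℝ, L = Real.log (2 * C ^ 2) := ⟨_, rfl⟩
  have hL0 : 0 ≤ L := by rw [hL]; exact Real.log_nonneg (by linarith)
  have hLC : Real.log C ≤ L := by rw [hL]; exact Real.log_le_log hC0 (by linarith)
  obtain ⟨E, hE⟩ : ∃ E : ℝ, E = Real.exp (5 * d * L) := ⟨_, rfl⟩
  have hE0 : 0 < E := by rw [hE]; exact Real.exp_pos _
  rw [← hd] at hZ hca hD hA
  refine ⟨C0 * C4 * ((2 * C1 + 2 * C2 + C3) * E), κ, by positivity, hκp, ?_⟩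
  intro s t ρ1 ρ2 hs hRg hρ hρs S hS
  rw [← hd]
  obtain ⟨hCt, hts⟩ := hRg
  obtain ⟨hr1, hr2, hr3, hr4⟩ := hρ
  have hr5 : 0 < ρ2 := lt_of_lt_of_le hr1 hr2
  have hs0 : 0 < s := by linarith
  have ht0 : 0 < t := by
    by_contra hn
    push Not at hn
    nlinarith
  rcases S.eq_empty_or_nonempty with rfl | ⟨x0, hx0⟩
  · rw [Finset.card_empty, Nat.cast_zero]
    positivity
  obtain ⟨Sg, hSg⟩ : ∃ Sg : ℝ, Sg = Real.log s := ⟨_, rfl⟩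
  obtain ⟨T, hT⟩ : ∃ T : ℝ, T = Real.log t := ⟨_, rfl⟩
  obtain ⟨R1, hR1⟩ : ∃ R1 : ℝ, R1 = Real.log ρ1 := ⟨_, rfl⟩
  obtain ⟨R2, hR2⟩ : ∃ R2 : ℝ, R2 = Real.log ρ2 := ⟨_, rfl⟩
  have hlg : Lh d Sg T R1 R2 L := by
    refine ⟨hdr, hL0, ?_, ?_, ?_, ?_, ?_, ?_⟩
    · rw [hSg]; exact Real.log_nonneg hs
    · have h5 : 0 ≤ Real.log C + T := by
        rw [hT, ← Real.log_mul hC0.ne' ht0.ne']
        exact Real.log_nonneg hCt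
      linarith
    · rw [hR1, hR2]
      exact Real.log_le_log hr1 hr2
    · refine le_trans ?_ hLC
      rw [hR1]
      exact Real.log_le_log hr1 hr3
    · refine le_trans ?_ hLC
      have h5 := Real.log_le_log (by positivity) hr4
      rw [Real.log_mul hr1.ne' (by positivity), Real.log_pow] at h5
      rw [hR1, hR2]
      exact_mod_cast h5
    · have h5 := Real.log_le_log (Real.rpow_pos_of_pos hs0 _) hρs
      rw [Real.log_rpow hs0] at h5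
      rw [hSg, hR1]
      exact h5
  set T1 : Finset (T3 K) := S.image fun x => tb x.2.2 with hT1
  set T2 : Finset (T3 K) := S.image fun x => tc x.2.2 with hT2
  have m1 : ∀ b ∈ T1, Bx C s ρ1 ρ2 b ∧ dt b ≠ 0 := by
    intro b hb
    obtain ⟨x, hx, rfl⟩ := Finset.mem_image.1 hb
    obtain ⟨⟨-, hm, -, -⟩, -⟩ := hS x hx
    exact ⟨bdx_tb hm.1, hm.2.2.1⟩
  have m2 : ∀ c ∈ T2, Bx C t ρ1 ρ2 c ∧ dt c ≠ 0 ∧ s ^ ((d : ℝ) / 10) < ni (cn c) := by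
    intro c hc
    obtain ⟨x, hx, rfl⟩ := Finset.mem_image.1 hc
    obtain ⟨⟨-, hm, -, -⟩, -, h5⟩ := hS x hx
    rw [← hd] at h5
    exact ⟨bdx_tc hm.1, hm.2.2.2.1, h5⟩
  -- the size of `t`
  have hST : Sg ≤ 10 * (L + T) := by
    obtain ⟨n1, n2, n3⟩ := m2 _ (Finset.mem_image_of_mem _ hx0)
    have n4 := bdx_cn hC ht0 ⟨hr1, hr2, hr3, hr4⟩ n1 n2
    rw [← hd] at n4
    have n5 := Real.log_le_log (Real.rpow_pos_of_pos hs0 _) (n3.le.trans n4)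
    rw [Real.log_rpow hs0, Real.log_pow, Real.log_mul (by positivity) ht0.ne', ← hSg, ← hL, ← hT] at n5
    have n6 : (d : ℝ) * (Sg / 10) ≤ d * (L + T) := by
      calc (d : ℝ) * (Sg / 10) = d / 10 * Sg := by ring
        _ ≤ _ := n5
    have n7 : Sg / 10 ≤ L + T := le_of_mul_le_mul_left n6 (by linarith)
    linarith
  -- the sum over `c`
  obtain ⟨Q, hQ⟩ : ∃ Q : ℝ, Q = t ^ (3 * d) * s ^ (-(2 * κ)) := ⟨_, rfl⟩
  have hQ0 : 0 < Q := by rw [hQ]; positivity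
  have hEQ : E * Q = Real.exp (5 * d * L + (3 * d * T - 2 * κ * Sg)) := by
    rw [hE, hQ, bdx_expn ht0, bdx_exp hs0, ← hSg, ← hT, ← Real.exp_add, ← Real.exp_add]
    congr 1
    push_cast
    ring
  have ht9 : 1 ≤ C ^ 2 * t := hCt.trans (mul_le_mul_of_nonneg_right hCC9 ht0.le)
  have hρ9 : H88.A4.Rho (C ^ 2) ρ1 ρ2 := ⟨hr1, hr2, hr3.trans hCC9, hr4.trans hCC9⟩
  have hc2 : ∀ c ∈ T2, c.1 = 0 → 1 ≤ C * t * (ρ1 * ρ2) := by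
    intro c hc h0
    refine bdx_one (x := c.2.1) ?_ (m2 c hc).1.2.1
    intro h00
    apply (m2 c hc).2.1
    unfold dt
    rw [h0, h00]
    ring
  have hc1 : ∀ c ∈ T2, c.1 ≠ 0 → 1 ≤ C * t * ρ1 ^ 2 := fun c hc h0 => bdx_one h0 (m2 c hc).1.1
  have kZ : ∑ c ∈ T2.filter (fun c => ¬ c.1 ≠ 0), ni (cn c) * Wt (3 / 4) t c ≤ 2 * C2 * (E * Q) := by
    rcases (T2.filter (fun c => ¬ c.1 ≠ 0)).eq_empty_or_nonempty with h0 | ⟨c', hc'⟩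
    · rw [h0, Finset.sum_empty]
      positivity
    · obtain ⟨hcS, hc0⟩ := Finset.mem_filter.1 hc'
      have h4 := hc2 c' hcS (not_not.1 hc0)
      have hrange : ρ2 ≤ C ^ 2 * t := by
        calc ρ2 ≤ ρ2 * (C * t * (ρ1 * ρ2)) := le_mul_of_one_le_right hr5.le h4
          _ = C * t * (ρ1 * ρ2 ^ 2) := by ring
          _ ≤ C * t * C := mul_le_mul_of_nonneg_left hr4 (by positivity)
          _ = C ^ 2 * t := by ring
      have h5 := hZ t ρ1 ρ2 ht9 hρ9 hrange (T2.filter (fun c => ¬ c.1 ≠ 0)) (by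
        intro c hc
        obtain ⟨hcS, hc0⟩ := Finset.mem_filter.1 hc
        exact ⟨bdx_bx hCC9 ht0.le hr1.le hr5.le (m2 c hcS).1, not_not.1 hc0, (m2 c hcS).2.1⟩)
      have e1 : t ^ κ * t ^ (2 * d) ≤ E * Q := by
        rw [hEQ, bdx_exp ht0, bdx_expn ht0, ← hT, ← Real.exp_add]
        refine Real.exp_le_exp.2 ?_
        have := bdx_2z1 hlg hST hκp.le hκb
        push_cast
        linarith
      have e2 : t ^ κ * (t ^ ((1 + 2 * (3 / 4)) * (d : ℝ)) * ρ2 ^ (2 * d)) ≤ E * Q := by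
        rw [hEQ, bdx_exp ht0, bdx_exp ht0, bdx_expn hr5, ← hT, ← hR2, ← Real.exp_add, ← Real.exp_add]
        refine Real.exp_le_exp.2 ?_
        have := bdx_2z2 hlg hST hκp.le hκb
        push_cast
        linarith
      refine h5.trans ?_
      calc C2 * t ^ κ * (t ^ (2 * d) + t ^ ((1 + 2 * (3 / 4)) * (d : ℝ)) * ρ2 ^ (2 * d))
          = C2 * (t ^ κ * t ^ (2 * d)) + C2 * (t ^ κ * (t ^ ((1 + 2 * (3 / 4)) * (d : ℝ)) * ρ2 ^ (2 * d))) := by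
            ring
        _ ≤ C2 * (E * Q) + C2 * (E * Q) := by gcongr
        _ = 2 * C2 * (E * Q) := by ring
  have kA : ∑ c ∈ T2.filter (fun c => c.1 ≠ 0), ni (cn c) * Wt (3 / 4) t c ≤ (2 * C1 + C3) * (E * Q) := by
    rcases (T2.filter (fun c => c.1 ≠ 0)).eq_empty_or_nonempty with h0 | ⟨c', hc'⟩
    · rw [h0, Finset.sum_empty]
      positivity
    obtain ⟨hcS', hc0'⟩ := Finset.mem_filter.1 hc'
    have h4 := hc1 c' hcS' hc0'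
    by_cases hcase : T < 0 ∨ R1 ≤ -(1 / 200) * T
    · have hrange : ρ2 ≤ C ^ 2 * t := by
        refine le_of_pow_le_pow_left₀ (n := 4) (by norm_num) (by positivity) ?_
        calc ρ2 ^ 4 ≤ ρ2 ^ 4 * (C * t * ρ1 ^ 2) := le_mul_of_one_le_right (by positivity) h4
          _ = C * t * (ρ1 * ρ2 ^ 2) ^ 2 := by ring
          _ ≤ C * t * C ^ 2 := by gcongr
          _ ≤ C * t * C ^ 2 * (C * t) ^ 3 := le_mul_of_one_le_right (by positivity) (one_le_pow₀ hCt)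
          _ = C ^ 6 * t ^ 4 := by ring
          _ ≤ C ^ 8 * t ^ 4 := mul_le_mul_of_nonneg_right (pow_le_pow_right₀ hC (by norm_num)) (by positivity)
          _ = (C ^ 2 * t) ^ 4 := by ring
      have h5 := hA t ρ1 ρ2 ht9 hρ9 hrange (T2.filter (fun c => c.1 ≠ 0)) (by
        intro c hc
        obtain ⟨hcS, hc0⟩ := Finset.mem_filter.1 hc
        exact ⟨bdx_bx hCC9 ht0.le hr1.le hr5.le (m2 c hcS).1, hc0, (m2 c hcS).2.1⟩)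
      have e1 : t ^ κ * (t ^ (3 * d) * (ρ1 * ρ2) ^ ((3 - 2 * (3 / 4)) * (d : ℝ))) ≤ E * Q := by
        rw [hEQ, bdx_exp ht0, bdx_expn ht0, bdx_exp (show 0 < ρ1 * ρ2 by positivity),
          Real.log_mul hr1.ne' hr5.ne', ← hT, ← hR1, ← hR2, ← Real.exp_add, ← Real.exp_add]
        refine Real.exp_le_exp.2 ?_
        have := bdx_2a1 hlg hST hκp.le hκb hcase
        push_cast
        linarith
      have e2 : t ^ κ * (t ^ ((1 + 2 * (3 / 4)) * (d : ℝ)) * ρ1 ^ (2 * d)) ≤ E * Q := by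
        rw [hEQ, bdx_exp ht0, bdx_exp ht0, bdx_expn hr1, ← hT, ← hR1, ← Real.exp_add, ← Real.exp_add]
        refine Real.exp_le_exp.2 ?_
        have := bdx_2a2 hlg hST hκp.le hκb
        push_cast
        linarith
      refine h5.trans ?_
      calc C1 * t ^ κ * (t ^ (3 * d) * (ρ1 * ρ2) ^ ((3 - 2 * (3 / 4)) * (d : ℝ)) +
              t ^ ((1 + 2 * (3 / 4)) * (d : ℝ)) * ρ1 ^ (2 * d))
          = C1 * (t ^ κ * (t ^ (3 * d) * (ρ1 * ρ2) ^ ((3 - 2 * (3 / 4)) * (d : ℝ)))) +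
            C1 * (t ^ κ * (t ^ ((1 + 2 * (3 / 4)) * (d : ℝ)) * ρ1 ^ (2 * d))) := by ring
        _ ≤ C1 * (E * Q) + C1 * (E * Q) := by gcongr
        _ ≤ (2 * C1 + C3) * (E * Q) := by
            have : 0 ≤ C3 * (E * Q) := by positivity
            linarith
    · rw [not_or, not_lt, not_le] at hcase
      obtain ⟨hT0, hR⟩ := hcase
      have ht1 : 1 ≤ t := by
        rw [hT] at hT0
        exact (Real.log_nonneg_iff ht0).1 hT0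
      have hρ200 : t ^ (-(1 / 200) : ℝ) ≤ ρ1 := by
        rw [bdx_exp ht0, ← hT, ← Real.exp_log hr1, ← hR1]
        exact Real.exp_le_exp.2 hR.le
      have hρ100 : t ^ (-(1 / 100) : ℝ) ≤ ρ1 :=
        (Real.rpow_le_rpow_of_exponent_le ht1 (by norm_num)).trans hρ200
      have h5 := hD t ρ1 ρ2 ht1 ⟨hr1, hr2, hr3, hr4⟩ hρ100 (T2.filter (fun c => c.1 ≠ 0)) (by
        intro c hc
        obtain ⟨hcS, hc0⟩ := Finset.mem_filter.1 hc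
        obtain ⟨h6, h7, h8⟩ := m2 c hcS
        refine ⟨h6, hc0, h7, Or.inr (le_trans ?_ h8.le)⟩
        calc t ^ ((d : ℝ) / 50) ≤ t ^ ((d : ℝ) / 10) :=
              Real.rpow_le_rpow_of_exponent_le ht1 (by linarith)
          _ ≤ s ^ ((d : ℝ) / 10) := Real.rpow_le_rpow ht0.le hts (by positivity))
      have e1 : t ^ (3 * (d : ℝ) - κ0) ≤ E * Q := by
        rw [hEQ, bdx_exp ht0, ← hT]
        refine Real.exp_le_exp.2 ?_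
        exact bdx_2d hlg hST hκp.le hκb hκa hT0
      refine h5.trans ?_
      calc C3 * t ^ (3 * (d : ℝ) - κ0) ≤ C3 * (E * Q) := by gcongr
        _ ≤ (2 * C1 + C3) * (E * Q) := by
            have : 0 ≤ 2 * C1 * (E * Q) := by positivity
            linarith
  have kc : ∑ c ∈ T2, ni (cn c) * Wt (3 / 4) t c ≤ (2 * C1 + 2 * C2 + C3) * E * Q := by
    rw [← Finset.sum_filter_add_sum_filter_not T2 (fun c => c.1 ≠ 0)]
    calc _ ≤ (2 * C1 + C3) * (E * Q) + 2 * C2 * (E * Q) := add_le_add kA kZ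
      _ = _ := by ring
  have kb := hca s ρ1 ρ2 (hCt.trans (mul_le_mul_of_nonneg_left hts hC0.le)) ⟨hr1, hr2, hr3, hr4⟩ T1 m1
  have hq0 : 0 < ρ2 / ρ1 := by positivity
  have hcs0 : 0 ≤ ∑ c ∈ T2, ni (cn c) * Wt (3 / 4) t c :=
    Finset.sum_nonneg fun c _ => mul_nonneg (ni_nonneg _) (bdx_wt _ _ _)
  have hfin := hlos s t ρ1 ρ2 ⟨hCt, hts⟩ ⟨hr1, hr2, hr3, hr4⟩ S T1 T2 (fun x hx =>
    ⟨(hS x hx).1, Finset.mem_image_of_mem _ hx, Finset.mem_image_of_mem _ hx⟩)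
  have hsε : 0 < s ^ ε := Real.rpow_pos_of_pos hs0 ε
  have hlast : s ^ (-(2 * κ)) * (s ^ ε * s ^ ε) ≤ s ^ (-κ) := by
    rw [← Real.rpow_add hs0, ← Real.rpow_add hs0]
    refine Real.rpow_le_rpow_of_exponent_le hs ?_
    rw [hε]
    linarith
  calc (S.card : ℝ) ≤ C0 * s ^ ε * (∑ b ∈ T1, ni (cn b) * Wt (3 / 4) s b) *
        (∑ c ∈ T2, ni (cn c) * Wt (3 / 4) t c) := hfin
    _ ≤ C0 * s ^ ε * (C4 * s ^ ε * s ^ (3 * d) * (ρ2 / ρ1) ^ d) * ((2 * C1 + 2 * C2 + C3) * E * Q) := by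
        gcongr
    _ = C0 * C4 * ((2 * C1 + 2 * C2 + C3) * E) * (s * t) ^ (3 * d) * (ρ2 / ρ1) ^ d *
        (s ^ (-(2 * κ)) * (s ^ ε * s ^ ε)) := by
        rw [hQ, mul_pow]
        ring
    _ ≤ C0 * C4 * ((2 * C1 + 2 * C2 + C3) * E) * (s * t) ^ (3 * d) * (ρ2 / ρ1) ^ d * s ^ (-κ) :=
        mul_le_mul_of_nonneg_left hlast (by positivity)

end H88.WS
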