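import Pool.Agent.H88.WS.Ib

/-!
# [H88 WS BLK] `BlkStmt` from its parts (W1#, MP_b39724)

PROOF. `d = [K : ℚ]`, `L = log (2 + s)`. `M, C, A` given; `m` from `BsStmt` for `M`; `ε ≤ 1/100` from `CsStmt` for `m, C`; `C1, s1` from `BsStmt` for `C, A, ε`; `κ1`, `κ2` from `Bd1Stmt`, `Bd2Stmt`; `GenStmt` with `1/400`.
`κ = min (1/2) (min (200 κ1) (200 κ2))`. `T = (s t)^(3d) (ρ2/ρ1)^d`. Note `L ≥ log 2` always (`s > 0`), so `L^(5/4), L^(7/8) ≥ c > 0`; and `ρ1^a ≤ C' ρ1^κ` for `a ≥ κ` (`ρ1 ≤ C`).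
(1) `s < s1`: `GenStmt`: `card ≤ C2 s1^(1/400) T ρ1^(3d/2)`. (2) `s ≥ s1` (`≥ 3`), `ρ1 < s^(-1/200)`: `s^(1/400) ≤ ρ1^(-1/2)`, `GenStmt`: `card ≤ C2 T ρ1^(3d/2 - 1/2) ≤ C3 T ρ1^κ` (`3d/2 - 1/2 ≥ 1`).
(3) `s ≥ s1`, `ρ1 ≥ s^(-1/200)`. `S = Sa ∪ Sb ∪ Sc`: `Sa`: `b1 = 0` or `¬ Ndg s b`; `Sb`: `b1 ≠ 0`, `Ndg s b` and `s^(d/10) < ni (cn c)`; `Sc`: `Ndg s b`, `ni (cn c) ≤ s^(d/10)`.
`Sa`, `Sb`: `Bd1Stmt`, `Bd2Stmt`: `≤ C4 T s^(-κi)`, and `s^(-κi) ≤ s^(-κ/200) ≤ ρ1^κ` (as `ρ1 ≥ s^(-1/200)`, `κ ≤ 200 κi`).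
`Sc`: `card = ∑_c card {x ∈ Sc : tc x.2.2 = c}` over the image `G` of `Sc` under `x ↦ tc x.2.2`; for `c ∈ G`: `Bx C t ρ1 ρ2 c` (`Sz`), `dt c = D3 ≠ 0`. `BsStmt`: each is
`≤ C1 s^(3d) ((ρ1 ρ2)^(7d/5) ρ1^(-2d/5)) L^ε (ni (cn c)^(1+ε) Wt (4/5) t c Hc m (2+s) (dt c))`. Sum over `c ∈ G` and `CsStmt`:
`≤ C5 s^(3d) L^ε t^(3d) (ρ2/ρ1)^d ρ1^(1/2) L`, i.e. `C5 T ρ1^(1/2) L^(1+ε) ≤ C6 T ρ1^κ L^(5/4)` (`L ≥ 1` for `s ≥ 3`), and, if `exp (√L) ≤ t`, `≤ C5 T ρ1^(1/2) L^(3/4 + 1/100 + ε) ≤ C6 T ρ1^κ L^(7/8)`.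
`(s * t)^(3 d) = s^(3d) t^(3d)`.
-/

open scoped NumberField
open H88.A4 Pool.Agent.H67.WA

noncomputable section

namespace H88.WS

variable (K : Type) [Field K] [NumberField K]

private lemma blk_pow {C ρ κ a : ℝ} (hC : 1 ≤ C) (hρ : 0 < ρ) (hρC : ρ ≤ C) (hκ : 0 ≤ κ)
    (ha : κ ≤ a) : ρ ^ a ≤ C ^ a * ρ ^ κ := by
  have h1 : ρ ^ a = ρ ^ (a - κ) * ρ ^ κ := by
    rw [← Real.rpow_add hρ]
    congr 1
    ring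
  have h2 : ρ ^ (a - κ) ≤ C ^ (a - κ) := Real.rpow_le_rpow hρ.le hρC (by linarith)
  have h3 : C ^ (a - κ) ≤ C ^ a := Real.rpow_le_rpow_of_exponent_le hC (by linarith)
  rw [h1]
  exact mul_le_mul_of_nonneg_right (h2.trans h3) (Real.rpow_nonneg hρ.le _)

private lemma blk_sav {s ρ κ κi : ℝ} (hs : 1 ≤ s) (hρ : s ^ (-(1 / 200) : ℝ) ≤ ρ) (hκ : 0 ≤ κ)
    (h : κ ≤ 200 * κi) : s ^ (-κi) ≤ ρ ^ κ := by
  have hs0 : 0 < s := by linarith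
  have h1 : s ^ (-κi) ≤ s ^ (-(1 / 200) * κ : ℝ) :=
    Real.rpow_le_rpow_of_exponent_le hs (by linarith)
  have h2 : s ^ (-(1 / 200) * κ : ℝ) = (s ^ (-(1 / 200) : ℝ)) ^ κ := Real.rpow_mul hs0.le _ _
  rw [h2] at h1
  exact h1.trans (Real.rpow_le_rpow (Real.rpow_nonneg hs0.le _) hρ hκ)

theorem blk_of (h1 : GenStmt K) (h2 : Bd1Stmt K) (h3 : Bd2Stmt K) (h4 : BsStmt K)
    (h5 : CsStmt K) : BlkStmt K := by
  classical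
  intro M hM C hC A
  obtain ⟨m, hm, h6, hb⟩ := h4 M hM
  obtain ⟨Cs, ε, hCs, hε, hε1, hcs⟩ := h5 m hm h6 C hC
  obtain ⟨C1, s1, hC1, hs1, hbs⟩ := hb C hC A ε hε
  obtain ⟨Ca, κ1, hCa, hκ1, hba⟩ := h2 M hM C hC A
  obtain ⟨Cb, κ2, hCb, hκ2, hbb⟩ := h3 M hM C hC A
  obtain ⟨C2, hC2, hg⟩ := h1 M hM C hC A (1 / 400) (by norm_num)
  obtain ⟨d, hd⟩ : ∃ d : ℕ, d = Module.finrank ℚ K := ⟨_, rfl⟩
  have hd1 : (1 : ℝ) ≤ d := by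
    rw [hd]
    exact_mod_cast (Module.finrank_pos : 0 < Module.finrank ℚ K)
  rw [← hd] at hcs hbs hba hbb hg
  rw [← hd]
  obtain ⟨κ, hκd⟩ : ∃ κ : ℝ, κ = min (1 / 2) (min (200 * κ1) (200 * κ2)) := ⟨_, rfl⟩
  have hκ0 : 0 < κ := by
    rw [hκd]
    exact lt_min (by norm_num) (lt_min (by linarith) (by linarith))
  have hκh : κ ≤ 1 / 2 := hκd ▸ min_le_left _ _
  have hκ1' : κ ≤ 200 * κ1 := hκd ▸ (min_le_right _ _).trans (min_le_left _ _)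
  have hκ2' : κ ≤ 200 * κ2 := hκd ▸ (min_le_right _ _).trans (min_le_right _ _)
  have hC0 : 0 < C := by linarith
  have hs10 : 0 < s1 := by linarith
  obtain ⟨l2, hl2⟩ : ∃ l2 : ℝ, l2 = Real.log 2 := ⟨_, rfl⟩
  have hl20 : 0 < l2 := hl2 ▸ Real.log_pos (by norm_num)
  have hl21 : l2 ≤ 1 := by
    rw [hl2]
    have := Real.log_two_lt_d9
    linarith
  obtain ⟨D0, hD0⟩ : ∃ D0 : ℝ, D0 = C2 * s1 ^ (1 / 400 : ℝ) * C ^ (3 / 2 * (d : ℝ)) +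
    C2 * C ^ (3 / 2 * (d : ℝ) - 1 / 2) + (Ca + Cb) := ⟨_, rfl⟩
  have hD00 : 0 < D0 := by
    rw [hD0]
    positivity
  refine ⟨D0 / l2 ^ (5 / 4 : ℝ) + C1 * Cs * C ^ (1 / 2 : ℝ), κ, by positivity, hκ0,
    fun s t ρ1 ρ2 hR hρ S hS => ?_⟩
  have hρ0 : 0 < ρ1 := hρ.1
  have hρC : ρ1 ≤ C := hρ.2.2.1
  have hρ2 : 0 < ρ2 := hρ0.trans_le hρ.2.1
  have ht0 : 0 < t := by
    by_contra h
    push Not at h
    have := hR.1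
    nlinarith
  have hs0 : 0 < s := by
    have := hR.2
    linarith
  obtain ⟨L, hL⟩ : ∃ L : ℝ, L = Real.log (2 + s) := ⟨_, rfl⟩
  have hLl : l2 ≤ L := by
    rw [hl2, hL]
    exact Real.log_le_log (by norm_num) (by linarith)
  have hL0 : 0 < L := by linarith
  rw [← hL]
  obtain ⟨T, hT⟩ : ∃ T : ℝ, T = (s * t) ^ (3 * d) * (ρ2 / ρ1) ^ d := ⟨_, rfl⟩
  have hT0 : 0 ≤ T := by
    rw [hT]
    positivity
  have hZ0 : 0 ≤ T * ρ1 ^ κ := mul_nonneg hT0 (Real.rpow_nonneg hρ0.le _)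
  -- the parts without logarithms
  have hlog : ∀ e : ℝ, e ≤ 5 / 4 → 0 ≤ e → ∀ X : ℝ, 0 ≤ X → X ≤ X / l2 ^ (5 / 4 : ℝ) * L ^ e := by
    intro e he he0 X hX
    have g1 : l2 ^ (5 / 4 : ℝ) ≤ l2 ^ e := Real.rpow_le_rpow_of_exponent_ge hl20 hl21 he
    have g2 : l2 ^ e ≤ L ^ e := Real.rpow_le_rpow hl20.le hLl he0
    have g3 : 0 < l2 ^ (5 / 4 : ℝ) := Real.rpow_pos_of_pos hl20 _
    rw [div_mul_eq_mul_div, le_div_iff₀ g3]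
    exact mul_le_mul_of_nonneg_left (g1.trans g2) hX
  -- it is enough to have one bound
  suffices hkey : ∀ e : ℝ, e ≤ 5 / 4 → 0 ≤ e → (∀ U : Finset (T3 K),
      (∀ c ∈ U, Bx C t ρ1 ρ2 c ∧ dt c ≠ 0) → s1 ≤ s →
      (∑ c ∈ U, ni (cn c) ^ (1 + ε) * Wt (4 / 5) t c * Hc m (2 + s) (dt c)) *
          ((ρ1 * ρ2) ^ (7 / 5 * (d : ℝ)) * ρ1 ^ (-(2 / 5) * (d : ℝ))) * L ^ ε ≤
        Cs * t ^ (3 * d) * (ρ2 / ρ1) ^ d * ρ1 ^ (1 / 2 : ℝ) * L ^ e) →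
      (S.card : ℝ) ≤ (D0 / l2 ^ (5 / 4 : ℝ) + C1 * Cs * C ^ (1 / 2 : ℝ)) * (T * ρ1 ^ κ) * L ^ e by
    have hre : ∀ e : ℝ, (D0 / l2 ^ (5 / 4 : ℝ) + C1 * Cs * C ^ (1 / 2 : ℝ)) * (T * ρ1 ^ κ) * L ^ e =
        (D0 / l2 ^ (5 / 4 : ℝ) + C1 * Cs * C ^ (1 / 2 : ℝ)) * (s * t) ^ (3 * d) *
          (ρ2 / ρ1) ^ d * ρ1 ^ κ * L ^ e := by
      intro e
      rw [hT]
      ring
    have hL1 : s1 ≤ s → 1 ≤ L := by
      intro h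
      rw [hL, Real.le_log_iff_exp_le (by linarith)]
      have := Real.exp_one_lt_d9
      linarith
    constructor
    · rw [← hre]
      refine hkey (5 / 4) le_rfl (by norm_num) fun U hU hss => ?_
      obtain ⟨g1, -⟩ := hcs s t ρ1 ρ2 (by linarith) hR hρ U hU
      rw [← hL] at g1
      calc _ ≤ (Cs * t ^ (3 * d) * (ρ2 / ρ1) ^ d * ρ1 ^ (1 / 2 : ℝ) * L) * L ^ ε :=
            mul_le_mul_of_nonneg_right g1 (Real.rpow_nonneg hL0.le _)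
        _ = Cs * t ^ (3 * d) * (ρ2 / ρ1) ^ d * ρ1 ^ (1 / 2 : ℝ) * L ^ (1 + ε) := by
            rw [Real.rpow_add hL0, Real.rpow_one]
            ring
        _ ≤ _ := by
            refine mul_le_mul_of_nonneg_left ?_ (by positivity)
            exact Real.rpow_le_rpow_of_exponent_le (hL1 hss) (by linarith)
    · intro hexp
      rw [← hre]
      refine hkey (7 / 8) (by norm_num) (by norm_num) fun U hU hss => ?_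
      obtain ⟨-, g1⟩ := hcs s t ρ1 ρ2 (by linarith) hR hρ U hU
      rw [← hL] at g1
      calc _ ≤ (Cs * t ^ (3 * d) * (ρ2 / ρ1) ^ d * ρ1 ^ (1 / 2 : ℝ) * L ^ (3 / 4 + 1 / 100 : ℝ)) *
            L ^ ε := mul_le_mul_of_nonneg_right (g1 hexp) (Real.rpow_nonneg hL0.le _)
        _ = Cs * t ^ (3 * d) * (ρ2 / ρ1) ^ d * ρ1 ^ (1 / 2 : ℝ) * L ^ (3 / 4 + 1 / 100 + ε) := by
            rw [Real.rpow_add hL0 (3 / 4 + 1 / 100)]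
            ring
        _ ≤ _ := by
            refine mul_le_mul_of_nonneg_left ?_ (by positivity)
            exact Real.rpow_le_rpow_of_exponent_le (hL1 hss) (by linarith)
  intro e he he0 hU
  have hmain : ∀ X : ℝ, (S.card : ℝ) ≤ X * (T * ρ1 ^ κ) → X ≤ D0 →
      (S.card : ℝ) ≤ (D0 / l2 ^ (5 / 4 : ℝ) + C1 * Cs * C ^ (1 / 2 : ℝ)) * (T * ρ1 ^ κ) * L ^ e := by
    intro X hX hXD
    have g1 := hlog e he he0 D0 hD00.le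
    have g2 : 0 ≤ C1 * Cs * C ^ (1 / 2 : ℝ) * (T * ρ1 ^ κ) * L ^ e := by positivity
    calc (S.card : ℝ) ≤ X * (T * ρ1 ^ κ) := hX
      _ ≤ (D0 / l2 ^ (5 / 4 : ℝ) * L ^ e) * (T * ρ1 ^ κ) :=
          mul_le_mul_of_nonneg_right (hXD.trans g1) hZ0
      _ ≤ _ := by
          have : (D0 / l2 ^ (5 / 4 : ℝ) + C1 * Cs * C ^ (1 / 2 : ℝ)) * (T * ρ1 ^ κ) * L ^ e =
            (D0 / l2 ^ (5 / 4 : ℝ) * L ^ e) * (T * ρ1 ^ κ) +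
              C1 * Cs * C ^ (1 / 2 : ℝ) * (T * ρ1 ^ κ) * L ^ e := by ring
          linarith
  have hpos1 : 0 ≤ C2 * s1 ^ (1 / 400 : ℝ) * C ^ (3 / 2 * (d : ℝ)) := by positivity
  have hpos2 : 0 ≤ C2 * C ^ (3 / 2 * (d : ℝ) - 1 / 2) := by positivity
  by_cases hss : s < s1
  · -- small `s`
    refine hmain (C2 * s1 ^ (1 / 400 : ℝ) * C ^ (3 / 2 * (d : ℝ))) ?_ (by rw [hD0]; linarith)
    have g1 := hg s t ρ1 ρ2 hR hρ S hS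
    have g2 : ρ1 ^ (3 / 2 * (d : ℝ)) ≤ C ^ (3 / 2 * (d : ℝ)) * ρ1 ^ κ :=
      blk_pow hC hρ0 hρC hκ0.le (by nlinarith)
    have g3 : s ^ (1 / 400 : ℝ) ≤ s1 ^ (1 / 400 : ℝ) := Real.rpow_le_rpow hs0.le hss.le (by norm_num)
    calc (S.card : ℝ) ≤ C2 * s ^ (1 / 400 : ℝ) * T * ρ1 ^ (3 / 2 * (d : ℝ)) := by
          rw [hT]
          linarith
      _ ≤ C2 * s1 ^ (1 / 400 : ℝ) * T * (C ^ (3 / 2 * (d : ℝ)) * ρ1 ^ κ) := by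
          gcongr
      _ = _ := by ring
  push Not at hss
  have hs1' : 1 ≤ s := by linarith
  by_cases hth : ρ1 < s ^ (-(1 / 200) : ℝ)
  · refine hmain (C2 * C ^ (3 / 2 * (d : ℝ) - 1 / 2)) ?_ (by rw [hD0]; linarith)
    have g1 := hg s t ρ1 ρ2 hR hρ S hS
    have g2 : ρ1 ^ (3 / 2 * (d : ℝ) - 1 / 2) ≤ C ^ (3 / 2 * (d : ℝ) - 1 / 2) * ρ1 ^ κ :=
      blk_pow hC hρ0 hρC hκ0.le (by nlinarith)
    have g3 : s ^ (1 / 400 : ℝ) ≤ ρ1 ^ (-(1 / 2) : ℝ) := by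
      have e1 : s ^ (1 / 400 : ℝ) = (s ^ (-(1 / 200) : ℝ)) ^ (-(1 / 2) : ℝ) := by
        rw [← Real.rpow_mul hs0.le]
        norm_num
      rw [e1]
      exact Real.rpow_le_rpow_of_nonpos hρ0 hth.le (by norm_num)
    have g4 : ρ1 ^ (-(1 / 2) : ℝ) * ρ1 ^ (3 / 2 * (d : ℝ)) = ρ1 ^ (3 / 2 * (d : ℝ) - 1 / 2) := by
      rw [← Real.rpow_add hρ0]
      congr 1
      ring
    calc (S.card : ℝ) ≤ C2 * s ^ (1 / 400 : ℝ) * T * ρ1 ^ (3 / 2 * (d : ℝ)) := by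
          rw [hT]
          linarith
      _ ≤ C2 * ρ1 ^ (-(1 / 2) : ℝ) * T * ρ1 ^ (3 / 2 * (d : ℝ)) := by gcongr
      _ = C2 * T * ρ1 ^ (3 / 2 * (d : ℝ) - 1 / 2) := by
          rw [← g4]
          ring
      _ ≤ C2 * T * (C ^ (3 / 2 * (d : ℝ) - 1 / 2) * ρ1 ^ κ) := by gcongr
      _ = _ := by ring
  push Not at hth
  -- the three parts
  obtain ⟨Sa, hSa⟩ : ∃ Sa : Finset (𝓞 K × 𝓞 K × Blk (𝓞 K)),
    Sa = S.filter (fun x => x.2.2.b1 = 0 ∨ ¬ Ndg s (tb x.2.2)) := ⟨_, rfl⟩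
  obtain ⟨Sb, hSb⟩ : ∃ Sb : Finset (𝓞 K × 𝓞 K × Blk (𝓞 K)),
    Sb = S.filter (fun x => x.2.2.b1 ≠ 0 ∧ s ^ ((d : ℝ) / 10) < ni (cn (tc x.2.2))) := ⟨_, rfl⟩
  obtain ⟨Sc, hSc⟩ : ∃ Sc : Finset (𝓞 K × 𝓞 K × Blk (𝓞 K)),
    Sc = S.filter (fun x => Ndg s (tb x.2.2) ∧ ni (cn (tc x.2.2)) ≤ s ^ ((d : ℝ) / 10)) := ⟨_, rfl⟩
  have hcov : S ⊆ Sa ∪ Sb ∪ Sc := by
    intro x hx
    rw [hSa, hSb, hSc]
    simp only [Finset.mem_union, Finset.mem_filter]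
    by_cases g1 : x.2.2.b1 = 0 ∨ ¬ Ndg s (tb x.2.2)
    · exact Or.inl (Or.inl ⟨hx, g1⟩)
    · push Not at g1
      by_cases g2 : s ^ ((d : ℝ) / 10) < ni (cn (tc x.2.2))
      · exact Or.inl (Or.inr ⟨hx, g1.1, g2⟩)
      · exact Or.inr ⟨hx, g1.2, not_lt.1 g2⟩
  have hcard : (S.card : ℝ) ≤ Sa.card + Sb.card + Sc.card := by
    have g1 := (Finset.card_le_card hcov).trans ((Finset.card_union_le _ _).trans
      (Nat.add_le_add_right (Finset.card_union_le _ _) _))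
    exact_mod_cast g1
  have ca : (Sa.card : ℝ) ≤ Ca * (T * ρ1 ^ κ) := by
    have g1 := hba s t ρ1 ρ2 hs1' hR hρ hth Sa (fun x hx => by
      rw [hSa, Finset.mem_filter] at hx
      exact ⟨hS x hx.1, hx.2⟩)
    have g2 := blk_sav hs1' hth hκ0.le hκ1'
    calc (Sa.card : ℝ) ≤ Ca * T * s ^ (-κ1) := by
          rw [hT]
          linarith
      _ ≤ Ca * T * ρ1 ^ κ := by gcongr
      _ = _ := by ring
  have cb : (Sb.card : ℝ) ≤ Cb * (T * ρ1 ^ κ) := by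
    have g1 := hbb s t ρ1 ρ2 hs1' hR hρ hth Sb (fun x hx => by
      rw [hSb, Finset.mem_filter] at hx
      exact ⟨hS x hx.1, hx.2.1, hx.2.2⟩)
    have g2 := blk_sav hs1' hth hκ0.le hκ2'
    calc (Sb.card : ℝ) ≤ Cb * T * s ^ (-κ2) := by
          rw [hT]
          linarith
      _ ≤ Cb * T * ρ1 ^ κ := by gcongr
      _ = _ := by ring
  have cc : (Sc.card : ℝ) ≤ C1 * Cs * C ^ (1 / 2 : ℝ) * (T * ρ1 ^ κ) * L ^ e := by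
    obtain ⟨G, hG⟩ : ∃ G : Finset (T3 K), G = Sc.image (fun x => tc x.2.2) := ⟨_, rfl⟩
    have g0 : (Sc.card : ℝ) = ∑ c ∈ G, ((Sc.filter (fun x => tc x.2.2 = c)).card : ℝ) := by
      rw [hG]
      have := Finset.card_eq_sum_card_image (fun x : 𝓞 K × 𝓞 K × Blk (𝓞 K) => tc x.2.2) Sc
      exact_mod_cast this
    have gG : ∀ c ∈ G, Bx C t ρ1 ρ2 c ∧ dt c ≠ 0 := by
      intro c hc
      rw [hG, Finset.mem_image] at hc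
      obtain ⟨x, hx, rfl⟩ := hc
      rw [hSc, Finset.mem_filter] at hx
      obtain ⟨-, hM', -, -⟩ := hS x hx.1
      exact ⟨⟨hM'.1.sc1, hM'.1.sc2, hM'.1.sc3⟩, hM'.2.2.2.1⟩
    have g1 : ∀ c ∈ G, ((Sc.filter (fun x => tc x.2.2 = c)).card : ℝ) ≤
        C1 * s ^ (3 * d) * ((ρ1 * ρ2) ^ (7 / 5 * (d : ℝ)) * ρ1 ^ (-(2 / 5) * (d : ℝ))) * L ^ ε *
          (ni (cn c) ^ (1 + ε) * Wt (4 / 5) t c * Hc m (2 + s) (dt c)) := by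
      intro c hc
      have hc' := hc
      rw [hG, Finset.mem_image] at hc'
      obtain ⟨x, hx, hxc⟩ := hc'
      rw [hSc, Finset.mem_filter] at hx
      rw [hL]
      refine hbs s t ρ1 ρ2 hss hR hρ hth c (by rw [← hxc]; exact hx.2.2) _ fun y hy => ?_
      obtain ⟨hy1, hy2⟩ := Finset.mem_filter.1 hy
      rw [hSc, Finset.mem_filter] at hy1
      exact ⟨hS y hy1.1, hy2, hy1.2.1⟩
    have g2 := hU G gG hss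
    have g3 : ρ1 ^ (1 / 2 : ℝ) ≤ C ^ (1 / 2 : ℝ) * ρ1 ^ κ := blk_pow hC hρ0 hρC hκ0.le hκh
    calc (Sc.card : ℝ) ≤ ∑ c ∈ G, C1 * s ^ (3 * d) *
          ((ρ1 * ρ2) ^ (7 / 5 * (d : ℝ)) * ρ1 ^ (-(2 / 5) * (d : ℝ))) * L ^ ε *
          (ni (cn c) ^ (1 + ε) * Wt (4 / 5) t c * Hc m (2 + s) (dt c)) := by
          rw [g0]
          exact Finset.sum_le_sum g1
      _ = C1 * s ^ (3 * d) * ((∑ c ∈ G, ni (cn c) ^ (1 + ε) * Wt (4 / 5) t c *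
            Hc m (2 + s) (dt c)) * ((ρ1 * ρ2) ^ (7 / 5 * (d : ℝ)) * ρ1 ^ (-(2 / 5) * (d : ℝ))) *
              L ^ ε) := by
          rw [← Finset.mul_sum]
          ring
      _ ≤ C1 * s ^ (3 * d) * (Cs * t ^ (3 * d) * (ρ2 / ρ1) ^ d * ρ1 ^ (1 / 2 : ℝ) * L ^ e) := by
          refine mul_le_mul_of_nonneg_left g2 (by positivity)
      _ = C1 * Cs * T * L ^ e * ρ1 ^ (1 / 2 : ℝ) := by
          rw [hT, mul_pow]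
          ring
      _ ≤ C1 * Cs * T * L ^ e * (C ^ (1 / 2 : ℝ) * ρ1 ^ κ) := by
          refine mul_le_mul_of_nonneg_left g3 (by positivity)
      _ = _ := by ring
  have g5 := hlog e he he0 (Ca + Cb) (by linarith)
  have g6 : (Ca + Cb) / l2 ^ (5 / 4 : ℝ) * L ^ e ≤ D0 / l2 ^ (5 / 4 : ℝ) * L ^ e := by
    have : Ca + Cb ≤ D0 := by
      rw [hD0]
      linarith
    gcongr
  calc (S.card : ℝ) ≤ Sa.card + Sb.card + Sc.card := hcard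
    _ ≤ (Ca + Cb) * (T * ρ1 ^ κ) + C1 * Cs * C ^ (1 / 2 : ℝ) * (T * ρ1 ^ κ) * L ^ e := by linarith
    _ ≤ (D0 / l2 ^ (5 / 4 : ℝ) * L ^ e) * (T * ρ1 ^ κ) +
          C1 * Cs * C ^ (1 / 2 : ℝ) * (T * ρ1 ^ κ) * L ^ e := by
        have := mul_le_mul_of_nonneg_right (g5.trans g6) hZ0
        linarith
    _ = _ := by ring

end H88.WS
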