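import Pool.Agent.H88.WS.Ids

/-!
# [H88 WS BS] `BsStmt` from `CntStmt`, `Bf1Stmt`, `Bf2Stmt` (W1#, MP_b39724)

PROOF. `d = [K : ℚ]`, `L = log (2 + s) ≥ 1` (`s ≥ 3`). `M` given, `m` from `CntStmt`; `C, A, ε` given. `B = 6 (d + 2)`, `μ = L^(-B)` (`≤ 1`).
`S` may be assumed nonempty; then `c = tc β` for a block with `Main`, so `Bx C t ρ1 ρ2 c` (by `Sz`), `dt c = D3 ≠ 0`, `cn c ≠ ⊥`, `1 ≤ ni (cn c)`. For every block `β` occurring in `S`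
let `h(β)` be the ideal of `CntStmt` (`choose`; depends on `β` only), `b = tb β`; `β` is determined by `b` (`tc β = c`, `tbc_inj`).
`ni h ≤ ni (cn b) ≤ s^(d/50)` (`Ndg`; `cn b ≤ h` by `cn_le`, `cn b ≠ ⊥`), `h` coprime to `cn c`, `β.E = Ec c b ≠ 0`, `β.D1 = dt b`.
`S.card = ∑_β n(β)`, `n(β)` = number of `(u, v)` with `(u, v, β) ∈ S`. Call `β` good if the condition of the second bound of `CntStmt` holds with `μ`.
GOOD: `n(β) ≤ C1 Fc m (dt c) h (Ec c b) (1 + log (1/μ))^d (2 + ρ2)^(d/20) (ni h Wt (4/5) s b) (ni (cn c) Wt (4/5) t c)`. Group the good `β` by `h`: for every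
ideal `h` the set of the `b` with `h(β) = h` satisfies the hypotheses of `Bf1Stmt` (`ε`): `∑ Fc Wt (4/5) ≤ C2 s^(3d) (ρ1 ρ2)^(7d/5) (ni h)⁻¹^3 ni (cn c)^ε L^ε Hc`. Sum over `h`
(a finite set of nonzero ideals) of `ni h * (ni h)⁻¹^3 = ni(h)^(-2)`: `≤ C3` (`ids_conv`, `a = 2`). `(1 + log (1/μ))^d = (1 + B log L)^d ≤ C4 L^ε`;
`(2 + ρ2)^(d/20) ≤ C5 ρ1^(-d/40) ≤ C6 ρ1^(-2d/5)` (`ρ2^2 ≤ C/ρ1`, `ρ1 ≤ C`, so `2 + ρ2 ≤ C' ρ1^(-1/2)`). Total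
`≤ C7 s^(3d) (ρ1 ρ2)^(7d/5) ρ1^(-2d/5) L^(2 ε) (ni (cn c)^(1 + ε) Wt (4/5) t c Hc)`: use `ε/2` instead of `ε` at the beginning (`ni (cn c)^(ε/2) ≤ ni (cn c)^ε`).
BAD: (not good: for some `φ` one of the two is `<`): first bound of `CntStmt`: factor `L^d`, weights `3/4`; `Bf2Stmt` with this `B`:
`∑_b Fc Wt (3/4) s b ≤ C8 s^(3d) (ρ1 ρ2)^(3d/2) μ^(1/6) ρ1^(-1/3) (ni h)⁻¹^3 ni (cn c)^ε L^ε Hc`; `L^d μ^(1/6) = L^(d - (d + 2)) ≤ 1`; sum over `h` as before;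
`Wt (3/4) t c ≤ C9 Wt (4/5) t c` since `|dt c|_φ/t^2 ≤ 2 C^2 (ρ1 ρ2)^2 ≤ 2 C^4` (`(ρ1 ρ2)^2 = ρ1 (ρ1 ρ2^2)`) and `x^(-3/4) = x^(1/20) x^(-4/5)`;
`(ρ1 ρ2)^(3d/2) ρ1^(-1/3) ≤ C10 (ρ1 ρ2)^(7d/5) ρ1^(-2d/5)` (`ρ1 ρ2 ≤ C`, `ρ1 ≤ C`, `1/3 ≤ 2d/5`). Sum of the two parts.
-/

open scoped NumberField
open H88.A4 Pool.Agent.H67.WA

noncomputable section

namespace H88.WS

variable (K : Type) [Field K] [NumberField K]

private theorem bs_log (d : ℕ) (B : ℝ) (hB : 0 ≤ B) (ε : ℝ) (hε : 0 < ε) :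
    ∃ C : ℝ, 0 < C ∧ ∀ L : ℝ, 1 ≤ L → (1 + B * Real.log L) ^ d ≤ C * L ^ ε := by
  have hd : (0 : ℝ) < (d : ℝ) + 1 := by positivity
  have hδ : 0 < ε / ((d : ℝ) + 1) := by positivity
  refine ⟨(1 + B / (ε / ((d : ℝ) + 1))) ^ d, by positivity, fun L hL => ?_⟩
  have hL0 : 0 < L := by linarith
  have h1 : Real.log L ≤ L ^ (ε / ((d : ℝ) + 1)) / (ε / ((d : ℝ) + 1)) := Real.log_le_rpow_div hL0.le hδ
  have h2 : 1 ≤ L ^ (ε / ((d : ℝ) + 1)) := Real.one_le_rpow hL hδ.le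
  have h3 : 0 ≤ Real.log L := Real.log_nonneg hL
  have h4 : 1 + B * Real.log L ≤ (1 + B / (ε / ((d : ℝ) + 1))) * L ^ (ε / ((d : ℝ) + 1)) := by
    have h5 : B * Real.log L ≤ B * (L ^ (ε / ((d : ℝ) + 1)) / (ε / ((d : ℝ) + 1))) :=
      mul_le_mul_of_nonneg_left h1 hB
    calc 1 + B * Real.log L ≤ L ^ (ε / ((d : ℝ) + 1)) + B * (L ^ (ε / ((d : ℝ) + 1)) / (ε / ((d : ℝ) + 1))) := by
          linarith
      _ = (1 + B / (ε / ((d : ℝ) + 1))) * L ^ (ε / ((d : ℝ) + 1)) := by ring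
  calc (1 + B * Real.log L) ^ d ≤ ((1 + B / (ε / ((d : ℝ) + 1))) * L ^ (ε / ((d : ℝ) + 1))) ^ d :=
        pow_le_pow_left₀ (by positivity) h4 d
    _ = (1 + B / (ε / ((d : ℝ) + 1))) ^ d * L ^ (ε / ((d : ℝ) + 1) * d) := by
        rw [mul_pow, ← Real.rpow_natCast (L ^ _) d, ← Real.rpow_mul hL0.le]
    _ ≤ (1 + B / (ε / ((d : ℝ) + 1))) ^ d * L ^ ε := by
        refine mul_le_mul_of_nonneg_left (Real.rpow_le_rpow_of_exponent_le hL ?_) (by positivity)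
        rw [div_mul_eq_mul_div, div_le_iff₀ hd]
        nlinarith

private theorem bs_rho2 {C ρ1 ρ2 : ℝ} (hC : 1 ≤ C) (hr : Rho C ρ1 ρ2) (d : ℝ) (hd : 0 ≤ d) :
    (2 + ρ2) ^ (d / 20) ≤ ((3 : ℝ) ^ (d / 20) * C ^ (2 / 5 * d)) * ρ1 ^ (-(2 / 5) * d) := by
  obtain ⟨h1, h2, h3, h4⟩ := hr
  have hC0 : 0 < C := by linarith
  have h5 : 1 ≤ C / ρ1 := by rwa [one_le_div h1]
  have h6 : ρ2 ^ 2 ≤ C / ρ1 := by
    rw [le_div_iff₀ h1]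
    linarith
  have hρ2 : 0 < ρ2 := by linarith
  have h7 : 2 + ρ2 ≤ 3 * (C / ρ1) ^ (1 / 2 : ℝ) := by
    have h8 : 1 ≤ (C / ρ1) ^ (1 / 2 : ℝ) := Real.one_le_rpow h5 (by norm_num)
    have h9 : ρ2 ≤ (C / ρ1) ^ (1 / 2 : ℝ) := by
      rw [← Real.sqrt_eq_rpow]
      exact Real.le_sqrt_of_sq_le h6
    linarith
  have h10 : 0 < C / ρ1 := by linarith
  calc (2 + ρ2) ^ (d / 20) ≤ (3 * (C / ρ1) ^ (1 / 2 : ℝ)) ^ (d / 20) :=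
        Real.rpow_le_rpow (by linarith) h7 (by positivity)
    _ = 3 ^ (d / 20) * (C / ρ1) ^ (1 / 2 * (d / 20)) := by
        rw [Real.mul_rpow (by norm_num) (by positivity), ← Real.rpow_mul h10.le]
    _ ≤ 3 ^ (d / 20) * (C / ρ1) ^ (2 / 5 * d) := by
        refine mul_le_mul_of_nonneg_left (Real.rpow_le_rpow_of_exponent_le h5 (by linarith)) (by positivity)
    _ = ((3 : ℝ) ^ (d / 20) * C ^ (2 / 5 * d)) * ρ1 ^ (-(2 / 5) * d) := by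
        have e : ρ1 ^ (-(2 / 5) * d) = (ρ1 ^ (2 / 5 * d))⁻¹ := by
          rw [← Real.rpow_neg h1.le]
          congr 1
          ring
        rw [e, Real.div_rpow hC0.le h1.le, div_eq_mul_inv (C ^ (2 / 5 * d)), mul_assoc]

private theorem bs_mu (d : ℕ) (L : ℝ) (hL : 1 ≤ L) :
    L ^ d * ((L ^ (6 * (d + 2)))⁻¹) ^ (1 / 6 : ℝ) ≤ 1 := by
  have hL0 : 0 < L := by linarith
  have e : ((L ^ (6 * (d + 2)))⁻¹) ^ (1 / 6 : ℝ) = (L ^ (d + 2))⁻¹ := by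
    rw [Real.inv_rpow (by positivity), ← Real.rpow_natCast L (6 * (d + 2)), ← Real.rpow_mul hL0.le,
      ← Real.rpow_natCast L (d + 2)]
    congr 2
    push_cast
    ring
  rw [e, mul_inv_le_iff₀ (by positivity), one_mul]
  exact pow_le_pow_right₀ hL (by omega)

variable {K} in
private theorem bs_wt {C t ρ1 ρ2 : ℝ} (hC : 1 ≤ C) (ht : 0 < t) (hr : Rho C ρ1 ρ2) {c : T3 K}
    (hb : Bx C t ρ1 ρ2 c) (hc : dt c ≠ 0) :
    Wt (3 / 4) t c ≤ ((2 * C ^ 4) ^ (1 / 20 : ℝ)) ^ Module.finrank ℚ K * Wt (4 / 5) t c := by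
  obtain ⟨h1, h2, h3, h4⟩ := hr
  have hC0 : 0 < C := by linarith
  have hρ2 : 0 < ρ2 := by linarith
  have h5 : (ρ1 * ρ2) ^ 2 ≤ C ^ 2 := by
    have e : (ρ1 * ρ2) ^ 2 = ρ1 * (ρ1 * ρ2 ^ 2) := by ring
    rw [e, pow_two C]
    exact mul_le_mul h3 h4 (by positivity) hC0.le
  rw [← vol_const (K := K)]
  unfold Wt vol
  rw [← Finset.prod_mul_distrib]
  refine Finset.prod_le_prod (fun φ _ => Real.rpow_nonneg (div_nonneg (sz_nonneg _ _) (by positivity)) _) fun φ _ => ?_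
  have hx : 0 < sz φ (dt c) / t ^ 2 := div_pos (sz_pos φ hc) (by positivity)
  have hle : sz φ (dt c) / t ^ 2 ≤ 2 * C ^ 4 := by
    rw [div_le_iff₀ (by positivity)]
    have a1 : sz φ c.1 ≤ C * t * ρ1 ^ 2 := hb.1 φ
    have a2 : sz φ c.2.1 ≤ C * t * (ρ1 * ρ2) := hb.2.1 φ
    have a3 : sz φ c.2.2 ≤ C * t * ρ2 ^ 2 := hb.2.2 φ
    have a4 : sz φ (dt c) ≤ sz φ c.1 * sz φ c.2.2 + sz φ c.2.1 ^ 2 := by
      unfold dt
      rw [← sz_mul, ← sz_pow]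
      exact sz_sub φ _ _
    have a5 : sz φ c.1 * sz φ c.2.2 ≤ (C * t * ρ1 ^ 2) * (C * t * ρ2 ^ 2) :=
      mul_le_mul a1 a3 (sz_nonneg _ _) (by positivity)
    have a6 : sz φ c.2.1 ^ 2 ≤ (C * t * (ρ1 * ρ2)) ^ 2 := pow_le_pow_left₀ (sz_nonneg _ _) a2 2
    calc sz φ (dt c) ≤ (C * t * ρ1 ^ 2) * (C * t * ρ2 ^ 2) + (C * t * (ρ1 * ρ2)) ^ 2 := by linarith
      _ = 2 * C ^ 2 * t ^ 2 * (ρ1 * ρ2) ^ 2 := by ring
      _ ≤ 2 * C ^ 2 * t ^ 2 * C ^ 2 := mul_le_mul_of_nonneg_left h5 (by positivity)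
      _ = 2 * C ^ 4 * t ^ 2 := by ring
  have e : (sz φ (dt c) / t ^ 2) ^ (-(3 / 4) : ℝ) =
      (sz φ (dt c) / t ^ 2) ^ (1 / 20 : ℝ) * (sz φ (dt c) / t ^ 2) ^ (-(4 / 5) : ℝ) := by
    rw [← Real.rpow_add hx]
    norm_num
  rw [e]
  exact mul_le_mul_of_nonneg_right (Real.rpow_le_rpow hx.le hle (by norm_num)) (Real.rpow_nonneg hx.le _)

private theorem bs_rho3 {C ρ1 ρ2 : ℝ} (hC : 1 ≤ C) (hr : Rho C ρ1 ρ2) (d : ℝ) (hd : 1 ≤ d) :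
    (ρ1 * ρ2) ^ (3 / 2 * d) * ρ1 ^ (-(1 / 3) : ℝ) ≤
      (C ^ (d / 10) * C ^ (2 / 5 * d - 1 / 3)) * ((ρ1 * ρ2) ^ (7 / 5 * d) * ρ1 ^ (-(2 / 5) * d)) := by
  obtain ⟨h1, h2, h3, h4⟩ := hr
  have hC0 : 0 < C := by linarith
  have hρ2 : 0 < ρ2 := by linarith
  have h5 : (ρ1 * ρ2) ^ 2 ≤ C ^ 2 := by
    have e : (ρ1 * ρ2) ^ 2 = ρ1 * (ρ1 * ρ2 ^ 2) := by ring
    rw [e, pow_two C]
    exact mul_le_mul h3 h4 (by positivity) hC0.le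
  have h6 : ρ1 * ρ2 ≤ C := (pow_le_pow_iff_left₀ (by positivity) hC0.le two_ne_zero).1 h5
  have h7 : 0 < ρ1 * ρ2 := mul_pos h1 hρ2
  have e1 : (ρ1 * ρ2) ^ (3 / 2 * d) = (ρ1 * ρ2) ^ (d / 10) * (ρ1 * ρ2) ^ (7 / 5 * d) := by
    rw [← Real.rpow_add h7]
    congr 1
    ring
  have e2 : ρ1 ^ (-(1 / 3) : ℝ) = ρ1 ^ (2 / 5 * d - 1 / 3) * ρ1 ^ (-(2 / 5) * d) := by
    rw [← Real.rpow_add h1]
    congr 1
    ring
  have h8 : (ρ1 * ρ2) ^ (d / 10) ≤ C ^ (d / 10) := Real.rpow_le_rpow h7.le h6 (by positivity)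
  have h9 : ρ1 ^ (2 / 5 * d - 1 / 3) ≤ C ^ (2 / 5 * d - 1 / 3) := Real.rpow_le_rpow h1.le h3 (by linarith)
  rw [e1, e2]
  calc (ρ1 * ρ2) ^ (d / 10) * (ρ1 * ρ2) ^ (7 / 5 * d) * (ρ1 ^ (2 / 5 * d - 1 / 3) * ρ1 ^ (-(2 / 5) * d))
      = ((ρ1 * ρ2) ^ (d / 10) * ρ1 ^ (2 / 5 * d - 1 / 3)) * ((ρ1 * ρ2) ^ (7 / 5 * d) * ρ1 ^ (-(2 / 5) * d)) := by
        ring
    _ ≤ _ := by
        refine mul_le_mul_of_nonneg_right ?_ (by positivity)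
        exact mul_le_mul h8 h9 (by positivity) (by positivity)

variable {K} in
private theorem bs_group {D : ℝ} (hD : ∀ G : Finset (Ideal (𝓞 K)), (∀ I ∈ G, I ≠ ⊥) → ∑ I ∈ G, ni I ^ (-2 : ℝ) ≤ D)
    {ι : Type} (B : Finset ι) (h : ι → Ideal (𝓞 K)) (F : ι → ℝ) (X : ℝ) (hX : 0 ≤ X) (hh : ∀ β ∈ B, h β ≠ ⊥)
    (hF : ∀ I : Ideal (𝓞 K), I ≠ ⊥ → ∀ B' : Finset ι, B' ⊆ B → B'.Nonempty → (∀ β ∈ B', h β = I) →
      ∑ β ∈ B', F β ≤ X * (ni I)⁻¹ ^ 3) :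
    ∑ β ∈ B, ni (h β) * F β ≤ X * D := by
  classical
  have h1 : ∀ β ∈ B, h β ∈ B.image h := fun β hβ => Finset.mem_image_of_mem h hβ
  rw [← Finset.sum_fiberwise_of_maps_to h1]
  have hne : ∀ I ∈ B.image h, I ≠ ⊥ := by
    intro I hI
    obtain ⟨β, hβ, rfl⟩ := Finset.mem_image.1 hI
    exact hh β hβ
  calc ∑ I ∈ B.image h, ∑ β ∈ B with h β = I, ni (h β) * F β
      ≤ ∑ I ∈ B.image h, X * ni I ^ (-2 : ℝ) := by
        refine Finset.sum_le_sum fun I hI => ?_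
        have h2 : ∑ β ∈ B with h β = I, ni (h β) * F β = ni I * ∑ β ∈ B with h β = I, F β := by
          rw [Finset.mul_sum]
          refine Finset.sum_congr rfl fun β hβ => ?_
          rw [(Finset.mem_filter.1 hβ).2]
        have h3 : 0 < ni I := lt_of_lt_of_le one_pos (one_le_ni (hne I hI))
        obtain ⟨β, hβ, hβI⟩ := Finset.mem_image.1 hI
        have h4 := hF I (hne I hI) (B.filter fun β => h β = I) (Finset.filter_subset _ _)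
          ⟨β, Finset.mem_filter.2 ⟨hβ, hβI⟩⟩ (fun β hβ => (Finset.mem_filter.1 hβ).2)
        rw [h2]
        calc ni I * ∑ β ∈ B with h β = I, F β ≤ ni I * (X * (ni I)⁻¹ ^ 3) := mul_le_mul_of_nonneg_left h4 h3.le
          _ = X * ni I ^ (-2 : ℝ) := by
            rw [Real.rpow_neg h3.le, Real.rpow_two]
            field_simp
    _ = X * ∑ I ∈ B.image h, ni I ^ (-2 : ℝ) := by rw [Finset.mul_sum]
    _ ≤ X * D := mul_le_mul_of_nonneg_left (hD _ hne) hX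

theorem bs_of (h1 : CntStmt K) (h2 : Bf1Stmt K) (h3 : Bf2Stmt K) : BsStmt K := by
  classical
  intro M hM
  obtain ⟨m, hm, hm6, h1⟩ := h1 M hM
  refine ⟨m, hm, hm6, fun C hC A ε hε => ?_⟩
  obtain ⟨C1, hC1, h1⟩ := h1 C hC A
  obtain ⟨C2, s2, hC2, hs2, h2⟩ := h2 m hm hm6 C hC (ε / 2) (by positivity)
  obtain ⟨C3, s3, hC3, hs3, h3⟩ := h3 m hm hm6 C hC (ε / 2) (by positivity) (6 * (Module.finrank ℚ K + 2))
  obtain ⟨C4, hC4, h4⟩ := ids_conv K 2 (by norm_num)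
  obtain ⟨C5, hC5, h5⟩ := bs_log (Module.finrank ℚ K) ((6 * (Module.finrank ℚ K + 2) : ℕ) : ℝ) (by positivity) (ε / 2)
    (by positivity)
  have hd1 : (1 : ℝ) ≤ (Module.finrank ℚ K : ℝ) := by
    exact_mod_cast Nat.one_le_iff_ne_zero.2 (Module.finrank_pos (R := ℚ) (M := K)).ne'
  have hC0 : 0 < C := by linarith
  obtain ⟨C6, hC6, h6⟩ : ∃ C6 : ℝ, 0 < C6 ∧ ∀ ρ1 ρ2 : ℝ, Rho C ρ1 ρ2 → (2 + ρ2) ^ ((Module.finrank ℚ K : ℝ) / 20) ≤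
      C6 * ρ1 ^ (-(2 / 5) * (Module.finrank ℚ K : ℝ)) :=
    ⟨_, by positivity, fun ρ1 ρ2 hr => bs_rho2 hC hr _ (by positivity)⟩
  obtain ⟨C9, hC9, h9⟩ : ∃ C9 : ℝ, 0 < C9 ∧ ∀ (t ρ1 ρ2 : ℝ), 0 < t → Rho C ρ1 ρ2 → ∀ c : T3 K, Bx C t ρ1 ρ2 c →
      dt c ≠ 0 → Wt (3 / 4) t c ≤ C9 * Wt (4 / 5) t c :=
    ⟨_, by positivity, fun t ρ1 ρ2 ht hr c hb hc => bs_wt hC ht hr hb hc⟩
  obtain ⟨C7, hC7, h7⟩ : ∃ C7 : ℝ, 0 < C7 ∧ ∀ ρ1 ρ2 : ℝ, Rho C ρ1 ρ2 →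
      (ρ1 * ρ2) ^ (3 / 2 * (Module.finrank ℚ K : ℝ)) * ρ1 ^ (-(1 / 3) : ℝ) ≤
      C7 * ((ρ1 * ρ2) ^ (7 / 5 * (Module.finrank ℚ K : ℝ)) * ρ1 ^ (-(2 / 5) * (Module.finrank ℚ K : ℝ))) :=
    ⟨_, by positivity, fun ρ1 ρ2 hr => bs_rho3 hC hr _ hd1⟩
  refine ⟨C1 * C5 * C6 * C2 * C4 + C1 * C9 * C3 * C7 * C4, max s2 s3, by positivity, le_max_of_le_left hs2,
    fun s t ρ1 ρ2 hs hrg hr hρ c hcs S hS => ?_⟩
  have hs2' : s2 ≤ s := (le_max_left _ _).trans hs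
  have hs3' : s3 ≤ s := (le_max_right _ _).trans hs
  have hs0 : 3 ≤ s := hs2.trans hs2'
  have hρ1 : 0 < ρ1 := hr.1
  have hρ2 : 0 < ρ2 := lt_of_lt_of_le hr.1 hr.2.1
  have ht : 0 < t := by
    by_contra hcon
    push Not at hcon
    have := hrg.1
    nlinarith
  have hL : 1 ≤ Real.log (2 + s) := by
    rw [Real.le_log_iff_exp_le (by linarith)]
    exact Real.exp_one_lt_d9.le.trans (by norm_num; linarith)
  have hWt : ∀ (θ x : ℝ) (b : T3 K), 0 ≤ Wt θ x b := fun θ x b =>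
    Finset.prod_nonneg fun φ _ => Real.rpow_nonneg (div_nonneg (sz_nonneg _ _) (sq_nonneg _)) _
  have hHc : 0 ≤ Hc m (2 + s) (dt c) := (Real.exp_pos _).le
  rcases S.eq_empty_or_nonempty with rfl | ⟨x0, hx0⟩
  · rw [Finset.card_empty, Nat.cast_zero]
    have a1 := hWt (4 / 5) t c
    have a2 := ni_nonneg (cn c)
    positivity
  have hBx : Bx C t ρ1 ρ2 c := by
    have a1 := (hS x0 hx0).1.2.1.1
    rw [← (hS x0 hx0).2.1]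
    exact ⟨a1.sc1, a1.sc2, a1.sc3⟩
  have hdc : dt c ≠ 0 := by
    rw [← (hS x0 hx0).2.1]
    exact (hS x0 hx0).1.2.1.2.2.2.1
  have hcc : 1 ≤ ni (cn c) := one_le_ni (cn_ne hdc)
  have hL0 : 0 < Real.log (2 + s) := by linarith
  -- the blocks
  obtain ⟨Bk, hBkdef⟩ : ∃ Bk : Finset (Blk (𝓞 K)), Bk = S.image fun x => x.2.2 := ⟨_, rfl⟩
  have hBk : ∀ β ∈ Bk, Main C s t ρ1 ρ2 β ∧ β.All (Bd (Hp C A s)) ∧ tc β = c ∧ Ndg s (tb β) := by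
    intro β hβ
    rw [hBkdef] at hβ
    obtain ⟨x, hx, rfl⟩ := Finset.mem_image.1 hβ
    have a1 := hS x hx
    exact ⟨a1.1.2.1, a1.1.2.2.1, a1.2.1, a1.2.2⟩
  obtain ⟨n, hndef⟩ : ∃ n : Blk (𝓞 K) → Finset (𝓞 K × 𝓞 K), n = fun β =>
      (S.filter fun x => x.2.2 = β).image fun x => (x.1, x.2.1) := ⟨_, rfl⟩
  have hn : (S.card : ℝ) = ∑ β ∈ Bk, ((n β).card : ℝ) := by
    rw [Finset.card_eq_sum_card_image (fun x : 𝓞 K × 𝓞 K × Blk (𝓞 K) => x.2.2) S, Nat.cast_sum, hBkdef]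
    refine Finset.sum_congr rfl fun β _ => ?_
    rw [hndef]
    congr 1
    symm
    refine Finset.card_image_of_injOn ?_
    rintro ⟨u, v, γ⟩ hx ⟨u', v', γ'⟩ hx' he
    have a1 : γ = β := (Finset.mem_filter.1 hx).2
    have a2 : γ' = β := (Finset.mem_filter.1 hx').2
    simp only [Prod.mk.injEq] at he ⊢
    exact ⟨he.1, he.2, a1.trans a2.symm⟩
  have hnS : ∀ β ∈ Bk, ∀ x ∈ n β, Adm M C s t x.1 x.2 ∧ Rep (Hp C A s) β x.1 x.2 := by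
    intro β _ x hx
    rw [hndef] at hx
    obtain ⟨y, hy, rfl⟩ := Finset.mem_image.1 hx
    obtain ⟨hy1, hy2⟩ := Finset.mem_filter.1 hy
    have a1 := hS y hy1
    rw [← hy2]
    exact ⟨a1.1.1, a1.1.2.2.2⟩
  have hex : ∀ β : Blk (𝓞 K), ∃ h : Ideal (𝓞 K), β ∈ Bk → h ≠ ⊥ ∧ IsCoprime h (cn c) ∧
      T3.All (fun x => x ∈ h) (tb β) ∧
      ((n β).card : ℝ) ≤ C1 * Fc m (dt c) h (Ec c (tb β)) * Real.log (2 + s) ^ Module.finrank ℚ K *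
        (ni h * Wt (3 / 4) s (tb β)) * (ni (cn c) * Wt (3 / 4) t c) ∧
      ∀ μ : ℝ, 0 < μ → μ ≤ 1 →
        (∀ φ : K →+* ℂ, μ ^ 2 * (s * sx φ c) ^ 2 ≤ sz φ (Ec c (tb β)) ∧
          μ ^ 2 * (s * sx φ c) ^ 2 ≤ sz φ (dl c (tb β))) →
        ((n β).card : ℝ) ≤ C1 * Fc m (dt c) h (Ec c (tb β)) * (1 + Real.log (1 / μ)) ^ Module.finrank ℚ K *
          (2 + ρ2) ^ ((Module.finrank ℚ K : ℝ) / 20) *
          (ni h * Wt (4 / 5) s (tb β)) * (ni (cn c) * Wt (4 / 5) t c) := by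
    intro β
    by_cases hβ : β ∈ Bk
    · obtain ⟨b1, b2, b3, b4⟩ := hBk β hβ
      obtain ⟨h, g1, g2, g3, g4⟩ := h1 s t ρ1 ρ2 hrg hr β b1 b2
      have g5 := g4 (n β) (hnS β hβ)
      have e1 : β.D3 = dt c := by rw [← b3]; rfl
      have e2 : β.E = Ec c (tb β) := by rw [← b3]; rfl
      rw [e1, e2, b3] at g5
      rw [b3] at g2
      exact ⟨h, fun _ => ⟨g1, g2, g3, g5.1, g5.2⟩⟩
    · exact ⟨⊤, fun h => absurd h hβ⟩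
  choose h hh using hex
  have key : ∀ (I : Ideal (𝓞 K)) (B' : Finset (Blk (𝓞 K))), B' ⊆ Bk → (∀ β ∈ B', h β = I) → ∀ θ : ℝ,
      ∑ β ∈ B', (Fc m (dt c) (h β) (Ec c (tb β)) : ℝ) * Wt θ s (tb β) =
        ∑ b ∈ B'.image tb, (Fc m (dt c) I (Ec c b) : ℝ) * Wt θ s b := by
    intro I B' hB' hI θ
    rw [Finset.sum_image]
    · exact Finset.sum_congr rfl fun β hβ => by rw [hI β hβ]
    · intro β hβ γ hγ he
      exact tbc_inj he (((hBk β (hB' hβ)).2.2.1).trans ((hBk γ (hB' hγ)).2.2.1).symm)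
  have key2 : ∀ (I : Ideal (𝓞 K)) (B' : Finset (Blk (𝓞 K))), B' ⊆ Bk → B'.Nonempty → (∀ β ∈ B', h β = I) →
      IsCoprime I (cn c) ∧ ni I ≤ s ^ ((Module.finrank ℚ K : ℝ) / 50) ∧
      ∀ b ∈ B'.image tb, Bx C s ρ1 ρ2 b ∧ T3.All (fun x => x ∈ I) b ∧
        (∀ φ : K →+* ℂ, s ^ (2 - 1 / 50 : ℝ) ≤ sz φ (dt b)) ∧ Ec c b ≠ 0 := by
    intro I B' hB' hne hI
    have hall : ∀ b ∈ B'.image tb, Bx C s ρ1 ρ2 b ∧ T3.All (fun x => x ∈ I) b ∧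
        (∀ φ : K →+* ℂ, s ^ (2 - 1 / 50 : ℝ) ≤ sz φ (dt b)) ∧ Ec c b ≠ 0 := by
      intro b hb
      obtain ⟨β, hβ, rfl⟩ := Finset.mem_image.1 hb
      obtain ⟨b1, b2, b3, b4⟩ := hBk β (hB' hβ)
      obtain ⟨g1, g2, g3, g4⟩ := hh β (hB' hβ)
      rw [hI β hβ] at g3
      refine ⟨⟨b1.1.sb1, b1.1.sb2, b1.1.sb3⟩, g3, b4.1, ?_⟩
      have e2 : β.E = Ec c (tb β) := by rw [← b3]; rfl
      rw [← e2]
      exact b1.2.2.2.2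
    obtain ⟨β, hβ⟩ := hne
    obtain ⟨b1, b2, b3, b4⟩ := hBk β (hB' hβ)
    obtain ⟨g1, g2, g3, g4⟩ := hh β (hB' hβ)
    rw [hI β hβ] at g1 g2 g3
    refine ⟨g2, ?_, hall⟩
    have e1 : dt (tb β) ≠ 0 := b1.2.2.1
    exact (ni_le_of_le (cn_le g3.1 g3.2.1 g3.2.2) (cn_ne e1)).trans b4.2
  obtain ⟨μ, hμdef⟩ : ∃ μ : ℝ, μ = (Real.log (2 + s) ^ (6 * (Module.finrank ℚ K + 2)))⁻¹ := ⟨_, rfl⟩
  have hμ0 : 0 < μ := by rw [hμdef]; positivity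
  have hμ1 : μ ≤ 1 := by rw [hμdef]; exact inv_le_one_of_one_le₀ (one_le_pow₀ hL)
  have hlogμ : (1 + Real.log (1 / μ)) ^ Module.finrank ℚ K ≤ C5 * Real.log (2 + s) ^ (ε / 2) := by
    rw [hμdef, one_div, inv_inv, Real.log_pow]
    exact h5 _ hL
  have hLL : Real.log (2 + s) ^ (ε / 2) * Real.log (2 + s) ^ (ε / 2) = Real.log (2 + s) ^ ε := by
    rw [← Real.rpow_add hL0]
    congr 1
    ring
  have hLe : Real.log (2 + s) ^ (ε / 2) ≤ Real.log (2 + s) ^ ε :=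
    Real.rpow_le_rpow_of_exponent_le hL (by linarith)
  have hcn0 : 0 < ni (cn c) := by linarith
  have hcn : ni (cn c) * ni (cn c) ^ (ε / 2) ≤ ni (cn c) ^ (1 + ε) := by
    calc ni (cn c) * ni (cn c) ^ (ε / 2) = ni (cn c) ^ (1 + ε / 2) := by
          rw [Real.rpow_add hcn0, Real.rpow_one]
      _ ≤ ni (cn c) ^ (1 + ε) := Real.rpow_le_rpow_of_exponent_le hcc (by linarith)
  have hW4 := hWt (4 / 5) t c
  have hW3 := hWt (3 / 4) t c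
  have hdis : ∀ B' : Finset (Blk (𝓞 K)), B' ⊆ Bk → ∀ β ∈ B', h β ≠ ⊥ := fun B' hB' β hβ => (hh β (hB' hβ)).1
  -- good blocks
  have good : ∀ G : Finset (Blk (𝓞 K)), G ⊆ Bk → (∀ β ∈ G, ∀ φ : K →+* ℂ,
      μ ^ 2 * (s * sx φ c) ^ 2 ≤ sz φ (Ec c (tb β)) ∧ μ ^ 2 * (s * sx φ c) ^ 2 ≤ sz φ (dl c (tb β))) →
      ∑ β ∈ G, ((n β).card : ℝ) ≤ C1 * C5 * C6 * C2 * C4 * (s ^ (3 * Module.finrank ℚ K) *
        ((ρ1 * ρ2) ^ (7 / 5 * (Module.finrank ℚ K : ℝ)) *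
          ρ1 ^ (-(2 / 5) * (Module.finrank ℚ K : ℝ))) * Real.log (2 + s) ^ ε *
        (ni (cn c) ^ (1 + ε) * Wt (4 / 5) t c * Hc m (2 + s) (dt c))) := by
    intro G hG hGood
    have a1 : ∑ β ∈ G, ((n β).card : ℝ) ≤
        (C1 * (1 + Real.log (1 / μ)) ^ Module.finrank ℚ K * (2 + ρ2) ^ ((Module.finrank ℚ K : ℝ) / 20) *
          (ni (cn c) * Wt (4 / 5) t c)) *
        ∑ β ∈ G, ni (h β) * ((Fc m (dt c) (h β) (Ec c (tb β)) : ℝ) * Wt (4 / 5) s (tb β)) := by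
      rw [Finset.mul_sum]
      refine Finset.sum_le_sum fun β hβ => ?_
      refine ((hh β (hG hβ)).2.2.2.2 μ hμ0 hμ1 (hGood β hβ)).trans (le_of_eq ?_)
      ring
    have a2 : ∑ β ∈ G, ni (h β) * ((Fc m (dt c) (h β) (Ec c (tb β)) : ℝ) * Wt (4 / 5) s (tb β)) ≤
        (C2 * s ^ (3 * Module.finrank ℚ K) * (ρ1 * ρ2) ^ (7 / 5 * (Module.finrank ℚ K : ℝ)) *
          ni (cn c) ^ (ε / 2) * Real.log (2 + s) ^ (ε / 2) * Hc m (2 + s) (dt c)) * C4 := by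
      refine bs_group h4 G h _ _ (by positivity) (hdis G hG) fun I hI B' hB' hne hBI => ?_
      rw [key I B' (hB'.trans hG) hBI]
      obtain ⟨k1, k2, k3⟩ := key2 I B' (hB'.trans hG) hne hBI
      refine (h2 s t ρ1 ρ2 hs2' hrg hr hρ c hBx hdc hcs I hI k1 k2 _ k3).trans (le_of_eq ?_)
      ring
    have a3 : C1 * (1 + Real.log (1 / μ)) ^ Module.finrank ℚ K * (2 + ρ2) ^ ((Module.finrank ℚ K : ℝ) / 20) *
          (ni (cn c) * Wt (4 / 5) t c) ≤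
        C1 * (C5 * Real.log (2 + s) ^ (ε / 2)) * (C6 * ρ1 ^ (-(2 / 5) * (Module.finrank ℚ K : ℝ))) *
          (ni (cn c) * Wt (4 / 5) t c) := by
      refine mul_le_mul_of_nonneg_right ?_ (by positivity)
      exact mul_le_mul (mul_le_mul_of_nonneg_left hlogμ hC1.le) (h6 ρ1 ρ2 hr) (by positivity) (by positivity)
    refine a1.trans ?_
    refine (mul_le_mul a3 a2 (Finset.sum_nonneg fun β _ => mul_nonneg (ni_nonneg _)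
      (mul_nonneg (Nat.cast_nonneg _) (hWt _ _ _))) (by positivity)).trans ?_
    calc C1 * (C5 * Real.log (2 + s) ^ (ε / 2)) * (C6 * ρ1 ^ (-(2 / 5) * (Module.finrank ℚ K : ℝ))) *
          (ni (cn c) * Wt (4 / 5) t c) *
        ((C2 * s ^ (3 * Module.finrank ℚ K) * (ρ1 * ρ2) ^ (7 / 5 * (Module.finrank ℚ K : ℝ)) *
          ni (cn c) ^ (ε / 2) * Real.log (2 + s) ^ (ε / 2) * Hc m (2 + s) (dt c)) * C4)
        = C1 * C5 * C6 * C2 * C4 * (s ^ (3 * Module.finrank ℚ K) *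
        ((ρ1 * ρ2) ^ (7 / 5 * (Module.finrank ℚ K : ℝ)) *
          ρ1 ^ (-(2 / 5) * (Module.finrank ℚ K : ℝ))) *
          (Real.log (2 + s) ^ (ε / 2) * Real.log (2 + s) ^ (ε / 2)) *
        ((ni (cn c) * ni (cn c) ^ (ε / 2)) * Wt (4 / 5) t c * Hc m (2 + s) (dt c))) := by ring
      _ ≤ _ := by
        rw [hLL]
        refine mul_le_mul_of_nonneg_left (mul_le_mul_of_nonneg_left ?_ (by positivity)) (by positivity)
        exact mul_le_mul_of_nonneg_right (mul_le_mul_of_nonneg_right hcn hW4) hHc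
  -- bad blocks
  have bad : ∀ G : Finset (Blk (𝓞 K)), G ⊆ Bk → (∀ β ∈ G, ¬ ∀ φ : K →+* ℂ,
      μ ^ 2 * (s * sx φ c) ^ 2 ≤ sz φ (Ec c (tb β)) ∧ μ ^ 2 * (s * sx φ c) ^ 2 ≤ sz φ (dl c (tb β))) →
      ∑ β ∈ G, ((n β).card : ℝ) ≤ C1 * C9 * C3 * C7 * C4 * (s ^ (3 * Module.finrank ℚ K) *
        ((ρ1 * ρ2) ^ (7 / 5 * (Module.finrank ℚ K : ℝ)) *
          ρ1 ^ (-(2 / 5) * (Module.finrank ℚ K : ℝ))) * Real.log (2 + s) ^ ε *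
        (ni (cn c) ^ (1 + ε) * Wt (4 / 5) t c * Hc m (2 + s) (dt c))) := by
    intro G hG hBad
    have a1 : ∑ β ∈ G, ((n β).card : ℝ) ≤
        (C1 * Real.log (2 + s) ^ Module.finrank ℚ K * (ni (cn c) * Wt (3 / 4) t c)) *
        ∑ β ∈ G, ni (h β) * ((Fc m (dt c) (h β) (Ec c (tb β)) : ℝ) * Wt (3 / 4) s (tb β)) := by
      rw [Finset.mul_sum]
      refine Finset.sum_le_sum fun β hβ => ?_
      refine ((hh β (hG hβ)).2.2.2.1).trans (le_of_eq ?_)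
      ring
    have a2 : ∑ β ∈ G, ni (h β) * ((Fc m (dt c) (h β) (Ec c (tb β)) : ℝ) * Wt (3 / 4) s (tb β)) ≤
        (C3 * s ^ (3 * Module.finrank ℚ K) * (ρ1 * ρ2) ^ (3 / 2 * (Module.finrank ℚ K : ℝ)) *
          (μ ^ (1 / 6 : ℝ) * ρ1 ^ (-(1 / 3) : ℝ)) *
          ni (cn c) ^ (ε / 2) * Real.log (2 + s) ^ (ε / 2) * Hc m (2 + s) (dt c)) * C4 := by
      refine bs_group h4 G h _ _ (by positivity) (hdis G hG) fun I hI B' hB' hne hBI => ?_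
      rw [key I B' (hB'.trans hG) hBI]
      obtain ⟨k1, k2, k3⟩ := key2 I B' (hB'.trans hG) hne hBI
      refine (h3 s t ρ1 ρ2 μ hs3' hrg hr hρ hμdef.ge hμ1 c hBx hdc hcs I hI k1 k2 _ fun b hb => ?_).trans
        (le_of_eq ?_)
      · obtain ⟨j1, j2, j3, j4⟩ := k3 b hb
        refine ⟨j1, j2, j3, j4, ?_⟩
        obtain ⟨β, hβ, rfl⟩ := Finset.mem_image.1 hb
        have j5 := hBad β (hB' hβ)
        push Not at j5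
        obtain ⟨φ, hφ⟩ := j5
        refine ⟨φ, ?_⟩
        by_cases h7 : μ ^ 2 * (s * sx φ c) ^ 2 ≤ sz φ (Ec c (tb β))
        · exact Or.inr (hφ h7)
        · exact Or.inl (not_le.1 h7)
      · ring
    refine a1.trans ?_
    refine (mul_le_mul_of_nonneg_left a2 (by positivity)).trans ?_
    have e1 : Real.log (2 + s) ^ Module.finrank ℚ K * μ ^ (1 / 6 : ℝ) ≤ 1 := by
      rw [hμdef]
      exact bs_mu _ _ hL
    have e2 := h9 t ρ1 ρ2 ht hr c hBx hdc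
    have e3 := h7 ρ1 ρ2 hr
    calc C1 * Real.log (2 + s) ^ Module.finrank ℚ K * (ni (cn c) * Wt (3 / 4) t c) *
        ((C3 * s ^ (3 * Module.finrank ℚ K) * (ρ1 * ρ2) ^ (3 / 2 * (Module.finrank ℚ K : ℝ)) *
          (μ ^ (1 / 6 : ℝ) * ρ1 ^ (-(1 / 3) : ℝ)) *
          ni (cn c) ^ (ε / 2) * Real.log (2 + s) ^ (ε / 2) * Hc m (2 + s) (dt c)) * C4)
        = (C1 * C3 * C4 * s ^ (3 * Module.finrank ℚ K) * Hc m (2 + s) (dt c)) *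
          ((Real.log (2 + s) ^ Module.finrank ℚ K * μ ^ (1 / 6 : ℝ)) *
          ((ni (cn c) * ni (cn c) ^ (ε / 2)) * (Wt (3 / 4) t c *
          (((ρ1 * ρ2) ^ (3 / 2 * (Module.finrank ℚ K : ℝ)) * ρ1 ^ (-(1 / 3) : ℝ)) *
          Real.log (2 + s) ^ (ε / 2))))) := by ring
      _ ≤ (C1 * C3 * C4 * s ^ (3 * Module.finrank ℚ K) * Hc m (2 + s) (dt c)) *
          (1 * (ni (cn c) ^ (1 + ε) * ((C9 * Wt (4 / 5) t c) *
          ((C7 * ((ρ1 * ρ2) ^ (7 / 5 * (Module.finrank ℚ K : ℝ)) * ρ1 ^ (-(2 / 5) * (Module.finrank ℚ K : ℝ)))) *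
          Real.log (2 + s) ^ ε)))) := by
        refine mul_le_mul_of_nonneg_left ?_ (by positivity)
        refine mul_le_mul e1 ?_ (by positivity) (by norm_num)
        refine mul_le_mul hcn ?_ (by positivity) (by positivity)
        refine mul_le_mul e2 ?_ (by positivity) (by positivity)
        exact mul_le_mul e3 hLe (by positivity) (by positivity)
      _ = _ := by ring
  rw [hn, ← Finset.sum_filter_add_sum_filter_not Bk (fun β => ∀ φ : K →+* ℂ,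
      μ ^ 2 * (s * sx φ c) ^ 2 ≤ sz φ (Ec c (tb β)) ∧ μ ^ 2 * (s * sx φ c) ^ 2 ≤ sz φ (dl c (tb β)))]
  refine (add_le_add (good _ (Finset.filter_subset _ _) fun β hβ => (Finset.mem_filter.1 hβ).2)
    (bad _ (Finset.filter_subset _ _) fun β hβ => (Finset.mem_filter.1 hβ).2)).trans (le_of_eq ?_)
  ring

end H88.WS
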