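import Pool.Agent.H88.WS.Ib

/-!
# [H88 WS CA] `CaStmt` from `OlAStmt`, `OlZStmt` (W1#, MP_b39724)

PROOF. `θ = 3/4`: `3 - 2 θ = 3/2`, `1 + 2 θ = 5/2`, `d = [K : ℚ]`. If `S` is empty, trivial (`s > 0`). Let `b ∈ S`.
RANGE OF `ρ2`: if some `b ∈ S` has `b1 ≠ 0`: `1 ≤ C s ρ1^2` (some embedding has `‖φ b1‖ ≥ 1`: `nz b1 ≥ 1`, `one_le_nz`), so
`ρ1^(-1) ≤ (C s)^(1/2)`, `ρ2^2 ≤ C / ρ1 ≤ C (C s)^(1/2) ≤ C^2 s * C`.. ; all we need is `ρ2 ≤ C9 s` with a constant `C9 = C9(C)` (use `s ≥ 1/C`).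
If `b1 = 0` then `b2 ≠ 0` (`dt b ≠ 0`) and `1 ≤ C s ρ1 ρ2`; `ρ1 ρ2^2 ≤ C` gives `ρ2 ≤ C * (1 / (ρ1 ρ2)) ≤ C^2 s`. So `OlAStmt`, `OlZStmt` with the
constant `C9 ≥ C` apply (`Bx`, `Rho` are monotone in `C`).
(A) the `b` with `b1 ≠ 0`: `∑ ≤ C' s^ε (s^(3 d) (ρ1 ρ2)^(3 d/2) + s^(5 d/2) ρ1^(2 d))`, `ρ1 ρ2 ≤ C` (`(ρ1 ρ2)^2 = ρ1 (ρ1 ρ2^2) ≤ C^2`), `ρ1 ≤ C`,
`s^(5d/2) ≤ (C s)^(d/2) s^(5d/2)`, `ρ2/ρ1 ≥ 1`: `≤ C'' s^ε s^(3 d) (ρ2/ρ1)^d`.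
(Z) the `b` with `b1 = 0`: `∑ ≤ C' s^ε (s^(2 d) + s^(5 d/2) ρ2^(2 d))`; `s^(2 d) ≤ C^d s^(3 d) ≤ C^d s^(3d) (ρ2/ρ1)^d`; and, with `1 ≤ C s ρ1 ρ2` (if there is such
a `b`): `s^(-1/2) ≤ (C ρ1 ρ2)^(1/2)`: `s^(5 d/2) ρ2^(2 d) ≤ s^(3 d) C^(d/2) (ρ1 ρ2)^(d/2) ρ2^(2 d) = s^(3 d) C^(d/2) (ρ2/ρ1)^d (ρ1 ρ2)^(3 d/2)`
(exponent of `ρ1`: `1/2 = -1 + 3/2`, of `ρ2`: `5/2 = 1 + 3/2`) `≤ C'' s^(3 d) (ρ2/ρ1)^d`. Sum (A) + (Z).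
-/

open scoped NumberField
open H88.A4 Pool.Agent.H67.WA

noncomputable section

namespace H88.WS

section aux

variable {K : Type} [Field K] [NumberField K]

private theorem ca_bd_mono {A B : ℝ} (h : A ≤ B) {x : 𝓞 K} (hx : Bd A x) : Bd B x :=
  fun φ => (hx φ).trans h

private theorem ca_bx_mono {C C9 s ρ1 ρ2 : ℝ} (hC : C ≤ C9) (hs : 0 ≤ s) (h1 : 0 ≤ ρ1) (h2 : 0 ≤ ρ2)
    {b : T3 K} (hb : Bx C s ρ1 ρ2 b) : Bx C9 s ρ1 ρ2 b := by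
  refine ⟨ca_bd_mono ?_ hb.1, ca_bd_mono ?_ hb.2.1, ca_bd_mono ?_ hb.2.2⟩ <;> gcongr

/-- a nonzero integer is at least `1` at some place -/
private theorem ca_one {R : ℝ} {x : 𝓞 K} (hx : x ≠ 0) (h : Bd R x) : 1 ≤ R := by
  have h1 := one_le_nz hx
  have h2 : nz x ≤ vol (fun _ : K →+* ℂ => R) := nz_le_vol fun φ => h φ
  rw [vol_const] at h2
  have hR : 0 ≤ R := by
    obtain ⟨φ⟩ : Nonempty (K →+* ℂ) := inferInstance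
    exact (norm_nonneg _).trans (h φ)
  by_contra hlt
  push Not at hlt
  have h3 : R ^ Module.finrank ℚ K < 1 := pow_lt_one₀ hR hlt Module.finrank_pos.ne'
  linarith

end aux

private theorem ca_half {x : ℝ} (hx : 0 ≤ x) (k d : ℕ) {e : ℝ} (he : e = (k : ℝ) / 2) :
    x ^ (e * (d : ℝ)) = (Real.sqrt x ^ k) ^ d := by
  rw [← pow_mul, Real.sqrt_eq_rpow, ← Real.rpow_natCast (x ^ (1 / 2 : ℝ)), ← Real.rpow_mul hx, he]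
  congr 1
  push_cast
  ring

/-- the real inequalities -/
private theorem ca_real {C s ρ1 ρ2 : ℝ} (hC : 1 ≤ C) (hs : 1 ≤ C * s) (hρ : H88.A4.Rho C ρ1 ρ2) :
    (s ^ 3 * Real.sqrt (ρ1 * ρ2) ^ 3 ≤ C ^ 4 * s ^ 3 * (ρ2 / ρ1)) ∧
    (Real.sqrt s ^ 5 * ρ1 ^ 2 ≤ C ^ 4 * s ^ 3 * (ρ2 / ρ1)) ∧
    (s ^ 2 ≤ C ^ 4 * s ^ 3 * (ρ2 / ρ1)) ∧
    (1 ≤ C * s * (ρ1 * ρ2) → Real.sqrt s ^ 5 * ρ2 ^ 2 ≤ C ^ 4 * s ^ 3 * (ρ2 / ρ1)) := by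
  obtain ⟨h1, h2, h3, h4⟩ := hρ
  have hC0 : 0 < C := by linarith
  have hs0 : 0 < s := by
    by_contra hn
    push Not at hn
    nlinarith
  have h2' : 0 < ρ2 := lt_of_lt_of_le h1 h2
  have hq : 1 ≤ ρ2 / ρ1 := by rwa [le_div_iff₀ h1, one_mul]
  have hp : ρ1 * ρ2 ≤ C := by
    have h5 : (ρ1 * ρ2) ^ 2 ≤ C ^ 2 := by
      calc (ρ1 * ρ2) ^ 2 = ρ1 * (ρ1 * ρ2 ^ 2) := by ring
        _ ≤ C * C := mul_le_mul h3 h4 (by positivity) hC0.le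
        _ = C ^ 2 := by ring
    exact le_of_pow_le_pow_left₀ two_ne_zero hC0.le h5
  obtain ⟨σ, hσ⟩ : ∃ σ : ℝ, σ = Real.sqrt s := ⟨_, rfl⟩
  have hσ0 : 0 < σ := by rw [hσ]; exact Real.sqrt_pos.2 hs0
  have hσ2 : σ ^ 2 = s := by rw [hσ]; exact Real.sq_sqrt hs0.le
  obtain ⟨τ, hτ⟩ : ∃ τ : ℝ, τ = Real.sqrt (ρ1 * ρ2) := ⟨_, rfl⟩
  have hτ0 : 0 < τ := by rw [hτ]; exact Real.sqrt_pos.2 (by positivity)
  have hτ2 : τ ^ 2 = ρ1 * ρ2 := by rw [hτ]; exact Real.sq_sqrt (by positivity)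
  have hτC : τ ≤ C := by
    refine le_of_pow_le_pow_left₀ two_ne_zero hC0.le ?_
    rw [hτ2]
    nlinarith
  have hσ1 : 1 ≤ C * σ := by
    refine le_of_pow_le_pow_left₀ two_ne_zero (by positivity) ?_
    calc (1 : ℝ) ^ 2 = 1 * 1 := by ring
      _ ≤ C * (C * s) := mul_le_mul hC hs zero_le_one hC0.le
      _ = (C * σ) ^ 2 := by rw [← hσ2]; ring
  rw [← hσ, ← hτ]
  have hpow : ∀ k : ℕ, k ≤ 4 → C ^ k ≤ C ^ 4 := fun k hk => pow_le_pow_right₀ hC hk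
  refine ⟨?_, ?_, ?_, ?_⟩
  · calc s ^ 3 * τ ^ 3 ≤ s ^ 3 * C ^ 3 := by gcongr
      _ ≤ s ^ 3 * C ^ 4 := mul_le_mul_of_nonneg_left (hpow 3 (by norm_num)) (by positivity)
      _ = C ^ 4 * s ^ 3 := by ring
      _ ≤ _ := le_mul_of_one_le_right (by positivity) hq
  · calc σ ^ 5 * ρ1 ^ 2 ≤ σ ^ 5 * C ^ 2 := by gcongr
      _ ≤ σ ^ 5 * C ^ 2 * (C * σ) := le_mul_of_one_le_right (by positivity) hσ1
      _ = C ^ 3 * s ^ 3 := by rw [← hσ2]; ring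
      _ ≤ C ^ 4 * s ^ 3 := mul_le_mul_of_nonneg_right (hpow 3 (by norm_num)) (by positivity)
      _ ≤ _ := le_mul_of_one_le_right (by positivity) hq
  · calc s ^ 2 ≤ s ^ 2 * (C * s) := le_mul_of_one_le_right (by positivity) hs
      _ = C ^ 1 * s ^ 3 := by ring
      _ ≤ C ^ 4 * s ^ 3 := mul_le_mul_of_nonneg_right (hpow 1 (by norm_num)) (by positivity)
      _ ≤ _ := le_mul_of_one_le_right (by positivity) hq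
  · intro h5
    have h6 : 1 ≤ C * σ * τ := by
      refine le_of_pow_le_pow_left₀ two_ne_zero (by positivity) ?_
      calc (1 : ℝ) ^ 2 = 1 * 1 := by ring
        _ ≤ C * (C * s * (ρ1 * ρ2)) := mul_le_mul hC h5 zero_le_one hC0.le
        _ = (C * σ * τ) ^ 2 := by rw [← hσ2, ← hτ2]; ring
    have h7 : ρ2 ^ 2 = ρ2 / ρ1 * τ ^ 2 := by
      rw [hτ2]
      field_simp
    calc σ ^ 5 * ρ2 ^ 2 ≤ σ ^ 5 * ρ2 ^ 2 * (C * σ * τ) := le_mul_of_one_le_right (by positivity) h6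
      _ = C * s ^ 3 * (ρ2 / ρ1) * τ ^ 3 := by rw [h7, ← hσ2]; ring
      _ ≤ C * s ^ 3 * (ρ2 / ρ1) * C ^ 3 := by gcongr
      _ = _ := by ring

variable (K : Type) [Field K] [NumberField K]

theorem ca_of (h1 : OlAStmt K) (h2 : OlZStmt K) : CaStmt K := by
  classical
  intro C hC ε hε
  have hC9 : 1 ≤ C ^ 2 := one_le_pow₀ hC
  have hCC9 : C ≤ C ^ 2 := by nlinarith
  obtain ⟨C1, hC1, hA⟩ := h1 (3 / 4) (by norm_num) (by norm_num) (C ^ 2) hC9 ε hε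
  obtain ⟨C2, hC2, hZ⟩ := h2 (3 / 4) (by norm_num) (by norm_num) (C ^ 2) hC9 ε hε
  obtain ⟨d, hd⟩ : ∃ d : ℕ, d = Module.finrank ℚ K := ⟨_, rfl⟩
  have hC0 : 0 < C := by linarith
  refine ⟨(C1 + C2) * (2 * (C ^ 4) ^ d), by positivity, ?_⟩
  intro s ρ1 ρ2 hs hρ S hS
  rw [← hd]
  rw [← hd] at hA hZ
  obtain ⟨hr1, hr2, hr3, hr4⟩ := hρ
  have hr5 : 0 < ρ2 := lt_of_lt_of_le hr1 hr2
  have hs0 : 0 < s := by
    by_contra hn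
    push Not at hn
    nlinarith
  have hq0 : 0 < ρ2 / ρ1 := by positivity
  have hsε : 0 < s ^ ε := Real.rpow_pos_of_pos hs0 ε
  rcases S.eq_empty_or_nonempty with rfl | ⟨b, hb⟩
  · rw [Finset.sum_empty]
    positivity
  have hb2 : ∀ b ∈ S, b.1 = 0 → b.2.1 ≠ 0 := by
    intro b hb h0 h00
    apply (hS b hb).2
    unfold dt
    rw [h0, h00]
    ring
  have hb2' : ∀ b ∈ S, b.1 = 0 → 1 ≤ C * s * (ρ1 * ρ2) := fun b hb h0 =>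
    ca_one (hb2 b hb h0) (hS b hb).1.2.1
  have hrange : ρ2 ≤ C ^ 2 * s := by
    by_cases h0 : b.1 = 0
    · have h3 := hb2' b hb h0
      calc ρ2 ≤ ρ2 * (C * s * (ρ1 * ρ2)) := le_mul_of_one_le_right hr5.le h3
        _ = C * s * (ρ1 * ρ2 ^ 2) := by ring
        _ ≤ C * s * C := mul_le_mul_of_nonneg_left hr4 (by positivity)
        _ = C ^ 2 * s := by ring
    · have h3 : 1 ≤ C * s * ρ1 ^ 2 := ca_one h0 (hS b hb).1.1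
      refine le_of_pow_le_pow_left₀ (n := 4) (by norm_num) (by positivity) ?_
      calc ρ2 ^ 4 ≤ ρ2 ^ 4 * (C * s * ρ1 ^ 2) := le_mul_of_one_le_right (by positivity) h3
        _ = C * s * (ρ1 * ρ2 ^ 2) ^ 2 := by ring
        _ ≤ C * s * C ^ 2 := by gcongr
        _ ≤ C * s * C ^ 2 * (C * s) ^ 3 := le_mul_of_one_le_right (by positivity) (one_le_pow₀ hs)
        _ = C ^ 6 * s ^ 4 := by ring
        _ ≤ C ^ 8 * s ^ 4 := mul_le_mul_of_nonneg_right (pow_le_pow_right₀ hC (by norm_num)) (by positivity)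
        _ = (C ^ 2 * s) ^ 4 := by ring
  obtain ⟨i1, i2, i3, i4⟩ := ca_real hC hs ⟨hr1, hr2, hr3, hr4⟩
  have hs9 : 1 ≤ C ^ 2 * s := hs.trans (mul_le_mul_of_nonneg_right hCC9 hs0.le)
  have hρ9 : H88.A4.Rho (C ^ 2) ρ1 ρ2 := ⟨hr1, hr2, hr3.trans hCC9, hr4.trans hCC9⟩
  -- the target
  obtain ⟨Q, hQ⟩ : ∃ Q : ℝ, Q = (C ^ 4) ^ d * (s ^ (3 * d) * (ρ2 / ρ1) ^ d) := ⟨_, rfl⟩
  have hQ0 : 0 ≤ Q := by rw [hQ]; positivity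
  have hQe : Q = (C ^ 4 * s ^ 3 * (ρ2 / ρ1)) ^ d := by
    rw [hQ, mul_pow, mul_pow, pow_mul]
    ring
  have e1 : (ρ1 * ρ2) ^ ((3 - 2 * (3 / 4)) * (d : ℝ)) = (Real.sqrt (ρ1 * ρ2) ^ 3) ^ d :=
    ca_half (by positivity) 3 d (by norm_num)
  have e2 : s ^ ((1 + 2 * (3 / 4)) * (d : ℝ)) = (Real.sqrt s ^ 5) ^ d := ca_half hs0.le 5 d (by norm_num)
  have j1 : s ^ (3 * d) * (ρ1 * ρ2) ^ ((3 - 2 * (3 / 4)) * (d : ℝ)) ≤ Q := by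
    rw [e1, hQe, pow_mul, ← mul_pow]
    exact pow_le_pow_left₀ (by positivity) i1 d
  have j2 : s ^ ((1 + 2 * (3 / 4)) * (d : ℝ)) * ρ1 ^ (2 * d) ≤ Q := by
    rw [e2, hQe, pow_mul, ← mul_pow]
    exact pow_le_pow_left₀ (by positivity) i2 d
  have j3 : s ^ (2 * d) ≤ Q := by
    rw [hQe, pow_mul]
    exact pow_le_pow_left₀ (by positivity) i3 d
  have kA : ∑ b ∈ S.filter (fun b => b.1 ≠ 0), ni (cn b) * Wt (3 / 4) s b ≤ C1 * s ^ ε * (2 * Q) := by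
    refine (hA s ρ1 ρ2 hs9 hρ9 hrange (S.filter (fun b => b.1 ≠ 0)) ?_).trans ?_
    · intro b hb
      obtain ⟨hb1, hb3⟩ := Finset.mem_filter.1 hb
      exact ⟨ca_bx_mono hCC9 hs0.le hr1.le hr5.le (hS b hb1).1, hb3, (hS b hb1).2⟩
    · refine mul_le_mul_of_nonneg_left ?_ (by positivity)
      linarith
  have kZ : ∑ b ∈ S.filter (fun b => ¬ b.1 ≠ 0), ni (cn b) * Wt (3 / 4) s b ≤ C2 * s ^ ε * (2 * Q) := by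
    rcases (S.filter (fun b => ¬ b.1 ≠ 0)).eq_empty_or_nonempty with h0 | ⟨b', hb'⟩
    · rw [h0, Finset.sum_empty]
      positivity
    · obtain ⟨hb1, hb3⟩ := Finset.mem_filter.1 hb'
      have hb4 := hb2' b' hb1 (not_not.1 hb3)
      have j4 : s ^ ((1 + 2 * (3 / 4)) * (d : ℝ)) * ρ2 ^ (2 * d) ≤ Q := by
        rw [e2, hQe, pow_mul, ← mul_pow]
        exact pow_le_pow_left₀ (by positivity) (i4 hb4) d
      refine (hZ s ρ1 ρ2 hs9 hρ9 hrange (S.filter (fun b => ¬ b.1 ≠ 0)) ?_).trans ?_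
      · intro b hb
        obtain ⟨hb1, hb3⟩ := Finset.mem_filter.1 hb
        exact ⟨ca_bx_mono hCC9 hs0.le hr1.le hr5.le (hS b hb1).1, not_not.1 hb3, (hS b hb1).2⟩
      · refine mul_le_mul_of_nonneg_left ?_ (by positivity)
        linarith
  rw [← Finset.sum_filter_add_sum_filter_not S (fun b => b.1 ≠ 0)]
  calc ∑ b ∈ S.filter (fun b => b.1 ≠ 0), ni (cn b) * Wt (3 / 4) s b +
      ∑ b ∈ S.filter (fun b => ¬ b.1 ≠ 0), ni (cn b) * Wt (3 / 4) s b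
      ≤ C1 * s ^ ε * (2 * Q) + C2 * s ^ ε * (2 * Q) := add_le_add kA kZ
    _ = (C1 + C2) * (2 * (C ^ 4) ^ d) * s ^ ε * s ^ (3 * d) * (ρ2 / ρ1) ^ d := by
        rw [hQ]
        ring

end H88.WS
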