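import Pool.Agent.H88.WS.Ib

/-!
# [H88 WS CB] `CbStmt` from `OlAStmt`, `OlZStmt`, `OdStmt` (W1#, MP_b39724)

PROOF. `θ = 4/5`: `3 - 2 θ = 7/5`, `1 + 2 θ = 13/5`, `d = [K : ℚ]`. `κ0` from `OdStmt` (`θ = 4/5`, `C`); put `κ1 = min κ0 (1/200)`, `ε = κ1/(8 d)` (also `≤ 1/5`), `ε0 = κ1/8` for the `ε` of `OlAStmt`,
`OlZStmt`, and `κ = κ1/4`. For `c ∈ S`: `ni (cn c)^2 ≤ nz (dt c) ≤ (2 C^4 t^2)^d` (`ni_cn_sq`; `|dt c|_φ ≤ 2 C^2 t^2 (ρ1 ρ2)^2`, `(ρ1 ρ2)^2 = ρ1 (ρ1 ρ2^2) ≤ C^2`), so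
`ni (cn c)^ε ≤ C1 t^(d ε)` (`t ≥ 1/C`) and `∑ ni (cn c)^(1+ε) Wt ≤ C1 t^(d ε) ∑ ni (cn c) Wt`. Let `R` be the left side of the claim divided by `t^(3d) (ρ2/ρ1)^d`. Split `S`:
(Z) the `c` with `c1 = 0`: then `c2 ≠ 0` (`dt c ≠ 0`), `1 ≤ C t ρ1 ρ2`, and `ρ2 ≤ C^2 t` (`ρ1 ρ2^2 ≤ C`), so `OlZStmt` (constant `C^2`..) gives `∑ ni (cn c) Wt ≤ C2 t^ε0 (t^(2d) + t^(13d/5) ρ2^(2d))`.
`R ≤ C3 t^(dε + ε0) (t^(-d) + t^(-2d/5) ρ2^(2d)) (ρ1 ρ2)^(7d/5) ρ1^(-2d/5) (ρ1/ρ2)^d`, and `(ρ1 ρ2)^(7/5) ρ1^(-2/5) ρ1/ρ2 = ρ1^2 ρ2^(2/5)`: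
first term: `ρ1^2 ρ2^(2/5) = ρ1^(9/5) (ρ1 ρ2^2)^(1/5)`; second: `ρ1^2 ρ2^(12/5) = ρ1^(4/5) (ρ1 ρ2^2)^(6/5)`. So `R ≤ C4 t^(dε + ε0 - 2d/5) ρ1^(4d/5)` (`1/C ≤ t`) `≤ C5 t^(-κ) ρ1^(1/2)`
(`ρ1 ≤ C`, `4d/5 ≥ 1/2`; `t^(-κ)` versus smaller powers: for `t ≥ 1` monotone, for `1/C ≤ t < 1` constants).
(A) the `c` with `c1 ≠ 0`: `1 ≤ C t ρ1^2` (`one_le_nz`), so `ρ2^2 ≤ C/ρ1 ≤ C (C t)^(1/2)`, `ρ2 ≤ C9 t`. `OlAStmt`: `∑ ni (cn c) Wt ≤ C2 t^ε0 (t^(3d) (ρ1 ρ2)^(7d/5) + t^(13d/5) ρ1^(2d)) ≤ C6 t^(ε0 + 3d) (ρ1 ρ2)^(7d/5)` since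
`t^(-2/5) ≤ C' ρ1^(4/5)` and `ρ1^(14/5) ≤ (ρ1 ρ2)^(7/5)`. So `R ≤ C7 t^(dε + ε0) (ρ1 ρ2)^(14d/5) ρ1^(-2d/5) (ρ1/ρ2)^d`, and `ρ1^(14/5 - 2/5 + 1) ρ2^(14/5 - 1) = ρ1^(17/5) ρ2^(9/5) = ρ1^(5/2) (ρ1 ρ2^2)^(9/10)`:
`R ≤ C8 t^(dε + ε0) ρ1^(5d/2)`. If `t < 1` (`t ≥ 1/C`) done. If `t ≥ 1` and `ρ1 < t^(-1/200)`: `ρ1^(5d/2) = ρ1^(1/2) ρ1^(5d/2 - 1/2) ≤ ρ1^(1/2) t^(-(5d/2 - 1/2)/200) ≤ ρ1^(1/2) t^(-1/100)`: done.
(D) `t ≥ 1`, `ρ1 ≥ t^(-1/200)` (`≥ t^(-1/100)`), `c1 ≠ 0` and `¬ Ndg t c`: `|dt c|_φ < t^(2 - 1/50)` for some `φ`, or `ni (cn c) > t^(d/50)`: `OdStmt`: `∑ ni (cn c) Wt ≤ C' t^(3d - κ0)`: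
`R ≤ C'' t^(dε - κ0) ρ1^(2d) ρ2^(2d/5) ≤ C''' t^(dε - κ0) ρ1^(9d/5)`: done.
-/

open scoped NumberField
open H88.A4 Pool.Agent.H67.WA

noncomputable section

namespace H88.WS

section aux

variable {K : Type} [Field K] [NumberField K]

private theorem cb_bd_mono {A B : ℝ} (h : A ≤ B) {x : 𝓞 K} (hx : Bd A x) : Bd B x :=
  fun φ => (hx φ).trans h

private theorem cb_bx_mono {C C9 s ρ1 ρ2 : ℝ} (hC : C ≤ C9) (hs : 0 ≤ s) (h1 : 0 ≤ ρ1) (h2 : 0 ≤ ρ2)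
    {b : T3 K} (hb : Bx C s ρ1 ρ2 b) : Bx C9 s ρ1 ρ2 b := by
  refine ⟨cb_bd_mono ?_ hb.1, cb_bd_mono ?_ hb.2.1, cb_bd_mono ?_ hb.2.2⟩ <;> gcongr

/-- a nonzero integer is at least `1` at some place -/
private theorem cb_one {R : ℝ} {x : 𝓞 K} (hx : x ≠ 0) (h : Bd R x) : 1 ≤ R := by
  have h1 := one_le_nz hx
  have h2 : nz x ≤ vol (fun _ : K →+* ℂ => R) := nz_le_vol fun φ => h φ
  rw [vol_const] at h2
  have hR : 0 ≤ R := by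
    obtain ⟨φ⟩ : Nonempty (K →+* ℂ) := inferInstance
    exact (norm_nonneg _).trans (h φ)
  by_contra hlt
  push Not at hlt
  have h3 : R ^ Module.finrank ℚ K < 1 := pow_lt_one₀ hR hlt Module.finrank_pos.ne'
  linarith

private theorem cb_wt (θ t : ℝ) (c : T3 K) : 0 ≤ Wt θ t c :=
  Finset.prod_nonneg fun φ _ => Real.rpow_nonneg (div_nonneg (sz_nonneg _ _) (sq_nonneg _)) _

/-- the content is not large -/
private theorem cb_cn {C t ρ1 ρ2 : ℝ} (hC : 1 ≤ C) (ht : 0 < t) (hρ : H88.A4.Rho C ρ1 ρ2) {c : T3 K}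
    (hb : Bx C t ρ1 ρ2 c) (hc : dt c ≠ 0) : ni (cn c) ≤ (2 * C ^ 2 * t) ^ Module.finrank ℚ K := by
  obtain ⟨h1, h2, h3, h4⟩ := hρ
  have hC0 : 0 < C := by linarith
  have h2' : 0 < ρ2 := lt_of_lt_of_le h1 h2
  have hp : (ρ1 * ρ2) ^ 2 ≤ C ^ 2 := by
    calc (ρ1 * ρ2) ^ 2 = ρ1 * (ρ1 * ρ2 ^ 2) := by ring
      _ ≤ C * C := mul_le_mul h3 h4 (by positivity) hC0.le
      _ = C ^ 2 := by ring
  have h5 : ∀ φ : K →+* ℂ, sz φ (dt c) ≤ (2 * C ^ 2 * t) ^ 2 := by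
    intro φ
    have a1 : sz φ c.1 ≤ C * t * ρ1 ^ 2 := hb.1 φ
    have a2 : sz φ c.2.1 ≤ C * t * (ρ1 * ρ2) := hb.2.1 φ
    have a3 : sz φ c.2.2 ≤ C * t * ρ2 ^ 2 := hb.2.2 φ
    calc sz φ (dt c) ≤ sz φ (c.1 * c.2.2) + sz φ (c.2.1 ^ 2) := sz_sub φ _ _
      _ = sz φ c.1 * sz φ c.2.2 + sz φ c.2.1 ^ 2 := by rw [sz_mul, sz_pow]
      _ ≤ (C * t * ρ1 ^ 2) * (C * t * ρ2 ^ 2) + (C * t * (ρ1 * ρ2)) ^ 2 := by
          refine add_le_add (mul_le_mul a1 a3 (sz_nonneg _ _) (by positivity)) ?_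
          exact pow_le_pow_left₀ (sz_nonneg _ _) a2 2
      _ = 2 * (C * t) ^ 2 * (ρ1 * ρ2) ^ 2 := by ring
      _ ≤ 2 * (C * t) ^ 2 * C ^ 2 := by gcongr
      _ ≤ 4 * (C * t) ^ 2 * C ^ 2 := by
          have : 0 ≤ (C * t) ^ 2 * C ^ 2 := by positivity
          linarith
      _ = (2 * C ^ 2 * t) ^ 2 := by ring
  have h6 : ni (cn c) ^ 2 ≤ ((2 * C ^ 2 * t) ^ Module.finrank ℚ K) ^ 2 := by
    refine (ni_cn_sq hc).trans ((nz_le_vol h5).trans (le_of_eq ?_))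
    rw [vol_const, ← pow_mul, ← pow_mul, mul_comm 2 (Module.finrank ℚ K)]
  exact le_of_pow_le_pow_left₀ two_ne_zero (by positivity) h6

end aux

/-- the logarithms of the sizes -/
private structure Lg (d T R1 R2 L κ1 : ℝ) : Prop where
  hd : 1 ≤ d
  hL : 0 ≤ L
  hT : 0 ≤ L + T
  h12 : R1 ≤ R2
  h1 : R1 ≤ L
  h2 : R1 + 2 * R2 ≤ L
  hκ0 : 0 < κ1
  hκ : κ1 ≤ 1 / 200

private theorem cb_z1 {d T R1 R2 L κ1 : ℝ} (h : Lg d T R1 R2 L κ1) :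
    κ1 / 8 * T + κ1 / 8 * T + 2 * d * T + (7 / 5 * d * (R1 + R2) - 2 / 5 * d * R1) ≤
      5 * d * L + (3 * d * T + d * (R2 - R1) + R1 / 2 - κ1 / 4 * T) := by
  obtain ⟨hd, hL, hT, h12, h1, h2, hκ0, hκ⟩ := h
  have a1 : 0 ≤ (d - κ1 / 2) * (L + T) := mul_nonneg (by linarith) hT
  have a2 : 0 ≤ (9 / 5 * d - 1 / 2) * (L - R1) := mul_nonneg (by linarith) (by linarith)
  have a3 : 0 ≤ d * (L - R1 - 2 * R2) := mul_nonneg (by linarith) (by linarith)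
  have a4 : 0 ≤ d * L := mul_nonneg (by linarith) hL
  have a5 : 0 ≤ κ1 * L := mul_nonneg hκ0.le hL
  nlinarith

private theorem cb_z2 {d T R1 R2 L κ1 : ℝ} (h : Lg d T R1 R2 L κ1) :
    κ1 / 8 * T + κ1 / 8 * T + (13 / 5 * d * T + 2 * d * R2) + (7 / 5 * d * (R1 + R2) - 2 / 5 * d * R1) ≤
      5 * d * L + (3 * d * T + d * (R2 - R1) + R1 / 2 - κ1 / 4 * T) := by
  obtain ⟨hd, hL, hT, h12, h1, h2, hκ0, hκ⟩ := h
  have a1 : 0 ≤ (2 / 5 * d - κ1 / 2) * (L + T) := mul_nonneg (by linarith) hT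
  have a2 : 0 ≤ (4 / 5 * d - 1 / 2) * (L - R1) := mul_nonneg (by linarith) (by linarith)
  have a3 : 0 ≤ d * (L - R1 - 2 * R2) := mul_nonneg (by linarith) (by linarith)
  have a4 : 0 ≤ d * L := mul_nonneg (by linarith) hL
  have a5 : 0 ≤ κ1 * L := mul_nonneg hκ0.le hL
  nlinarith

private theorem cb_a2 {d T R1 R2 L κ1 : ℝ} (h : Lg d T R1 R2 L κ1) :
    κ1 / 8 * T + κ1 / 8 * T + (13 / 5 * d * T + 2 * d * R1) + (7 / 5 * d * (R1 + R2) - 2 / 5 * d * R1) ≤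
      5 * d * L + (3 * d * T + d * (R2 - R1) + R1 / 2 - κ1 / 4 * T) := by
  obtain ⟨hd, hL, hT, h12, h1, h2, hκ0, hκ⟩ := h
  have a1 : 0 ≤ (2 / 5 * d - κ1 / 2) * (L + T) := mul_nonneg (by linarith) hT
  have a2 : 0 ≤ (19 / 5 * d - 1 / 2) * (L - R1) := mul_nonneg (by linarith) (by linarith)
  have a3 : 0 ≤ d * (L - R1 - 2 * R2) := mul_nonneg (by linarith) (by linarith)
  have a4 : 0 ≤ d * L := mul_nonneg (by linarith) hL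
  have a5 : 0 ≤ κ1 * L := mul_nonneg hκ0.le hL
  nlinarith

private theorem cb_a1 {d T R1 R2 L κ1 : ℝ} (h : Lg d T R1 R2 L κ1) (hc : T < 0 ∨ R1 ≤ -(1 / 200) * T) :
    κ1 / 8 * T + κ1 / 8 * T + (3 * d * T + 7 / 5 * d * (R1 + R2)) + (7 / 5 * d * (R1 + R2) - 2 / 5 * d * R1) ≤
      5 * d * L + (3 * d * T + d * (R2 - R1) + R1 / 2 - κ1 / 4 * T) := by
  obtain ⟨hd, hL, hT, h12, h1, h2, hκ0, hκ⟩ := h
  have a3 : 0 ≤ d * (L - R1 - 2 * R2) := mul_nonneg (by linarith) (by linarith)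
  have a4 : 0 ≤ d * L := mul_nonneg (by linarith) hL
  have a2 : 0 ≤ (5 / 2 * d - 1 / 2) * (L - R1) := mul_nonneg (by linarith) (by linarith)
  by_cases hT0 : T < 0
  · have a6 : 0 ≤ κ1 * (-T) := mul_nonneg hκ0.le (by linarith)
    nlinarith
  · have hT1 : 0 ≤ T := not_lt.1 hT0
    have hc' : R1 ≤ -(1 / 200) * T := hc.resolve_left hT0
    have a7 : 0 ≤ (5 / 2 * d - 1 / 2) * (-(1 / 200) * T - R1) := mul_nonneg (by linarith) (by linarith)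
    have a8 : 0 ≤ (1 / 200 - κ1) * T := mul_nonneg (by linarith) hT1
    have a9 : 0 ≤ (d - 1) * T := mul_nonneg (by linarith) hT1
    nlinarith

private theorem cb_d1 {d T R1 R2 L κ1 κ0 : ℝ} (h : Lg d T R1 R2 L κ1) (hT0 : 0 ≤ T) (hκ : κ1 ≤ κ0) :
    κ1 / 8 * T + (3 * d - κ0) * T + (7 / 5 * d * (R1 + R2) - 2 / 5 * d * R1) ≤
      5 * d * L + (3 * d * T + d * (R2 - R1) + R1 / 2 - κ1 / 4 * T) := by
  obtain ⟨hd, hL, hT, h12, h1, h2, hκ0, -⟩ := h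
  have a1 : 0 ≤ (κ0 - κ1) * T := mul_nonneg (by linarith) hT0
  have a2 : 0 ≤ (9 / 5 * d - 1 / 2) * (L - R1) := mul_nonneg (by linarith) (by linarith)
  have a3 : 0 ≤ d * (L - R1 - 2 * R2) := mul_nonneg (by linarith) (by linarith)
  have a4 : 0 ≤ d * L := mul_nonneg (by linarith) hL
  have a5 : 0 ≤ κ1 * T := mul_nonneg hκ0.le hT0
  nlinarith

private theorem cb_exp {x : ℝ} (hx : 0 < x) (y : ℝ) : x ^ y = Real.exp (y * Real.log x) := by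
  rw [Real.rpow_def_of_pos hx, mul_comm]

private theorem cb_expn {x : ℝ} (hx : 0 < x) (k : ℕ) : x ^ k = Real.exp (k * Real.log x) := by
  rw [← Real.rpow_natCast, cb_exp hx]

variable (K : Type) [Field K] [NumberField K]

theorem cb_of (h1 : OlAStmt K) (h2 : OlZStmt K) (h3 : OdStmt K) : CbStmt K := by
  classical
  intro C hC
  have hC0 : 0 < C := by linarith
  have hC9 : 1 ≤ C ^ 2 := one_le_pow₀ hC
  have hCC9 : C ≤ C ^ 2 := by nlinarith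
  obtain ⟨C3, κ0, hC3, hκ0, hD⟩ := h3 (4 / 5) (by norm_num) (by norm_num) C hC
  obtain ⟨κ1, hκ1⟩ : ∃ κ1 : ℝ, κ1 = min κ0 (1 / 200) := ⟨_, rfl⟩
  have hκ1p : 0 < κ1 := by rw [hκ1]; exact lt_min hκ0 (by norm_num)
  have hκ1a : κ1 ≤ κ0 := by rw [hκ1]; exact min_le_left _ _
  have hκ1b : κ1 ≤ 1 / 200 := by rw [hκ1]; exact min_le_right _ _
  have hε0 : 0 < κ1 / 8 := by linarith
  obtain ⟨C1, hC1, hA⟩ := h1 (4 / 5) (by norm_num) (by norm_num) (C ^ 2) hC9 (κ1 / 8) hε0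
  obtain ⟨C2, hC2, hZ⟩ := h2 (4 / 5) (by norm_num) (by norm_num) (C ^ 2) hC9 (κ1 / 8) hε0
  obtain ⟨d, hd⟩ : ∃ d : ℕ, d = Module.finrank ℚ K := ⟨_, rfl⟩
  have hd1 : 1 ≤ d := by rw [hd]; exact Module.finrank_pos
  have hdr : (1 : ℝ) ≤ d := by exact_mod_cast hd1
  have hdr0 : (0 : ℝ) < d := by linarith
  rw [← hd] at hA hZ hD
  obtain ⟨ε, hε⟩ : ∃ ε : ℝ, ε = κ1 / 8 / d := ⟨_, rfl⟩
  have hεp : 0 < ε := by rw [hε]; positivity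
  have hdε : (d : ℝ) * ε = κ1 / 8 := by
    rw [hε]
    field_simp
  have hε5 : ε ≤ 1 / 5 := by
    have : ε ≤ d * ε := le_mul_of_one_le_left hεp.le hdr
    linarith
  obtain ⟨K0, hK0⟩ : ∃ K0 : ℝ, K0 = (2 * C ^ 2) ^ (κ1 / 8) := ⟨_, rfl⟩
  have hK0p : 0 < K0 := by rw [hK0]; positivity
  obtain ⟨L, hL⟩ : ∃ L : ℝ, L = Real.log C := ⟨_, rfl⟩
  have hL0 : 0 ≤ L := by rw [hL]; exact Real.log_nonneg hC
  obtain ⟨E, hE⟩ : ∃ E : ℝ, E = Real.exp (5 * d * L) := ⟨_, rfl⟩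
  have hE0 : 0 < E := by rw [hE]; exact Real.exp_pos _
  refine ⟨K0 * ((2 * C1 + 2 * C2 + C3) * E), κ1 / 4, ε, by positivity, by positivity, hεp, hε5, ?_⟩
  intro t ρ1 ρ2 ht hρ S hS
  rw [← hd]
  obtain ⟨hr1, hr2, hr3, hr4⟩ := hρ
  have hr5 : 0 < ρ2 := lt_of_lt_of_le hr1 hr2
  have ht0 : 0 < t := by
    by_contra hn
    push Not at hn
    nlinarith
  have ht9 : 1 ≤ C ^ 2 * t := ht.trans (mul_le_mul_of_nonneg_right hCC9 ht0.le)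
  have hρ9 : H88.A4.Rho (C ^ 2) ρ1 ρ2 := ⟨hr1, hr2, hr3.trans hCC9, hr4.trans hCC9⟩
  -- logarithms
  obtain ⟨T, hT⟩ : ∃ T : ℝ, T = Real.log t := ⟨_, rfl⟩
  obtain ⟨R1, hR1⟩ : ∃ R1 : ℝ, R1 = Real.log ρ1 := ⟨_, rfl⟩
  obtain ⟨R2, hR2⟩ : ∃ R2 : ℝ, R2 = Real.log ρ2 := ⟨_, rfl⟩
  have hlg : Lg d T R1 R2 L κ1 := by
    refine ⟨hdr, hL0, ?_, ?_, ?_, ?_, hκ1p, hκ1b⟩
    · rw [hL, hT, ← Real.log_mul hC0.ne' ht0.ne']
      exact Real.log_nonneg ht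
    · rw [hR1, hR2]
      exact Real.log_le_log hr1 hr2
    · rw [hR1, hL]
      exact Real.log_le_log hr1 hr3
    · have h5 := Real.log_le_log (by positivity) hr4
      rw [Real.log_mul hr1.ne' (by positivity), Real.log_pow] at h5
      rw [hR1, hR2, hL]
      exact_mod_cast h5
  -- the target
  obtain ⟨Q, hQ⟩ : ∃ Q : ℝ, Q = t ^ (3 * d) * (ρ2 / ρ1) ^ d * ρ1 ^ (1 / 2 : ℝ) * t ^ (-(κ1 / 4)) := ⟨_, rfl⟩
  have hQ0 : 0 < Q := by rw [hQ]; positivity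
  have hQe : Q = Real.exp (3 * d * T + d * (R2 - R1) + R1 / 2 - κ1 / 4 * T) := by
    rw [hQ, cb_expn ht0, cb_expn (show 0 < ρ2 / ρ1 by positivity), cb_exp hr1, cb_exp ht0,
      Real.log_div hr5.ne' hr1.ne', ← hT, ← hR1, ← hR2, ← Real.exp_add, ← Real.exp_add, ← Real.exp_add]
    congr 1
    push_cast
    ring
  obtain ⟨G, hG⟩ : ∃ G : ℝ, G = (ρ1 * ρ2) ^ (7 / 5 * (d : ℝ)) * ρ1 ^ (-(2 / 5) * (d : ℝ)) := ⟨_, rfl⟩
  have hG0 : 0 < G := by rw [hG]; positivity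
  have hGe : G = Real.exp (7 / 5 * d * (R1 + R2) - 2 / 5 * d * R1) := by
    rw [hG, cb_exp (show 0 < ρ1 * ρ2 by positivity), cb_exp hr1, Real.log_mul hr1.ne' hr5.ne', ← hR1, ← hR2,
      ← Real.exp_add]
    congr 1
    ring
  have hte : t ^ (κ1 / 8) = Real.exp (κ1 / 8 * T) := by rw [cb_exp ht0, ← hT]
  have ht8 : 0 < t ^ (κ1 / 8) := Real.rpow_pos_of_pos ht0 _
  have hEQ : E * Q = Real.exp (5 * d * L + (3 * d * T + d * (R2 - R1) + R1 / 2 - κ1 / 4 * T)) := by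
    rw [hE, hQe, ← Real.exp_add]
  -- the content
  have hcn : ∀ c ∈ S, ni (cn c) ^ (1 + ε) * Wt (4 / 5) t c ≤
      K0 * t ^ (κ1 / 8) * (ni (cn c) * Wt (4 / 5) t c) := by
    intro c hc
    have hn1 : 1 ≤ ni (cn c) := one_le_ni (cn_ne (hS c hc).2.1)
    have hn0 : 0 < ni (cn c) := by linarith
    have h5 := cb_cn hC ht0 ⟨hr1, hr2, hr3, hr4⟩ (hS c hc).1 (hS c hc).2.1
    rw [← hd] at h5
    have h6 : ni (cn c) ^ ε ≤ K0 * t ^ (κ1 / 8) := by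
      calc ni (cn c) ^ ε ≤ ((2 * C ^ 2 * t) ^ d) ^ ε := Real.rpow_le_rpow hn0.le h5 hεp.le
        _ = (2 * C ^ 2 * t) ^ (κ1 / 8) := by
            rw [← Real.rpow_natCast, ← Real.rpow_mul (by positivity), hdε]
        _ = K0 * t ^ (κ1 / 8) := by
            rw [Real.mul_rpow (by positivity) ht0.le, ← hK0]
    rw [Real.rpow_add hn0, Real.rpow_one]
    calc ni (cn c) * ni (cn c) ^ ε * Wt (4 / 5) t c = ni (cn c) ^ ε * (ni (cn c) * Wt (4 / 5) t c) := by ring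
      _ ≤ K0 * t ^ (κ1 / 8) * (ni (cn c) * Wt (4 / 5) t c) :=
          mul_le_mul_of_nonneg_right h6 (mul_nonneg hn0.le (cb_wt _ _ _))
  have hc2 : ∀ c ∈ S, c.1 = 0 → 1 ≤ C * t * (ρ1 * ρ2) := by
    intro c hc h0
    refine cb_one (x := c.2.1) ?_ (hS c hc).1.2.1
    intro h00
    apply (hS c hc).2.1
    unfold dt
    rw [h0, h00]
    ring
  have hc1 : ∀ c ∈ S, c.1 ≠ 0 → 1 ≤ C * t * ρ1 ^ 2 := fun c hc h0 => cb_one h0 (hS c hc).1.1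
  -- (Z)
  have kZ : t ^ (κ1 / 8) * (∑ c ∈ S.filter (fun c => ¬ c.1 ≠ 0), ni (cn c) * Wt (4 / 5) t c) * G ≤
      2 * C2 * (E * Q) := by
    rcases (S.filter (fun c => ¬ c.1 ≠ 0)).eq_empty_or_nonempty with h0 | ⟨c', hc'⟩
    · rw [h0, Finset.sum_empty, mul_zero, zero_mul]
      positivity
    · obtain ⟨hcS, hc0⟩ := Finset.mem_filter.1 hc'
      have h4 := hc2 c' hcS (not_not.1 hc0)
      have hrange : ρ2 ≤ C ^ 2 * t := by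
        calc ρ2 ≤ ρ2 * (C * t * (ρ1 * ρ2)) := le_mul_of_one_le_right hr5.le h4
          _ = C * t * (ρ1 * ρ2 ^ 2) := by ring
          _ ≤ C * t * C := mul_le_mul_of_nonneg_left hr4 (by positivity)
          _ = C ^ 2 * t := by ring
      have h5 := hZ t ρ1 ρ2 ht9 hρ9 hrange (S.filter (fun c => ¬ c.1 ≠ 0)) (by
        intro c hc
        obtain ⟨hcS, hc0⟩ := Finset.mem_filter.1 hc
        exact ⟨cb_bx_mono hCC9 ht0.le hr1.le hr5.le (hS c hcS).1, not_not.1 hc0, (hS c hcS).2.1⟩)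
      have e1 : t ^ (κ1 / 8) * t ^ (κ1 / 8) * t ^ (2 * d) * G ≤ E * Q := by
        rw [hEQ, hte, hGe, cb_expn ht0, ← hT, ← Real.exp_add, ← Real.exp_add, ← Real.exp_add]
        refine Real.exp_le_exp.2 ?_
        push_cast
        exact cb_z1 hlg
      have e2 : t ^ (κ1 / 8) * t ^ (κ1 / 8) * (t ^ ((1 + 2 * (4 / 5)) * (d : ℝ)) * ρ2 ^ (2 * d)) * G ≤
          E * Q := by
        rw [hEQ, hte, hGe, cb_exp ht0, cb_expn hr5, ← hT, ← hR2, ← Real.exp_add, ← Real.exp_add, ← Real.exp_add,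
          ← Real.exp_add]
        refine Real.exp_le_exp.2 ?_
        have := cb_z2 hlg
        push_cast
        linarith
      calc t ^ (κ1 / 8) * (∑ c ∈ S.filter (fun c => ¬ c.1 ≠ 0), ni (cn c) * Wt (4 / 5) t c) * G
          ≤ t ^ (κ1 / 8) * (C2 * t ^ (κ1 / 8) * (t ^ (2 * d) +
              t ^ ((1 + 2 * (4 / 5)) * (d : ℝ)) * ρ2 ^ (2 * d))) * G := by
            gcongr
        _ = C2 * (t ^ (κ1 / 8) * t ^ (κ1 / 8) * t ^ (2 * d) * G) +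
            C2 * (t ^ (κ1 / 8) * t ^ (κ1 / 8) * (t ^ ((1 + 2 * (4 / 5)) * (d : ℝ)) * ρ2 ^ (2 * d)) * G) := by
            ring
        _ ≤ C2 * (E * Q) + C2 * (E * Q) := by gcongr
        _ = 2 * C2 * (E * Q) := by ring
  -- (A), (D)
  have kA : t ^ (κ1 / 8) * (∑ c ∈ S.filter (fun c => c.1 ≠ 0), ni (cn c) * Wt (4 / 5) t c) * G ≤
      (2 * C1 + C3) * (E * Q) := by
    rcases (S.filter (fun c => c.1 ≠ 0)).eq_empty_or_nonempty with h0 | ⟨c', hc'⟩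
    · rw [h0, Finset.sum_empty, mul_zero, zero_mul]
      positivity
    obtain ⟨hcS', hc0'⟩ := Finset.mem_filter.1 hc'
    have h4 := hc1 c' hcS' hc0'
    by_cases hcase : T < 0 ∨ R1 ≤ -(1 / 200) * T
    · have hrange : ρ2 ≤ C ^ 2 * t := by
        refine le_of_pow_le_pow_left₀ (n := 4) (by norm_num) (by positivity) ?_
        calc ρ2 ^ 4 ≤ ρ2 ^ 4 * (C * t * ρ1 ^ 2) := le_mul_of_one_le_right (by positivity) h4
          _ = C * t * (ρ1 * ρ2 ^ 2) ^ 2 := by ring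
          _ ≤ C * t * C ^ 2 := by gcongr
          _ ≤ C * t * C ^ 2 * (C * t) ^ 3 := le_mul_of_one_le_right (by positivity) (one_le_pow₀ ht)
          _ = C ^ 6 * t ^ 4 := by ring
          _ ≤ C ^ 8 * t ^ 4 := mul_le_mul_of_nonneg_right (pow_le_pow_right₀ hC (by norm_num)) (by positivity)
          _ = (C ^ 2 * t) ^ 4 := by ring
      have h5 := hA t ρ1 ρ2 ht9 hρ9 hrange (S.filter (fun c => c.1 ≠ 0)) (by
        intro c hc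
        obtain ⟨hcS, hc0⟩ := Finset.mem_filter.1 hc
        exact ⟨cb_bx_mono hCC9 ht0.le hr1.le hr5.le (hS c hcS).1, hc0, (hS c hcS).2.1⟩)
      have e1 : t ^ (κ1 / 8) * t ^ (κ1 / 8) * (t ^ (3 * d) * (ρ1 * ρ2) ^ ((3 - 2 * (4 / 5)) * (d : ℝ))) * G ≤
          E * Q := by
        rw [hEQ, hte, hGe, cb_expn ht0, cb_exp (show 0 < ρ1 * ρ2 by positivity),
          Real.log_mul hr1.ne' hr5.ne', ← hT, ← hR1, ← hR2, ← Real.exp_add,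
          ← Real.exp_add, ← Real.exp_add, ← Real.exp_add]
        refine Real.exp_le_exp.2 ?_
        have := cb_a1 hlg hcase
        push_cast
        linarith
      have e2 : t ^ (κ1 / 8) * t ^ (κ1 / 8) * (t ^ ((1 + 2 * (4 / 5)) * (d : ℝ)) * ρ1 ^ (2 * d)) * G ≤
          E * Q := by
        rw [hEQ, hte, hGe, cb_exp ht0, cb_expn hr1, ← hT, ← hR1, ← Real.exp_add, ← Real.exp_add, ← Real.exp_add,
          ← Real.exp_add]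
        refine Real.exp_le_exp.2 ?_
        have := cb_a2 hlg
        push_cast
        linarith
      calc t ^ (κ1 / 8) * (∑ c ∈ S.filter (fun c => c.1 ≠ 0), ni (cn c) * Wt (4 / 5) t c) * G
          ≤ t ^ (κ1 / 8) * (C1 * t ^ (κ1 / 8) * (t ^ (3 * d) * (ρ1 * ρ2) ^ ((3 - 2 * (4 / 5)) * (d : ℝ)) +
              t ^ ((1 + 2 * (4 / 5)) * (d : ℝ)) * ρ1 ^ (2 * d))) * G := by
            gcongr
        _ = C1 * (t ^ (κ1 / 8) * t ^ (κ1 / 8) *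
              (t ^ (3 * d) * (ρ1 * ρ2) ^ ((3 - 2 * (4 / 5)) * (d : ℝ))) * G) +
            C1 * (t ^ (κ1 / 8) * t ^ (κ1 / 8) * (t ^ ((1 + 2 * (4 / 5)) * (d : ℝ)) * ρ1 ^ (2 * d)) * G) := by
            ring
        _ ≤ C1 * (E * Q) + C1 * (E * Q) := by gcongr
        _ ≤ (2 * C1 + C3) * (E * Q) := by
            have : 0 ≤ C3 * (E * Q) := by positivity
            linarith
    · rw [not_or, not_lt, not_le] at hcase
      obtain ⟨hT0, hR⟩ := hcase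
      have ht1 : 1 ≤ t := by
        rw [hT] at hT0
        exact (Real.log_nonneg_iff ht0).1 hT0
      have hρ200 : t ^ (-(1 / 200) : ℝ) ≤ ρ1 := by
        rw [cb_exp ht0, ← hT, ← Real.exp_log hr1, ← hR1]
        exact Real.exp_le_exp.2 hR.le
      have hρ100 : t ^ (-(1 / 100) : ℝ) ≤ ρ1 :=
        (Real.rpow_le_rpow_of_exponent_le ht1 (by norm_num)).trans hρ200
      have h5 := hD t ρ1 ρ2 ht1 ⟨hr1, hr2, hr3, hr4⟩ hρ100 (S.filter (fun c => c.1 ≠ 0)) (by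
        intro c hc
        obtain ⟨hcS, hc0⟩ := Finset.mem_filter.1 hc
        obtain ⟨h6, h7, h8⟩ := hS c hcS
        refine ⟨h6, hc0, h7, ?_⟩
        rcases h8 with h8 | h8 | h8 | h8
        · exact absurd ht1 (not_le.2 h8)
        · exact absurd h8 hc0
        · unfold Ndg at h8
          rw [← hd] at h8
          rw [not_and_or] at h8
          rcases h8 with h8 | h8
          · push Not at h8
            obtain ⟨φ, hφ⟩ := h8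
            exact Or.inl ⟨φ, hφ.le⟩
          · exact Or.inr (not_le.1 h8).le
        · exact absurd hρ200 (not_le.2 h8))
      have e1 : t ^ (κ1 / 8) * t ^ (3 * (d : ℝ) - κ0) * G ≤ E * Q := by
        rw [hEQ, hte, hGe, cb_exp ht0, ← hT, ← Real.exp_add, ← Real.exp_add]
        refine Real.exp_le_exp.2 ?_
        exact cb_d1 hlg hT0 hκ1a
      calc t ^ (κ1 / 8) * (∑ c ∈ S.filter (fun c => c.1 ≠ 0), ni (cn c) * Wt (4 / 5) t c) * G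
          ≤ t ^ (κ1 / 8) * (C3 * t ^ (3 * (d : ℝ) - κ0)) * G := by gcongr
        _ = C3 * (t ^ (κ1 / 8) * t ^ (3 * (d : ℝ) - κ0) * G) := by ring
        _ ≤ C3 * (E * Q) := by gcongr
        _ ≤ (2 * C1 + C3) * (E * Q) := by
            have : 0 ≤ 2 * C1 * (E * Q) := by positivity
            linarith
  have hsplit : ∑ c ∈ S, ni (cn c) * Wt (4 / 5) t c =
      ∑ c ∈ S.filter (fun c => c.1 ≠ 0), ni (cn c) * Wt (4 / 5) t c +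
      ∑ c ∈ S.filter (fun c => ¬ c.1 ≠ 0), ni (cn c) * Wt (4 / 5) t c :=
    (Finset.sum_filter_add_sum_filter_not S (fun c => c.1 ≠ 0) _).symm
  rw [← hG]
  calc (∑ c ∈ S, ni (cn c) ^ (1 + ε) * Wt (4 / 5) t c) * G
      ≤ (∑ c ∈ S, K0 * t ^ (κ1 / 8) * (ni (cn c) * Wt (4 / 5) t c)) * G :=
        mul_le_mul_of_nonneg_right (Finset.sum_le_sum hcn) hG0.le
    _ = K0 * (t ^ (κ1 / 8) * (∑ c ∈ S.filter (fun c => c.1 ≠ 0), ni (cn c) * Wt (4 / 5) t c) * G +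
        t ^ (κ1 / 8) * (∑ c ∈ S.filter (fun c => ¬ c.1 ≠ 0), ni (cn c) * Wt (4 / 5) t c) * G) := by
        rw [← Finset.mul_sum, hsplit]
        ring
    _ ≤ K0 * ((2 * C1 + C3) * (E * Q) + 2 * C2 * (E * Q)) :=
        mul_le_mul_of_nonneg_left (add_le_add kA kZ) hK0p.le
    _ = K0 * ((2 * C1 + 2 * C2 + C3) * E) * t ^ (3 * d) * (ρ2 / ρ1) ^ d * ρ1 ^ (1 / 2 : ℝ) *
        t ^ (-(κ1 / 4)) := by
        rw [hQ]
        ring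

end H88.WS
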