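import Pool.Agent.H88.WS.Hcb

/-!
# [H88 WS CS] `CsStmt` from `NdStmt`, `CbStmt`, `CxStmt` (W1#, MP_b39724)

PROOF. `m, C` given. `κ, ε1` from `CbStmt` (for `C`); `ε = min ε1 (1/100)`. `L = log (2 + s) ≥ 1`, `d = [K : ℚ]`, `Hc m (2 + s) (dt c) ≤ C1 L` (`hc_le`). Put
`Q = (ρ1 ρ2)^(7d/5) ρ1^(-2d/5)` and `T = t^(3d) (ρ2/ρ1)^d ρ1^(1/2)`. For `c ∈ S`: `ni (cn c) ≥ 1` (`dt c ≠ 0`, `cn_ne`, `one_le_ni`), so powers of `ni (cn c)` are monotone in the exponent. Split `S`: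
`Sb = {c : t < 1 ∨ c1 = 0 ∨ ¬ Ndg t c ∨ ρ1 < t^(-1/200)}` and the rest `Sn` (there `1 ≤ t`, `t^(-1/200) ≤ ρ1`, `Ndg t c`).
(Sb) `CbStmt`: `(∑ ni^(1+ε) Wt) Q ≤ C2 T t^(-κ)`, so with `Hc ≤ C1 L` the part is `≤ C3 T L t^(-κ)`. FIRST BOUND: `t^(-κ) ≤ C^κ` (`1 ≤ C t`). SECOND: `t ≥ exp (√L)`: `t^(-κ) ≤ exp (-κ √L) ≤ C4 / L`
(`x^2 exp (-κ x) ≤ C4`), so the part is `≤ C5 T ≤ C5 T L^(3/4 + 1/100)`.
(Sn) if nonempty: `NdStmt`: `∑ ni^(1+ε) Wt ≤ ∑ ni^(9/5) Wt ≤ C6 t^(3d) (ρ1 ρ2)^(7d/5)`, times `Hc ≤ C1 L`; with `CxStmt` (`1 + ε ≤ 6/5`): `≤ C7 t^(3d) (ρ1 ρ2)^(7d/5) L^(3/4 + 1/100)`. And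
`(ρ1 ρ2)^(7d/5) Q = (ρ2/ρ1)^d [ρ1^(17/5) ρ2^(9/5)]^d = (ρ2/ρ1)^d [ρ1^(5/2) (ρ1 ρ2^2)^(9/10)]^d ≤ C8 (ρ2/ρ1)^d ρ1^(5d/2) ≤ C9 (ρ2/ρ1)^d ρ1^(1/2)` (exponents of `ρ1`: `14/5 - 2/5 + 1 = 17/5`, of `ρ2`: `14/5 - 1 = 9/5`;
`ρ1 ρ2^2 ≤ C`, `ρ1 ≤ C`).
-/

open scoped NumberField
open H88.A4 Pool.Agent.H67.WA

noncomputable section

namespace H88.WS

variable (K : Type) [Field K] [NumberField K]

private theorem key1 {C ρ1 ρ2 : ℝ} (d : ℕ) (hd : 1 ≤ d) (hC : 1 ≤ C) (h : Rho C ρ1 ρ2) :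
    (ρ1 * ρ2) ^ (7 / 5 * (d : ℝ)) *
        ((ρ1 * ρ2) ^ (7 / 5 * (d : ℝ)) * ρ1 ^ (-(2 / 5) * (d : ℝ))) ≤
      (C ^ (9 / 10 * (d : ℝ)) * C ^ (5 / 2 * (d : ℝ) - 1 / 2)) *
        ((ρ2 / ρ1) ^ d * ρ1 ^ (1 / 2 : ℝ)) := by
  obtain ⟨h0, h12, h1C, h122⟩ := h
  have h02 : 0 < ρ2 := h0.trans_le h12
  have hd' : (1 : ℝ) ≤ (d : ℝ) := by exact_mod_cast hd
  have e : (ρ1 * ρ2) ^ (7 / 5 * (d : ℝ)) *
        ((ρ1 * ρ2) ^ (7 / 5 * (d : ℝ)) * ρ1 ^ (-(2 / 5) * (d : ℝ))) =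
      ((ρ1 * ρ2 ^ 2) ^ (9 / 10 * (d : ℝ)) * ρ1 ^ (5 / 2 * (d : ℝ) - 1 / 2)) *
        ((ρ2 / ρ1) ^ d * ρ1 ^ (1 / 2 : ℝ)) := by
    rw [← Real.rpow_natCast (ρ2 / ρ1) d, ← Real.exp_log h0, ← Real.exp_log h02,
      ← Real.exp_add, ← Real.exp_sub, ← Real.exp_nat_mul, ← Real.exp_add]
    simp only [← Real.exp_mul, ← Real.exp_add]
    congr 1
    push_cast
    ring
  rw [e]
  refine mul_le_mul_of_nonneg_right ?_ (by positivity)
  refine mul_le_mul ?_ ?_ (by positivity) (by positivity)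
  · exact Real.rpow_le_rpow (by positivity) h122 (by positivity)
  · exact Real.rpow_le_rpow h0.le h1C (by linarith)

private theorem key2 {κ L t : ℝ} (hκ : 0 < κ) (hL : 1 ≤ L) (h : Real.exp (Real.sqrt L) ≤ t) :
    L * t ^ (-κ) ≤ 2 / κ ^ 2 := by
  have h0 : 0 < Real.exp (Real.sqrt L) := Real.exp_pos _
  have h1 : t ^ (-κ) ≤ Real.exp (Real.sqrt L) ^ (-κ) :=
    Real.rpow_le_rpow_of_nonpos h0 h (by linarith)
  have h2 : Real.exp (Real.sqrt L) ^ (-κ) = (Real.exp (κ * Real.sqrt L))⁻¹ := by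
    rw [← Real.exp_mul, ← Real.exp_neg]
    congr 1
    ring
  rw [h2] at h1
  have hs : 0 ≤ κ * Real.sqrt L := by positivity
  have h3 : (κ * Real.sqrt L) ^ 2 / 2 ≤ Real.exp (κ * Real.sqrt L) := by
    have := Real.quadratic_le_exp_of_nonneg hs
    linarith
  have h4 : (κ * Real.sqrt L) ^ 2 = κ ^ 2 * L := by
    rw [mul_pow, Real.sq_sqrt (by linarith)]
  rw [h4] at h3
  have h5 : L * t ^ (-κ) ≤ L * (Real.exp (κ * Real.sqrt L))⁻¹ :=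
    mul_le_mul_of_nonneg_left h1 (by linarith)
  refine h5.trans ?_
  rw [← div_eq_mul_inv, div_le_div_iff₀ (Real.exp_pos _) (by positivity)]
  linarith

theorem cs_of (h1 : NdStmt K) (h2 : CbStmt K) (h3 : CxStmt K) : CsStmt K := by
  classical
  intro m hm h6 C hC
  obtain ⟨C2, κ, ε1, hC2, hκ, hε1, hε15, hcb⟩ := h2 C hC
  obtain ⟨C6, hC6, hnd⟩ := h1 C hC
  obtain ⟨C7, hC7, hcx⟩ := h3 m hm h6 C hC
  obtain ⟨C1, hC1, hhc⟩ := hc_le K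
  have hC0 : 0 < C := by linarith
  have hd : 1 ≤ Module.finrank ℚ K := Module.finrank_pos
  obtain ⟨C9, hC9, hkey⟩ : ∃ C9 : ℝ, 0 < C9 ∧ ∀ ρ1 ρ2 : ℝ, Rho C ρ1 ρ2 →
      (ρ1 * ρ2) ^ (7 / 5 * (Module.finrank ℚ K : ℝ)) *
        ((ρ1 * ρ2) ^ (7 / 5 * (Module.finrank ℚ K : ℝ)) *
          ρ1 ^ (-(2 / 5) * (Module.finrank ℚ K : ℝ))) ≤
      C9 * ((ρ2 / ρ1) ^ Module.finrank ℚ K * ρ1 ^ (1 / 2 : ℝ)) :=
    ⟨_, by positivity, fun ρ1 ρ2 h => key1 _ hd hC h⟩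
  set ε : ℝ := min ε1 (1 / 100) with hε
  have hεε1 : ε ≤ ε1 := min_le_left _ _
  have hε100 : ε ≤ 1 / 100 := min_le_right _ _
  have hε0 : 0 < ε := lt_min hε1 (by norm_num)
  have hCκ : 0 < C ^ κ := Real.rpow_pos_of_pos hC0 _
  refine ⟨C1 * C2 * C ^ κ + C1 * C6 * C9 + C1 * C2 * (2 / κ ^ 2) + C7 * C9, ε, by positivity,
    hε0, hε100, ?_⟩
  intro s t ρ1 ρ2 hs hRg hRho S hS
  have hRho' := hRho
  obtain ⟨hρ1, hρ12, -, -⟩ := hRho'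
  have hρ2 : 0 < ρ2 := hρ1.trans_le hρ12
  have ht0 : 0 < t := by
    have := hRg.1
    by_contra hneg
    push Not at hneg
    nlinarith
  obtain ⟨L, hLdef⟩ : ∃ L : ℝ, L = Real.log (2 + s) := ⟨_, rfl⟩
  have hL : 1 ≤ L := by
    rw [hLdef, Real.le_log_iff_exp_le (by linarith)]
    have := Real.exp_one_lt_d9
    linarith
  rw [← hLdef]
  have hL0 : 0 < L := by linarith
  obtain ⟨Q, hQdef⟩ : ∃ Q : ℝ, Q = (ρ1 * ρ2) ^ (7 / 5 * (Module.finrank ℚ K : ℝ)) *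
      ρ1 ^ (-(2 / 5) * (Module.finrank ℚ K : ℝ)) := ⟨_, rfl⟩
  have hQ0 : 0 ≤ Q := by rw [hQdef]; positivity
  obtain ⟨T, hTdef⟩ : ∃ T : ℝ, T = t ^ (3 * Module.finrank ℚ K) *
      ((ρ2 / ρ1) ^ Module.finrank ℚ K * ρ1 ^ (1 / 2 : ℝ)) := ⟨_, rfl⟩
  have hT0 : 0 ≤ T := by rw [hTdef]; positivity
  have hkey' := hkey ρ1 ρ2 hRho
  rw [← hQdef] at hkey' ⊢
  obtain ⟨f, hf⟩ : ∃ f : T3 K → ℝ, f = fun c => ni (cn c) ^ (1 + ε) * Wt (4 / 5) t c *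
    Hc m (2 + s) (dt c) := ⟨_, rfl⟩
  have hfS : ∑ c ∈ S, ni (cn c) ^ (1 + ε) * Wt (4 / 5) t c * Hc m (2 + s) (dt c)
      = ∑ c ∈ S, f c := by rw [hf]
  rw [hfS]
  have hW : ∀ c : T3 K, 0 ≤ Wt (4 / 5) t c := fun c =>
    Finset.prod_nonneg fun φ _ => Real.rpow_nonneg (div_nonneg (norm_nonneg _) (sq_nonneg t)) _
  have hH0 : ∀ c : T3 K, 0 ≤ Hc m (2 + s) (dt c) := fun c => by
    have := one_le_hc K m (2 + s) (dt c)
    linarith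
  have hH : ∀ c : T3 K, Hc m (2 + s) (dt c) ≤ C1 * L := fun c => by
    rw [hLdef]
    exact hhc m (2 + s) (dt c) (by linarith)
  have hni : ∀ c ∈ S, 1 ≤ ni (cn c) := fun c hc => one_le_ni (cn_ne (hS c hc).2)
  obtain ⟨P, hP⟩ : ∃ P : T3 K → Prop, P = fun c => t < 1 ∨ c.1 = 0 ∨ ¬ Ndg t c ∨
    ρ1 < t ^ (-(1 / 200) : ℝ) := ⟨_, rfl⟩
  have hsplit : ∑ c ∈ S, f c = ∑ c ∈ S.filter P, f c + ∑ c ∈ S.filter (fun c => ¬ P c), f c :=
    (Finset.sum_filter_add_sum_filter_not S P f).symm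
  -- comparison of exponents
  have hpow : ∀ e : ℝ, 1 + ε ≤ e → ∀ c ∈ S, ni (cn c) ^ (1 + ε) ≤ ni (cn c) ^ e :=
    fun e he c hc => Real.rpow_le_rpow_of_exponent_le (hni c hc) he
  have hfle : ∀ e : ℝ, 1 + ε ≤ e → ∀ c ∈ S,
      f c ≤ C1 * L * (ni (cn c) ^ e * Wt (4 / 5) t c) := by
    intro e he c hc
    rw [hf]
    have h4 : ni (cn c) ^ (1 + ε) * Wt (4 / 5) t c ≤ ni (cn c) ^ e * Wt (4 / 5) t c :=
      mul_le_mul_of_nonneg_right (hpow e he c hc) (hW c)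
    have h5 : 0 ≤ ni (cn c) ^ e * Wt (4 / 5) t c :=
      mul_nonneg (Real.rpow_nonneg (ni_nonneg _) _) (hW c)
    calc ni (cn c) ^ (1 + ε) * Wt (4 / 5) t c * Hc m (2 + s) (dt c)
        ≤ (ni (cn c) ^ e * Wt (4 / 5) t c) * (C1 * L) := mul_le_mul h4 (hH c) (hH0 c) h5
      _ = _ := by ring
  -- the part Sb
  have hb : (∑ c ∈ S.filter P, f c) * Q ≤ C1 * L * (C2 * T * t ^ (-κ)) := by
    have h4 := hcb t ρ1 ρ2 hRg.1 hRho (S.filter P) (by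
      intro c hc
      rw [Finset.mem_filter, hP] at hc
      exact ⟨(hS c hc.1).1, (hS c hc.1).2, hc.2⟩)
    rw [← hQdef] at h4
    have h5 : ∑ c ∈ S.filter P, f c ≤
        C1 * L * ∑ c ∈ S.filter P, ni (cn c) ^ (1 + ε1) * Wt (4 / 5) t c := by
      rw [Finset.mul_sum]
      exact Finset.sum_le_sum fun c hc =>
        hfle (1 + ε1) (by linarith) c (Finset.mem_filter.1 hc).1
    calc (∑ c ∈ S.filter P, f c) * Q
        ≤ (C1 * L * ∑ c ∈ S.filter P, ni (cn c) ^ (1 + ε1) * Wt (4 / 5) t c) * Q :=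
          mul_le_mul_of_nonneg_right h5 hQ0
      _ = C1 * L * ((∑ c ∈ S.filter P, ni (cn c) ^ (1 + ε1) * Wt (4 / 5) t c) * Q) := by ring
      _ ≤ C1 * L * (C2 * T * t ^ (-κ)) := by
          refine mul_le_mul_of_nonneg_left ?_ (by positivity)
          refine h4.trans (le_of_eq ?_)
          rw [hTdef]
          ring
  -- the part Sn
  have hnP : ∀ c ∈ S.filter (fun c => ¬ P c), 1 ≤ t ∧ Ndg t c ∧ t ^ (-(1 / 200) : ℝ) ≤ ρ1 := by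
    intro c hc
    rw [Finset.mem_filter, hP] at hc
    have h4 := hc.2
    push Not at h4
    exact ⟨h4.1, h4.2.2.1, h4.2.2.2⟩
  have hn1 : (∑ c ∈ S.filter (fun c => ¬ P c), f c) * Q ≤ C1 * C6 * C9 * T * L := by
    rcases (S.filter (fun c => ¬ P c)).eq_empty_or_nonempty with h0 | ⟨c0, hc0⟩
    · rw [h0, Finset.sum_empty, zero_mul]
      positivity
    · obtain ⟨ht1, -, hρt⟩ := hnP c0 hc0
      have h4 := hnd t ρ1 ρ2 ht1 hRho hρt (S.filter (fun c => ¬ P c))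
        (fun c hc => ⟨(hS c (Finset.mem_filter.1 hc).1).1, (hnP c hc).2.1⟩)
      have h5 : ∑ c ∈ S.filter (fun c => ¬ P c), f c ≤
          C1 * L * ∑ c ∈ S.filter (fun c => ¬ P c),
            ni (cn c) ^ (9 / 5 : ℝ) * Wt (4 / 5) t c := by
        rw [Finset.mul_sum]
        exact Finset.sum_le_sum fun c hc =>
          hfle (9 / 5) (by linarith) c (Finset.mem_filter.1 hc).1
      calc (∑ c ∈ S.filter (fun c => ¬ P c), f c) * Q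
          ≤ (C1 * L * (C6 * t ^ (3 * Module.finrank ℚ K) *
              (ρ1 * ρ2) ^ (7 / 5 * (Module.finrank ℚ K : ℝ)))) * Q :=
            mul_le_mul_of_nonneg_right
              (h5.trans (mul_le_mul_of_nonneg_left h4 (by positivity))) hQ0
        _ = C1 * L * C6 * t ^ (3 * Module.finrank ℚ K) *
              ((ρ1 * ρ2) ^ (7 / 5 * (Module.finrank ℚ K : ℝ)) * Q) := by ring
        _ ≤ C1 * L * C6 * t ^ (3 * Module.finrank ℚ K) *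
              (C9 * ((ρ2 / ρ1) ^ Module.finrank ℚ K * ρ1 ^ (1 / 2 : ℝ))) :=
            mul_le_mul_of_nonneg_left hkey' (by positivity)
        _ = C1 * C6 * C9 * T * L := by rw [hTdef]; ring
  have hTT : ∀ A X : ℝ, A * t ^ (3 * Module.finrank ℚ K) * (ρ2 / ρ1) ^ Module.finrank ℚ K *
      ρ1 ^ (1 / 2 : ℝ) * X = A * T * X := by
    intro A X
    rw [hTdef]
    ring
  rw [hsplit, add_mul]
  constructor
  · rw [hTT]
    have h4 : t ^ (-κ) ≤ C ^ κ := by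
      rw [Real.rpow_neg ht0.le, ← Real.inv_rpow ht0.le]
      refine Real.rpow_le_rpow (by positivity) ?_ hκ.le
      rw [inv_le_comm₀ ht0 hC0, inv_eq_one_div, div_le_iff₀ hC0]
      have := hRg.1
      linarith
    have h5 : C1 * L * (C2 * T * t ^ (-κ)) ≤ C1 * C2 * C ^ κ * T * L := by
      have h6 : C1 * L * (C2 * T * t ^ (-κ)) = C1 * C2 * T * L * t ^ (-κ) := by ring
      have h7 : C1 * C2 * C ^ κ * T * L = C1 * C2 * T * L * C ^ κ := by ring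
      rw [h6, h7]
      exact mul_le_mul_of_nonneg_left h4 (by positivity)
    have h8 : 0 ≤ (C1 * C2 * (2 / κ ^ 2) + C7 * C9) * T * L := by positivity
    nlinarith [hb, hn1, h5, h8]
  · intro hexp
    rw [hTT]
    have hLp : 1 ≤ L ^ (3 / 4 + 1 / 100 : ℝ) := Real.one_le_rpow hL (by norm_num)
    have h4 : C1 * L * (C2 * T * t ^ (-κ)) ≤ C1 * C2 * (2 / κ ^ 2) * T *
        L ^ (3 / 4 + 1 / 100 : ℝ) := by
      have h6 : C1 * L * (C2 * T * t ^ (-κ)) = C1 * C2 * T * (L * t ^ (-κ)) := by ring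
      rw [h6]
      calc C1 * C2 * T * (L * t ^ (-κ)) ≤ C1 * C2 * T * (2 / κ ^ 2) :=
            mul_le_mul_of_nonneg_left (key2 hκ hL hexp) (by positivity)
        _ = C1 * C2 * (2 / κ ^ 2) * T * 1 := by ring
        _ ≤ _ := mul_le_mul_of_nonneg_left hLp (by positivity)
    have hn2 : (∑ c ∈ S.filter (fun c => ¬ P c), f c) * Q ≤
        C7 * C9 * T * L ^ (3 / 4 + 1 / 100 : ℝ) := by
      rcases (S.filter (fun c => ¬ P c)).eq_empty_or_nonempty with h0 | ⟨c0, hc0⟩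
      · rw [h0, Finset.sum_empty, zero_mul]
        positivity
      · obtain ⟨ht1, -, hρt⟩ := hnP c0 hc0
        have h5 := hcx s t ρ1 ρ2 hs hRg hRho hρt (by rw [← hLdef]; exact hexp)
          (S.filter (fun c => ¬ P c))
          (fun c hc => ⟨(hS c (Finset.mem_filter.1 hc).1).1, (hnP c hc).2.1⟩)
        rw [← hLdef] at h5
        have h6 : ∑ c ∈ S.filter (fun c => ¬ P c), f c ≤
            ∑ c ∈ S.filter (fun c => ¬ P c),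
              ni (cn c) ^ (6 / 5 : ℝ) * Wt (4 / 5) t c * Hc m (2 + s) (dt c) := by
          refine Finset.sum_le_sum fun c hc => ?_
          rw [hf]
          exact mul_le_mul_of_nonneg_right (mul_le_mul_of_nonneg_right
            (hpow (6 / 5) (by linarith) c (Finset.mem_filter.1 hc).1) (hW c)) (hH0 c)
        calc (∑ c ∈ S.filter (fun c => ¬ P c), f c) * Q
            ≤ (C7 * t ^ (3 * Module.finrank ℚ K) *
                (ρ1 * ρ2) ^ (7 / 5 * (Module.finrank ℚ K : ℝ)) *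
                L ^ (3 / 4 + 1 / 100 : ℝ)) * Q :=
              mul_le_mul_of_nonneg_right (h6.trans h5) hQ0
          _ = C7 * t ^ (3 * Module.finrank ℚ K) * L ^ (3 / 4 + 1 / 100 : ℝ) *
                ((ρ1 * ρ2) ^ (7 / 5 * (Module.finrank ℚ K : ℝ)) * Q) := by ring
          _ ≤ C7 * t ^ (3 * Module.finrank ℚ K) * L ^ (3 / 4 + 1 / 100 : ℝ) *
                (C9 * ((ρ2 / ρ1) ^ Module.finrank ℚ K * ρ1 ^ (1 / 2 : ℝ))) :=
              mul_le_mul_of_nonneg_left hkey' (by positivity)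
          _ = C7 * C9 * T * L ^ (3 / 4 + 1 / 100 : ℝ) := by rw [hTdef]; ring
    have h8 : 0 ≤ (C1 * C2 * C ^ κ + C1 * C6 * C9) * T * L ^ (3 / 4 + 1 / 100 : ℝ) := by
      positivity
    nlinarith [hb, hn2, h4, h8]

end H88.WS
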