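import Pool.Agent.H88.WS.Cor
import Pool.Agent.H37.DG.Asm

/-!
# (W1#): `CoreSharp K` for every number field containing a primitive cube root of unity (MP_b39724)
-/

open scoped NumberField
open H88.A4

noncomputable section

namespace H88.WS

/-- the case `D3 = 0` -/
theorem deg2 (K : Type) [Field K] [NumberField K] : Deg2Stmt K := H37.DG.deg2 K (com0 K)

open H38.ML H63.MA in
/-- `CoreSharp K`, unconditionally -/
theorem core_sharp (K : IntermediateField ℚ QBar) [NumberField K] (ζ : K)
    (hζ : IsPrimitiveRoot ζ 3) : H48.T3.CoreSharp K :=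
  core_sharp_deg K ζ hζ (deg2 K)

end H88.WS
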