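import Pool.Agent.H88.WS.Mrt

/-!
# [H88 WS HCB] Bounds for `Hc` (W1#, MP_b39724)

PROOF. `Hc m X D = exp (∑_{P ∈ PrK K X} (if Inr m D P then 0 else 1/N P))`; all sets are finite (`prk_fin`), so the `finsum`s are finite sums.
`one_le_hc`: the exponent is `≥ 0`. `hc_le`: the exponent is at most `∑_{N P ≤ X} 1/N P ≤ log log X + C` (`mrt`).
`hc_sharp`: for a prime `P` put `e = if Inr then 0 else 1`. By the definition of `ch`: `Inr`: `ch = -1`; `m ∈ P` or `D ∈ P` (not `Inr`): `ch = 0`; otherwise `ch = 1`. So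
`e = (1 + ch)/2` if `ch = ± 1` and `e = 1 = (1 + ch)/2 + 1/2` if `ch = 0`. Hence (`2 ≤ w ≤ z ≤ X`)
`∑_{N P ≤ X} e/N P ≤ ∑_{N P ≤ w} 1/N P + (1/2) ∑_{w < N P ≤ z} 1/N P + (1/2) Xs m w z D + (1/2) ∑_{w < N P ≤ z, P ∣ m D} 1/N P + ∑_{z < N P ≤ X} 1/N P`.
The sums over intervals are differences, so by `mrt` (for `w ≥ 3`; for `2 ≤ w < 3` adapt the constants) the right side is at most
`log log w + (1/2) (log log z - log log w) + (log log X - log log z) + C' + (1/2) Xs + (1/2) ∑_{..}` `= log log X - (1/2) log log z + (1/2) log log w + ..`.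
`Xs ≤ 1`. The primes with `w < N P` and `m ∈ P`: `≤ ∑_{P ∣ m} 1`, a constant depending on `m`. The primes with `w < N P` containing `D ≠ 0`: their number `r` satisfies
`2^r ≤ ∏ N P ≤ nz D` (product of distinct primes containing `D` divides `(D)`), so `∑ ≤ r/w ≤ log (nz D)/(w log 2) ≤ 2` as `log (nz D) ≤ w`. Exponentiate:
`exp (log log X - (1/2) log log z + (1/2) log log w) = log X (log z)^(-1/2) (log w)^(1/2)`.
-/

open scoped NumberField Classical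
open H88.A4 Pool.Agent.H67.WA

noncomputable section

namespace H88.WS

variable (K : Type) [Field K] [NumberField K]

private theorem hcb_fs (f : Ideal (𝓞 K) → ℝ) (x : ℝ) :
    ∑ᶠ P ∈ PrK K x, f P = ∑ P ∈ (prk_fin K x).toFinset, f P :=
  finsum_mem_eq_finite_toFinset_sum _ _

private theorem hcb_mem {x : ℝ} {P : Ideal (𝓞 K)} :
    P ∈ (prk_fin K x).toFinset ↔ P.IsPrime ∧ P ≠ ⊥ ∧ ni P ≤ x := by
  rw [Set.Finite.mem_toFinset]
  rfl

private theorem hcb_sub {x y : ℝ} (h : x ≤ y) : (prk_fin K x).toFinset ⊆ (prk_fin K y).toFinset := by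
  intro P hP
  rw [hcb_mem] at hP ⊢
  exact ⟨hP.1, hP.2.1, hP.2.2.trans h⟩

variable {K} in
private theorem hcb_card {a : 𝓞 K} (ha : a ≠ 0) (G : Finset (Ideal (𝓞 K)))
    (hG : ∀ P ∈ G, P.IsPrime ∧ P ≠ ⊥ ∧ a ∈ P) : (G.card : ℝ) * Real.log 2 ≤ Real.log (nz a) := by
  have h1 : ∏ P ∈ G, P ∣ Ideal.span {a} := by
    apply Finset.prod_primes_dvd
    · intro P hP
      exact Ideal.prime_of_isPrime (hG P hP).2.1 (hG P hP).1
    · intro P hP
      rw [Ideal.dvd_span_singleton]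
      exact (hG P hP).2.2
  have h2 : ∀ P ∈ G, (2 : ℝ) ≤ ni P := by
    intro P hP
    have h3 : Ideal.absNorm P ≠ 0 := by
      rw [Ne, Ideal.absNorm_eq_zero_iff]
      exact (hG P hP).2.1
    have h4 : Ideal.absNorm P ≠ 1 := by
      rw [Ne, Ideal.absNorm_eq_one_iff]
      exact (hG P hP).1.ne_top
    have h5 : 2 ≤ Ideal.absNorm P := by omega
    unfold ni
    exact_mod_cast h5
  have h3 : (2 : ℝ) ^ G.card ≤ nz a := by
    rw [nz_ni]
    have h4 : ni (∏ P ∈ G, P) ≤ ni (Ideal.span {a}) := ni_le_of_le (Ideal.le_of_dvd h1) (span_ne ha)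
    have h5 : ni (∏ P ∈ G, P) = ∏ P ∈ G, ni P := by
      unfold ni
      rw [map_prod]
      push_cast
      rfl
    calc (2 : ℝ) ^ G.card = ∏ P ∈ G, (2 : ℝ) := by rw [Finset.prod_const]
      _ ≤ ∏ P ∈ G, ni P := Finset.prod_le_prod (fun _ _ => by norm_num) h2
      _ ≤ _ := by rw [← h5]; exact h4
  have h6 := Real.log_le_log (by positivity) h3
  rwa [Real.log_pow] at h6

theorem one_le_hc (m : ℕ) (X : ℝ) (D : 𝓞 K) : 1 ≤ Hc m X D := by
  unfold Hc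
  refine Real.one_le_exp ?_
  rw [hcb_fs]
  refine Finset.sum_nonneg fun P _ => ?_
  split_ifs
  · exact le_rfl
  · exact inv_nonneg.2 (ni_nonneg P)

theorem hc_le : ∃ C : ℝ, 0 < C ∧ ∀ (m : ℕ) (X : ℝ) (D : 𝓞 K), 3 ≤ X →
    Hc m X D ≤ C * Real.log X := by
  obtain ⟨C, hC, h⟩ := mrt K
  refine ⟨Real.exp C, Real.exp_pos C, fun m X D hX => ?_⟩
  have h1 : 0 < Real.log X := Real.log_pos (by linarith)
  have h2 := (abs_le.1 (h X hX)).2
  rw [hcb_fs] at h2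
  have h3 : ∑ᶠ P ∈ PrK K X, (if Inr m D P then 0 else (ni P)⁻¹) ≤ C + Real.log (Real.log X) := by
    rw [hcb_fs]
    have h4 : ∑ P ∈ (prk_fin K X).toFinset, (if Inr m D P then 0 else (ni P)⁻¹) ≤
        ∑ P ∈ (prk_fin K X).toFinset, (ni P)⁻¹ := by
      refine Finset.sum_le_sum fun P _ => ?_
      split_ifs
      · exact inv_nonneg.2 (ni_nonneg P)
      · exact le_rfl
    linarith
  unfold Hc
  calc _ ≤ Real.exp (C + Real.log (Real.log X)) := Real.exp_le_exp.2 h3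
    _ = _ := by rw [Real.exp_add, Real.exp_log h1]

private theorem hcb_main (m : ℕ) (hm : m ≠ 0) {C0 : ℝ}
    (hC0 : ∀ x : ℝ, 3 ≤ x → |∑ᶠ P ∈ PrK K x, (ni P)⁻¹ - Real.log (Real.log x)| ≤ C0)
    (w z X : ℝ) (D : 𝓞 K) (hw : 3 ≤ w) (hwz : w ≤ z) (hzX : z ≤ X) (hD : D ≠ 0)
    (hDw : Real.log (nz D) ≤ w) (hX : Xs m w z D ≤ 1) :
    ∑ᶠ P ∈ PrK K X, (if Inr m D P then 0 else (ni P)⁻¹) ≤
      Real.log (Real.log X) - Real.log (Real.log z) / 2 + Real.log (Real.log w) / 2 +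
        (2 * C0 + 2 + Real.log (nz ((m : ℕ) : 𝓞 K))) := by
  have hfw := hC0 w hw
  have hfz := hC0 z (hw.trans hwz)
  have hfX := hC0 X ((hw.trans hwz).trans hzX)
  rw [hcb_fs] at hfw hfz hfX ⊢
  have hm0 : ((m : ℕ) : 𝓞 K) ≠ 0 := by exact_mod_cast hm
  set F : ℝ → Finset (Ideal (𝓞 K)) := fun x => (prk_fin K x).toFinset with hF
  have hmem : ∀ {x : ℝ} {P : Ideal (𝓞 K)}, P ∈ F x ↔ P.IsPrime ∧ P ≠ ⊥ ∧ ni P ≤ x :=
    fun {x} {P} => hcb_mem K
  have s1 : F w ⊆ F z := hcb_sub K hwz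
  have s2 : F z ⊆ F X := hcb_sub K hzX
  have e1 : ∀ g : Ideal (𝓞 K) → ℝ, ∑ P ∈ F z, g P = ∑ P ∈ F z \ F w, g P + ∑ P ∈ F w, g P :=
    fun g => (Finset.sum_sdiff s1).symm
  have e2 : ∀ g : Ideal (𝓞 K) → ℝ, ∑ P ∈ F X, g P = ∑ P ∈ F X \ F z, g P + ∑ P ∈ F z, g P :=
    fun g => (Finset.sum_sdiff s2).symm
  have hle : ∀ P : Ideal (𝓞 K), (if Inr m D P then 0 else (ni P)⁻¹) ≤ (ni P)⁻¹ := by
    intro P
    split_ifs
    · exact inv_nonneg.2 (ni_nonneg P)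
    · exact le_rfl
  have b1 : ∑ P ∈ F w, (if Inr m D P then 0 else (ni P)⁻¹) ≤ ∑ P ∈ F w, (ni P)⁻¹ :=
    Finset.sum_le_sum fun P _ => hle P
  have b3 : ∑ P ∈ F X \ F z, (if Inr m D P then 0 else (ni P)⁻¹) ≤ ∑ P ∈ F X \ F z, (ni P)⁻¹ :=
    Finset.sum_le_sum fun P _ => hle P
  have hXs : Xs m w z D = ∑ P ∈ F z \ F w, ch m D P * (ni P)⁻¹ := by
    unfold Xs
    have h1 : PrK K z \ PrK K w = ((F z \ F w : Finset (Ideal (𝓞 K))) : Set (Ideal (𝓞 K))) := by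
      rw [Finset.coe_sdiff, hF, Set.Finite.coe_toFinset, Set.Finite.coe_toFinset]
    rw [h1, finsum_mem_coe_finset]
  have b2 : ∑ P ∈ F z \ F w, (if Inr m D P then 0 else (ni P)⁻¹) ≤
      ∑ P ∈ F z \ F w, ((1 / 2) * (ni P)⁻¹ + (1 / 2) * (ch m D P * (ni P)⁻¹) +
        ((1 / 2) * (if ((m : ℕ) : 𝓞 K) ∈ P then (ni P)⁻¹ else 0) +
          (1 / 2) * (if D ∈ P then (ni P)⁻¹ else 0))) := by
    refine Finset.sum_le_sum fun P _ => ?_
    have h0 : 0 ≤ (ni P)⁻¹ := inv_nonneg.2 (ni_nonneg P)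
    unfold ch
    by_cases hI : Inr m D P
    · rw [if_pos hI, if_pos hI, if_neg hI.1, if_neg hI.2.1]
      linarith
    · rw [if_neg hI, if_neg hI]
      by_cases h1 : ((m : ℕ) : 𝓞 K) ∈ P
      · rw [if_pos (Or.inl h1), if_pos h1]
        have h2 : 0 ≤ (if D ∈ P then (ni P)⁻¹ else 0) := by
          split_ifs
          · exact h0
          · exact le_rfl
        linarith
      · by_cases h2 : D ∈ P
        · rw [if_pos (Or.inr h2), if_neg h1, if_pos h2]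
          linarith
        · rw [if_neg (fun h => h.elim h1 h2), if_neg h1, if_neg h2]
          linarith
  have b2' : ∑ P ∈ F z \ F w, (if Inr m D P then 0 else (ni P)⁻¹) ≤
      (1 / 2) * ∑ P ∈ F z \ F w, (ni P)⁻¹ + (1 / 2) * Xs m w z D +
        ((1 / 2) * ∑ P ∈ F z \ F w, (if ((m : ℕ) : 𝓞 K) ∈ P then (ni P)⁻¹ else 0) +
          (1 / 2) * ∑ P ∈ F z \ F w, (if D ∈ P then (ni P)⁻¹ else 0)) := by
    rw [hXs, Finset.mul_sum, Finset.mul_sum, Finset.mul_sum, Finset.mul_sum, ← Finset.sum_add_distrib,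
      ← Finset.sum_add_distrib, ← Finset.sum_add_distrib]
    exact b2
  have hl2 : (1 : ℝ) / 2 ≤ Real.log 2 := by
    have := Real.log_two_gt_d9
    linarith
  have hT1 : ∑ P ∈ F z \ F w, (if ((m : ℕ) : 𝓞 K) ∈ P then (ni P)⁻¹ else 0) ≤
      2 * Real.log (nz ((m : ℕ) : 𝓞 K)) := by
    rw [← Finset.sum_filter]
    have h1 := hcb_card hm0 ((F z \ F w).filter fun P => ((m : ℕ) : 𝓞 K) ∈ P) (by
      intro P hP
      rw [Finset.mem_filter, Finset.mem_sdiff] at hP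
      have h2 := hmem.1 hP.1.1
      exact ⟨h2.1, h2.2.1, hP.2⟩)
    have h2 : ∑ P ∈ (F z \ F w).filter (fun P => ((m : ℕ) : 𝓞 K) ∈ P), (ni P)⁻¹ ≤
        (((F z \ F w).filter fun P => ((m : ℕ) : 𝓞 K) ∈ P).card : ℝ) := by
      have h3 : ∑ P ∈ (F z \ F w).filter (fun P => ((m : ℕ) : 𝓞 K) ∈ P), (ni P)⁻¹ ≤
          ∑ P ∈ (F z \ F w).filter (fun P => ((m : ℕ) : 𝓞 K) ∈ P), (1 : ℝ) := by
        refine Finset.sum_le_sum fun P hP => ?_
        rw [Finset.mem_filter, Finset.mem_sdiff] at hP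
        exact inv_le_one_of_one_le₀ (one_le_ni (hmem.1 hP.1.1).2.1)
      rwa [Finset.sum_const, nsmul_eq_mul, mul_one] at h3
    have h4 : (0 : ℝ) ≤ (((F z \ F w).filter fun P => ((m : ℕ) : 𝓞 K) ∈ P).card : ℝ) := Nat.cast_nonneg _
    nlinarith
  have hT2 : ∑ P ∈ F z \ F w, (if D ∈ P then (ni P)⁻¹ else 0) ≤ 2 := by
    rw [← Finset.sum_filter]
    have h1 := hcb_card hD ((F z \ F w).filter fun P => D ∈ P) (by
      intro P hP
      rw [Finset.mem_filter, Finset.mem_sdiff] at hP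
      have h2 := hmem.1 hP.1.1
      exact ⟨h2.1, h2.2.1, hP.2⟩)
    have h2 : ∑ P ∈ (F z \ F w).filter (fun P => D ∈ P), (ni P)⁻¹ ≤
        (((F z \ F w).filter fun P => D ∈ P).card : ℝ) * w⁻¹ := by
      have h3 : ∑ P ∈ (F z \ F w).filter (fun P => D ∈ P), (ni P)⁻¹ ≤
          ∑ P ∈ (F z \ F w).filter (fun P => D ∈ P), w⁻¹ := by
        refine Finset.sum_le_sum fun P hP => ?_
        rw [Finset.mem_filter, Finset.mem_sdiff] at hP
        have h5 := hmem.1 hP.1.1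
        have h6 : w < ni P := by
          by_contra h7
          exact hP.1.2 (hmem.2 ⟨h5.1, h5.2.1, not_lt.1 h7⟩)
        exact inv_anti₀ (by linarith) h6.le
      rwa [Finset.sum_const, nsmul_eq_mul] at h3
    have h4 : (0 : ℝ) ≤ (((F z \ F w).filter fun P => D ∈ P).card : ℝ) := Nat.cast_nonneg _
    have h5 : (((F z \ F w).filter fun P => D ∈ P).card : ℝ) ≤ 2 * w := by nlinarith
    have hw0 : 0 < w := by linarith
    calc _ ≤ (((F z \ F w).filter fun P => D ∈ P).card : ℝ) * w⁻¹ := h2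
      _ ≤ 2 * w * w⁻¹ := mul_le_mul_of_nonneg_right h5 (inv_nonneg.2 hw0.le)
      _ = 2 := by rw [mul_assoc, mul_inv_cancel₀ hw0.ne', mul_one]
  have q1 := e1 fun P => (ni P)⁻¹
  have q2 := e2 fun P => (ni P)⁻¹
  have q3 := e1 fun P => (if Inr m D P then 0 else (ni P)⁻¹)
  have q4 := e2 fun P => (if Inr m D P then 0 else (ni P)⁻¹)
  have r1 := abs_le.1 hfw
  have r2 := abs_le.1 hfz
  have r3 := abs_le.1 hfX
  have hn : 0 ≤ Real.log (nz ((m : ℕ) : 𝓞 K)) := Real.log_nonneg (one_le_nz hm0)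
  rw [q4, q3]
  change |∑ P ∈ F w, (ni P)⁻¹ - Real.log (Real.log w)| ≤ C0 at hfw
  obtain ⟨r1a, r1b⟩ := r1
  obtain ⟨r2a, r2b⟩ := r2
  obtain ⟨r3a, r3b⟩ := r3
  linarith

theorem hc_sharp (m : ℕ) (hm : m ≠ 0) : ∃ C : ℝ, 0 < C ∧ ∀ (w z X : ℝ) (D : 𝓞 K), 3 ≤ w → w ≤ z →
    z ≤ X → D ≠ 0 → Real.log (nz D) ≤ w → Xs m w z D ≤ 1 →
    Hc m X D ≤ C * Real.log X * Real.log z ^ (-(1 / 2) : ℝ) * Real.log w ^ (1 / 2 : ℝ) := by
  obtain ⟨C0, -, hC0⟩ := mrt K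
  refine ⟨Real.exp (2 * C0 + 2 + Real.log (nz ((m : ℕ) : 𝓞 K))), Real.exp_pos _,
    fun w z X D hw hwz hzX hD hDw hX => ?_⟩
  have h1 := hcb_main K m hm hC0 w z X D hw hwz hzX hD hDw hX
  have lw : 0 < Real.log w := Real.log_pos (by linarith)
  have lz : 0 < Real.log z := Real.log_pos (by linarith)
  have lX : 0 < Real.log X := Real.log_pos (by linarith)
  unfold Hc
  refine (Real.exp_le_exp.2 h1).trans (le_of_eq ?_)
  rw [Real.rpow_def_of_pos lz, Real.rpow_def_of_pos lw]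
  nth_rewrite 2 [← Real.exp_log lX]
  rw [← Real.exp_add, ← Real.exp_add, ← Real.exp_add]
  congr 1
  ring

end H88.WS
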