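import Pool.Agent.H88.WS.Grd
import Pool.Agent.H88.WS.Hcb

/-!
# [H88 WS CX] `CxStmt` from `NdStmt`, `AvcStmt`, `SwStmt` (W1#, MP_b39724)

PROOF. `d = [K : ℚ]`, `L = log (2 + s)`, `X = 2 + s`, `t ≥ exp (√L)`. For `s ≤ s1` (a constant) use `Hc ≤ C L` (`hc_le`) and `NdStmt` (`ni^(6/5) ≤ ni^(9/5)`, `ni ≥ 1`): claim with a constant, as
`L ≥ 1`. Let `s ≥ s1`. `w = L^4`, `z = exp (√L/(100 d))`: `3 ≤ w ≤ z ≤ X`. `S` is the union of `S1 = {c : Xs m w z (dt c) ≤ 1}` and `S2 = {c : 1 < Xs ..}`. `dt c ≠ 0` by `Ndg` (`t ≥ 1`).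
(S1) `log (nz (dt c)) ≤ w`: `nz (dt c) ≤ (2 C^4 s^2)^d`, its log is `≤ C1 L ≤ L^4`. `hc_sharp`: `Hc ≤ C2 L (√L/(100 d))^(-1/2) (4 log L)^(1/2) ≤ C3 L^(3/4) (log L)^(1/2) ≤ C4 L^(3/4 + 1/100)`; with `NdStmt`
the part `S1` is `≤ C5 t^(3d) (ρ1 ρ2)^(7d/5) L^(3/4 + 1/100)`.
(S2) `Hc ≤ C6 L`. Hölder with the exponents `3/2` and `3`: `∑ ni^(6/5) Wt = ∑ (ni^(9/5) Wt)^(2/3) Wt^(1/3) ≤ (∑ ni^(9/5) Wt)^(2/3) (∑ Wt)^(1/3)`, the first sum by `NdStmt`: `≤ C7 V`, `V = t^(3d) (ρ1 ρ2)^(7d/5)`.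
CLAIM: `∑_{c ∈ S2} Wt (4/5) t c ≤ C8 V / w`. Then the part `S2` is `≤ C9 L V w^(-1/3) = C9 V L^(1 - 4/3) ≤ C9 V`.
PROOF OF THE CLAIM: as in `Bf1` with `t` in place of `s`: `y = t^(9/10)`, `C0` from `grd_dist`, `n = ⌊y / C0⌋₊`, `lam = t^(-1/50)`, `grd_sum` with `F = 1`, `W = Wt (4/5) t`, `W' = Wl (4/5) t lam`, `Φ = C10 n^(3d)/w`, `c1 = 2^(4d/5)`.
(h1) the set `S2.filter (ix n c = ix n c0)` is contained in a `cube n c0'` (`grd_cube`), so its number of elements is `≤ C10 n^(3d)/w` by `AvcStmt`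
(`2 ≤ w ≤ z`, `z^4 = exp (√L/(25 d)) ≤ n` since `n ≥ t^(9/10)/(2 C0) ≥ exp (9 √L/10)/(2 C0)` and `s ≥ s1`).
(h2) `Wt (4/5) t c ≤ 2^(4d/5) Wl (4/5) t lam c'` if `ix n c' = ix n c`, `c ∈ S2`: `|dt c' - dt c|_φ ≤ C t^(1 + 1/200 + 9/10) ≤ t^(2 - 1/50) ≤ |dt c|_φ` (`ρ2^2 ≤ C/ρ1 ≤ C t^(1/200)`, `t` large since `s ≥ s1`).
The points of `S'` satisfy `Bx (2 C) t ρ1 ρ2` (`t ρ1^2 ≥ t^(99/100) ≥ y`), and `SwStmt` (`s := t`, `θ = 4/5`, `h = ⊤`, constant `C9 ≥ 2 C` with `ρ2 ≤ C9 t^(1/100)`) gives `∑_{S'} W' ≤ C11 V`. So the sum is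
`≤ c1 Φ n^(-3d) C11 V = C8 V/w`.
-/

open scoped NumberField
open H88.A4 Pool.Agent.H67.WA

noncomputable section

namespace H88.WS

section prep

variable {K : Type} [Field K] [NumberField K]

/-- the determinant in a box -/
private theorem cx_det {C t ρ1 ρ2 : ℝ} (hC : 0 ≤ C) (ht : 0 ≤ t) {c : T3 K}
    (hc : Bx C t ρ1 ρ2 c) (φ : K →+* ℂ) : sz φ (dt c) ≤ 2 * (C * t * (ρ1 * ρ2)) ^ 2 := by
  obtain ⟨a1, a2, a3⟩ := hc
  have b1 : sz φ c.1 ≤ C * t * ρ1 ^ 2 := a1 φ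
  have b2 : sz φ c.2.1 ≤ C * t * (ρ1 * ρ2) := a2 φ
  have b3 : sz φ c.2.2 ≤ C * t * ρ2 ^ 2 := a3 φ
  unfold dt
  refine (sz_sub φ _ _).trans ?_
  rw [sz_mul, sz_pow]
  have e1 : sz φ c.1 * sz φ c.2.2 ≤ (C * t * ρ1 ^ 2) * (C * t * ρ2 ^ 2) :=
    mul_le_mul b1 b3 (sz_nonneg _ _) (by positivity)
  have e2 : sz φ c.2.1 ^ 2 ≤ (C * t * (ρ1 * ρ2)) ^ 2 := pow_le_pow_left₀ (sz_nonneg _ _) b2 2
  calc _ ≤ _ := add_le_add e1 e2
    _ = _ := by ring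

/-- the determinant of a close triple -/
private theorem cx_dif {R y : ℝ} (hR : 0 ≤ R) (hy : 0 ≤ y) {c c' : T3 K} (φ : K →+* ℂ)
    (b1 : sz φ c.1 ≤ R) (b2 : sz φ c.2.1 ≤ R) (b3 : sz φ c.2.2 ≤ R)
    (e1 : sz φ (c'.1 - c.1) ≤ y) (e2 : sz φ (c'.2.1 - c.2.1) ≤ y)
    (e3 : sz φ (c'.2.2 - c.2.2) ≤ y) :
    sz φ (dt c') ≤ sz φ (dt c) + (4 * (R * y) + 2 * y ^ 2) := by
  have h1 : dt c' = dt c + ((c.1 * (c'.2.2 - c.2.2) + (c'.1 - c.1) * c.2.2) +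
      ((c'.1 - c.1) * (c'.2.2 - c.2.2) - (2 * (c.2.1 * (c'.2.1 - c.2.1)) +
        (c'.2.1 - c.2.1) ^ 2))) := by
    unfold dt
    ring
  have k1 : sz φ (c.1 * (c'.2.2 - c.2.2)) ≤ R * y := by
    rw [sz_mul]
    exact mul_le_mul b1 e3 (sz_nonneg _ _) hR
  have k2 : sz φ ((c'.1 - c.1) * c.2.2) ≤ R * y := by
    rw [sz_mul, mul_comm]
    exact mul_le_mul b3 e1 (sz_nonneg _ _) hR
  have k3 : sz φ ((c'.1 - c.1) * (c'.2.2 - c.2.2)) ≤ y ^ 2 := by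
    rw [sz_mul, pow_two]
    exact mul_le_mul e1 e3 (sz_nonneg _ _) hy
  have k4 : sz φ (2 * (c.2.1 * (c'.2.1 - c.2.1))) ≤ 2 * (R * y) := by
    rw [sz_mul, sz_mul, sz_two]
    exact mul_le_mul_of_nonneg_left (mul_le_mul b2 e2 (sz_nonneg _ _) hR) (by norm_num)
  have k5 : sz φ ((c'.2.1 - c.2.1) ^ 2) ≤ y ^ 2 := by
    rw [sz_pow]
    exact pow_le_pow_left₀ (sz_nonneg _ _) e2 2
  rw [h1]
  refine (sz_add φ _ _).trans (add_le_add_right ?_ _)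
  refine (sz_add φ _ _).trans ?_
  have k6 := sz_add φ (c.1 * (c'.2.2 - c.2.2)) ((c'.1 - c.1) * c.2.2)
  have k7 := sz_sub φ ((c'.1 - c.1) * (c'.2.2 - c.2.2)) (2 * (c.2.1 * (c'.2.1 - c.2.1)) +
        (c'.2.1 - c.2.1) ^ 2)
  have k8 := sz_add φ (2 * (c.2.1 * (c'.2.1 - c.2.1))) ((c'.2.1 - c.2.1) ^ 2)
  linarith

private theorem cx_fac {a m : ℝ} (ha : 0 < a) (hm : 0 < m) (h : m ≤ 2 * a) :
    a ^ (-(4 / 5) : ℝ) ≤ 2 * m ^ (-(4 / 5) : ℝ) := by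
  have h1 : (2 * a) ^ (-(4 / 5) : ℝ) ≤ m ^ (-(4 / 5) : ℝ) :=
    Real.rpow_le_rpow_of_nonpos hm h (by norm_num)
  have h2 : a ^ (-(4 / 5) : ℝ) = 2 ^ (4 / 5 : ℝ) * (2 * a) ^ (-(4 / 5) : ℝ) := by
    rw [Real.mul_rpow (by norm_num) ha.le, ← mul_assoc, ← Real.rpow_add (by norm_num)]
    norm_num
  have h3 : (2 : ℝ) ^ (4 / 5 : ℝ) ≤ 2 := by
    calc (2 : ℝ) ^ (4 / 5 : ℝ) ≤ 2 ^ (1 : ℝ) :=
          Real.rpow_le_rpow_of_exponent_le (by norm_num) (by norm_num)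
      _ = 2 := Real.rpow_one 2
  have h4 : 0 ≤ (2 * a) ^ (-(4 / 5) : ℝ) := Real.rpow_nonneg (by linarith) _
  rw [h2]
  exact mul_le_mul h3 h1 h4 (by norm_num)

/-- comparison of the weights -/
private theorem cx_wt {t lam : ℝ} (ht : 0 < t) (hlam : 0 < lam) {c c' : T3 K}
    (h1 : ∀ φ : K →+* ℂ, sz φ (dt c') ≤ 2 * sz φ (dt c))
    (h2 : ∀ φ : K →+* ℂ, lam * t ^ 2 ≤ sz φ (dt c)) :
    Wt (4 / 5) t c ≤ 2 ^ Module.finrank ℚ K * Wl (4 / 5) t lam c' := by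
  have h3 : Wt (4 / 5) t c ≤ ∏ φ : K →+* ℂ, 2 * (max (sz φ (dt c') / t ^ 2) lam) ^ (-(4 / 5) : ℝ) := by
    unfold Wt
    refine Finset.prod_le_prod (fun φ _ => ?_) fun φ _ => ?_
    · exact Real.rpow_nonneg (div_nonneg (sz_nonneg _ _) (sq_nonneg _)) _
    · have h4 : lam ≤ sz φ (dt c) / t ^ 2 := by
        rw [le_div_iff₀ (by positivity)]
        exact h2 φ
      refine cx_fac (hlam.trans_le h4) (hlam.trans_le (le_max_right _ _)) (max_le ?_ ?_)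
      · rw [div_le_iff₀ (by positivity)]
        have h5 : 2 * (sz φ (dt c) / t ^ 2) * t ^ 2 = 2 * sz φ (dt c) := by
          field_simp
        rw [h5]
        exact h1 φ
      · linarith
  refine h3.trans (le_of_eq ?_)
  exact vol_smul 2 (fun φ : K →+* ℂ => (max (sz φ (dt c') / t ^ 2) lam) ^ (-(4 / 5) : ℝ))

private theorem cx_wt0 (θ t : ℝ) (c : T3 K) : 0 ≤ Wt θ t c :=
  Finset.prod_nonneg fun φ _ => Real.rpow_nonneg (div_nonneg (sz_nonneg _ _) (sq_nonneg _)) _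

end prep

section real

/-- bounds for the shape -/
private theorem cx_rho {C t ρ1 ρ2 : ℝ} (hC : 1 ≤ C) (ht : 1 ≤ t) (hr : Rho C ρ1 ρ2)
    (h : t ^ (-(1 / 200) : ℝ) ≤ ρ1) :
    ρ2 ^ 2 ≤ C * t ^ (1 / 200 : ℝ) ∧ ρ2 ≤ 2 * C * t ^ (1 / 100 : ℝ) ∧
      t ^ (9 / 10 : ℝ) ≤ t * ρ1 ^ 2 ∧ t ^ (-(1 / 100) : ℝ) ≤ ρ1 := by
  obtain ⟨h0, h1, h2, h3⟩ := hr
  have ht0 : 0 < t := by linarith
  have hρ2 : 0 < ρ2 := by linarith
  have k1 : ρ2 ^ 2 ≤ C * t ^ (1 / 200 : ℝ) := by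
    have k2 : t ^ (-(1 / 200) : ℝ) * ρ2 ^ 2 ≤ C :=
      (mul_le_mul_of_nonneg_right h (sq_nonneg _)).trans h3
    have k3 : t ^ (1 / 200 : ℝ) * t ^ (-(1 / 200) : ℝ) = 1 := by
      rw [← Real.rpow_add ht0]
      norm_num
    have k4 : 0 < t ^ (1 / 200 : ℝ) := Real.rpow_pos_of_pos ht0 _
    calc ρ2 ^ 2 = t ^ (1 / 200 : ℝ) * (t ^ (-(1 / 200) : ℝ) * ρ2 ^ 2) := by
          rw [← mul_assoc, k3, one_mul]
      _ ≤ t ^ (1 / 200 : ℝ) * C := mul_le_mul_of_nonneg_left k2 k4.le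
      _ = _ := mul_comm _ _
  refine ⟨k1, ?_, ?_, ?_⟩
  · have k5 : 0 < t ^ (1 / 100 : ℝ) := Real.rpow_pos_of_pos ht0 _
    have k6 : t ^ (1 / 200 : ℝ) ≤ (t ^ (1 / 100 : ℝ)) ^ 2 := by
      rw [← Real.rpow_natCast, ← Real.rpow_mul ht0.le]
      exact Real.rpow_le_rpow_of_exponent_le ht (by norm_num)
    have k7 : ρ2 ^ 2 ≤ (2 * C * t ^ (1 / 100 : ℝ)) ^ 2 := by
      calc ρ2 ^ 2 ≤ C * t ^ (1 / 200 : ℝ) := k1
        _ ≤ C * (t ^ (1 / 100 : ℝ)) ^ 2 := mul_le_mul_of_nonneg_left k6 (by linarith)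
        _ ≤ (4 * C ^ 2) * (t ^ (1 / 100 : ℝ)) ^ 2 :=
            mul_le_mul_of_nonneg_right (by nlinarith) (sq_nonneg _)
        _ = _ := by ring
    exact (sq_le_sq₀ hρ2.le (by positivity)).1 k7
  · have k8 : t ^ (-(1 / 100) : ℝ) ≤ ρ1 ^ 2 := by
      calc t ^ (-(1 / 100) : ℝ) = (t ^ (-(1 / 200) : ℝ)) ^ 2 := by
            rw [← Real.rpow_natCast, ← Real.rpow_mul ht0.le]
            norm_num
        _ ≤ ρ1 ^ 2 := pow_le_pow_left₀ (Real.rpow_nonneg ht0.le _) h 2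
    calc t ^ (9 / 10 : ℝ) ≤ t ^ (1 + -(1 / 100) : ℝ) :=
          Real.rpow_le_rpow_of_exponent_le ht (by norm_num)
      _ = t * t ^ (-(1 / 100) : ℝ) := by rw [Real.rpow_add ht0, Real.rpow_one]
      _ ≤ t * ρ1 ^ 2 := mul_le_mul_of_nonneg_left k8 ht0.le
  · exact (Real.rpow_le_rpow_of_exponent_le ht (by norm_num)).trans h

/-- the error of the determinant in a small cube -/
private theorem cx_err {C t ρ2 y : ℝ} (hC : 1 ≤ C) (ht : 1 ≤ t)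
    (h : ρ2 ^ 2 ≤ C * t ^ (1 / 200 : ℝ)) (hy : 0 ≤ y) (hy2 : y ≤ t ^ (9 / 10 : ℝ))
    (hbig : 4 * C ^ 2 + 2 ≤ t ^ (3 / 40 : ℝ)) :
    4 * (C * t * ρ2 ^ 2 * y) + 2 * y ^ 2 ≤ t ^ (2 - 1 / 50 : ℝ) := by
  have ht0 : 0 < t := by linarith
  have k1 : C * t * ρ2 ^ 2 * y ≤ C ^ 2 * t ^ (381 / 200 : ℝ) := by
    calc C * t * ρ2 ^ 2 * y ≤ C * t * (C * t ^ (1 / 200 : ℝ)) * t ^ (9 / 10 : ℝ) := by
          gcongr
      _ = C ^ 2 * (t * t ^ (1 / 200 : ℝ) * t ^ (9 / 10 : ℝ)) := by ring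
      _ = C ^ 2 * t ^ (381 / 200 : ℝ) := by
          congr 1
          nth_rewrite 1 [← Real.rpow_one t]
          rw [← Real.rpow_add ht0, ← Real.rpow_add ht0]
          norm_num
  have k2 : y ^ 2 ≤ t ^ (381 / 200 : ℝ) := by
    calc y ^ 2 ≤ (t ^ (9 / 10 : ℝ)) ^ 2 := pow_le_pow_left₀ hy hy2 2
      _ = t ^ (9 / 5 : ℝ) := by
          rw [← Real.rpow_natCast, ← Real.rpow_mul ht0.le]
          norm_num
      _ ≤ t ^ (381 / 200 : ℝ) := Real.rpow_le_rpow_of_exponent_le ht (by norm_num)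
  have k3 : 0 < t ^ (381 / 200 : ℝ) := Real.rpow_pos_of_pos ht0 _
  calc 4 * (C * t * ρ2 ^ 2 * y) + 2 * y ^ 2 ≤ (4 * C ^ 2 + 2) * t ^ (381 / 200 : ℝ) := by
        linarith
    _ ≤ t ^ (3 / 40 : ℝ) * t ^ (381 / 200 : ℝ) := mul_le_mul_of_nonneg_right hbig k3.le
    _ = t ^ (2 - 1 / 50 : ℝ) := by
        rw [← Real.rpow_add ht0]
        norm_num

/-- the side of the cubes -/
private theorem cx_n {C0 Y z : ℝ} (hC0 : 1 ≤ C0) (h1 : 2 * C0 ≤ Y) (h2 : 2 * C0 * z ^ 4 ≤ Y) :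
    ∃ n : ℕ, 0 < n ∧ C0 * n ≤ Y ∧ z ^ 4 ≤ n := by
  have hC : 0 < C0 := by linarith
  have h3 : 2 ≤ Y / C0 := by rwa [le_div_iff₀ hC]
  have h4 : ((⌊Y / C0⌋₊ : ℕ) : ℝ) ≤ Y / C0 := Nat.floor_le (by linarith)
  have h5 : Y / C0 < (⌊Y / C0⌋₊ : ℝ) + 1 := Nat.lt_floor_add_one _
  refine ⟨⌊Y / C0⌋₊, ?_, ?_, ?_⟩
  · rw [Nat.floor_pos]
    linarith
  · rw [le_div_iff₀ hC] at h4
    linarith
  · have h6 : z ^ 4 ≤ Y / C0 / 2 := by
      rw [div_div, le_div_iff₀ (by positivity)]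
      linarith
    linarith

/-- the thresholds -/
private theorem cx_thr (d : ℕ) (hd : 1 ≤ d) (C C0 : ℝ) (hC : 1 ≤ C) (hC0 : 1 ≤ C0) :
    ∃ R1 : ℝ, 2 ≤ R1 ∧ ∀ R : ℝ, R1 ≤ R → (R ^ 2) ^ 4 ≤ Real.exp (R / (100 * d)) ∧
      (d : ℝ) * (Real.log (2 * C ^ 4) + 2 * R ^ 2) ≤ (R ^ 2) ^ 4 ∧
      2 * C0 ≤ Real.exp (9 / 10 * R) ∧
      2 * C0 * Real.exp (R / (25 * d)) ≤ Real.exp (9 / 10 * R) ∧
      4 * C ^ 2 + 2 ≤ Real.exp (3 / 40 * R) := by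
  have hdr : (1 : ℝ) ≤ d := by exact_mod_cast hd
  have hlog : 0 ≤ Real.log (2 * C ^ 4) := by
    apply Real.log_nonneg
    have : 1 ≤ C ^ 4 := one_le_pow₀ hC
    linarith
  set K0 : ℝ := (d : ℝ) * (Real.log (2 * C ^ 4) + 2) with hK0
  have hK00 : 0 ≤ K0 := by positivity
  set A : ℝ := (100 * (d : ℝ)) ^ 9 * (Nat.factorial 9 : ℝ) with hA
  have hA0 : 0 < A := by positivity
  refine ⟨2 + A + K0 + 3 * C0 + 20 * (4 * C ^ 2 + 2), by nlinarith, fun R hR => ?_⟩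
  have hC2 : 0 ≤ 4 * C ^ 2 + 2 := by positivity
  have r1 : 2 ≤ R := by linarith
  have r2 : A ≤ R := by linarith
  have r3 : K0 ≤ R := by linarith
  have r4 : 3 * C0 ≤ R := by linarith
  have r5 : 20 * (4 * C ^ 2 + 2) ≤ R := by linarith
  have hR0 : 0 < R := by linarith
  have hexp : ∀ x : ℝ, x ≤ Real.exp x := fun x => by
    have := Real.add_one_le_exp x
    linarith
  refine ⟨?_, ?_, ?_, ?_, ?_⟩
  · have k1 := Real.pow_div_factorial_le_exp (R / (100 * d)) (by positivity) 9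
    refine le_trans ?_ k1
    rw [div_pow, div_div, ← hA, le_div_iff₀ hA0]
    calc (R ^ 2) ^ 4 * A ≤ (R ^ 2) ^ 4 * R := mul_le_mul_of_nonneg_left r2 (by positivity)
      _ = R ^ 9 := by ring
  · have k1 : 1 ≤ R ^ 2 := one_le_pow₀ (by linarith)
    have k2 : (d : ℝ) * (Real.log (2 * C ^ 4) + 2 * R ^ 2) ≤ K0 * R ^ 2 := by
      rw [hK0, mul_assoc]
      refine mul_le_mul_of_nonneg_left ?_ (by linarith)
      nlinarith
    have k3 : K0 * R ^ 2 ≤ R * R ^ 2 := mul_le_mul_of_nonneg_right r3 (by positivity)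
    have k4 : R * R ^ 2 ≤ (R ^ 2) ^ 4 := by
      calc R * R ^ 2 = R ^ 3 := by ring
        _ ≤ R ^ 8 := pow_le_pow_right₀ (by linarith) (by norm_num)
        _ = _ := by ring
    linarith
  · have := hexp (9 / 10 * R)
    linarith
  · have k1 : Real.exp (R / (25 * d)) ≤ Real.exp (R / 25) := by
      rw [Real.exp_le_exp]
      refine div_le_div_of_nonneg_left hR0.le (by norm_num) ?_
      linarith
    have k2 : 2 * C0 ≤ Real.exp (9 / 10 * R - R / 25) := by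
      have := hexp (9 / 10 * R - R / 25)
      linarith
    calc 2 * C0 * Real.exp (R / (25 * d)) ≤ Real.exp (9 / 10 * R - R / 25) * Real.exp (R / 25) :=
          mul_le_mul k2 k1 (Real.exp_pos _).le (Real.exp_pos _).le
      _ = Real.exp (9 / 10 * R) := by
          rw [← Real.exp_add]
          congr 1
          ring
  · have := hexp (3 / 40 * R)
    linarith

private theorem cx_pow {L D : ℝ} (hL : 1 ≤ L) (hD : 0 < D) :
    L * (Real.sqrt L / D) ^ (-(1 / 2) : ℝ) * Real.log (L ^ 4) ^ (1 / 2 : ℝ) ≤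
      D ^ (1 / 2 : ℝ) * 200 ^ (1 / 2 : ℝ) * L ^ (3 / 4 + 1 / 100 : ℝ) := by
  have hL0 : 0 < L := by linarith
  have h1 : (Real.sqrt L / D) ^ (-(1 / 2) : ℝ) = L ^ (-(1 / 4) : ℝ) * D ^ (1 / 2 : ℝ) := by
    rw [Real.div_rpow (Real.sqrt_nonneg _) hD.le, Real.sqrt_eq_rpow, ← Real.rpow_mul hL0.le,
      Real.rpow_neg hD.le, div_inv_eq_mul]
    norm_num
  have h2 : Real.log (L ^ 4) ≤ 200 * L ^ (1 / 50 : ℝ) := by
    have h3 := Real.log_le_rpow_div hL0.le (by norm_num : (0 : ℝ) < 1 / 50)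
    rw [Real.log_pow]
    push_cast
    have h4 : L ^ (1 / 50 : ℝ) / (1 / 50) = 50 * L ^ (1 / 50 : ℝ) := by ring
    rw [h4] at h3
    linarith
  have h5 : Real.log (L ^ 4) ^ (1 / 2 : ℝ) ≤ 200 ^ (1 / 2 : ℝ) * L ^ (1 / 100 : ℝ) := by
    calc Real.log (L ^ 4) ^ (1 / 2 : ℝ) ≤ (200 * L ^ (1 / 50 : ℝ)) ^ (1 / 2 : ℝ) :=
          Real.rpow_le_rpow (Real.log_nonneg (one_le_pow₀ hL)) h2 (by norm_num)
      _ = _ := by
          rw [Real.mul_rpow (by norm_num) (Real.rpow_nonneg hL0.le _), ← Real.rpow_mul hL0.le]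
          norm_num
  have h6 : 0 ≤ L * (L ^ (-(1 / 4) : ℝ) * D ^ (1 / 2 : ℝ)) := by positivity
  rw [h1]
  calc L * (L ^ (-(1 / 4) : ℝ) * D ^ (1 / 2 : ℝ)) * Real.log (L ^ 4) ^ (1 / 2 : ℝ) ≤
      L * (L ^ (-(1 / 4) : ℝ) * D ^ (1 / 2 : ℝ)) * (200 ^ (1 / 2 : ℝ) * L ^ (1 / 100 : ℝ)) :=
        mul_le_mul_of_nonneg_left h5 h6
    _ = D ^ (1 / 2 : ℝ) * 200 ^ (1 / 2 : ℝ) * (L * L ^ (-(1 / 4) : ℝ) * L ^ (1 / 100 : ℝ)) := by
        ring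
    _ = _ := by
        congr 1
        nth_rewrite 1 [← Real.rpow_one L]
        rw [← Real.rpow_add hL0, ← Real.rpow_add hL0]
        norm_num

/-- the end of the Hoelder estimate -/
private theorem cx_hol {L V M a b : ℝ} (hL : 1 ≤ L) (hV : 0 ≤ V) (hM : 0 ≤ M) (ha0 : 0 ≤ a)
    (hb0 : 0 ≤ b) (ha : a ≤ M * V) (hb : b ≤ M * V / L ^ 4) :
    L * (a ^ (2 / 3 : ℝ) * b ^ (1 / 3 : ℝ)) ≤ M * V := by
  have hL0 : 0 < L := by linarith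
  have hMV : 0 ≤ M * V := mul_nonneg hM hV
  have h1 : a ^ (2 / 3 : ℝ) ≤ (M * V) ^ (2 / 3 : ℝ) := Real.rpow_le_rpow ha0 ha (by norm_num)
  have h2 : b ^ (1 / 3 : ℝ) ≤ (M * V) ^ (1 / 3 : ℝ) * L⁻¹ := by
    have h3 : b ≤ M * V * (L⁻¹) ^ 3 := by
      refine hb.trans ?_
      rw [div_eq_mul_inv, ← inv_pow]
      refine mul_le_mul_of_nonneg_left ?_ hMV
      exact pow_le_pow_of_le_one (by positivity) (inv_le_one_of_one_le₀ hL) (by norm_num)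
    have h4 : ((L⁻¹) ^ 3) ^ (1 / 3 : ℝ) = L⁻¹ := by
      have h5 := Real.pow_rpow_inv_natCast (inv_nonneg.2 hL0.le) (n := 3) (by norm_num)
      rw [show (1 / 3 : ℝ) = ((3 : ℕ) : ℝ)⁻¹ by norm_num]
      exact h5
    calc b ^ (1 / 3 : ℝ) ≤ (M * V * (L⁻¹) ^ 3) ^ (1 / 3 : ℝ) :=
          Real.rpow_le_rpow hb0 h3 (by norm_num)
      _ = _ := by rw [Real.mul_rpow hMV (by positivity), h4]
  have h6 : (M * V) ^ (2 / 3 : ℝ) * (M * V) ^ (1 / 3 : ℝ) = M * V := by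
    rw [← Real.rpow_add_of_nonneg hMV (by norm_num) (by norm_num)]
    norm_num
  calc L * (a ^ (2 / 3 : ℝ) * b ^ (1 / 3 : ℝ)) ≤
      L * ((M * V) ^ (2 / 3 : ℝ) * ((M * V) ^ (1 / 3 : ℝ) * L⁻¹)) := by
        refine mul_le_mul_of_nonneg_left ?_ hL0.le
        exact mul_le_mul h1 h2 (Real.rpow_nonneg hb0 _) (Real.rpow_nonneg hMV _)
    _ = ((M * V) ^ (2 / 3 : ℝ) * (M * V) ^ (1 / 3 : ℝ)) * (L * L⁻¹) := by ring
    _ = M * V := by rw [h6, mul_inv_cancel₀ hL0.ne', mul_one]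

private theorem cx_holder {α : Type} (S : Finset α) (x W : α → ℝ) (hx : ∀ c ∈ S, 0 ≤ x c)
    (hW : ∀ c ∈ S, 0 ≤ W c) : ∑ c ∈ S, x c ^ (6 / 5 : ℝ) * W c ≤
      (∑ c ∈ S, x c ^ (9 / 5 : ℝ) * W c) ^ (2 / 3 : ℝ) * (∑ c ∈ S, W c) ^ (1 / 3 : ℝ) := by
  have hpq : Real.HolderConjugate (3 / 2) 3 :=
    Real.holderConjugate_iff.2 ⟨by norm_num, by norm_num⟩
  have h1 := Real.inner_le_Lp_mul_Lq_of_nonneg S hpq
    (f := fun c => (x c ^ (9 / 5 : ℝ) * W c) ^ (2 / 3 : ℝ)) (g := fun c => W c ^ (1 / 3 : ℝ))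
    (fun c hc => Real.rpow_nonneg (mul_nonneg (Real.rpow_nonneg (hx c hc) _) (hW c hc)) _)
    (fun c hc => Real.rpow_nonneg (hW c hc) _)
  have h2 : ∀ c ∈ S, (x c ^ (9 / 5 : ℝ) * W c) ^ (2 / 3 : ℝ) * W c ^ (1 / 3 : ℝ) =
      x c ^ (6 / 5 : ℝ) * W c := by
    intro c hc
    rw [Real.mul_rpow (Real.rpow_nonneg (hx c hc) _) (hW c hc), ← Real.rpow_mul (hx c hc),
      mul_assoc, ← Real.rpow_add_of_nonneg (hW c hc) (by norm_num) (by norm_num)]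
    norm_num
  have h3 : ∀ c ∈ S, ((x c ^ (9 / 5 : ℝ) * W c) ^ (2 / 3 : ℝ)) ^ (3 / 2 : ℝ) =
      x c ^ (9 / 5 : ℝ) * W c := by
    intro c hc
    rw [← Real.rpow_mul (mul_nonneg (Real.rpow_nonneg (hx c hc) _) (hW c hc))]
    norm_num
  have h4 : ∀ c ∈ S, (W c ^ (1 / 3 : ℝ)) ^ (3 : ℝ) = W c := by
    intro c hc
    rw [← Real.rpow_mul (hW c hc)]
    norm_num
  rw [Finset.sum_congr rfl h2, Finset.sum_congr rfl h3, Finset.sum_congr rfl h4] at h1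
  have h5 : (1 / (3 / 2) : ℝ) = 2 / 3 := by norm_num
  rw [h5] at h1
  exact h1

end real

variable (K : Type) [Field K] [NumberField K]

open Classical in
/-- the exceptional triples have small weight -/
private theorem cx_claim (hA : AvcStmt K) (hS : SwStmt K) (m : ℕ) (hm : m ≠ 0) (hm6 : 6 ∣ m)
    (C : ℝ) (hC : 1 ≤ C) : ∃ C8 C0 : ℝ, 0 < C8 ∧ 1 ≤ C0 ∧ ∀ t ρ1 ρ2 w z : ℝ, 1 ≤ t →
      Rho C ρ1 ρ2 → t ^ (-(1 / 200) : ℝ) ≤ ρ1 → 2 ≤ w → w ≤ z → 2 * C0 ≤ t ^ (9 / 10 : ℝ) →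
      2 * C0 * z ^ 4 ≤ t ^ (9 / 10 : ℝ) → 4 * C ^ 2 + 2 ≤ t ^ (3 / 40 : ℝ) →
      ∀ S : Finset (T3 K), (∀ c ∈ S, Bx C t ρ1 ρ2 c ∧ Ndg t c ∧ dt c ≠ 0 ∧
        1 < Xs m w z (dt c)) →
        ∑ c ∈ S, Wt (4 / 5) t c ≤ C8 * (t ^ (3 * Module.finrank ℚ K) *
          (ρ1 * ρ2) ^ (7 / 5 * (Module.finrank ℚ K : ℝ))) / w := by
  obtain ⟨C0, hC0, hdist⟩ := grd_dist K
  obtain ⟨Ca, hCa, hav⟩ := hA m hm hm6
  obtain ⟨Cw, hCw, hsw⟩ := hS (4 / 5) (by norm_num) (by norm_num) (2 * C) (by linarith)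
  refine ⟨2 ^ Module.finrank ℚ K * Ca * Cw, C0, by positivity, hC0, ?_⟩
  intro t ρ1 ρ2 w z ht hr hρ hw hwz hY1 hY2 hbig S hSS
  have ht0 : 0 < t := by linarith
  obtain ⟨r1, r2, r3, r4⟩ := cx_rho hC ht hr hρ
  obtain ⟨hρ0, hρ12, hρC, hρC2⟩ := hr
  obtain ⟨n, hn, hnY, hzn⟩ := cx_n hC0 hY1 hY2
  have hy0 : 0 ≤ C0 * (n : ℝ) := by positivity
  have hw0 : 0 < w := by linarith
  have hlam0 : 0 < t ^ (-(1 / 50) : ℝ) := Real.rpow_pos_of_pos ht0 _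
  have hR : ∀ c : T3 K, Bx C t ρ1 ρ2 c → ∀ φ : K →+* ℂ, sz φ c.1 ≤ C * t * ρ2 ^ 2 ∧
      sz φ c.2.1 ≤ C * t * ρ2 ^ 2 ∧ sz φ c.2.2 ≤ C * t * ρ2 ^ 2 := by
    intro c hc φ
    have hCt : 0 ≤ C * t := by positivity
    refine ⟨(hc.1 φ).trans ?_, (hc.2.1 φ).trans ?_, hc.2.2 φ⟩
    · exact mul_le_mul_of_nonneg_left (pow_le_pow_left₀ hρ0.le hρ12 2) hCt
    · refine mul_le_mul_of_nonneg_left ?_ hCt
      rw [pow_two]
      exact mul_le_mul_of_nonneg_right hρ12 (by linarith)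
  obtain ⟨S', hS', hsum⟩ := grd_sum n hn S (fun _ => 1) (Wt (4 / 5) t)
    (Wl (4 / 5) t (t ^ (-(1 / 50) : ℝ))) (Ca * (n : ℝ) ^ (3 * Module.finrank ℚ K) / w)
    (2 ^ Module.finrank ℚ K) (fun _ _ => zero_le_one) (fun c _ => cx_wt0 _ _ c)
    (by
      intro b0 hb0
      obtain ⟨c0, hc0⟩ := grd_cube n hn b0
      rw [Finset.sum_const, nsmul_eq_mul, mul_one]
      refine hav w z n hw hwz hzn c0 _ fun c hc => ?_
      rw [Finset.mem_filter] at hc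
      exact ⟨(hc0 c).1 hc.2, (hSS c hc.1).2.2⟩)
    (by
      intro c hc c' hcc
      obtain ⟨k1, k2, k3, k4⟩ := hSS c hc
      have hd := hdist n hn c' c hcc
      refine cx_wt ht0 hlam0 (fun φ => ?_) (fun φ => ?_)
      · obtain ⟨b1, b2, b3⟩ := hR c k1 φ
        have e1 := cx_dif (R := C * t * ρ2 ^ 2) (by positivity) hy0 φ b1 b2 b3 (hd.1 φ)
          (hd.2.1 φ) (hd.2.2 φ)
        have e2 := cx_err hC ht r1 hy0 hnY hbig
        have e3 := k2.1 φ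
        linarith
      · refine le_trans (le_of_eq ?_) (k2.1 φ)
        rw [← Real.rpow_natCast, ← Real.rpow_add ht0]
        norm_num)
  have hsw' := hsw t ρ1 ρ2 (t ^ (-(1 / 50) : ℝ)) ht r4 hρ12 r2 le_rfl
    (Real.rpow_le_one_of_one_le_of_nonpos ht (by norm_num)) ⊤ top_ne_bot
    (by
      rw [ni_top]
      exact Real.one_le_rpow ht (by positivity)) S' (by
    intro c' hc'
    obtain ⟨c, hc, hcc⟩ := hS' c' hc'
    obtain ⟨k1, k2, k3, k4⟩ := hSS c hc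
    have hd := hdist n hn c' c hcc
    have key : ∀ (φ : K →+* ℂ) (x' x : 𝓞 K) (r : ℝ), sz φ x ≤ C * t * r →
        sz φ (x' - x) ≤ C0 * n → ρ1 ^ 2 ≤ r → sz φ x' ≤ 2 * C * t * r := by
      intro φ x' x r h1 h2 h3
      have h4 : sz φ x' ≤ sz φ (x' - x) + sz φ x := by
        have := sz_add φ (x' - x) x
        rwa [sub_add_cancel] at this
      have h5 : t * ρ1 ^ 2 ≤ t * r := mul_le_mul_of_nonneg_left h3 ht0.le
      have h6 : t * r ≤ C * (t * r) := by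
        refine le_mul_of_one_le_left ?_ hC
        exact mul_nonneg ht0.le ((sq_nonneg ρ1).trans h3)
      calc sz φ x' ≤ C0 * n + C * t * r := by linarith
        _ ≤ C * (t * r) + C * t * r := by linarith
        _ = _ := by ring
    refine ⟨⟨fun φ => ?_, fun φ => ?_, fun φ => ?_⟩, trivial, trivial, trivial⟩
    · exact key φ c'.1 c.1 (ρ1 ^ 2) (k1.1 φ) (hd.1 φ) le_rfl
    · refine key φ c'.2.1 c.2.1 (ρ1 * ρ2) (k1.2.1 φ) (hd.2.1 φ) ?_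
      rw [pow_two]
      exact mul_le_mul_of_nonneg_left hρ12 hρ0.le
    · exact key φ c'.2.2 c.2.2 (ρ2 ^ 2) (k1.2.2 φ) (hd.2.2 φ)
        (pow_le_pow_left₀ hρ0.le hρ12 2))
  rw [ni_top, inv_one, one_pow, mul_one] at hsw'
  have he : (3 - 2 * (4 / 5) : ℝ) * (Module.finrank ℚ K : ℝ) =
      7 / 5 * (Module.finrank ℚ K : ℝ) := by ring
  rw [he] at hsw'
  simp only [one_mul] at hsum
  have hN : 0 < (n : ℝ) ^ (3 * Module.finrank ℚ K) := by positivity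
  refine hsum.trans ?_
  have h9 : (2 : ℝ) ^ Module.finrank ℚ K * (Ca * (n : ℝ) ^ (3 * Module.finrank ℚ K) / w) *
      ((n : ℝ) ^ (3 * Module.finrank ℚ K))⁻¹ = 2 ^ Module.finrank ℚ K * Ca / w := by
    field_simp
  rw [h9]
  calc 2 ^ Module.finrank ℚ K * Ca / w * ∑ b' ∈ S', Wl (4 / 5) t (t ^ (-(1 / 50) : ℝ)) b' ≤
      2 ^ Module.finrank ℚ K * Ca / w * (Cw * t ^ (3 * Module.finrank ℚ K) *
        (ρ1 * ρ2) ^ (7 / 5 * (Module.finrank ℚ K : ℝ))) :=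
        mul_le_mul_of_nonneg_left hsw' (by positivity)
    _ = _ := by ring

theorem cx_of (h1 : NdStmt K) (h2 : AvcStmt K) (h3 : SwStmt K) : CxStmt K := by
  classical
  intro m hm hm6 C hC
  obtain ⟨Cn, hCn, hnd⟩ := h1 C hC
  obtain ⟨C8, C0, hC8, hC0, hcl⟩ := cx_claim K h2 h3 m hm hm6 C hC
  obtain ⟨Ch, hCh, hhc⟩ := hc_le K
  obtain ⟨Cs, hCs, hhs⟩ := hc_sharp K m hm
  have hd : 1 ≤ Module.finrank ℚ K := Module.finrank_pos
  have hdr : (1 : ℝ) ≤ (Module.finrank ℚ K : ℝ) := by exact_mod_cast hd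
  obtain ⟨R1, hR1, hthr⟩ := cx_thr (Module.finrank ℚ K) hd C C0 hC hC0
  set D : ℝ := 100 * (Module.finrank ℚ K : ℝ) with hD
  have hD0 : 0 < D := by positivity
  set Cs' : ℝ := Cs * (D ^ (1 / 2 : ℝ) * 200 ^ (1 / 2 : ℝ)) with hCs'
  have hCs'0 : 0 < Cs' := by positivity
  refine ⟨Ch * R1 ^ 2 * Cn + Cs' * Cn + Ch * (Cn + C8), by positivity, ?_⟩
  intro s t ρ1 ρ2 hs hrg hrho hρ hts S hSS
  have hts' : t ≤ s := hrg.2
  set L : ℝ := Real.log (2 + s) with hL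
  have hL1 : 1 ≤ L := by
    rw [hL, Real.le_log_iff_exp_le (by linarith)]
    have := Real.exp_one_lt_d9
    linarith
  have hL0 : 0 < L := by linarith
  have hRR : Real.sqrt L ^ 2 = L := Real.sq_sqrt hL0.le
  have hR0 : 1 ≤ Real.sqrt L := by
    rw [Real.one_le_sqrt]
    exact hL1
  have ht1 : 1 ≤ t := by
    refine le_trans ?_ hts
    exact Real.one_le_exp (by linarith)
  have ht0 : 0 < t := by linarith
  have hP : 1 ≤ L ^ (3 / 4 + 1 / 100 : ℝ) := Real.one_le_rpow hL1 (by norm_num)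
  have hρ1 : 0 < ρ1 := hrho.1
  have hρ2 : 0 < ρ2 := lt_of_lt_of_le hrho.1 hrho.2.1
  set V : ℝ := t ^ (3 * Module.finrank ℚ K) *
    (ρ1 * ρ2) ^ (7 / 5 * (Module.finrank ℚ K : ℝ)) with hV
  have hV0 : 0 ≤ V := by positivity
  have hdt : ∀ c ∈ S, dt c ≠ 0 := by
    intro c hc h0
    obtain ⟨φ⟩ : Nonempty (K →+* ℂ) := inferInstance
    have h4 := (hSS c hc).2.1 φ
    rw [h0, sz_zero] at h4
    have h5 : 0 < t ^ (2 - 1 / 50 : ℝ) := Real.rpow_pos_of_pos ht0 _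
    linarith
  have hni : ∀ c ∈ S, 1 ≤ ni (cn c) := fun c hc => one_le_ni (cn_ne (hdt c hc))
  have h65 : ∀ c ∈ S, ni (cn c) ^ (6 / 5 : ℝ) * Wt (4 / 5) t c ≤
      ni (cn c) ^ (9 / 5 : ℝ) * Wt (4 / 5) t c := fun c hc =>
    mul_le_mul_of_nonneg_right (Real.rpow_le_rpow_of_exponent_le (hni c hc) (by norm_num))
      (cx_wt0 _ _ c)
  have hnd' : ∀ T : Finset (T3 K), T ⊆ S →
      ∑ c ∈ T, ni (cn c) ^ (9 / 5 : ℝ) * Wt (4 / 5) t c ≤ Cn * V := by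
    intro T hT
    have h4 := hnd t ρ1 ρ2 ht1 hrho hρ T fun c hc => hSS c (hT hc)
    rw [mul_assoc] at h4
    exact h4
  have hH1 : ∀ c ∈ S, Hc m (2 + s) (dt c) ≤ Ch * L := fun c hc => hhc m (2 + s) _ (by linarith)
  -- sums with a bound for `Hc`
  have hgen : ∀ (T : Finset (T3 K)) (B : ℝ), T ⊆ S → 0 ≤ B →
      (∀ c ∈ T, Hc m (2 + s) (dt c) ≤ B) →
      ∑ c ∈ T, ni (cn c) ^ (6 / 5 : ℝ) * Wt (4 / 5) t c * Hc m (2 + s) (dt c) ≤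
        B * ∑ c ∈ T, ni (cn c) ^ (6 / 5 : ℝ) * Wt (4 / 5) t c := by
    intro T B hT hB h
    rw [Finset.mul_sum]
    refine Finset.sum_le_sum fun c hc => ?_
    rw [mul_comm B]
    refine mul_le_mul_of_nonneg_left (h c hc) ?_
    exact mul_nonneg (Real.rpow_nonneg (ni_nonneg _) _) (cx_wt0 _ _ c)
  have hle : ∀ T : Finset (T3 K), T ⊆ S →
      ∑ c ∈ T, ni (cn c) ^ (6 / 5 : ℝ) * Wt (4 / 5) t c ≤ Cn * V := fun T hT =>
    (Finset.sum_le_sum fun c hc => h65 c (hT hc)).trans (hnd' T hT)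
  have hgoal : ∀ x : ℝ, x ≤ (Ch * R1 ^ 2 * Cn + Cs' * Cn + Ch * (Cn + C8)) *
      (V * L ^ (3 / 4 + 1 / 100 : ℝ)) → x ≤ (Ch * R1 ^ 2 * Cn + Cs' * Cn + Ch * (Cn + C8)) *
        t ^ (3 * Module.finrank ℚ K) * (ρ1 * ρ2) ^ (7 / 5 * (Module.finrank ℚ K : ℝ)) *
          L ^ (3 / 4 + 1 / 100 : ℝ) := by
    intro x hx
    refine hx.trans (le_of_eq ?_)
    rw [hV]
    ring
  apply hgoal
  have hVP : V ≤ V * L ^ (3 / 4 + 1 / 100 : ℝ) := le_mul_of_one_le_right hV0 hP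
  have hVP0 : 0 ≤ V * L ^ (3 / 4 + 1 / 100 : ℝ) := hV0.trans hVP
  by_cases hR : Real.sqrt L < R1
  · -- small `s`
    have hLR : L ≤ R1 ^ 2 := by
      rw [← hRR]
      exact pow_le_pow_left₀ (by linarith) hR.le 2
    have h4 := hgen S (Ch * R1 ^ 2) (Finset.Subset.refl _) (by positivity) fun c hc =>
      (hH1 c hc).trans (mul_le_mul_of_nonneg_left hLR hCh.le)
    refine h4.trans ?_
    have h5 := hle S (Finset.Subset.refl _)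
    calc Ch * R1 ^ 2 * ∑ c ∈ S, ni (cn c) ^ (6 / 5 : ℝ) * Wt (4 / 5) t c ≤
        Ch * R1 ^ 2 * (Cn * V) := mul_le_mul_of_nonneg_left h5 (by positivity)
      _ = Ch * R1 ^ 2 * Cn * V := by ring
      _ ≤ Ch * R1 ^ 2 * Cn * (V * L ^ (3 / 4 + 1 / 100 : ℝ)) :=
          mul_le_mul_of_nonneg_left hVP (by positivity)
      _ ≤ _ := by
          refine mul_le_mul_of_nonneg_right ?_ hVP0
          have : 0 ≤ Cs' * Cn + Ch * (Cn + C8) := by positivity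
          linarith
  push Not at hR
  obtain ⟨t1, t2, t3, t4, t5⟩ := hthr (Real.sqrt L) hR
  rw [hRR] at t1 t2
  have hw3 : 3 ≤ L ^ 4 := by
    have h4 : 4 ≤ L := by
      rw [← hRR]
      nlinarith
    calc (3 : ℝ) ≤ 4 ^ 4 := by norm_num
      _ ≤ L ^ 4 := pow_le_pow_left₀ (by norm_num) h4 4
  have htexp : ∀ a : ℝ, 0 ≤ a → Real.exp (a * Real.sqrt L) ≤ t ^ a := by
    intro a ha
    calc Real.exp (a * Real.sqrt L) = Real.exp (Real.sqrt L) ^ a := by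
          rw [← Real.exp_mul, mul_comm]
      _ ≤ t ^ a := Real.rpow_le_rpow (Real.exp_pos _).le hts ha
  have hclm := hcl t ρ1 ρ2 (L ^ 4) (Real.exp (Real.sqrt L / (100 * (Module.finrank ℚ K : ℝ))))
    ht1 hrho hρ (by linarith) t1 (t3.trans (htexp _ (by norm_num)))
    (by
      refine le_trans ?_ (htexp (9 / 10) (by norm_num))
      refine le_trans (le_of_eq ?_) t4
      rw [← Real.exp_nat_mul]
      congr 2
      push_cast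
      field_simp
      ring)
    (t5.trans (htexp _ (by norm_num)))
    (S.filter fun c => ¬ Xs m (L ^ 4)
      (Real.exp (Real.sqrt L / (100 * (Module.finrank ℚ K : ℝ)))) (dt c) ≤ 1)
    (by
      intro c hc
      rw [Finset.mem_filter] at hc
      exact ⟨(hSS c hc.1).1, (hSS c hc.1).2, hdt c hc.1, not_le.1 hc.2⟩)
  rw [← Finset.sum_filter_add_sum_filter_not S (fun c => Xs m (L ^ 4)
      (Real.exp (Real.sqrt L / (100 * (Module.finrank ℚ K : ℝ)))) (dt c) ≤ 1)]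
  set S1 := S.filter (fun c => Xs m (L ^ 4)
      (Real.exp (Real.sqrt L / (100 * (Module.finrank ℚ K : ℝ)))) (dt c) ≤ 1) with hS1
  set S2 := S.filter (fun c => ¬ Xs m (L ^ 4)
      (Real.exp (Real.sqrt L / (100 * (Module.finrank ℚ K : ℝ)))) (dt c) ≤ 1) with hS2
  have hS1S : S1 ⊆ S := Finset.filter_subset _ _
  have hS2S : S2 ⊆ S := Finset.filter_subset _ _
  -- the part `S1`
  have hA1 : ∀ c ∈ S1, Hc m (2 + s) (dt c) ≤ Cs' * L ^ (3 / 4 + 1 / 100 : ℝ) := by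
    intro c hc
    rw [hS1, Finset.mem_filter] at hc
    have hnz : Real.log (nz (dt c)) ≤ L ^ 4 := by
      have h4 : nz (dt c) ≤ (2 * C ^ 4 * t ^ 2) ^ Module.finrank ℚ K := by
        rw [← vol_const (K := K)]
        refine nz_le_vol fun φ => ?_
        refine (cx_det (by linarith) ht0.le (hSS c hc.1).1 φ).trans ?_
        have h5 : (ρ1 * ρ2) ^ 2 ≤ C ^ 2 := by
          calc (ρ1 * ρ2) ^ 2 = ρ1 * (ρ1 * ρ2 ^ 2) := by ring
            _ ≤ C * C := mul_le_mul hrho.2.2.1 hrho.2.2.2 (by positivity) (by linarith)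
            _ = C ^ 2 := by ring
        calc 2 * (C * t * (ρ1 * ρ2)) ^ 2 = 2 * (C * t) ^ 2 * (ρ1 * ρ2) ^ 2 := by ring
          _ ≤ 2 * (C * t) ^ 2 * C ^ 2 := mul_le_mul_of_nonneg_left h5 (by positivity)
          _ = _ := by ring
      have h6 : Real.log (nz (dt c)) ≤
          (Module.finrank ℚ K : ℝ) * (Real.log (2 * C ^ 4) + 2 * L) := by
        calc Real.log (nz (dt c)) ≤ Real.log ((2 * C ^ 4 * t ^ 2) ^ Module.finrank ℚ K) :=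
              Real.log_le_log (nz_pos (hdt c hc.1)) h4
          _ = (Module.finrank ℚ K : ℝ) * (Real.log (2 * C ^ 4) + 2 * Real.log t) := by
              rw [Real.log_pow, Real.log_mul (by positivity) (by positivity), Real.log_pow]
              push_cast
              ring
          _ ≤ _ := by
              refine mul_le_mul_of_nonneg_left ?_ (by linarith)
              have h7 : Real.log t ≤ L := Real.log_le_log ht0 (by linarith)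
              linarith
      exact h6.trans t2
    have hz : Real.exp (Real.sqrt L / (100 * (Module.finrank ℚ K : ℝ))) ≤ 2 + s := by
      rw [← Real.exp_log (show (0 : ℝ) < 2 + s by linarith), Real.exp_le_exp, ← hL]
      have h4 : Real.sqrt L / (100 * (Module.finrank ℚ K : ℝ)) ≤ Real.sqrt L :=
        div_le_self (by linarith) (by linarith)
      refine h4.trans ?_
      rw [← hRR, Real.sqrt_sq (by linarith)]
      nlinarith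
    have h8 := hhs (L ^ 4) (Real.exp (Real.sqrt L / (100 * (Module.finrank ℚ K : ℝ)))) (2 + s)
      (dt c) hw3 t1 hz (hdt c hc.1) hnz hc.2
    rw [Real.log_exp, ← hL, ← hD] at h8
    refine h8.trans ?_
    have h9 := cx_pow hL1 hD0
    calc Cs * L * (Real.sqrt L / D) ^ (-(1 / 2) : ℝ) * Real.log (L ^ 4) ^ (1 / 2 : ℝ) =
        Cs * (L * (Real.sqrt L / D) ^ (-(1 / 2) : ℝ) * Real.log (L ^ 4) ^ (1 / 2 : ℝ)) := by ring
      _ ≤ Cs * (D ^ (1 / 2 : ℝ) * 200 ^ (1 / 2 : ℝ) * L ^ (3 / 4 + 1 / 100 : ℝ)) :=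
          mul_le_mul_of_nonneg_left h9 hCs.le
      _ = _ := by
          rw [hCs']
          ring
  have hB1 := (hgen S1 _ hS1S (by positivity) hA1).trans
    (mul_le_mul_of_nonneg_left (hle S1 hS1S) (by positivity))
  -- the part `S2`
  have hB2 := hgen S2 (Ch * L) hS2S (by positivity) fun c hc => hH1 c (hS2S hc)
  have hho := cx_holder S2 (fun c => ni (cn c)) (Wt (4 / 5) t) (fun c _ => ni_nonneg _)
    (fun c _ => cx_wt0 _ _ c)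
  have hmx : C8 * V / L ^ 4 ≤ (Cn + C8) * V / L ^ 4 := by
    gcongr
    linarith
  have hfin := cx_hol (L := L) (V := V) (M := Cn + C8) hL1 hV0 (by positivity)
    (Finset.sum_nonneg fun c _ => mul_nonneg (Real.rpow_nonneg (ni_nonneg (cn c)) (9 / 5))
      (cx_wt0 (4 / 5) t c))
    (Finset.sum_nonneg fun c _ => cx_wt0 (4 / 5) t c)
    ((hnd' S2 hS2S).trans (mul_le_mul_of_nonneg_right (by linarith) hV0))
    (hclm.trans hmx)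
  have hB3 : Ch * L * ∑ c ∈ S2, ni (cn c) ^ (6 / 5 : ℝ) * Wt (4 / 5) t c ≤
      Ch * (Cn + C8) * V := by
    calc Ch * L * ∑ c ∈ S2, ni (cn c) ^ (6 / 5 : ℝ) * Wt (4 / 5) t c ≤
        Ch * L * ((∑ c ∈ S2, ni (cn c) ^ (9 / 5 : ℝ) * Wt (4 / 5) t c) ^ (2 / 3 : ℝ) *
          (∑ c ∈ S2, Wt (4 / 5) t c) ^ (1 / 3 : ℝ)) :=
          mul_le_mul_of_nonneg_left hho (by positivity)
      _ = Ch * (L * ((∑ c ∈ S2, ni (cn c) ^ (9 / 5 : ℝ) * Wt (4 / 5) t c) ^ (2 / 3 : ℝ) *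
          (∑ c ∈ S2, Wt (4 / 5) t c) ^ (1 / 3 : ℝ))) := by ring
      _ ≤ Ch * ((Cn + C8) * V) := mul_le_mul_of_nonneg_left hfin hCh.le
      _ = _ := by ring
  have hB4 := hB2.trans hB3
  have hB5 : Ch * (Cn + C8) * V ≤ Ch * (Cn + C8) * (V * L ^ (3 / 4 + 1 / 100 : ℝ)) :=
    mul_le_mul_of_nonneg_left hVP (by positivity)
  have hB6 : 0 ≤ Ch * R1 ^ 2 * Cn * (V * L ^ (3 / 4 + 1 / 100 : ℝ)) := by positivity
  calc _ ≤ Cs' * L ^ (3 / 4 + 1 / 100 : ℝ) * (Cn * V) + Ch * (Cn + C8) * V :=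
        add_le_add hB1 hB4
    _ ≤ Ch * R1 ^ 2 * Cn * (V * L ^ (3 / 4 + 1 / 100 : ℝ)) +
        Cs' * Cn * (V * L ^ (3 / 4 + 1 / 100 : ℝ)) +
        Ch * (Cn + C8) * (V * L ^ (3 / 4 + 1 / 100 : ℝ)) := by
        have h10 : Cs' * L ^ (3 / 4 + 1 / 100 : ℝ) * (Cn * V) =
          Cs' * Cn * (V * L ^ (3 / 4 + 1 / 100 : ℝ)) := by ring
        linarith
    _ = _ := by ring

end H88.WS
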