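import Pool.Agent.H88.WS.Ib
import Pool.Agent.H67.WA.Cnt

/-!
# [H88 WS FCB] Elementary facts on `Fc` (W1#, MP_b39724)

PROOF. `fc_anti`: factor by factor: if `g * g' ≤ P` then `lf m D (g * g') P k = 1 ≤ lf m D g P k` (every branch is
`≥ 1`); otherwise `¬ g ≤ P` (as `g * g' ≤ g`) and both are equal. `one_le_fc`: every factor is `≥ 1`.
`fc_le`: for a prime `P` of `pf (x)` with `k = od P (x) ≥ 1`: `lf .. ≤ (k + 1) ^ 48`, so `Fc ≤ (∏_P (k_P + 1)) ^ 48`, and
`∏_P (k_P + 1)` is the number of the ideals dividing `(x)`: either use a divisor bound for ideals of the pool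
(`ideal_div`, `idc` in `H67/WA/Cnt.lean`: at most `C X^ε` ideals contain `x`; one can apply it with all `X = ` a bound of the sizes; here we
want the bound by the norm, so do it directly): for real `a = ε / 48`:
`k + 1 ≤ C1 * N P ^ (k a)` with `C1 = 1` as soon as `N P ^ a ≥ 2` (`k + 1 ≤ 2 ^ k`), and
`k + 1 ≤ (1 + 1 / (a log 2)) * N P ^ (k a)` always (`exp y ≥ 1 + y`, `N P ≥ 2`); the number of `P` with `N P ^ a < 2` is
finite (finitely many ideals of bounded norm, `Ideal.finite_setOf_absNorm_le`), call it `n0`: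
`∏ (k + 1) ≤ (1 + 1 / (a log 2)) ^ n0 * N(x) ^ a`, `∏_P N P ^ (k_P) = N (x) = nz x` (`nz_ni`,
`Ideal.absNorm` is multiplicative, `UniqueFactorizationMonoid.normalizedFactors` product).
-/

open scoped NumberField
open H88.A4 Pool.Agent.H67.WA

noncomputable section

namespace H88.WS

variable {K : Type} [Field K] [NumberField K]

private theorem one_le_lf (m : ℕ) (D : 𝓞 K) (g P : Ideal (𝓞 K)) (k : ℕ) : 1 ≤ lf m D g P k := by
  unfold lf
  split_ifs
  · exact le_rfl
  · exact Nat.one_le_pow _ _ (Nat.succ_pos k)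
  · exact le_rfl
  · exact Nat.succ_le_succ (Nat.zero_le k)

private theorem lf_le (m : ℕ) (D : 𝓞 K) (g P : Ideal (𝓞 K)) (k : ℕ) : lf m D g P k ≤ (k + 1) ^ 48 := by
  have h1 : 1 ≤ (k + 1) ^ 48 := Nat.one_le_pow _ _ (Nat.succ_pos k)
  unfold lf
  split_ifs
  · exact h1
  · exact le_rfl
  · exact h1
  · exact Nat.le_self_pow (by norm_num) _

private theorem prod_norm {I : Ideal (𝓞 K)} (hI : I ≠ ⊥) : ∏ P ∈ pf I, ni P ^ od P I = ni I := by
  classical
  unfold pf od ni
  have h1 := Ideal.prod_normalizedFactors_eq_self hI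
  have h2 : Ideal.absNorm I = ((UniqueFactorizationMonoid.normalizedFactors I).map
      (Ideal.absNorm (S := 𝓞 K))).prod := by
    rw [← map_multiset_prod, h1]
  rw [h2, Finset.prod_multiset_map_count]
  push_cast
  rfl

private theorem pf_prime {I P : Ideal (𝓞 K)} (hP : P ∈ pf I) : 2 ≤ ni P := by
  classical
  unfold pf at hP
  rw [Multiset.mem_toFinset] at hP
  have h1 := UniqueFactorizationMonoid.prime_of_normalized_factor P hP
  have h2 : Ideal.absNorm P ≠ 0 := by
    rw [Ne, Ideal.absNorm_eq_zero_iff]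
    exact h1.ne_zero
  have h3 : Ideal.absNorm P ≠ 1 := by
    rw [Ne, Ideal.absNorm_eq_one_iff]
    intro h4
    apply h1.not_unit
    rw [h4, ← Ideal.one_eq_top]
    exact isUnit_one
  unfold ni
  have h5 : 2 ≤ Ideal.absNorm P := by omega
  exact_mod_cast h5

private theorem fac_le {a : ℝ} (ha : 0 < a) {N : ℝ} (hN : 2 ≤ N) (k : ℕ) :
    ((k : ℝ) + 1) ≤ (1 + 1 / (a * Real.log 2)) * (N ^ k) ^ a ∧
      (2 ≤ N ^ a → (k : ℝ) + 1 ≤ (N ^ k) ^ a) := by
  have hN0 : 0 < N := by linarith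
  have e1 : (N ^ k) ^ a = (N ^ a) ^ k := by
    rw [← Real.rpow_natCast N k, ← Real.rpow_mul hN0.le, mul_comm, Real.rpow_mul hN0.le, Real.rpow_natCast]
  have hl : 0 < Real.log 2 := Real.log_pos (by norm_num)
  refine ⟨?_, fun h2 => ?_⟩
  · have h3 : Real.exp (k * (a * Real.log 2)) ≤ (N ^ k) ^ a := by
      have h4 : (2 : ℝ) ^ k ≤ N ^ k := pow_le_pow_left₀ (by norm_num) hN k
      have h5 : ((2 : ℝ) ^ k) ^ a ≤ (N ^ k) ^ a := Real.rpow_le_rpow (by positivity) h4 ha.le
      refine le_trans (le_of_eq ?_) h5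
      rw [Real.rpow_def_of_pos (by positivity), Real.log_pow]
      congr 1
      ring
    have h6 := Real.add_one_le_exp (k * (a * Real.log 2))
    have h7 : 0 < a * Real.log 2 := by positivity
    have h8 : (k : ℝ) + 1 ≤ (1 + 1 / (a * Real.log 2)) * (k * (a * Real.log 2) + 1) := by
      have h9 : (1 + 1 / (a * Real.log 2)) * (k * (a * Real.log 2) + 1) =
          k * (a * Real.log 2) + 1 + k + 1 / (a * Real.log 2) := by
        field_simp
        ring
      rw [h9]
      have h10 : 0 ≤ 1 / (a * Real.log 2) := by positivity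
      have h11 : 0 ≤ (k : ℝ) * (a * Real.log 2) := by positivity
      linarith
    refine h8.trans (mul_le_mul_of_nonneg_left (h6.trans h3) (by positivity))
  · rw [e1]
    refine le_trans ?_ (pow_le_pow_left₀ (by norm_num) h2 k)
    have h3 : k + 1 ≤ 2 ^ k := Nat.lt_two_pow_self
    exact_mod_cast h3

theorem one_le_fc (m : ℕ) (D : 𝓞 K) (g : Ideal (𝓞 K)) (x : 𝓞 K) : 1 ≤ Fc m D g x := by
  unfold Fc
  exact Nat.one_le_iff_ne_zero.2 (Finset.prod_ne_zero_iff.2 fun P _ =>
    Nat.one_le_iff_ne_zero.1 (one_le_lf m D g P _))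

theorem fc_anti (m : ℕ) (D : 𝓞 K) (g g' : Ideal (𝓞 K)) (x : 𝓞 K) :
    Fc m D (g * g') x ≤ Fc m D g x := by
  unfold Fc
  refine Finset.prod_le_prod (fun _ _ => Nat.zero_le _) fun P _ => ?_
  by_cases h : g * g' ≤ P
  · refine le_trans (le_of_eq ?_) (one_le_lf m D g P _)
    unfold lf
    rw [if_pos h]
  · have h2 : ¬ g ≤ P := fun h3 => h (Ideal.mul_le_left.trans h3)
    unfold lf
    rw [if_neg h, if_neg h2]

variable (K)

theorem fc_le (ε : ℝ) (hε : 0 < ε) : ∃ C : ℝ, 0 < C ∧ ∀ (m : ℕ) (D : 𝓞 K) (g : Ideal (𝓞 K))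
    (x : 𝓞 K), x ≠ 0 → (Fc m D g x : ℝ) ≤ C * nz x ^ ε := by
  classical
  set a : ℝ := ε / 48 with ha
  have ha0 : 0 < a := by positivity
  have hl : 0 < Real.log 2 := Real.log_pos (by norm_num)
  set T : Finset (Ideal (𝓞 K)) := (Ideal.finite_setOfPred_absNorm_le (S := 𝓞 K) ⌈(2 : ℝ) ^ (1 / a)⌉₊).toFinset with hT
  set c1 : ℝ := 1 + 1 / (a * Real.log 2) with hc1
  have hc11 : 1 ≤ c1 := by
    have : 0 ≤ 1 / (a * Real.log 2) := by positivity
    linarith
  refine ⟨(c1 ^ T.card) ^ 48, by positivity, fun m D g x hx => ?_⟩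
  set I : Ideal (𝓞 K) := Ideal.span {x} with hI
  have hI0 : I ≠ ⊥ := span_ne hx
  have h1 : (Fc m D g x : ℝ) ≤ (∏ P ∈ pf I, ((od P I : ℝ) + 1)) ^ 48 := by
    unfold Fc
    rw [← Finset.prod_pow]
    push_cast
    refine Finset.prod_le_prod (fun _ _ => Nat.cast_nonneg _) fun P _ => ?_
    exact_mod_cast lf_le m D g P _
  have h2 : ∀ P ∈ pf I, (od P I : ℝ) + 1 ≤ (if P ∈ T then c1 else 1) * (ni P ^ od P I) ^ a := by
    intro P hP
    have h3 := pf_prime hP
    have h4 := fac_le ha0 h3 (od P I)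
    by_cases hPT : P ∈ T
    · rw [if_pos hPT]
      exact h4.1
    · rw [if_neg hPT, one_mul]
      apply h4.2
      rw [hT, Set.Finite.mem_toFinset, Set.mem_setOf_eq, not_le] at hPT
      have h5 : (2 : ℝ) ^ (1 / a) ≤ ni P := by
        refine (Nat.le_ceil _).trans ?_
        unfold ni
        exact_mod_cast hPT.le
      have h6 := Real.rpow_le_rpow (by positivity) h5 ha0.le
      rwa [← Real.rpow_mul (by norm_num), one_div_mul_cancel ha0.ne', Real.rpow_one] at h6
  have h3 : ∏ P ∈ pf I, ((od P I : ℝ) + 1) ≤ c1 ^ T.card * ni I ^ a := by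
    refine (Finset.prod_le_prod (fun _ _ => by positivity) h2).trans ?_
    rw [Finset.prod_mul_distrib]
    have h4 : ∏ P ∈ pf I, (ni P ^ od P I) ^ a = ni I ^ a := by
      rw [Real.finset_prod_rpow _ _ (fun P _ => pow_nonneg (ni_nonneg P) _), prod_norm hI0]
    rw [h4]
    refine mul_le_mul_of_nonneg_right ?_ (Real.rpow_nonneg (ni_nonneg I) _)
    rw [← Finset.prod_filter, Finset.prod_const]
    refine pow_le_pow_right₀ hc11 (Finset.card_le_card ?_)
    intro P hP
    exact (Finset.mem_filter.1 hP).2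
  refine h1.trans ((pow_le_pow_left₀ (Finset.prod_nonneg fun _ _ => by positivity) h3 48).trans (le_of_eq ?_))
  rw [mul_pow, nz_ni, ← Real.rpow_natCast (ni I ^ a), ← Real.rpow_mul (ni_nonneg I)]
  congr 2
  rw [ha]
  push_cast
  ring

end H88.WS
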