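import Pool.Agent.H88.WS.Ib

/-!
# [H88 WS GEN] `GenStmt` from `LosStmt`, `OlAStmt`, `OlZStmt` (W1#, MP_b39724)

PROOF. `θ = 3/4`: `3 - 2 θ = 3/2`, `1 + 2 θ = 5/2`, `d = [K : ℚ]`. Split `S` into three parts (`Main` excludes `b1 = c1 = 0`):
(1) `b1 ≠ 0, c1 ≠ 0`; (2) `b1 ≠ 0, c1 = 0`; (3) `b1 = 0, c1 ≠ 0`. To each part apply `LosStmt` (with `ε/3`) with `T1`, `T2` the images
of the part under `tb`, `tc`, and to the two sums `OlAStmt` or `OlZStmt` (with `ε/3`; for `c` the size is `t`; `t^ε' ≤ C'' s^ε'` as `1/C ≤ t ≤ s`). `Bx C s ρ1 ρ2 (tb β)`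
and `Bx C t ρ1 ρ2 (tc β)` come from `Sz`. A part may be assumed nonempty. An integer `x ≠ 0` has `‖φ x‖ ≥ 1` for some `φ` (`one_le_nz`), so
`b1 ≠ 0` gives `(i) 1 ≤ C s ρ1^2`, `b1 = 0` (then `b2 ≠ 0` as `D1 ≠ 0`) gives `(ii) 1 ≤ C s ρ1 ρ2`, the same for `c` with `t`. These also give
`ρ2 ≤ C9 s` (resp. `C9 t`), which `OlAStmt`, `OlZStmt` need: from `(i)`: `ρ2^2 ≤ C/ρ1 ≤ C (C s)^(1/2)`, from `(ii)`: `ρ2 = ρ1 ρ2^2 / (ρ1 ρ2) ≤ C * C s`; use the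
constant `C9 = C9(C) ≥ C` in `OlAStmt`, `OlZStmt` (`Bx`, `Rho` are monotone in `C`).
Write `A_s` for the bound of `OlAStmt` divided by `s^(3 d)` and `Z_s` for the one of `OlZStmt`:
`A_s = (ρ1 ρ2)^(3d/2) + s^(-d/2) ρ1^(2d) ≤ C' (ρ1 ρ2)^(3d/2)` by `(i)`: `s^(-1/2) ≤ C^(1/2) ρ1`, and `ρ1^3 ≤ (ρ1 ρ2)^(3/2)`.
`Z_s = s^(-d) + s^(-d/2) ρ2^(2d)`.
CLAIM: each product times `(ρ1/ρ2)^d` is `≤ C'' ρ1^(3d/2)` (`ρ1 ≤ C`, `ρ1 ρ2^2 ≤ C`); here are the `d`-th roots: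
(1) `(ρ1 ρ2)^3 ρ1/ρ2 = ρ1^4 ρ2^2 = ρ1^3 (ρ1 ρ2^2)`.
(2) `(ρ1 ρ2)^(3/2) (t^(-1) + t^(-1/2) ρ2^2) ρ1/ρ2` with `t^(-1) ≤ C ρ1 ρ2`: `≤ C' (ρ1^(7/2) ρ2^(3/2) + ρ1^3 ρ2^3)`,
`ρ1^(7/2) ρ2^(3/2) = ρ1^(11/4) (ρ1 ρ2^2)^(3/4)`, `ρ1^3 ρ2^3 = ρ1^(3/2) (ρ1 ρ2^2)^(3/2)`.
(3) `(s^(-1) + s^(-1/2) ρ2^2) (ρ1 ρ2)^(3/2) ρ1/ρ2` with `s^(-1) ≤ t^(-1) ≤ C ρ1^2` (from `c1 ≠ 0`): `≤ C' (ρ1^(9/2) ρ2^(1/2) + ρ1^(7/2) ρ2^(5/2))`,
`= ρ1^(17/4) (ρ1 ρ2^2)^(1/4)` and `ρ1^(9/4) (ρ1 ρ2^2)^(5/4)`.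
In all cases the exponent of `ρ1` is `≥ 3/2` and `ρ1 ≤ C`. (It is convenient to prove these six inequalities once as real lemmas and raise
them to the power `d`: the bounds of `OlAStmt`, `OlZStmt` are `d`-th powers of `s^3 (ρ1 ρ2)^(3/2)`, `s^(5/2) ρ1^2`, `s^2`, `s^(5/2) ρ2^2`.)
-/

open scoped NumberField
open H88.A4 Pool.Agent.H67.WA

noncomputable section

namespace H88.WS

section

variable {K : Type} [Field K] [NumberField K]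

private theorem gen_bd {R R' : ℝ} {x : 𝓞 K} (h : Bd R x) (hR : R ≤ R') : Bd R' x :=
  fun φ => (h φ).trans hR

private theorem gen_one {R : ℝ} {x : 𝓞 K} (hx : x ≠ 0) (h : Bd R x) : 1 ≤ R := by
  by_contra hcon
  push Not at hcon
  have h1 := one_le_nz hx
  have h2 : nz x ≤ vol (fun _ : K →+* ℂ => R) := nz_le_vol h
  rw [vol_const] at h2
  obtain ⟨φ⟩ : Nonempty (K →+* ℂ) := inferInstance
  have h3 : 0 ≤ R := (norm_nonneg _).trans (h φ)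
  have h4 : R ^ Module.finrank ℚ K < 1 := pow_lt_one₀ h3 hcon Module.finrank_pos.ne'
  linarith

private theorem gen_bx {C s ρ1 ρ2 : ℝ} {b : T3 K} (hC : 1 ≤ C) (hs : 0 < s) (h1 : 0 < ρ1)
    (h2 : 0 < ρ2) (h : Bx C s ρ1 ρ2 b) : Bx (C ^ 2) s ρ1 ρ2 b := by
  have hCC : C ≤ C ^ 2 := by nlinarith
  have h3 : C * s ≤ C ^ 2 * s := mul_le_mul_of_nonneg_right hCC hs.le
  exact ⟨gen_bd h.1 (mul_le_mul_of_nonneg_right h3 (by positivity)),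
    gen_bd h.2.1 (mul_le_mul_of_nonneg_right h3 (by positivity)),
    gen_bd h.2.2 (mul_le_mul_of_nonneg_right h3 (by positivity))⟩

end

private theorem gen_rpow {x : ℝ} (hx : 0 < x) (q : ℕ) {y : ℝ} (hy : 2 * y = q) :
    (x ^ 2) ^ y = x ^ q := by
  rw [← Real.rpow_natCast x 2, ← Real.rpow_mul hx.le]
  push_cast
  rw [hy, Real.rpow_natCast]

private theorem gen_r2 {C s r1 r2 : ℝ} (hC : 1 ≤ C) (hs0 : 0 < s) (hs : 1 ≤ C * s) (hr1 : 0 < r1)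
    (hr2 : 0 < r2) (h : r1 * r2 ^ 2 ≤ C) (hi : 1 ≤ C * s * r1 ^ 2) : r2 ≤ C ^ 2 * s := by
  have h4 : r2 ^ 4 ≤ (C ^ 2 * s) ^ 4 := by
    calc r2 ^ 4 = 1 * r2 ^ 4 := by ring
      _ ≤ (C * s * r1 ^ 2) * r2 ^ 4 := mul_le_mul_of_nonneg_right hi (by positivity)
      _ = C * s * (r1 * r2 ^ 2) ^ 2 := by ring
      _ ≤ C * s * C ^ 2 :=
          mul_le_mul_of_nonneg_left (pow_le_pow_left₀ (by positivity) h 2) (by positivity)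
      _ = C ^ 3 * s := by ring
      _ ≤ C ^ 3 * s * (C * s) ^ 3 := le_mul_of_one_le_right (by positivity) (one_le_pow₀ hs)
      _ = C ^ 6 * s ^ 4 := by ring
      _ ≤ C ^ 8 * s ^ 4 :=
          mul_le_mul_of_nonneg_right (pow_le_pow_right₀ hC (by norm_num)) (by positivity)
      _ = (C ^ 2 * s) ^ 4 := by ring
  exact (pow_le_pow_iff_left₀ hr2.le (by positivity) (by norm_num)).1 h4

private theorem gen_r2z {C s r1 r2 : ℝ} (hC : 1 ≤ C) (hs0 : 0 < s)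
    (hr2 : 0 < r2) (h : r1 * r2 ^ 2 ≤ C) (hi : 1 ≤ C * s * (r1 * r2)) : r2 ≤ C ^ 2 * s := by
  calc r2 = 1 * r2 := by ring
    _ ≤ (C * s * (r1 * r2)) * r2 := mul_le_mul_of_nonneg_right hi hr2.le
    _ = C * s * (r1 * r2 ^ 2) := by ring
    _ ≤ C * s * C := mul_le_mul_of_nonneg_left h (by positivity)
    _ = C ^ 2 * s := by ring

section

variable {C a b σ τ : ℝ}

private theorem gen_a (hC : 1 ≤ C) (ha : 0 < a) (h1 : a ^ 2 ≤ C) : a ≤ C := by nlinarith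

private theorem gen_tgt (ha : 0 < a) : (σ ^ 2 * τ ^ 2) ^ 3 * (b ^ 2 / a ^ 2) * a ^ 3 =
    σ ^ 6 * τ ^ 6 * (a * b ^ 2) := by
  field_simp

/-- powers of `a` with `b` -/
private theorem gen_pw (hC : 1 ≤ C) (ha : 0 < a) (hb : 0 < b) (haC : a ≤ C)
    (h4 : a ^ 2 * b ^ 4 ≤ C) (i j : ℕ) (hij : j ≤ 4) (hi : 2 ≤ i) (hi8 : i ≤ 8) :
    a ^ i * b ^ j ≤ C ^ 8 := by
  rcases le_total b 1 with hb1 | hb1
  · calc a ^ i * b ^ j ≤ C ^ i * 1 :=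
          mul_le_mul (pow_le_pow_left₀ ha.le haC i) (pow_le_one₀ hb.le hb1) (by positivity)
            (by positivity)
      _ ≤ C ^ 8 := by
          rw [mul_one]
          exact pow_le_pow_right₀ hC hi8
  · obtain ⟨k, rfl⟩ := Nat.exists_eq_add_of_le hi
    calc a ^ (2 + k) * b ^ j ≤ a ^ (2 + k) * b ^ 4 :=
          mul_le_mul_of_nonneg_left (pow_le_pow_right₀ hb1 hij) (by positivity)
      _ = a ^ k * (a ^ 2 * b ^ 4) := by ring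
      _ ≤ C ^ k * C := mul_le_mul (pow_le_pow_left₀ ha.le haC k) h4 (by positivity) (by positivity)
      _ = C ^ (k + 1) := by ring
      _ ≤ C ^ 8 := pow_le_pow_right₀ hC (by omega)

private theorem gen_i1 (hC : 1 ≤ C) (ha : 0 < a) (hb : 0 < b) (h1 : a ^ 2 ≤ C)
    (h4 : a ^ 2 * (b ^ 2) ^ 2 ≤ C) (hσ : 0 < σ) (hτ : 0 < τ) :
    (σ ^ 6 * (a * b) ^ 3) * (τ ^ 6 * (a * b) ^ 3) ≤
      (2 * C ^ 10) * ((σ ^ 2 * τ ^ 2) ^ 3 * (b ^ 2 / a ^ 2) * a ^ 3) := by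
  rw [gen_tgt ha]
  have h4' : a ^ 2 * b ^ 4 ≤ C := by
    calc a ^ 2 * b ^ 4 = a ^ 2 * (b ^ 2) ^ 2 := by ring
      _ ≤ C := h4
  have h5 := gen_pw hC ha hb (gen_a hC ha h1) h4' 5 4 le_rfl (by norm_num) (by norm_num)
  have h6 : C ^ 8 ≤ 2 * C ^ 10 := by
    have := pow_le_pow_right₀ hC (show 8 ≤ 10 by norm_num)
    have h0 : 0 ≤ C ^ 10 := by positivity
    linarith
  calc (σ ^ 6 * (a * b) ^ 3) * (τ ^ 6 * (a * b) ^ 3) =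
        (a ^ 5 * b ^ 4) * (σ ^ 6 * τ ^ 6 * (a * b ^ 2)) := by ring
    _ ≤ (2 * C ^ 10) * (σ ^ 6 * τ ^ 6 * (a * b ^ 2)) :=
        mul_le_mul_of_nonneg_right (h5.trans h6) (by positivity)

private theorem gen_sq {x : ℝ} (hx : 0 < x) (h : 1 ≤ x ^ 2) : 1 ≤ x := by nlinarith

private theorem gen_i2 (hC : 1 ≤ C) (ha : 0 < a) (hb : 0 < b) (h1 : a ^ 2 ≤ C)
    (h4 : a ^ 2 * (b ^ 2) ^ 2 ≤ C) (hσ : 0 < σ) (hτ : 0 < τ)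
    (hi : 1 ≤ C * τ ^ 2 * (a ^ 2 * b ^ 2)) :
    (σ ^ 6 * (a * b) ^ 3) * (τ ^ 4 + τ ^ 5 * b ^ 4) ≤
      (2 * C ^ 10) * ((σ ^ 2 * τ ^ 2) ^ 3 * (b ^ 2 / a ^ 2) * a ^ 3) := by
  rw [gen_tgt ha]
  have h4' : a ^ 2 * b ^ 4 ≤ C := by
    calc a ^ 2 * b ^ 4 = a ^ 2 * (b ^ 2) ^ 2 := by ring
      _ ≤ C := h4
  have haC := gen_a hC ha h1
  have hC0 : 0 < C := by linarith
  have hi' : 1 ≤ C * τ * (a * b) := by
    refine gen_sq (by positivity) (hi.trans ?_)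
    calc C * τ ^ 2 * (a ^ 2 * b ^ 2) = C * (τ * (a * b)) ^ 2 := by ring
      _ ≤ C ^ 2 * (τ * (a * b)) ^ 2 :=
          mul_le_mul_of_nonneg_right (by nlinarith) (by positivity)
      _ = (C * τ * (a * b)) ^ 2 := by ring
  have h5 : τ ^ 4 ≤ τ ^ 6 * (C * (a * b)) ^ 2 := by
    calc τ ^ 4 ≤ τ ^ 4 * (C * τ * (a * b)) ^ 2 :=
          le_mul_of_one_le_right (by positivity) (one_le_pow₀ hi')
      _ = _ := by ring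
  have h6 : τ ^ 5 * b ^ 4 ≤ τ ^ 6 * (C * (a * b)) * b ^ 4 := by
    calc τ ^ 5 * b ^ 4 ≤ τ ^ 5 * b ^ 4 * (C * τ * (a * b)) :=
          le_mul_of_one_le_right (by positivity) hi'
      _ = _ := by ring
  have h7 := gen_pw hC ha hb haC h4' 4 3 (by norm_num) (by norm_num) (by norm_num)
  have h8 : a ^ 3 * b ^ 6 ≤ C ^ 2 := by
    refine (pow_le_pow_iff_left₀ (by positivity) (by positivity) (two_ne_zero)).1 ?_
    calc (a ^ 3 * b ^ 6) ^ 2 = (a ^ 2 * b ^ 4) ^ 3 := by ring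
      _ ≤ C ^ 3 := pow_le_pow_left₀ (by positivity) h4' 3
      _ ≤ C ^ 4 := pow_le_pow_right₀ hC (by norm_num)
      _ = (C ^ 2) ^ 2 := by ring
  have h9 : C ^ 3 ≤ C ^ 10 := pow_le_pow_right₀ hC (by norm_num)
  calc (σ ^ 6 * (a * b) ^ 3) * (τ ^ 4 + τ ^ 5 * b ^ 4) ≤
        (σ ^ 6 * (a * b) ^ 3) * (τ ^ 6 * (C * (a * b)) ^ 2 + τ ^ 6 * (C * (a * b)) * b ^ 4) :=
        mul_le_mul_of_nonneg_left (add_le_add h5 h6) (by positivity)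
    _ = (C ^ 2 * (a ^ 4 * b ^ 3) + C * (a ^ 3 * b ^ 6)) * (σ ^ 6 * τ ^ 6 * (a * b ^ 2)) := by ring
    _ ≤ (C ^ 2 * C ^ 8 + C * C ^ 2) * (σ ^ 6 * τ ^ 6 * (a * b ^ 2)) :=
        mul_le_mul_of_nonneg_right (add_le_add (mul_le_mul_of_nonneg_left h7 (by positivity))
          (mul_le_mul_of_nonneg_left h8 (by positivity))) (by positivity)
    _ ≤ (2 * C ^ 10) * (σ ^ 6 * τ ^ 6 * (a * b ^ 2)) := by
        refine mul_le_mul_of_nonneg_right ?_ (by positivity)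
        calc C ^ 2 * C ^ 8 + C * C ^ 2 = C ^ 10 + C ^ 3 := by ring
          _ ≤ 2 * C ^ 10 := by linarith

private theorem gen_i3 (hC : 1 ≤ C) (ha : 0 < a) (hb : 0 < b) (h1 : a ^ 2 ≤ C)
    (h4 : a ^ 2 * (b ^ 2) ^ 2 ≤ C) (hσ : 0 < σ) (hτ : 0 < τ) (hτσ : τ ^ 2 ≤ σ ^ 2)
    (hi : 1 ≤ C * τ ^ 2 * (a ^ 2) ^ 2) :
    (σ ^ 4 + σ ^ 5 * b ^ 4) * (τ ^ 6 * (a * b) ^ 3) ≤
      (2 * C ^ 10) * ((σ ^ 2 * τ ^ 2) ^ 3 * (b ^ 2 / a ^ 2) * a ^ 3) := by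
  rw [gen_tgt ha]
  have h4' : a ^ 2 * b ^ 4 ≤ C := by
    calc a ^ 2 * b ^ 4 = a ^ 2 * (b ^ 2) ^ 2 := by ring
      _ ≤ C := h4
  have haC := gen_a hC ha h1
  have hC0 : 0 < C := by linarith
  have hi' : 1 ≤ C * σ * a ^ 2 := by
    refine gen_sq (by positivity) (hi.trans ?_)
    calc C * τ ^ 2 * (a ^ 2) ^ 2 ≤ C * σ ^ 2 * (a ^ 2) ^ 2 :=
          mul_le_mul_of_nonneg_right (mul_le_mul_of_nonneg_left hτσ hC0.le) (by positivity)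
      _ = C * (σ * a ^ 2) ^ 2 := by ring
      _ ≤ C ^ 2 * (σ * a ^ 2) ^ 2 :=
          mul_le_mul_of_nonneg_right (by nlinarith) (by positivity)
      _ = (C * σ * a ^ 2) ^ 2 := by ring
  have h5 : σ ^ 4 ≤ σ ^ 6 * (C * a ^ 2) ^ 2 := by
    calc σ ^ 4 ≤ σ ^ 4 * (C * σ * a ^ 2) ^ 2 :=
          le_mul_of_one_le_right (by positivity) (one_le_pow₀ hi')
      _ = _ := by ring
  have h6 : σ ^ 5 * b ^ 4 ≤ σ ^ 6 * (C * a ^ 2) * b ^ 4 := by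
    calc σ ^ 5 * b ^ 4 ≤ σ ^ 5 * b ^ 4 * (C * σ * a ^ 2) :=
          le_mul_of_one_le_right (by positivity) hi'
      _ = _ := by ring
  have h7 := gen_pw hC ha hb haC h4' 6 1 (by norm_num) (by norm_num) (by norm_num)
  rw [pow_one] at h7
  have h8 : a ^ 4 * b ^ 5 ≤ C ^ 8 := by
    rcases le_total b 1 with hb1 | hb1
    · calc a ^ 4 * b ^ 5 ≤ C ^ 4 * 1 :=
            mul_le_mul (pow_le_pow_left₀ ha.le haC 4) (pow_le_one₀ hb.le hb1) (by positivity)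
              (by positivity)
        _ ≤ C ^ 8 := by
            rw [mul_one]
            exact pow_le_pow_right₀ hC (by norm_num)
    · calc a ^ 4 * b ^ 5 ≤ a ^ 4 * b ^ 8 :=
            mul_le_mul_of_nonneg_left (pow_le_pow_right₀ hb1 (by norm_num)) (by positivity)
        _ = (a ^ 2 * b ^ 4) ^ 2 := by ring
        _ ≤ C ^ 2 := pow_le_pow_left₀ (by positivity) h4' 2
        _ ≤ C ^ 8 := pow_le_pow_right₀ hC (by norm_num)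
  have h9 : C ^ 9 ≤ C ^ 10 := pow_le_pow_right₀ hC (by norm_num)
  calc (σ ^ 4 + σ ^ 5 * b ^ 4) * (τ ^ 6 * (a * b) ^ 3) ≤
        (σ ^ 6 * (C * a ^ 2) ^ 2 + σ ^ 6 * (C * a ^ 2) * b ^ 4) * (τ ^ 6 * (a * b) ^ 3) :=
        mul_le_mul_of_nonneg_right (add_le_add h5 h6) (by positivity)
    _ = (C ^ 2 * (a ^ 6 * b) + C * (a ^ 4 * b ^ 5)) * (σ ^ 6 * τ ^ 6 * (a * b ^ 2)) := by ring
    _ ≤ (C ^ 2 * C ^ 8 + C * C ^ 8) * (σ ^ 6 * τ ^ 6 * (a * b ^ 2)) :=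
        mul_le_mul_of_nonneg_right (add_le_add (mul_le_mul_of_nonneg_left h7 (by positivity))
          (mul_le_mul_of_nonneg_left h8 (by positivity))) (by positivity)
    _ ≤ (2 * C ^ 10) * (σ ^ 6 * τ ^ 6 * (a * b ^ 2)) := by
        refine mul_le_mul_of_nonneg_right ?_ (by positivity)
        calc C ^ 2 * C ^ 8 + C * C ^ 8 = C ^ 10 + C ^ 9 := by ring
          _ ≤ 2 * C ^ 10 := by linarith

end

variable (K : Type) [Field K] [NumberField K]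

private theorem gen_sA (h1 : OlAStmt K) {C : ℝ} (hC : 1 ≤ C) {ε : ℝ} (hε : 0 < ε) :
    ∃ C' : ℝ, 0 < C' ∧ ∀ σ a b : ℝ, 0 < σ → 0 < a → 0 < b → 1 ≤ C * σ ^ 2 →
      Rho C (a ^ 2) (b ^ 2) → 1 ≤ C * σ ^ 2 * (a ^ 2) ^ 2 → ∀ S : Finset (T3 K),
        (∀ x ∈ S, Bx C (σ ^ 2) (a ^ 2) (b ^ 2) x ∧ x.1 ≠ 0 ∧ dt x ≠ 0) →
        ∑ x ∈ S, ni (cn x) * Wt (3 / 4) (σ ^ 2) x ≤
          C' * (σ ^ 2) ^ ε * (σ ^ 6 * (a * b) ^ 3) ^ Module.finrank ℚ K := by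
  obtain ⟨C₁, hC₁, h⟩ := h1 (3 / 4) (by norm_num) (by norm_num) (C ^ 2) (one_le_pow₀ hC) ε hε
  have hC0 : 0 < C := by linarith
  have hCC : C ≤ C ^ 2 := by nlinarith
  obtain ⟨d, hd⟩ : ∃ d : ℕ, d = Module.finrank ℚ K := ⟨_, rfl⟩
  rw [← hd] at h ⊢
  refine ⟨C₁ * (1 + C ^ d), by positivity, fun σ a b hσ ha hb hCs hRho hi S hS => ?_⟩
  obtain ⟨hr1, hr2, hr3, hr4⟩ := hRho
  have hab : a ≤ b := by
    by_contra hcon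
    push Not at hcon
    nlinarith
  have hρ2 : b ^ 2 ≤ C ^ 2 * σ ^ 2 :=
    gen_r2 hC (by positivity) hCs (by positivity) (by positivity) hr4 hi
  have hCs2 : 1 ≤ C ^ 2 * σ ^ 2 :=
    hCs.trans (mul_le_mul_of_nonneg_right hCC (by positivity))
  have h2 := h (σ ^ 2) (a ^ 2) (b ^ 2) hCs2 ⟨hr1, hr2, hr3.trans hCC, hr4.trans hCC⟩ hρ2 S
    (fun x hx => ⟨gen_bx hC (by positivity) (by positivity) (by positivity) (hS x hx).1,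
      (hS x hx).2⟩)
  refine h2.trans ?_
  have e1 : (σ ^ 2) ^ (3 * d) = (σ ^ 6) ^ d := by
    rw [← pow_mul, ← pow_mul]
    congr 1
    ring
  have e2 : (a ^ 2 * b ^ 2) ^ ((3 - 2 * (3 / 4)) * (d : ℝ)) = ((a * b) ^ 3) ^ d := by
    rw [← mul_pow, gen_rpow (mul_pos ha hb) (3 * d) (by push_cast; ring), pow_mul]
  have e3 : (σ ^ 2) ^ ((1 + 2 * (3 / 4)) * (d : ℝ)) = (σ ^ 5) ^ d := by
    rw [gen_rpow hσ (5 * d) (by push_cast; ring), pow_mul]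
  have e4 : (a ^ 2) ^ (2 * d) = (a ^ 4) ^ d := by
    rw [← pow_mul, ← pow_mul]
    congr 1
    ring
  rw [e1, e2, e3, e4, ← mul_pow, ← mul_pow]
  have hi' : 1 ≤ C * σ * a ^ 2 := by
    refine gen_sq (by positivity) (hi.trans ?_)
    calc C * σ ^ 2 * (a ^ 2) ^ 2 = C * (σ * a ^ 2) ^ 2 := by ring
      _ ≤ C ^ 2 * (σ * a ^ 2) ^ 2 := mul_le_mul_of_nonneg_right hCC (by positivity)
      _ = (C * σ * a ^ 2) ^ 2 := by ring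
  have h5 : σ ^ 5 * a ^ 4 ≤ C * (σ ^ 6 * (a * b) ^ 3) := by
    calc σ ^ 5 * a ^ 4 ≤ σ ^ 5 * a ^ 4 * (C * σ * a ^ 2) :=
          le_mul_of_one_le_right (by positivity) hi'
      _ = C * (σ ^ 6 * (a ^ 3 * a ^ 3)) := by ring
      _ ≤ C * (σ ^ 6 * (a ^ 3 * b ^ 3)) := by
          refine mul_le_mul_of_nonneg_left (mul_le_mul_of_nonneg_left
            (mul_le_mul_of_nonneg_left (pow_le_pow_left₀ ha.le hab 3) (by positivity))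
            (by positivity)) hC0.le
      _ = C * (σ ^ 6 * (a * b) ^ 3) := by ring
  have h6 : (σ ^ 5 * a ^ 4) ^ d ≤ C ^ d * (σ ^ 6 * (a * b) ^ 3) ^ d := by
    rw [← mul_pow]
    exact pow_le_pow_left₀ (by positivity) h5 d
  have hpos : 0 ≤ C₁ * (σ ^ 2) ^ ε := by positivity
  calc C₁ * (σ ^ 2) ^ ε * ((σ ^ 6 * (a * b) ^ 3) ^ d + (σ ^ 5 * a ^ 4) ^ d) ≤
        C₁ * (σ ^ 2) ^ ε * ((σ ^ 6 * (a * b) ^ 3) ^ d + C ^ d * (σ ^ 6 * (a * b) ^ 3) ^ d) :=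
        mul_le_mul_of_nonneg_left (by linarith) hpos
    _ = C₁ * (1 + C ^ d) * (σ ^ 2) ^ ε * (σ ^ 6 * (a * b) ^ 3) ^ d := by ring

private theorem gen_sZ (h1 : OlZStmt K) {C : ℝ} (hC : 1 ≤ C) {ε : ℝ} (hε : 0 < ε) :
    ∃ C' : ℝ, 0 < C' ∧ ∀ σ a b : ℝ, 0 < σ → 0 < a → 0 < b → 1 ≤ C * σ ^ 2 →
      Rho C (a ^ 2) (b ^ 2) → 1 ≤ C * σ ^ 2 * (a ^ 2 * b ^ 2) → ∀ S : Finset (T3 K),
        (∀ x ∈ S, Bx C (σ ^ 2) (a ^ 2) (b ^ 2) x ∧ x.1 = 0 ∧ dt x ≠ 0) →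
        ∑ x ∈ S, ni (cn x) * Wt (3 / 4) (σ ^ 2) x ≤
          C' * (σ ^ 2) ^ ε * (σ ^ 4 + σ ^ 5 * b ^ 4) ^ Module.finrank ℚ K := by
  obtain ⟨C₁, hC₁, h⟩ := h1 (3 / 4) (by norm_num) (by norm_num) (C ^ 2) (one_le_pow₀ hC) ε hε
  have hC0 : 0 < C := by linarith
  have hCC : C ≤ C ^ 2 := by nlinarith
  obtain ⟨d, hd⟩ : ∃ d : ℕ, d = Module.finrank ℚ K := ⟨_, rfl⟩
  rw [← hd] at h ⊢
  refine ⟨C₁ * 2, by positivity, fun σ a b hσ ha hb hCs hRho hi S hS => ?_⟩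
  obtain ⟨hr1, hr2, hr3, hr4⟩ := hRho
  have hρ2 : b ^ 2 ≤ C ^ 2 * σ ^ 2 := gen_r2z hC (by positivity) (by positivity) hr4 hi
  have hCs2 : 1 ≤ C ^ 2 * σ ^ 2 :=
    hCs.trans (mul_le_mul_of_nonneg_right hCC (by positivity))
  have h2 := h (σ ^ 2) (a ^ 2) (b ^ 2) hCs2 ⟨hr1, hr2, hr3.trans hCC, hr4.trans hCC⟩ hρ2 S
    (fun x hx => ⟨gen_bx hC (by positivity) (by positivity) (by positivity) (hS x hx).1,
      (hS x hx).2⟩)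
  refine h2.trans ?_
  have e1 : (σ ^ 2) ^ (2 * d) = (σ ^ 4) ^ d := by
    rw [← pow_mul, ← pow_mul]
    congr 1
    ring
  have e3 : (σ ^ 2) ^ ((1 + 2 * (3 / 4)) * (d : ℝ)) = (σ ^ 5) ^ d := by
    rw [gen_rpow hσ (5 * d) (by push_cast; ring), pow_mul]
  have e4 : (b ^ 2) ^ (2 * d) = (b ^ 4) ^ d := by
    rw [← pow_mul, ← pow_mul]
    congr 1
    ring
  rw [e1, e3, e4, ← mul_pow]
  have hx : 0 ≤ σ ^ 5 * b ^ 4 := by positivity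
  have hy : 0 ≤ σ ^ 4 := by positivity
  have h5 : (σ ^ 4) ^ d ≤ (σ ^ 4 + σ ^ 5 * b ^ 4) ^ d := pow_le_pow_left₀ hy (by linarith) d
  have h6 : (σ ^ 5 * b ^ 4) ^ d ≤ (σ ^ 4 + σ ^ 5 * b ^ 4) ^ d :=
    pow_le_pow_left₀ hx (by linarith) d
  have hpos : 0 ≤ C₁ * (σ ^ 2) ^ ε := by positivity
  calc C₁ * (σ ^ 2) ^ ε * ((σ ^ 4) ^ d + (σ ^ 5 * b ^ 4) ^ d) ≤
        C₁ * (σ ^ 2) ^ ε * ((σ ^ 4 + σ ^ 5 * b ^ 4) ^ d + (σ ^ 4 + σ ^ 5 * b ^ 4) ^ d) :=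
        mul_le_mul_of_nonneg_left (by linarith) hpos
    _ = C₁ * 2 * (σ ^ 2) ^ ε * (σ ^ 4 + σ ^ 5 * b ^ 4) ^ d := by ring

private theorem gen_dt {x : T3 K} (h : dt x ≠ 0) (h1 : x.1 = 0) : x.2.1 ≠ 0 := by
  intro h2
  apply h
  unfold dt
  rw [h1, h2]
  ring

theorem gen_of (h : LosStmt K) (h1 : OlAStmt K) (h2 : OlZStmt K) : GenStmt K := by
  classical
  intro M hM C hC A ε hε
  have hε3 : 0 < ε / 3 := by positivity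
  have hC0 : 0 < C := by linarith
  obtain ⟨CL, hCL, hL⟩ := h M hM C hC A (ε / 3) hε3
  obtain ⟨CA, hCA, hA⟩ := gen_sA K h1 hC hε3
  obtain ⟨CZ, hCZ, hZ⟩ := gen_sZ K h2 hC hε3
  obtain ⟨d, hd⟩ : ∃ d : ℕ, d = Module.finrank ℚ K := ⟨_, rfl⟩
  rw [← hd] at hA hZ ⊢
  refine ⟨3 * (CL * (CA + CZ) ^ 2 * (2 * C ^ 10) ^ d), by positivity, ?_⟩
  intro s t ρ1 ρ2 hRg hRho S hS
  obtain ⟨hCt, hts⟩ := hRg
  have ht0 : 0 < t := by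
    by_contra hcon
    push Not at hcon
    nlinarith
  have hs0 : 0 < s := lt_of_lt_of_le ht0 hts
  have hρ10 := hRho.1
  have hρ20 : 0 < ρ2 := lt_of_lt_of_le hρ10 hRho.2.1
  obtain ⟨σ, hσ, rfl⟩ : ∃ σ : ℝ, 0 < σ ∧ s = σ ^ 2 :=
    ⟨Real.sqrt s, Real.sqrt_pos.2 hs0, (Real.sq_sqrt hs0.le).symm⟩
  obtain ⟨τ, hτ, rfl⟩ : ∃ τ : ℝ, 0 < τ ∧ t = τ ^ 2 :=
    ⟨Real.sqrt t, Real.sqrt_pos.2 ht0, (Real.sq_sqrt ht0.le).symm⟩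
  obtain ⟨a, ha, rfl⟩ : ∃ a : ℝ, 0 < a ∧ ρ1 = a ^ 2 :=
    ⟨Real.sqrt ρ1, Real.sqrt_pos.2 hρ10, (Real.sq_sqrt hρ10.le).symm⟩
  obtain ⟨b, hb, rfl⟩ : ∃ b : ℝ, 0 < b ∧ ρ2 = b ^ 2 :=
    ⟨Real.sqrt ρ2, Real.sqrt_pos.2 hρ20, (Real.sq_sqrt hρ20.le).symm⟩
  have hCs : 1 ≤ C * σ ^ 2 := hCt.trans (mul_le_mul_of_nonneg_left hts hC0.le)
  obtain ⟨-, -, hr3, hr4⟩ := id hRho
  -- the target
  obtain ⟨T, hT⟩ : ∃ T : ℝ, T = (σ ^ 2 * τ ^ 2) ^ 3 * (b ^ 2 / a ^ 2) * a ^ 3 := ⟨_, rfl⟩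
  have hT0 : 0 ≤ T := by
    rw [hT]
    positivity
  have hTd : (σ ^ 2 * τ ^ 2) ^ (3 * d) * (b ^ 2 / a ^ 2) ^ d * (a ^ 2) ^ (3 / 2 * (d : ℝ)) =
      T ^ d := by
    have e1 : (σ ^ 2 * τ ^ 2) ^ (3 * d) = ((σ ^ 2 * τ ^ 2) ^ 3) ^ d := pow_mul _ _ _
    have e2 : a ^ (3 * d) = (a ^ 3) ^ d := pow_mul _ _ _
    rw [gen_rpow ha (3 * d) (by push_cast; ring), hT,
      mul_pow ((σ ^ 2 * τ ^ 2) ^ 3 * (b ^ 2 / a ^ 2)) (a ^ 3) d,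
      mul_pow ((σ ^ 2 * τ ^ 2) ^ 3) (b ^ 2 / a ^ 2) d, e1, e2]
  have hgoal : 3 * (CL * (CA + CZ) ^ 2 * (2 * C ^ 10) ^ d) * (σ ^ 2) ^ ε *
      (σ ^ 2 * τ ^ 2) ^ (3 * d) * (b ^ 2 / a ^ 2) ^ d * (a ^ 2) ^ (3 / 2 * (d : ℝ)) =
      3 * (CL * (CA + CZ) ^ 2 * (2 * C ^ 10) ^ d * ((σ ^ 2) ^ ε * T ^ d)) := by
    rw [← hTd]
    ring
  rw [hgoal]
  -- one part
  have part : ∀ (P : Finset (𝓞 K × 𝓞 K × Blk (𝓞 K))) (X Y : ℝ), P ⊆ S → 0 ≤ X → 0 ≤ Y →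
      ∑ x ∈ P.image (fun x => tb x.2.2), ni (cn x) * Wt (3 / 4) (σ ^ 2) x ≤
        (CA + CZ) * (σ ^ 2) ^ (ε / 3) * X ^ d →
      ∑ x ∈ P.image (fun x => tc x.2.2), ni (cn x) * Wt (3 / 4) (τ ^ 2) x ≤
        (CA + CZ) * (τ ^ 2) ^ (ε / 3) * Y ^ d →
      X * Y ≤ 2 * C ^ 10 * T →
      (P.card : ℝ) ≤ CL * (CA + CZ) ^ 2 * (2 * C ^ 10) ^ d * ((σ ^ 2) ^ ε * T ^ d) := by
    intro P X Y hPS hX hY hb1 hc1 hXY
    have h3 := hL (σ ^ 2) (τ ^ 2) (a ^ 2) (b ^ 2) ⟨hCt, hts⟩ hRho P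
      (P.image fun x => tb x.2.2) (P.image fun x => tc x.2.2)
      (fun x hx => ⟨hS x (hPS hx), Finset.mem_image_of_mem _ hx, Finset.mem_image_of_mem _ hx⟩)
    have hw : ∀ (r : ℝ), 0 < r → ∀ x : T3 K, 0 ≤ ni (cn x) * Wt (3 / 4) r x := by
      intro r hr x
      refine mul_nonneg (ni_nonneg _) (Finset.prod_nonneg fun φ _ => ?_)
      exact Real.rpow_nonneg (div_nonneg (sz_nonneg φ _) (by positivity)) _
    have hs1 : 0 ≤ ∑ x ∈ P.image (fun x => tb x.2.2), ni (cn x) * Wt (3 / 4) (σ ^ 2) x :=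
      Finset.sum_nonneg fun x _ => hw _ (by positivity) x
    have hs2 : 0 ≤ ∑ x ∈ P.image (fun x => tc x.2.2), ni (cn x) * Wt (3 / 4) (τ ^ 2) x :=
      Finset.sum_nonneg fun x _ => hw _ (by positivity) x
    have hte : (τ ^ 2) ^ (ε / 3) ≤ (σ ^ 2) ^ (ε / 3) :=
      Real.rpow_le_rpow (by positivity) hts hε3.le
    have hse : (σ ^ 2) ^ (ε / 3) * (σ ^ 2) ^ (ε / 3) * (σ ^ 2) ^ (ε / 3) = (σ ^ 2) ^ ε := by
      rw [← Real.rpow_add (by positivity), ← Real.rpow_add (by positivity)]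
      congr 1
      ring
    have hXYd : (X * Y) ^ d ≤ (2 * C ^ 10 * T) ^ d := pow_le_pow_left₀ (by positivity) hXY d
    have hc2 : ∑ x ∈ P.image (fun x => tc x.2.2), ni (cn x) * Wt (3 / 4) (τ ^ 2) x ≤
        (CA + CZ) * (σ ^ 2) ^ (ε / 3) * Y ^ d :=
      hc1.trans (mul_le_mul_of_nonneg_right (mul_le_mul_of_nonneg_left hte (by positivity))
        (by positivity))
    calc (P.card : ℝ) ≤ _ := h3
      _ ≤ CL * (σ ^ 2) ^ (ε / 3) * ((CA + CZ) * (σ ^ 2) ^ (ε / 3) * X ^ d) *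
          ((CA + CZ) * (σ ^ 2) ^ (ε / 3) * Y ^ d) :=
          mul_le_mul (mul_le_mul_of_nonneg_left hb1 (by positivity)) hc2 hs2 (by positivity)
      _ = CL * (CA + CZ) ^ 2 * ((σ ^ 2) ^ (ε / 3) * (σ ^ 2) ^ (ε / 3) * (σ ^ 2) ^ (ε / 3)) *
          (X * Y) ^ d := by
          rw [mul_pow]
          ring
      _ = CL * (CA + CZ) ^ 2 * (σ ^ 2) ^ ε * (X * Y) ^ d := by rw [hse]
      _ ≤ CL * (CA + CZ) ^ 2 * (σ ^ 2) ^ ε * (2 * C ^ 10 * T) ^ d :=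
          mul_le_mul_of_nonneg_left hXYd (by positivity)
      _ = _ := by
          rw [mul_pow]
          ring
  have hzero : 0 ≤ CL * (CA + CZ) ^ 2 * (2 * C ^ 10) ^ d * ((σ ^ 2) ^ ε * T ^ d) := by positivity
  -- the conditions on the elements
  have hBb : ∀ x ∈ S, Bx C (σ ^ 2) (a ^ 2) (b ^ 2) (tb x.2.2) ∧ dt (tb x.2.2) ≠ 0 := by
    intro x hx
    obtain ⟨-, hmain, -⟩ := hS x hx
    obtain ⟨hsz, -, hD1, -, -⟩ := hmain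
    exact ⟨⟨hsz.sb1, hsz.sb2, hsz.sb3⟩, hD1⟩
  have hBc : ∀ x ∈ S, Bx C (τ ^ 2) (a ^ 2) (b ^ 2) (tc x.2.2) ∧ dt (tc x.2.2) ≠ 0 := by
    intro x hx
    obtain ⟨-, hmain, -⟩ := hS x hx
    obtain ⟨hsz, -, -, hD3, -⟩ := hmain
    exact ⟨⟨hsz.sc1, hsz.sc2, hsz.sc3⟩, hD3⟩
  have hCAZ1 : CA ≤ CA + CZ := by linarith
  have hCAZ2 : CZ ≤ CA + CZ := by linarith
  -- sums over the images
  have sumA : ∀ (r : ℝ) (T0 : Finset (T3 K)), 0 < r → 1 ≤ C * r ^ 2 →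
      1 ≤ C * r ^ 2 * (a ^ 2) ^ 2 →
      (∀ x ∈ T0, Bx C (r ^ 2) (a ^ 2) (b ^ 2) x ∧ x.1 ≠ 0 ∧ dt x ≠ 0) →
      ∑ x ∈ T0, ni (cn x) * Wt (3 / 4) (r ^ 2) x ≤
        (CA + CZ) * (r ^ 2) ^ (ε / 3) * (r ^ 6 * (a * b) ^ 3) ^ d := by
    intro r T0 hr hCr hi hT0'
    refine (hA r a b hr ha hb hCr hRho hi T0 hT0').trans ?_
    exact mul_le_mul_of_nonneg_right (mul_le_mul_of_nonneg_right hCAZ1 (by positivity))
      (by positivity)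
  have sumZ : ∀ (r : ℝ) (T0 : Finset (T3 K)), 0 < r → 1 ≤ C * r ^ 2 →
      1 ≤ C * r ^ 2 * (a ^ 2 * b ^ 2) →
      (∀ x ∈ T0, Bx C (r ^ 2) (a ^ 2) (b ^ 2) x ∧ x.1 = 0 ∧ dt x ≠ 0) →
      ∑ x ∈ T0, ni (cn x) * Wt (3 / 4) (r ^ 2) x ≤
        (CA + CZ) * (r ^ 2) ^ (ε / 3) * (r ^ 4 + r ^ 5 * b ^ 4) ^ d := by
    intro r T0 hr hCr hi hT0'
    refine (hZ r a b hr ha hb hCr hRho hi T0 hT0').trans ?_
    exact mul_le_mul_of_nonneg_right (mul_le_mul_of_nonneg_right hCAZ2 (by positivity))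
      (by positivity)
  -- part 1
  have p1 : ((S.filter fun x => x.2.2.b1 ≠ 0 ∧ x.2.2.c1 ≠ 0).card : ℝ) ≤
      CL * (CA + CZ) ^ 2 * (2 * C ^ 10) ^ d * ((σ ^ 2) ^ ε * T ^ d) := by
    rcases (S.filter fun x => x.2.2.b1 ≠ 0 ∧ x.2.2.c1 ≠ 0).eq_empty_or_nonempty with he | ⟨x, hx⟩
    · rw [he, Finset.card_empty, Nat.cast_zero]
      exact hzero
    · obtain ⟨hxS, hx1, hx2⟩ := Finset.mem_filter.1 hx
      have hi1 : 1 ≤ C * σ ^ 2 * (a ^ 2) ^ 2 := gen_one hx1 (hBb x hxS).1.1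
      have hi2 : 1 ≤ C * τ ^ 2 * (a ^ 2) ^ 2 := gen_one hx2 (hBc x hxS).1.1
      refine part _ (σ ^ 6 * (a * b) ^ 3) (τ ^ 6 * (a * b) ^ 3) (Finset.filter_subset _ _)
        (by positivity) (by positivity) (sumA σ _ hσ hCs hi1 ?_) (sumA τ _ hτ hCt hi2 ?_) ?_
      · intro y hy
        obtain ⟨z, hz, rfl⟩ := Finset.mem_image.1 hy
        obtain ⟨hzS, hz1, hz2⟩ := Finset.mem_filter.1 hz
        exact ⟨(hBb z hzS).1, hz1, (hBb z hzS).2⟩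
      · intro y hy
        obtain ⟨z, hz, rfl⟩ := Finset.mem_image.1 hy
        obtain ⟨hzS, hz1, hz2⟩ := Finset.mem_filter.1 hz
        exact ⟨(hBc z hzS).1, hz2, (hBc z hzS).2⟩
      · rw [hT]
        exact gen_i1 hC ha hb hr3 hr4 hσ hτ
  -- part 2
  have p2 : ((S.filter fun x => x.2.2.b1 ≠ 0 ∧ x.2.2.c1 = 0).card : ℝ) ≤
      CL * (CA + CZ) ^ 2 * (2 * C ^ 10) ^ d * ((σ ^ 2) ^ ε * T ^ d) := by
    rcases (S.filter fun x => x.2.2.b1 ≠ 0 ∧ x.2.2.c1 = 0).eq_empty_or_nonempty with he | ⟨x, hx⟩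
    · rw [he, Finset.card_empty, Nat.cast_zero]
      exact hzero
    · obtain ⟨hxS, hx1, hx2⟩ := Finset.mem_filter.1 hx
      have hi1 : 1 ≤ C * σ ^ 2 * (a ^ 2) ^ 2 := gen_one hx1 (hBb x hxS).1.1
      have hi2 : 1 ≤ C * τ ^ 2 * (a ^ 2 * b ^ 2) :=
        gen_one (gen_dt K (hBc x hxS).2 hx2) (hBc x hxS).1.2.1
      refine part _ (σ ^ 6 * (a * b) ^ 3) (τ ^ 4 + τ ^ 5 * b ^ 4) (Finset.filter_subset _ _)
        (by positivity) (by positivity) (sumA σ _ hσ hCs hi1 ?_) (sumZ τ _ hτ hCt hi2 ?_) ?_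
      · intro y hy
        obtain ⟨z, hz, rfl⟩ := Finset.mem_image.1 hy
        obtain ⟨hzS, hz1, hz2⟩ := Finset.mem_filter.1 hz
        exact ⟨(hBb z hzS).1, hz1, (hBb z hzS).2⟩
      · intro y hy
        obtain ⟨z, hz, rfl⟩ := Finset.mem_image.1 hy
        obtain ⟨hzS, hz1, hz2⟩ := Finset.mem_filter.1 hz
        exact ⟨(hBc z hzS).1, hz2, (hBc z hzS).2⟩
      · rw [hT]
        exact gen_i2 hC ha hb hr3 hr4 hσ hτ hi2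
  -- part 3
  have p3 : ((S.filter fun x => x.2.2.b1 = 0).card : ℝ) ≤
      CL * (CA + CZ) ^ 2 * (2 * C ^ 10) ^ d * ((σ ^ 2) ^ ε * T ^ d) := by
    have hc1 : ∀ x ∈ S, x.2.2.b1 = 0 → x.2.2.c1 ≠ 0 := by
      intro x hx hb1 hc1
      obtain ⟨-, hmain, -⟩ := hS x hx
      exact hmain.2.1 ⟨hb1, hc1⟩
    rcases (S.filter fun x => x.2.2.b1 = 0).eq_empty_or_nonempty with he | ⟨x, hx⟩
    · rw [he, Finset.card_empty, Nat.cast_zero]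
      exact hzero
    · obtain ⟨hxS, hx1⟩ := Finset.mem_filter.1 hx
      have hi1 : 1 ≤ C * σ ^ 2 * (a ^ 2 * b ^ 2) :=
        gen_one (gen_dt K (hBb x hxS).2 hx1) (hBb x hxS).1.2.1
      have hi2 : 1 ≤ C * τ ^ 2 * (a ^ 2) ^ 2 := gen_one (hc1 x hxS hx1) (hBc x hxS).1.1
      refine part _ (σ ^ 4 + σ ^ 5 * b ^ 4) (τ ^ 6 * (a * b) ^ 3) (Finset.filter_subset _ _)
        (by positivity) (by positivity) (sumZ σ _ hσ hCs hi1 ?_) (sumA τ _ hτ hCt hi2 ?_) ?_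
      · intro y hy
        obtain ⟨z, hz, rfl⟩ := Finset.mem_image.1 hy
        obtain ⟨hzS, hz1⟩ := Finset.mem_filter.1 hz
        exact ⟨(hBb z hzS).1, hz1, (hBb z hzS).2⟩
      · intro y hy
        obtain ⟨z, hz, rfl⟩ := Finset.mem_image.1 hy
        obtain ⟨hzS, hz1⟩ := Finset.mem_filter.1 hz
        exact ⟨(hBc z hzS).1, hc1 z hzS hz1, (hBc z hzS).2⟩
      · rw [hT]
        exact gen_i3 hC ha hb hr3 hr4 hσ hτ hts hi2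
  -- the union
  have hcov : S ⊆ ((S.filter fun x => x.2.2.b1 ≠ 0 ∧ x.2.2.c1 ≠ 0) ∪
      (S.filter fun x => x.2.2.b1 ≠ 0 ∧ x.2.2.c1 = 0)) ∪ (S.filter fun x => x.2.2.b1 = 0) := by
    intro x hx
    simp only [Finset.mem_union, Finset.mem_filter]
    by_cases h3 : x.2.2.b1 = 0
    · exact Or.inr ⟨hx, h3⟩
    · by_cases h4 : x.2.2.c1 = 0
      · exact Or.inl (Or.inr ⟨hx, h3, h4⟩)
      · exact Or.inl (Or.inl ⟨hx, h3, h4⟩)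
  have hcard : (S.card : ℝ) ≤ ((S.filter fun x => x.2.2.b1 ≠ 0 ∧ x.2.2.c1 ≠ 0).card : ℝ) +
      ((S.filter fun x => x.2.2.b1 ≠ 0 ∧ x.2.2.c1 = 0).card : ℝ) +
      ((S.filter fun x => x.2.2.b1 = 0).card : ℝ) := by
    have h5 := (Finset.card_le_card hcov).trans ((Finset.card_union_le _ _).trans
      (Nat.add_le_add_right (Finset.card_union_le _ _) _))
    exact_mod_cast h5
  linarith

end H88.WS
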