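import Pool.Agent.H88.WS.Ib

/-!
# [H88 WS MAI] `Main2Stmt` from `BlkStmt` (double counting over `x2 → x2 + τ x1`; W1#, MP_b39724)

PROOF. `sh τ β` = the block with `b1, b2 + τ b1, b3 + 2 τ b2 + τ^2 b1` and the same for `c`; `shr τ π` = the row `p1, p2 + τ p1, q1, q2 + τ q1`.
`sh_D1` .. `sh_E`: `ring` (`D1`, `D2`, `D3` are invariant). `sh_sol`: `Ab`, `Ac` are invariant if rows and blocks are transformed together, so the four equations are the same (`ring`/`linear_combination`).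
`tau_cnt`: with the fixed basis `ω` of `𝓞 K` (`NumberField.RingOfIntegers.basis K`) and `W = 1 + ∑_i ∑_φ ‖φ ω_i‖` take all `∑ x_i ω_i`, `0 ≤ x_i ≤ ⌊r / (W)⌋₊` (sizes `≤ ∑ x_i ‖φ ω_i‖ ≤ r`): their number is
`(⌊r/W⌋₊ + 1)^d ≥ (r/W)^d` (`d` = number of coordinates, injective).
`main_of`: `M, C, A` given; apply `BlkStmt` with `M`, `4 C`, `A + 4`: constants `C1, κ`. Let `S` be as in `Main2Stmt`; may be assumed nonempty. `Rho C ρ1 ρ2`, `ρ2/ρ1 ≥ 1`. As `S` has an element with `(b1, c1) ≠ 0`: `1 ≤ C s ρ1^2`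
(as in `crho_rng` of `H88/A4/CRho.lean`; `t ≤ s`), so `1/ρ1 ≤ (C s)^(1/2)`, `ρ2 ≤ (C/ρ1)^(1/2)`, hence `ρ2/ρ1 ≤ C (C s) ..`: in any case `1 + ρ2/ρ1 ≤ (4 C (1 + s))^2` and `4 C s ρ2^2 ≤ (4 C (1 + s))^4`.
Let `T` be the set of `tau_cnt` for `r = ρ2/ρ1`, `S' =` image of `S ×ˢ T` under `(x, τ) ↦ (x.1, x.2.1, sh τ x.2.2)`. INJECTIVE on `S ×ˢ T`: equal images have the same `u, v` and the same `D1, D2, D3` (invariance), so `x = y` by `Inj`; then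
`b2 + τ b1 = b2 + τ' b1` and `c2 + τ c1 = c2 + τ' c1` with `(b1, c1) ≠ (0, 0)` gives `τ = τ'`. So `#S' = #S #T ≥ c #S (ρ2/ρ1)^d`. `S'` satisfies the hypotheses of `BlkStmt` with `4 C`, `A + 4`: `Rg`, `Rho`, `Adm` are monotone in `C`;
`Sz (4 C)`: `|b2 + τ b1| ≤ C s ρ1 ρ2 + (ρ2/ρ1) C s ρ1^2 = 2 C s ρ1 ρ2`, `|b3 + 2 τ b2 + τ^2 b1| ≤ 4 C s ρ2^2`; nonvanishing by invariance; `All (Bd (Hp (4 C) (A + 4) s))`: from `Sz` (entries `≤ 4 C s ρ2^2 ≤ (4 C (1 + s))^4`, `ρ1 ≤ ρ2`; for `b1` etc. the same);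
`Rep`: rows `p2 + τ p1` have size `≤ (1 + ρ2/ρ1) Hp C A s ≤ (4 C (1 + s))^2 (4 C (1 + s))^A`.
Divide by `c (ρ2/ρ1)^d`.
-/

open scoped NumberField
open H88.A4 Pool.Agent.H67.WA

noncomputable section

namespace H88.WS

/-- the change of basis `x2 → x2 + τ x1` -/
def sh {R : Type} [CommRing R] (τ : R) (β : Blk R) : Blk R :=
  ⟨β.b1, β.b2 + τ * β.b1, β.b3 + 2 * τ * β.b2 + τ ^ 2 * β.b1,
    β.c1, β.c2 + τ * β.c1, β.c3 + 2 * τ * β.c2 + τ ^ 2 * β.c1⟩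

/-- the change of basis `x2 → x2 + τ x1` -/
def shr {R : Type} [CommRing R] (τ : R) (π : Row R) : Row R :=
  ⟨π.p1, π.p2 + τ * π.p1, π.q1, π.q2 + τ * π.q1⟩

theorem sh_inv {R : Type} [CommRing R] (τ : R) (β : Blk R) :
    (sh τ β).D1 = β.D1 ∧ (sh τ β).D2 = β.D2 ∧ (sh τ β).D3 = β.D3 ∧ (sh τ β).E = β.E := by
  have h1 : (sh τ β).D1 = β.D1 := by
    simp only [sh, Blk.D1]
    ring
  have h2 : (sh τ β).D2 = β.D2 := by
    simp only [sh, Blk.D2]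
    ring
  have h3 : (sh τ β).D3 = β.D3 := by
    simp only [sh, Blk.D3]
    ring
  refine ⟨h1, h2, h3, ?_⟩
  unfold Blk.E
  rw [h1, h2, h3]

theorem sh_sol {R : Type} [CommRing R] (τ : R) (β : Blk R) (π : Row R) (r r' u v : R)
    (h : Sol β π r r' u v) : Sol (sh τ β) (shr τ π) r r' u v := by
  have hb : ∀ x1 x2 y1 y2 : R, (sh τ β).Ab x1 (x2 + τ * x1) y1 (y2 + τ * y1) = β.Ab x1 x2 y1 y2 := by
    intro x1 x2 y1 y2
    simp only [sh, Blk.Ab]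
    ring
  have hc : ∀ x1 x2 y1 y2 : R, (sh τ β).Ac x1 (x2 + τ * x1) y1 (y2 + τ * y1) = β.Ac x1 x2 y1 y2 := by
    intro x1 x2 y1 y2
    simp only [sh, Blk.Ac]
    ring
  obtain ⟨h1, h2, h3, h4⟩ := sh_inv τ β
  refine ⟨?_, ?_, ?_, ?_⟩
  · rw [h1]
    show _ - (sh τ β).Ab π.p1 (π.p2 + τ * π.p1) π.p1 (π.p2 + τ * π.p1) = u
    rw [hb]
    exact h.e1
  · rw [h1, h2]
    show _ = (sh τ β).Ac π.p1 (π.p2 + τ * π.p1) π.p1 (π.p2 + τ * π.p1) +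
      2 * (sh τ β).Ab π.p1 (π.p2 + τ * π.p1) π.q1 (π.q2 + τ * π.q1)
    rw [hb, hc]
    exact h.e2
  · rw [h2, h3]
    show _ = (sh τ β).Ab π.q1 (π.q2 + τ * π.q1) π.q1 (π.q2 + τ * π.q1) +
      2 * (sh τ β).Ac π.p1 (π.p2 + τ * π.p1) π.q1 (π.q2 + τ * π.q1)
    rw [hb, hc]
    exact h.e3
  · rw [h3]
    show _ - (sh τ β).Ac π.q1 (π.q2 + τ * π.q1) π.q1 (π.q2 + τ * π.q1) = v
    rw [hc]
    exact h.e4

variable (K : Type) [Field K] [NumberField K]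

theorem tau_cnt : ∃ c : ℝ, 0 < c ∧ ∀ r : ℝ, 1 ≤ r → ∃ T : Finset (𝓞 K), (∀ τ ∈ T, Bd r τ) ∧
    c * r ^ Module.finrank ℚ K ≤ T.card := by
  classical
  let ω := NumberField.RingOfIntegers.basis K
  let W : ℝ := 1 + ∑ i, ∑ φ : K →+* ℂ, ‖φ (ω i : K)‖
  have hW : 0 < W := by
    have : 0 ≤ ∑ i, ∑ φ : K →+* ℂ, ‖φ (ω i : K)‖ :=
      Finset.sum_nonneg fun i _ => Finset.sum_nonneg fun φ _ => norm_nonneg _
    show 0 < 1 + _
    linarith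
  have hWi : ∀ φ : K →+* ℂ, ∑ i, ‖φ (ω i : K)‖ ≤ W := by
    intro φ
    have h1 : ∑ i, ‖φ (ω i : K)‖ ≤ ∑ i, ∑ φ : K →+* ℂ, ‖φ (ω i : K)‖ :=
      Finset.sum_le_sum fun i _ => Finset.single_le_sum (f := fun φ : K →+* ℂ => ‖φ (ω i : K)‖)
        (fun φ _ => norm_nonneg _) (Finset.mem_univ φ)
    show _ ≤ 1 + _
    linarith
  refine ⟨(W⁻¹) ^ Module.finrank ℚ K, by positivity, fun r hr => ?_⟩
  obtain ⟨N, hN⟩ : ∃ N : ℕ, N = ⌊r / W⌋₊ := ⟨_, rfl⟩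
  have hrW : 0 ≤ r / W := by positivity
  have hN1 : (N : ℝ) ≤ r / W := by
    rw [hN]
    exact Nat.floor_le hrW
  have hN2 : r / W < (N : ℝ) + 1 := by
    rw [hN]
    exact Nat.lt_floor_add_one _
  let f : (Module.Free.ChooseBasisIndex ℤ (𝓞 K) → ℕ) → 𝓞 K := fun x =>
    ω.equivFun.symm (fun i => (x i : ℤ))
  have hf : Function.Injective f := by
    intro x y h
    have h1 := ω.equivFun.symm.injective h
    funext i
    exact_mod_cast congrFun h1 i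
  refine ⟨(Fintype.piFinset fun _ : Module.Free.ChooseBasisIndex ℤ (𝓞 K) =>
    Finset.range (N + 1)).image f, ?_, ?_⟩
  · intro τ hτ φ
    obtain ⟨x, hx, rfl⟩ := Finset.mem_image.1 hτ
    rw [Fintype.mem_piFinset] at hx
    let ψ : 𝓞 K →+* ℂ := φ.comp (algebraMap (𝓞 K) K)
    have h1 : φ (f x : K) = ∑ i, (x i : ℂ) * ψ (ω i) := by
      show ψ (f x) = _
      show ψ (ω.equivFun.symm (fun i => (x i : ℤ))) = _
      rw [Module.Basis.equivFun_symm_apply, map_sum]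
      refine Finset.sum_congr rfl fun i _ => ?_
      rw [zsmul_eq_mul, map_mul, map_intCast, Int.cast_natCast]
    rw [h1]
    calc ‖∑ i, (x i : ℂ) * ψ (ω i)‖ ≤ ∑ i, ‖(x i : ℂ) * ψ (ω i)‖ := norm_sum_le _ _
      _ ≤ ∑ i, (N : ℝ) * ‖φ (ω i : K)‖ := by
          refine Finset.sum_le_sum fun i _ => ?_
          rw [norm_mul, Complex.norm_natCast]
          refine mul_le_mul_of_nonneg_right ?_ (norm_nonneg _)
          have h2 := Finset.mem_range.1 (hx i)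
          exact_mod_cast Nat.lt_succ_iff.1 h2
      _ = N * ∑ i, ‖φ (ω i : K)‖ := by rw [Finset.mul_sum]
      _ ≤ (r / W) * W := by
          refine mul_le_mul hN1 (hWi φ) ?_ hrW
          exact Finset.sum_nonneg fun i _ => norm_nonneg _
      _ = r := div_mul_cancel₀ r hW.ne'
  · rw [Finset.card_image_of_injective _ hf, Fintype.card_piFinset]
    have h1 : (∏ _i : Module.Free.ChooseBasisIndex ℤ (𝓞 K), (Finset.range (N + 1)).card) =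
        (N + 1) ^ Module.finrank ℚ K := by
      rw [Finset.prod_const, Finset.card_univ, Finset.card_range,
        ← Module.finrank_eq_card_chooseBasisIndex, NumberField.RingOfIntegers.rank]
    rw [h1, ← mul_pow, Nat.cast_pow, Nat.cast_add, Nat.cast_one]
    refine pow_le_pow_left₀ (by positivity) ?_ _
    rw [inv_mul_eq_div]
    exact hN2.le

variable {K}

private theorem bdm {H H' : ℝ} (h : H ≤ H') {x : 𝓞 K} (hx : Bd H x) : Bd H' x :=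
  fun φ => (hx φ).trans h

private theorem bda {H H' : ℝ} {x y : 𝓞 K} (hx : Bd H x) (hy : Bd H' y) : Bd (H + H') (x + y) :=
  fun φ => (sz_add φ x y).trans (add_le_add (hx φ) (hy φ))

private theorem bdu {H H' : ℝ} {x y : 𝓞 K} (hx : Bd H x) (hy : Bd H' y) : Bd (H * H') (x * y) := by
  intro φ
  show sz φ (x * y) ≤ _
  rw [sz_mul]
  exact mul_le_mul (hx φ) (hy φ) (sz_nonneg φ y) ((sz_nonneg φ x).trans (hx φ))

private theorem bd2 : Bd 2 (2 : 𝓞 K) := fun φ => (sz_two φ).le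

private theorem emb (x : 𝓞 K) (hx : x ≠ 0) : ∃ φ : K →+* ℂ, 1 ≤ ‖φ (x : K)‖ := by
  by_contra hcon
  push Not at hcon
  have h1 := one_le_nm K x hx
  have hx0 : (x : K) ≠ 0 := fun h => hx (by exact_mod_cast h)
  have h2 : nm (x : K) < ∏ _φ : K →+* ℂ, (1 : ℝ) := by
    unfold nm
    refine Finset.prod_lt_prod_of_nonempty (fun φ _ => ?_) (fun φ _ => hcon φ) Finset.univ_nonempty
    rw [norm_pos_iff, Ne, map_eq_zero]
    exact hx0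
  rw [Finset.prod_const_one] at h2
  linarith

/-- the sizes of the entries after the change of basis -/
private theorem sh_sz {C s t ρ1 ρ2 : ℝ} (hC : 0 ≤ C) (hs : 0 ≤ s) (ht : 0 ≤ t) (h0 : 0 < ρ1)
    (h12 : ρ1 ≤ ρ2) {τ : 𝓞 K} (hτ : Bd (ρ2 / ρ1) τ) {β : Blk (𝓞 K)} (h : Sz C s t ρ1 ρ2 β) :
    Sz (4 * C) s t ρ1 ρ2 (sh τ β) := by
  have h2 : 0 < ρ2 := h0.trans_le h12
  have key : ∀ (w : ℝ), 0 ≤ w → ∀ x1 x2 x3 : 𝓞 K, Bd (C * w * ρ1 ^ 2) x1 →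
      Bd (C * w * (ρ1 * ρ2)) x2 → Bd (C * w * ρ2 ^ 2) x3 →
      Bd (4 * C * w * ρ1 ^ 2) x1 ∧ Bd (4 * C * w * (ρ1 * ρ2)) (x2 + τ * x1) ∧
        Bd (4 * C * w * ρ2 ^ 2) (x3 + 2 * τ * x2 + τ ^ 2 * x1) := by
    intro w hw x1 x2 x3 hx1 hx2 hx3
    have hCw : 0 ≤ C * w := mul_nonneg hC hw
    have hp1 : 0 ≤ C * w * ρ1 ^ 2 := by positivity
    have hp2 : 0 ≤ C * w * (ρ1 * ρ2) := by positivity
    have hp3 : 0 ≤ C * w * ρ2 ^ 2 := by positivity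
    refine ⟨bdm (by nlinarith) hx1, bdm ?_ (bda hx2 (bdu hτ hx1)), bdm ?_
      (bda (bda hx3 (bdu (bdu bd2 hτ) hx2)) (bdu (H := (ρ2 / ρ1) ^ 2) ?_ hx1))⟩
    · have h3 : ρ2 / ρ1 * (C * w * ρ1 ^ 2) = C * w * (ρ1 * ρ2) := by
        field_simp
      rw [h3]
      linarith
    · have h3 : 2 * (ρ2 / ρ1) * (C * w * (ρ1 * ρ2)) = 2 * (C * w * ρ2 ^ 2) := by
        field_simp
      have h4 : (ρ2 / ρ1) ^ 2 * (C * w * ρ1 ^ 2) = C * w * ρ2 ^ 2 := by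
        field_simp
      rw [h3, h4]
      linarith
    · rw [sq, sq]
      exact bdu hτ hτ
  obtain ⟨a1, a2, a3⟩ := key s hs _ _ _ h.sb1 h.sb2 h.sb3
  obtain ⟨c1, c2, c3⟩ := key t ht _ _ _ h.sc1 h.sc2 h.sc3
  exact ⟨a1, a2, a3, c1, c2, c3⟩

/-- the numerical bounds -/
private theorem numb {C s t ρ1 ρ2 : ℝ} (hC : 1 ≤ C) (hR : Rg C s t) (hρ : Rho C ρ1 ρ2)
    {β : Blk (𝓞 K)} (hM : Main C s t ρ1 ρ2 β) :
    0 < t ∧ 0 < s ∧ s * ρ2 ^ 2 ≤ C ^ 3 * s ^ 2 ∧ ρ2 / ρ1 ≤ C ^ 2 * s := by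
  obtain ⟨h0, h12, h1C, h122⟩ := hρ
  obtain ⟨hR1, hR2⟩ := hR
  have hC0 : 0 < C := by linarith
  have ht : 0 < t := by
    by_contra h
    have : C * t ≤ 0 := mul_nonpos_of_nonneg_of_nonpos hC0.le (not_lt.1 h)
    linarith
  have hs : 0 < s := ht.trans_le hR2
  have h2 : 0 < ρ2 := h0.trans_le h12
  have h1 : 1 ≤ C * s * ρ1 ^ 2 := by
    by_cases hb : β.b1 = 0
    · have hc : β.c1 ≠ 0 := fun h => hM.2.1 ⟨hb, h⟩
      obtain ⟨φ, hφ⟩ := emb _ hc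
      have h3 := hM.1.sc1 φ
      have h4 : C * t * ρ1 ^ 2 ≤ C * s * ρ1 ^ 2 := by gcongr
      linarith
    · obtain ⟨φ, hφ⟩ := emb _ hb
      exact hφ.trans (hM.1.sb1 φ)
  have h3 : ρ1⁻¹ ≤ C * s * ρ1 := by
    rw [inv_le_iff_one_le_mul₀ h0]
    calc (1 : ℝ) ≤ C * s * ρ1 ^ 2 := h1
      _ = C * s * ρ1 * ρ1 := by ring
  have h4 : ρ1⁻¹ ≤ C ^ 2 * s := by
    refine h3.trans ?_
    have : C * s * ρ1 ≤ C * s * C := mul_le_mul_of_nonneg_left h1C (by positivity)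
    calc C * s * ρ1 ≤ C * s * C := this
      _ = C ^ 2 * s := by ring
  have h5 : ρ2 ^ 2 ≤ C ^ 3 * s := by
    have h6 : ρ2 ^ 2 = ρ1⁻¹ * (ρ1 * ρ2 ^ 2) := by
      field_simp
    rw [h6]
    calc ρ1⁻¹ * (ρ1 * ρ2 ^ 2) ≤ (C ^ 2 * s) * C :=
          mul_le_mul h4 h122 (by positivity) (by positivity)
      _ = C ^ 3 * s := by ring
  refine ⟨ht, hs, ?_, ?_⟩
  · calc s * ρ2 ^ 2 ≤ s * (C ^ 3 * s) := mul_le_mul_of_nonneg_left h5 hs.le
      _ = C ^ 3 * s ^ 2 := by ring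
  · have h6 : (ρ2 / ρ1) ^ 2 ≤ (C ^ 2 * s) ^ 2 := by
      have h7 : (ρ1⁻¹) ^ 2 ≤ C * s := by
        have h8 : (ρ1⁻¹) ^ 2 * 1 ≤ (ρ1⁻¹) ^ 2 * (C * s * ρ1 ^ 2) :=
          mul_le_mul_of_nonneg_left h1 (by positivity)
        have h9 : (ρ1⁻¹) ^ 2 * (C * s * ρ1 ^ 2) = C * s := by
          field_simp
        rw [mul_one, h9] at h8
        exact h8
      calc (ρ2 / ρ1) ^ 2 = ρ2 ^ 2 * (ρ1⁻¹) ^ 2 := by rw [div_eq_mul_inv, mul_pow]
        _ ≤ (C ^ 3 * s) * (C * s) := mul_le_mul h5 h7 (by positivity) (by positivity)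
        _ = (C ^ 2 * s) ^ 2 := by ring
    exact (pow_le_pow_iff_left₀ (by positivity) (by positivity) two_ne_zero).1 h6

private theorem adm_mono {M : ℕ} {C C' s t : ℝ} (h : C ≤ C') (hs : 0 ≤ s) (ht : 0 ≤ t) {u v : 𝓞 K}
    (hA : Adm M C s t u v) : Adm M C' s t u v := by
  refine ⟨hA.u0, hA.v0, fun φ => (hA.ule φ).trans ?_, fun φ => (hA.uge φ).trans ?_,
    fun φ => (hA.vle φ).trans ?_, fun φ => (hA.vge φ).trans ?_, hA.squ, hA.sqv, hA.cop⟩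
  · exact mul_le_mul_of_nonneg_right h (by positivity)
  · exact mul_le_mul_of_nonneg_right h (norm_nonneg _)
  · exact mul_le_mul_of_nonneg_right h (by positivity)
  · exact mul_le_mul_of_nonneg_right h (norm_nonneg _)

/-- the conditions on the transformed elements -/
private theorem sh_ok {M : ℕ} {C s t ρ1 ρ2 : ℝ} {A : ℕ} (hC : 1 ≤ C) (hR : Rg C s t)
    (hρ : Rho C ρ1 ρ2) {τ : 𝓞 K} (hτ : Bd (ρ2 / ρ1) τ) {u v : 𝓞 K} {β : Blk (𝓞 K)}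
    (h : Adm M C s t u v ∧ Main C s t ρ1 ρ2 β ∧ β.All (Bd (Hp C A s)) ∧ Rep (Hp C A s) β u v) :
    Adm M (4 * C) s t u v ∧ Main (4 * C) s t ρ1 ρ2 (sh τ β) ∧
      (sh τ β).All (Bd (Hp (4 * C) (A + 4) s)) ∧ Rep (Hp (4 * C) (A + 4) s) (sh τ β) u v := by
  obtain ⟨hA, hM, hAll, π, r, r', hπ, hsol⟩ := h
  obtain ⟨ht, hs, hn1, hn2⟩ := numb hC hR hρ hM
  obtain ⟨h0, h12, h1C, h122⟩ := hρ
  have h2 : 0 < ρ2 := h0.trans_le h12
  have hC0 : 0 < C := by linarith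
  have hts : t ≤ s := hR.2
  have hsz := sh_sz hC0.le hs.le ht.le h0 h12 hτ hM.1
  obtain ⟨i1, i2, i3, i4⟩ := sh_inv τ β
  have hbase : 1 ≤ 4 * C * (1 + s) := by nlinarith
  have hbase0 : 0 ≤ 4 * C * (1 + s) := by linarith
  have hpow : (4 * C * (1 + s)) ^ 4 ≤ Hp (4 * C) (A + 4) s := by
    unfold Hp
    exact pow_le_pow_right₀ hbase (by omega)
  have hq : ∀ w ρ : ℝ, w ≤ s → ρ ≤ ρ2 ^ 2 → 0 ≤ ρ → 4 * C * w * ρ ≤ Hp (4 * C) (A + 4) s := by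
    intro w ρ hw hρ hρ0
    refine le_trans ?_ hpow
    calc 4 * C * w * ρ ≤ 4 * C * s * ρ := by gcongr
      _ ≤ 4 * C * s * ρ2 ^ 2 := by gcongr
      _ = 4 * C * (s * ρ2 ^ 2) := by ring
      _ ≤ 4 * C * (C ^ 3 * s ^ 2) := by gcongr
      _ = 4 * C ^ 4 * s ^ 2 := by ring
      _ ≤ 4 * C ^ 4 * (1 + s) ^ 4 := by
          have h3 : s ^ 2 ≤ (1 + s) ^ 4 := by
            have h4 : s ^ 2 ≤ (1 + s) ^ 2 := pow_le_pow_left₀ hs.le (by linarith) 2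
            have h5 : (1 + s) ^ 2 ≤ (1 + s) ^ 4 := pow_le_pow_right₀ (by linarith) (by norm_num)
            exact h4.trans h5
          gcongr
      _ ≤ (4 * C * (1 + s)) ^ 4 := by
          have h3 : 0 ≤ C ^ 4 * (1 + s) ^ 4 := by positivity
          calc 4 * C ^ 4 * (1 + s) ^ 4 ≤ 256 * (C ^ 4 * (1 + s) ^ 4) := by linarith
            _ = (4 * C * (1 + s)) ^ 4 := by ring
  have r1 : ρ1 ^ 2 ≤ ρ2 ^ 2 := by gcongr
  have r2 : ρ1 * ρ2 ≤ ρ2 ^ 2 := by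
    rw [sq]
    gcongr
  refine ⟨adm_mono (by linarith) hs.le ht.le hA, ⟨hsz, ?_, ?_, ?_, ?_⟩, ?_, ?_⟩
  · exact hM.2.1
  · rw [i1]
    exact hM.2.2.1
  · rw [i3]
    exact hM.2.2.2.1
  · rw [i4]
    exact hM.2.2.2.2
  · exact ⟨bdm (hq s _ le_rfl r1 (by positivity)) hsz.sb1,
      bdm (hq s _ le_rfl r2 (by positivity)) hsz.sb2,
      bdm (hq s _ le_rfl le_rfl (by positivity)) hsz.sb3,
      bdm (hq t _ hts r1 (by positivity)) hsz.sc1,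
      bdm (hq t _ hts r2 (by positivity)) hsz.sc2,
      bdm (hq t _ hts le_rfl (by positivity)) hsz.sc3⟩
  · have hH0 : 0 ≤ Hp C A s := by
      unfold Hp
      positivity
    have hH1 : Hp C A s ≤ (4 * C * (1 + s)) ^ A := by
      unfold Hp
      refine pow_le_pow_left₀ (by positivity) ?_ _
      have : 0 ≤ C * (1 + s) := by positivity
      linarith
    have hH2 : Hp C A s ≤ Hp (4 * C) (A + 4) s := by
      refine hH1.trans ?_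
      unfold Hp
      exact pow_le_pow_right₀ hbase (by omega)
    have hr0 : 0 ≤ ρ2 / ρ1 := by positivity
    have hH3 : Hp C A s + ρ2 / ρ1 * Hp C A s ≤ Hp (4 * C) (A + 4) s := by
      have h3 : 1 + ρ2 / ρ1 ≤ (4 * C * (1 + s)) ^ 4 := by
        have h4 : 1 + C ^ 2 * s ≤ (4 * C * (1 + s)) ^ 2 := by
          have h5 : (4 * C * (1 + s)) ^ 2 = 16 * C ^ 2 + 32 * (C ^ 2 * s) + 16 * (C ^ 2 * s ^ 2) := by
            ring
          have h6 : 1 ≤ C ^ 2 := one_le_pow₀ hC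
          have h7 : 0 ≤ C ^ 2 * s := by positivity
          have h8 : 0 ≤ C ^ 2 * s ^ 2 := by positivity
          rw [h5]
          linarith
        have h5 : (4 * C * (1 + s)) ^ 2 ≤ (4 * C * (1 + s)) ^ 4 :=
          pow_le_pow_right₀ hbase (by norm_num)
        linarith
      calc Hp C A s + ρ2 / ρ1 * Hp C A s = (1 + ρ2 / ρ1) * Hp C A s := by ring
        _ ≤ (4 * C * (1 + s)) ^ 4 * (4 * C * (1 + s)) ^ A :=
            mul_le_mul h3 hH1 hH0 (by positivity)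
        _ = Hp (4 * C) (A + 4) s := by
            unfold Hp
            rw [← pow_add, add_comm 4 A]
    exact ⟨shr τ π, r, r', ⟨bdm hH2 hπ.1, bdm hH3 (bda hπ.2.1 (bdu hτ hπ.1)), bdm hH2 hπ.2.2.1,
      bdm hH3 (bda hπ.2.2.2 (bdu hτ hπ.2.2.1))⟩, sh_sol τ β π r r' u v hsol⟩

variable (K)

theorem main_of (h : BlkStmt K) : Main2Stmt K := by
  classical
  intro M hM C hC A
  obtain ⟨C1, κ, hC1, hκ, hblk⟩ := h M hM (4 * C) (by linarith) (A + 4)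
  obtain ⟨c, hc, htau⟩ := tau_cnt K
  refine ⟨C1 / c, κ, by positivity, hκ, fun s t ρ1 ρ2 hR hρ S hInj hS => ?_⟩
  have hC0 : 0 < C := by linarith
  have ht : 0 < t := by
    by_contra h
    have : C * t ≤ 0 := mul_nonpos_of_nonneg_of_nonpos hC0.le (not_lt.1 h)
    linarith [hR.1]
  have hs : 0 < s := ht.trans_le hR.2
  have h0 : 0 < ρ1 := hρ.1
  have h12 : ρ1 ≤ ρ2 := hρ.2.1
  have h2 : 0 < ρ2 := h0.trans_le h12
  have hr : 1 ≤ ρ2 / ρ1 := by rwa [le_div_iff₀ h0, one_mul]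
  have hr0 : 0 < ρ2 / ρ1 := by linarith
  obtain ⟨T, hT, hTc⟩ := htau (ρ2 / ρ1) hr
  let g : (𝓞 K × 𝓞 K × Blk (𝓞 K)) × 𝓞 K → 𝓞 K × 𝓞 K × Blk (𝓞 K) := fun z =>
    (z.1.1, z.1.2.1, sh z.2 z.1.2.2)
  have hg : Set.InjOn g ((S ×ˢ T : Finset _) : Set ((𝓞 K × 𝓞 K × Blk (𝓞 K)) × 𝓞 K)) := by
    rintro ⟨⟨u, v, β⟩, τ⟩ hx ⟨⟨u', v', β'⟩, τ'⟩ hy hxy
    rw [Finset.mem_coe, Finset.mem_product] at hx hy
    have e1 : u = u' := congrArg (fun z => z.1) hxy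
    have e2 : v = v' := congrArg (fun z => z.2.1) hxy
    have e3 : sh τ β = sh τ' β' := congrArg (fun z => z.2.2) hxy
    obtain ⟨a1, a2, a3, _⟩ := sh_inv τ β
    obtain ⟨b1, b2, b3, _⟩ := sh_inv τ' β'
    have e4 := hInj _ hx.1 _ hy.1 e1 e2 (by rw [← a1, ← b1, e3]) (by rw [← a2, ← b2, e3])
      (by rw [← a3, ← b3, e3])
    have e5 : β = β' := congrArg (fun z => z.2.2) e4
    subst e1 e2 e5
    have hm := (hS _ hx.1).2.1.2.1
    have e6 : τ * β.b1 = τ' * β.b1 := by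
      have := congrArg Blk.b2 e3
      exact add_left_cancel this
    have e7 : τ * β.c1 = τ' * β.c1 := by
      have := congrArg Blk.c2 e3
      exact add_left_cancel this
    have e8 : τ = τ' := by
      by_cases hb : β.b1 = 0
      · have hc1 : β.c1 ≠ 0 := fun h => hm ⟨hb, h⟩
        exact mul_right_cancel₀ hc1 e7
      · exact mul_right_cancel₀ hb e6
    rw [e8]
  obtain ⟨k1, k2⟩ := hblk s t ρ1 ρ2
    ⟨by have := hR.1; nlinarith, hR.2⟩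
    ⟨hρ.1, hρ.2.1, by have := hρ.2.2.1; linarith, by have := hρ.2.2.2; linarith⟩
    ((S ×ˢ T).image g) (by
      intro x hx
      obtain ⟨⟨⟨u, v, β⟩, τ⟩, hz, rfl⟩ := Finset.mem_image.1 hx
      rw [Finset.mem_product] at hz
      exact sh_ok hC hR hρ (hT τ hz.2) (hS _ hz.1))
  rw [Finset.card_image_of_injOn hg, Finset.card_product, Nat.cast_mul] at k1 k2
  have hcr : 0 < c * (ρ2 / ρ1) ^ Module.finrank ℚ K := by positivity
  have fin : ∀ L : ℝ, (S.card : ℝ) * T.card ≤ C1 * (s * t) ^ (3 * Module.finrank ℚ K) *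
      (ρ2 / ρ1) ^ Module.finrank ℚ K * ρ1 ^ κ * L →
      (S.card : ℝ) ≤ C1 / c * (s * t) ^ (3 * Module.finrank ℚ K) * ρ1 ^ κ * L := by
    intro L hL
    have h3 : (S.card : ℝ) * (c * (ρ2 / ρ1) ^ Module.finrank ℚ K) ≤
        C1 * (s * t) ^ (3 * Module.finrank ℚ K) * (ρ2 / ρ1) ^ Module.finrank ℚ K * ρ1 ^ κ * L :=
      (mul_le_mul_of_nonneg_left hTc (Nat.cast_nonneg _)).trans hL
    rw [← le_div_iff₀ hcr] at h3
    refine h3.trans (le_of_eq ?_)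
    field_simp
  exact ⟨fin _ k1, fun hh => fin _ (k2 hh)⟩

end H88.WS
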