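import Pool.Agent.H88.WS.Ids

/-!
# [H88 WS NDC] `NdStmt` from `SwStmt` (W1#, MP_b39724)

PROOF. `θ = 4/5`, `lam = t^(-1/50)`, `d = [K : ℚ]`. For `c ∈ S`, `Ndg t c` gives `|dt c|_φ/t^2 ≥ t^(-1/50) = lam` for all `φ` (`t ≥ 1`), so `dt c ≠ 0`, `Wt (4/5) t c = Wl (4/5) t lam c`
(every `max` is its first entry) and `I = cn c ≠ ⊥` satisfies `ni I ≤ t^(d/50)`, `c ∈ I^3` (`cn_1`, `cn_2`, `cn_3`). Group `S` by `I = cn c` (a finite set of ideals):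
`∑_{c ∈ S} ni (cn c)^(9/5) Wt (4/5) t c = ∑_I ni(I)^(9/5) ∑_{c ∈ S, cn c = I} Wl (4/5) t lam c ≤ ∑_I ni(I)^(9/5) C1 t^(3d) (ρ1 ρ2)^(7d/5) (ni I)⁻¹^3` by `SwStmt`
(with `s := t`, `θ = 4/5`, a constant `C9 ≥ C` with `ρ2 ≤ C9 t^(1/100)`: `ρ2^2 ≤ C/ρ1 ≤ C t^(1/200)`; `ρ1 ≥ t^(-1/200) ≥ t^(-1/100)`; `Bx` monotone in `C`; `h = I`).
`ni(I)^(9/5 - 3) = ni(I)^(-6/5)` and `∑_I ni(I)^(-6/5) ≤ C2` (`ids_conv`, `a = 6/5`).
-/

open scoped NumberField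
open H88.A4 Pool.Agent.H67.WA

noncomputable section

namespace H88.WS

variable (K : Type) [Field K] [NumberField K]

variable {K} in
private theorem dt_ne {t : ℝ} (ht : 1 ≤ t) {c : T3 K} (hc : Ndg t c) : dt c ≠ 0 := by
  intro h0
  obtain ⟨φ⟩ : Nonempty (K →+* ℂ) := inferInstance
  have h1 := hc.1 φ
  rw [h0, sz_zero] at h1
  have h2 : 0 < t ^ (2 - 1 / 50 : ℝ) := Real.rpow_pos_of_pos (by linarith) _
  linarith

variable {K} in
private theorem wt_eq {t : ℝ} (ht : 1 ≤ t) {c : T3 K} (hc : Ndg t c) :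
    Wt (4 / 5) t c = Wl (4 / 5) t (t ^ (-(1 / 50) : ℝ)) c := by
  unfold Wt Wl
  refine Finset.prod_congr rfl fun φ _ => ?_
  have h0 : 0 < t := by linarith
  have h1 : t ^ (-(1 / 50) : ℝ) ≤ sz φ (dt c) / t ^ 2 := by
    rw [le_div_iff₀ (by positivity), ← Real.rpow_natCast t 2, ← Real.rpow_add h0]
    have h2 := hc.1 φ
    have h3 : (-(1 / 50) + ((2 : ℕ) : ℝ) : ℝ) = 2 - 1 / 50 := by
      push_cast
      ring
    rw [h3]
    exact h2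
  rw [max_eq_left h1]

theorem nd_of (h : SwStmt K) : NdStmt K := by
  classical
  intro C hC
  obtain ⟨C1, hC1, H1⟩ := h (4 / 5) (by norm_num) (by norm_num) C hC
  obtain ⟨C2, hC2, H2⟩ := ids_conv K (6 / 5) (by norm_num)
  refine ⟨C1 * C2, mul_pos hC1 hC2, ?_⟩
  intro t ρ1 ρ2 ht hR hρ S hS
  obtain ⟨hr0, hr1, hr2, hr3⟩ := hR
  have h0 : 0 < t := by linarith
  have hρ2 : 0 < ρ2 := lt_of_lt_of_le hr0 hr1
  have ha : t ^ (-(1 / 100) : ℝ) ≤ ρ1 :=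
    (Real.rpow_le_rpow_of_exponent_le ht (by norm_num)).trans hρ
  have hb : ρ2 ≤ C * t ^ (1 / 100 : ℝ) := by
    have h1 : ρ2 ^ 2 ≤ C * t ^ (1 / 200 : ℝ) := by
      have h2 : t ^ (-(1 / 200) : ℝ) * ρ2 ^ 2 ≤ C := (mul_le_mul_of_nonneg_right hρ (by positivity)).trans hr3
      have h3 : 0 < t ^ (1 / 200 : ℝ) := Real.rpow_pos_of_pos h0 _
      have h4 : t ^ (1 / 200 : ℝ) * t ^ (-(1 / 200) : ℝ) = 1 := by
        rw [← Real.rpow_add h0]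
        norm_num
      calc ρ2 ^ 2 = t ^ (1 / 200 : ℝ) * (t ^ (-(1 / 200) : ℝ) * ρ2 ^ 2) := by rw [← mul_assoc, h4, one_mul]
        _ ≤ t ^ (1 / 200 : ℝ) * C := mul_le_mul_of_nonneg_left h2 h3.le
        _ = C * t ^ (1 / 200 : ℝ) := mul_comm _ _
    have h5 : ρ2 ^ 2 ≤ (C * t ^ (1 / 100 : ℝ)) ^ 2 := by
      refine h1.trans ?_
      have h6 : t ^ (1 / 200 : ℝ) ≤ (t ^ (1 / 100 : ℝ)) ^ 2 := by
        rw [← Real.rpow_natCast, ← Real.rpow_mul h0.le]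
        exact Real.rpow_le_rpow_of_exponent_le ht (by norm_num)
      have h7 : C ≤ C ^ 2 := by nlinarith
      rw [mul_pow]
      exact mul_le_mul h7 h6 (Real.rpow_nonneg h0.le _) (by positivity)
    have h8 : 0 ≤ C * t ^ (1 / 100 : ℝ) := mul_nonneg (by linarith) (Real.rpow_nonneg h0.le _)
    exact (pow_le_pow_iff_left₀ hρ2.le h8 two_ne_zero).1 h5
  have hl1 : t ^ (-(1 / 50) : ℝ) ≤ 1 := Real.rpow_le_one_of_one_le_of_nonpos ht (by norm_num)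
  have hB : 0 ≤ C1 * t ^ (3 * Module.finrank ℚ K) * (ρ1 * ρ2) ^ (7 / 5 * (Module.finrank ℚ K : ℝ)) :=
    mul_nonneg (mul_nonneg hC1.le (by positivity)) (Real.rpow_nonneg (by positivity) _)
  rw [← Finset.sum_fiberwise_of_maps_to (s := S) (t := S.image cn) (g := cn)
    (fun c hc => Finset.mem_image_of_mem cn hc)]
  have hI : ∀ I ∈ S.image cn, ∃ c ∈ S, cn c = I := fun I hI => Finset.mem_image.1 hI
  have hne : ∀ I ∈ S.image cn, I ≠ ⊥ := by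
    intro I hI'
    obtain ⟨c, hc, rfl⟩ := hI I hI'
    exact cn_ne (dt_ne ht (hS c hc).2)
  have key : ∀ I ∈ S.image cn, ∑ c ∈ S with cn c = I, ni (cn c) ^ (9 / 5 : ℝ) * Wt (4 / 5) t c ≤
      C1 * t ^ (3 * Module.finrank ℚ K) * (ρ1 * ρ2) ^ (7 / 5 * (Module.finrank ℚ K : ℝ)) *
        ni I ^ (-(6 / 5) : ℝ) := by
    intro I hI'
    have hn1 : 1 ≤ ni I := one_le_ni (hne I hI')
    have hn0 : 0 < ni I := by linarith
    obtain ⟨c0, hc0, hc0I⟩ := hI I hI'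
    have h3 := H1 t ρ1 ρ2 (t ^ (-(1 / 50) : ℝ)) ht ha hr1 hb le_rfl hl1 I (hne I hI')
      (by rw [← hc0I]; exact (hS c0 hc0).2.2) (S.filter fun c => cn c = I) (by
        intro b hb'
        rw [Finset.mem_filter] at hb'
        refine ⟨(hS b hb'.1).1, ?_, ?_, ?_⟩
        · rw [← hb'.2]
          exact cn_1 b
        · rw [← hb'.2]
          exact cn_2 b
        · rw [← hb'.2]
          exact cn_3 b)
    have h4 : ∑ c ∈ S with cn c = I, ni (cn c) ^ (9 / 5 : ℝ) * Wt (4 / 5) t c =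
        ni I ^ (9 / 5 : ℝ) * ∑ c ∈ S with cn c = I, Wl (4 / 5) t (t ^ (-(1 / 50) : ℝ)) c := by
      rw [Finset.mul_sum]
      refine Finset.sum_congr rfl fun c hc => ?_
      rw [Finset.mem_filter] at hc
      rw [hc.2, wt_eq ht (hS c hc.1).2]
    have h5 : (3 - 2 * (4 / 5) : ℝ) * (Module.finrank ℚ K : ℝ) = 7 / 5 * (Module.finrank ℚ K : ℝ) := by ring
    rw [h5] at h3
    rw [h4]
    refine (mul_le_mul_of_nonneg_left h3 (Real.rpow_nonneg hn0.le _)).trans (le_of_eq ?_)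
    have h6 : ni I ^ (9 / 5 : ℝ) * (ni I)⁻¹ ^ 3 = ni I ^ (-(6 / 5) : ℝ) := by
      have h7 : (ni I)⁻¹ ^ 3 = ni I ^ (-3 : ℝ) := by
        rw [Real.rpow_neg hn0.le, inv_pow]
        congr 1
        rw [← Real.rpow_natCast]
        norm_num
      rw [h7, ← Real.rpow_add hn0]
      norm_num
    rw [← h6]
    ring
  refine (Finset.sum_le_sum key).trans ?_
  rw [← Finset.mul_sum]
  refine (mul_le_mul_of_nonneg_left (H2 (S.image cn) hne) hB).trans (le_of_eq ?_)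
  ring

end H88.WS
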