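import Pool.Agent.H88.WS.Fs
import Pool.Agent.H88.A4.CSum
import Pool.Agent.H48.T3.Defs

/-!
# [H88 WS SM] `CoreSharp K` from the fixed size counts (W1#, MP_b39724)

PROOF. (1) `fixed2_all`: copy `fixed_size_all` of `H88/A4/CSwp.lean` (its private lemmas `swp_*` may be copied), with `fixed2` instead of `fixed_size`: if `t ≤ s` this is `fixed2` (`max s t = s`, `min s t = t`), if `s < t` exchange `u` and `v`.
(2) `core_sharp`: copy `core_of` of `H88/A4/CSum.lean`: for `(u, v, a)` in `S` let `i = ⌊log₂ sz u⌋`, `j = ⌊log₂ sz v⌋`; `Adm M₁ (8 C₁) (2^i) (2^j) u v`, `M₁ = M ^ M`; `(2^i 2^j)^(3d) ≤ R` for every nonempty class. Let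
`N = ⌊log₂ R / (3 d)⌋₊` (natural): `i + j ≤ N` for every nonempty class and `2^(3 d N) ≤ R`. With `n = i + j` and `s = 2^(max i j)`, `t = 2^(min i j)`, `L = log (2 + s) ≤ log (3 · 2^n) ≤ 2 (1 + n)`:
a class `(i, j)` has at most `C' 2^(3 d n) B(i, j)` elements, `B = L^(5/4)` always, `B = L^(7/8)` if `exp (√L) ≤ t`, i.e. if `√L ≤ min(i, j) log 2`. For fixed `n ≤ N` there are at most `n + 1` pairs, each with `B ≤ (2 (1 + N))^(7/8)` unless
`min (i, j) log 2 < √L ≤ √(2 (1 + N))`; the number of pairs with `min (i, j) < √(2 (1 + N))/log 2` is at most `2 (√(2 (1 + N))/log 2 + 1)`. So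
`∑_{i + j = n} B ≤ (n + 1) (2 (1 + N))^(7/8) + C (1 + N)^(1/2) (2 (1 + N))^(5/4) ≤ C'' (1 + N)^(15/8)` (`1/2 + 5/4 = 7/4 ≤ 15/8`). Sum over `n ≤ N`: `∑ 2^(3 d n) ≤ 2 · 2^(3 d N) ≤ 2 R`. Total
`S.card ≤ C''' R (1 + N)^(15/8) ≤ C'''' R (1 + log R)^(15/8)` (`N ≤ log₂ R`). `δ = 1/8`. (It is also fine to bound, for the sum over all `(i, j)` with `i + j ≤ N`, first the sum over `n` for fixed `min (i, j)`.)
-/

open scoped NumberField
open H88.A4 Pool.Agent.H67.WA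

noncomputable section

namespace H88.WS

open H38.ML H63.MA

variable (K : IntermediateField ℚ QBar) [NumberField K]

omit [NumberField K] in
private lemma int_ne (u : 𝓞 K) (hu : u ≠ 0) : (u : K) ≠ 0 := fun h => hu (by exact_mod_cast h)

private lemma swp_cub {F : Type} [Field F] [NumberField F] [Algebra K F] (u v : 𝓞 K) (hu : u ≠ 0)
    (hv : v ≠ 0) (t1 t2 a : F) (D : Dat F u v t1 t2 a) :
    t2 ^ 3 = algebraMap K F ((v : K) * (u : K) ^ 2) := by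
  have hinj := (algebraMap K F).injective
  have h1 : algebraMap K F ((u : K) * (v : K) ^ 2) ≠ 0 := by
    rw [Ne, map_eq_zero_iff _ hinj]
    exact mul_ne_zero (int_ne K u hu) (pow_ne_zero 2 (int_ne K v hv))
  have h2 : t1 ^ 3 * t2 ^ 3 = t1 ^ 3 * algebraMap K F ((v : K) * (u : K) ^ 2) := by
    have h3 : ((u : K) * (v : K)) ^ 3 = ((u : K) * (v : K) ^ 2) * ((v : K) * (u : K) ^ 2) := by ring
    rw [← mul_pow, D.prd, D.cub, ← map_pow, h3, map_mul]
  exact mul_left_cancel₀ (by rw [D.cub]; exact h1) h2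

private lemma swp_dat {F F' : IntermediateField K QBar} [NumberField F] [NumberField F'] (hF : F' = F)
    (u v : 𝓞 K) (hu : u ≠ 0) (hv : v ≠ 0) (t1 t2 a : F) (D : Dat F u v t1 t2 a) (z : K)
    (hz : z ^ 3 = 1) : ∃ t1' t2' a' : F', (t1' : QBar) = algebraMap K QBar z * (t2 : QBar) ∧
      (a' : QBar) = (a : QBar) ∧ Dat F' v u t1' t2' a' := by
  subst hF
  have hz0 : z ≠ 0 := by
    rintro rfl
    norm_num at hz
  have hinj := (algebraMap K F').injective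
  have hz1 : algebraMap K F' z ≠ 0 := by rwa [Ne, map_eq_zero_iff _ hinj]
  have hzz : algebraMap K F' z * algebraMap K F' z⁻¹ = 1 := by
    rw [← map_mul, mul_inv_cancel₀ hz0, map_one]
  have huv : algebraMap K F' ((u : K) * (v : K)) ≠ 0 := by
    rw [Ne, map_eq_zero_iff _ hinj]
    exact mul_ne_zero (int_ne K u hu) (int_ne K v hv)
  have ht2 : t2 ≠ 0 := by
    intro h
    have := D.prd
    rw [h, mul_zero] at this
    exact huv this.symm
  refine ⟨algebraMap K F' z * t2, algebraMap K F' z⁻¹ * t1, a, ?_, rfl, ⟨D.deg, ?_, ?_, ?_, D.a0, D.nsq,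
    D.isq⟩⟩
  · rw [MulMemClass.coe_mul]
    rfl
  · rw [← top_le_iff, ← D.gen, IntermediateField.adjoin_le_iff, Set.singleton_subset_iff]
    have h1 : algebraMap K F' z * t2 ∈ IntermediateField.adjoin K {algebraMap K F' z * t2} :=
      IntermediateField.subset_adjoin K _ (Set.mem_singleton _)
    have h2 : t1 = algebraMap K F' (z * ((u : K) * (v : K))) * (algebraMap K F' z * t2)⁻¹ := by
      rw [map_mul, ← D.prd]
      field_simp
    rw [SetLike.mem_coe, h2]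
    exact mul_mem (IntermediateField.algebraMap_mem _ _) (inv_mem h1)
  · rw [mul_pow, swp_cub K u v hu hv t1 t2 a D, ← map_pow, hz, map_one, one_mul]
  · rw [mul_mul_mul_comm, hzz, one_mul, mul_comm t2 t1, D.prd, mul_comm (u : K)]

private lemma swp_root (ζ : K) (hζ : IsPrimitiveRoot ζ 3) (x y : QBar) (hy : y ≠ 0)
    (h : x ^ 3 = y ^ 3) : ∃ z : K, z ^ 3 = 1 ∧ x = algebraMap K QBar z * y := by
  have h1 : (x / y) ^ 3 = 1 := by
    rw [div_pow, h, div_self (pow_ne_zero 3 hy)]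
  have h2 : IsPrimitiveRoot (algebraMap K QBar ζ) 3 :=
    hζ.map_of_injective (algebraMap K QBar).injective
  obtain ⟨i, -, hi⟩ := h2.eq_pow_of_pow_eq_one h1
  refine ⟨ζ ^ i, ?_, ?_⟩
  · rw [← pow_mul, mul_comm, pow_mul, hζ.pow_eq_one, one_pow]
  · rw [map_pow, hi, div_mul_cancel₀ _ hy]

private lemma swp_fld (ζ : K) (hζ : IsPrimitiveRoot ζ 3) (u v : 𝓞 K) (hu : u ≠ 0) (hv : v ≠ 0)
    (t1 t2 a : H38.WM.Fd K u v) (ht : (t1 : QBar) = H38.WM.rt K u v)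
    (D : Dat (H38.WM.Fd K u v) u v t1 t2 a) : H38.WM.Fd K v u = H38.WM.Fd K u v ∧
      ∃ z : K, z ^ 3 = 1 ∧ H38.WM.rt K v u = algebraMap K QBar z * (t2 : QBar) := by
  have hinj := (algebraMap K QBar).injective
  have hq : (t2 : QBar) ^ 3 = algebraMap K QBar ((v : K) * (u : K) ^ 2) := by
    have := congrArg (fun w : H38.WM.Fd K u v => (w : QBar)) (swp_cub K u v hu hv t1 t2 a D)
    exact this
  have hr : H38.WM.rt K v u ^ 3 = algebraMap K QBar ((v : K) * (u : K) ^ 2) := by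
    rw [H38.WM.rt_pow]
    congr 1
  have hp : (t1 : QBar) * (t2 : QBar) = algebraMap K QBar ((u : K) * (v : K)) := by
    have := congrArg (fun w : H38.WM.Fd K u v => (w : QBar)) D.prd
    exact this
  have h0 : algebraMap K QBar ((u : K) * (v : K)) ≠ 0 := by
    rw [Ne, map_eq_zero_iff _ hinj]
    exact mul_ne_zero (int_ne K u hu) (int_ne K v hv)
  have ht2 : (t2 : QBar) ≠ 0 := by
    intro h
    rw [h, mul_zero] at hp
    exact h0 hp.symm
  obtain ⟨z, hz, hzr⟩ := swp_root K ζ hζ _ _ ht2 (hr.trans hq.symm)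
  refine ⟨le_antisymm ?_ ?_, z, hz, hzr⟩
  · unfold H38.WM.Fd
    rw [IntermediateField.adjoin_le_iff, Set.singleton_subset_iff, SetLike.mem_coe, hzr]
    exact mul_mem (IntermediateField.algebraMap_mem _ _) t2.2
  · have h1 : H38.WM.rt K v u ∈ H38.WM.Fd K v u := by
      unfold H38.WM.Fd
      exact IntermediateField.subset_adjoin K _ (Set.mem_singleton _)
    have hz0 : algebraMap K QBar z ≠ 0 := by
      rw [Ne, map_eq_zero_iff _ hinj]
      rintro rfl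
      norm_num at hz
    have h2 : H38.WM.rt K u v =
        algebraMap K QBar (z * ((u : K) * (v : K))) * (H38.WM.rt K v u)⁻¹ := by
      rw [map_mul, ← hp, hzr, ← ht]
      field_simp
    have h3 : H38.WM.rt K u v ∈ H38.WM.Fd K v u := by
      rw [h2]
      exact mul_mem (IntermediateField.algebraMap_mem _ _) (inv_mem h1)
    show IntermediateField.adjoin K {H38.WM.rt K u v} ≤ _
    rw [IntermediateField.adjoin_le_iff, Set.singleton_subset_iff]
    exact h3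

theorem fixed2_all (ζ : K) (hζ : IsPrimitiveRoot ζ 3)
    (h1 : ReductionStmt K) (h2 : AllStmt K) (h3 : Deg2Stmt K) (h4 : EZ2Stmt K)
    (h5 : EZeroAlgStmt K) (M : ℕ) (hM : M ≠ 0) (C : ℝ) (hC : 1 ≤ C) :
    ∃ C' : ℝ, 0 < C' ∧ ∀ s t : ℝ, 1 ≤ C * s → 1 ≤ C * t → ∀ S : Finset (𝓞 K × 𝓞 K × QBar),
      (∀ x ∈ S, Adm M C s t x.1 x.2.1 ∧ ∃ t1 t2 a' : H38.WM.Fd K x.1 x.2.1,
        (t1 : QBar) = H38.WM.rt K x.1 x.2.1 ∧ (a' : QBar) = x.2.2 ∧
          Dat (H38.WM.Fd K x.1 x.2.1) x.1 x.2.1 t1 t2 a') →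
      (∀ u v a b, (u, v, a) ∈ S → (u, v, b) ∈ S →
        (∃ c ∈ H38.WM.Fd K u v, a = b * c ^ 2) → a = b) →
      (S.card : ℝ) ≤ C' * (s * t) ^ (3 * Module.finrank ℚ K) *
        Real.log (2 + max s t) ^ (5 / 4 : ℝ) ∧
      (Real.exp (Real.sqrt (Real.log (2 + max s t))) ≤ min s t →
        (S.card : ℝ) ≤ C' * (s * t) ^ (3 * Module.finrank ℚ K) *
          Real.log (2 + max s t) ^ (7 / 8 : ℝ)) := by
  classical
  obtain ⟨C', hC', hcount⟩ := fixed2 K h1 h2 h3 h4 h5 M hM C hC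
  refine ⟨C', hC', fun s t hs ht S hS hS2 => ?_⟩
  rcases le_total t s with hts | hst
  · rw [max_eq_left hts, min_eq_right hts]
    exact hcount s t ⟨ht, hts⟩ S hS hS2
  · rw [max_eq_right hst, min_eq_left hst]
    have hinj : Function.Injective (fun x : 𝓞 K × 𝓞 K × QBar => (x.2.1, x.1, x.2.2)) := by
      rintro ⟨a, b, c⟩ ⟨a', b', c'⟩ h
      simp only [Prod.mk.injEq] at h
      exact Prod.ext h.2.1 (Prod.ext h.1 h.2.2)
    have h6 := hcount t s ⟨hs, hst⟩ (S.image fun x => (x.2.1, x.1, x.2.2)) (by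
      intro x hx
      rw [Finset.mem_image] at hx
      obtain ⟨⟨u, v, a⟩, hx, rfl⟩ := hx
      obtain ⟨hA, t1, t2, a', e1, e2, D⟩ := hS _ hx
      simp only at hA e1 e2 D ⊢
      obtain ⟨hF, z, hz, hzr⟩ := swp_fld K ζ hζ u v hA.u0 hA.v0 t1 t2 a' e1 D
      obtain ⟨s1, s2, a2, f1, f2, D'⟩ := swp_dat K hF u v hA.u0 hA.v0 t1 t2 a' D z hz
      exact ⟨⟨hA.v0, hA.u0, hA.vle, hA.vge, hA.ule, hA.uge, hA.sqv, hA.squ, by
        rw [Set.pair_comm]
        exact hA.cop⟩, s1, s2, a2, by rw [f1, hzr], by rw [f2, e2], D'⟩) (by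
      intro v u a b ha hb hc
      rw [Finset.mem_image] at ha hb
      obtain ⟨⟨u1, v1, a1⟩, ha, e1⟩ := ha
      obtain ⟨⟨u2, v2, a2⟩, hb, e2⟩ := hb
      simp only [Prod.mk.injEq] at e1 e2
      obtain ⟨rfl, rfl, rfl⟩ := e1
      obtain ⟨rfl, rfl, rfl⟩ := e2
      obtain ⟨hA, t1, t2, a', e1, e2, D⟩ := hS _ ha
      simp only at hA e1 e2 D
      obtain ⟨hF, -⟩ := swp_fld K ζ hζ _ _ hA.u0 hA.v0 t1 t2 a' e1 D
      obtain ⟨c, hc, h⟩ := hc
      exact hS2 _ _ _ _ ha hb ⟨c, by rwa [← hF], h⟩)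
    rw [Finset.card_image_of_injective _ hinj, mul_comm t s] at h6
    exact h6

/-! ### the sum over the dyadic sizes -/

private theorem sm_geo {q : ℝ} (hq : 2 ≤ q) (k : ℕ) : ∑ j ∈ Finset.range (k + 1), q ^ j ≤ 2 * q ^ k := by
  induction k with
  | zero => norm_num
  | succ k ih =>
    rw [Finset.sum_range_succ]
    have h0 : 0 < q ^ k := by positivity
    have h1 : q ^ (k + 1) = q * q ^ k := by rw [pow_succ, mul_comm]
    nlinarith

/-- the pairs -/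
private def smT (N : ℕ) : Finset (ℕ × ℕ) :=
  (Finset.range (N + 1) ×ˢ Finset.range (N + 1)).filter fun x => x.1 + x.2 ≤ N

private theorem sm_one {q : ℝ} (hq : 2 ≤ q) (N : ℕ) {g : ℕ → ℝ} (hg : ∀ i, 0 ≤ g i) :
    ∑ x ∈ smT N, q ^ (x.1 + x.2) * g x.1 ≤ 2 * q ^ N * ∑ i ∈ Finset.range (N + 1), g i := by
  unfold smT
  rw [Finset.sum_filter, Finset.sum_product, Finset.mul_sum]
  refine Finset.sum_le_sum fun i hi => ?_
  have hi' : i ≤ N := by
    have := Finset.mem_range.1 hi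
    omega
  rw [← Finset.sum_filter]
  have h1 : (Finset.range (N + 1)).filter (fun j => i + j ≤ N) = Finset.range (N - i + 1) := by
    ext j
    rw [Finset.mem_filter, Finset.mem_range, Finset.mem_range]
    omega
  rw [h1]
  have h2 : ∑ j ∈ Finset.range (N - i + 1), q ^ (i + j) * g i =
      q ^ i * (∑ j ∈ Finset.range (N - i + 1), q ^ j) * g i := by
    rw [Finset.mul_sum, Finset.sum_mul]
    refine Finset.sum_congr rfl fun j _ => ?_
    rw [pow_add]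
  rw [h2]
  have h3 : q ^ i * (∑ j ∈ Finset.range (N - i + 1), q ^ j) ≤ 2 * q ^ N := by
    calc q ^ i * (∑ j ∈ Finset.range (N - i + 1), q ^ j) ≤ q ^ i * (2 * q ^ (N - i)) :=
          mul_le_mul_of_nonneg_left (sm_geo hq _) (by positivity)
      _ = 2 * (q ^ i * q ^ (N - i)) := by ring
      _ = 2 * q ^ N := by rw [← pow_add, Nat.add_sub_cancel' hi']
  exact mul_le_mul_of_nonneg_right h3 (hg i)

private theorem sm_two {q : ℝ} (hq : 2 ≤ q) (N : ℕ) {g : ℕ → ℝ} (hg : ∀ i, 0 ≤ g i) :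
    ∑ x ∈ smT N, q ^ (x.1 + x.2) * g x.2 ≤ 2 * q ^ N * ∑ i ∈ Finset.range (N + 1), g i := by
  refine le_trans (le_of_eq ?_) (sm_one hq N hg)
  refine Finset.sum_nbij' (fun x => (x.2, x.1)) (fun x => (x.2, x.1)) ?_ ?_ ?_ ?_ ?_
  · intro x hx
    unfold smT at hx ⊢
    simp only [Finset.mem_filter, Finset.mem_product, Finset.mem_range] at hx ⊢
    omega
  · intro x hx
    unfold smT at hx ⊢
    simp only [Finset.mem_filter, Finset.mem_product, Finset.mem_range] at hx ⊢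
    omega
  · intro x _
    rfl
  · intro x _
    rfl
  · intro x _
    show q ^ (x.1 + x.2) * g x.2 = q ^ (x.2 + x.1) * g x.2
    rw [add_comm]

private theorem sm_ind (N m : ℕ) : ∑ i ∈ Finset.range (N + 1), (if i < m then (1 : ℝ) else 0) ≤ m := by
  rw [← Finset.sum_filter, Finset.sum_const, nsmul_eq_mul, mul_one]
  have h1 : ((Finset.range (N + 1)).filter fun i => i < m) ⊆ Finset.range m := by
    intro i hi
    exact Finset.mem_range.2 (Finset.mem_filter.1 hi).2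
  have h2 := Finset.card_le_card h1
  rw [Finset.card_range] at h2
  exact_mod_cast h2

/-- the weight of a class -/
private def smB (Λ : ℝ) (m : ℕ) (i j : ℕ) : ℝ :=
  Λ ^ (7 / 8 : ℝ) + (if i < m then Λ ^ (5 / 4 : ℝ) else 0) + (if j < m then Λ ^ (5 / 4 : ℝ) else 0)

private theorem sm_total {q Λ : ℝ} (hq : 2 ≤ q) (N m : ℕ) (hΛ : Λ = 2 * (1 + N)) (hm : (m : ℝ) ≤ 3 * Real.sqrt Λ) :
    ∑ x ∈ smT N, q ^ (x.1 + x.2) * smB Λ m x.1 x.2 ≤ 14 * q ^ N * Λ ^ (15 / 8 : ℝ) := by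
  have hN0 : (0 : ℝ) ≤ N := Nat.cast_nonneg N
  have hΛ1 : 1 ≤ Λ := by rw [hΛ]; linarith
  have hΛ0 : 0 < Λ := by linarith
  have hq0 : 0 < q := by linarith
  obtain ⟨X, hX⟩ : ∃ X : ℝ, X = Λ ^ (7 / 8 : ℝ) := ⟨_, rfl⟩
  obtain ⟨Y, hY⟩ : ∃ Y : ℝ, Y = Λ ^ (5 / 4 : ℝ) := ⟨_, rfl⟩
  have hX0 : 0 ≤ X := by rw [hX]; positivity
  have hY0 : 0 ≤ Y := by rw [hY]; positivity
  have e1 : ∀ x ∈ smT N, q ^ (x.1 + x.2) * smB Λ m x.1 x.2 =
      X * (q ^ (x.1 + x.2) * (fun _ : ℕ => (1 : ℝ)) x.1) +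
      Y * (q ^ (x.1 + x.2) * (fun i : ℕ => if i < m then (1 : ℝ) else 0) x.1) +
      Y * (q ^ (x.1 + x.2) * (fun i : ℕ => if i < m then (1 : ℝ) else 0) x.2) := by
    intro x _
    unfold smB
    rw [← hX, ← hY]
    beta_reduce
    split_ifs <;> ring
  rw [Finset.sum_congr rfl e1, Finset.sum_add_distrib, Finset.sum_add_distrib, ← Finset.mul_sum,
    ← Finset.mul_sum, ← Finset.mul_sum]
  have i1 := sm_one hq N (g := fun _ : ℕ => (1 : ℝ)) fun _ => zero_le_one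
  have hg : ∀ i : ℕ, 0 ≤ (fun i : ℕ => if i < m then (1 : ℝ) else 0) i := by
    intro i
    beta_reduce
    split_ifs
    · exact zero_le_one
    · exact le_rfl
  have i2 := sm_one hq N hg
  have i3 := sm_two hq N hg
  have i4 := sm_ind N m
  have hqN : 0 < q ^ N := by positivity
  have i5 : ∑ _i ∈ Finset.range (N + 1), (1 : ℝ) ≤ Λ := by
    rw [Finset.sum_const, Finset.card_range, nsmul_eq_mul, mul_one, hΛ]
    push_cast
    linarith
  have j1 : Λ * X = Λ ^ (15 / 8 : ℝ) := by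
    rw [hX]
    nth_rewrite 1 [← Real.rpow_one Λ]
    rw [← Real.rpow_add hΛ0]
    norm_num
  have j2 : Real.sqrt Λ * Y ≤ Λ ^ (15 / 8 : ℝ) := by
    rw [hY, Real.sqrt_eq_rpow, ← Real.rpow_add hΛ0]
    exact Real.rpow_le_rpow_of_exponent_le hΛ1 (by norm_num)
  calc X * ∑ x ∈ smT N, q ^ (x.1 + x.2) * (fun _ : ℕ => (1 : ℝ)) x.1 +
      Y * ∑ x ∈ smT N, q ^ (x.1 + x.2) * (fun i : ℕ => if i < m then (1 : ℝ) else 0) x.1 +
      Y * ∑ x ∈ smT N, q ^ (x.1 + x.2) * (fun i : ℕ => if i < m then (1 : ℝ) else 0) x.2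
      ≤ X * (2 * q ^ N * ∑ _i ∈ Finset.range (N + 1), (1 : ℝ)) +
        Y * (2 * q ^ N * ∑ i ∈ Finset.range (N + 1), (if i < m then (1 : ℝ) else 0)) +
        Y * (2 * q ^ N * ∑ i ∈ Finset.range (N + 1), (if i < m then (1 : ℝ) else 0)) := by
        gcongr
    _ ≤ X * (2 * q ^ N * Λ) + Y * (2 * q ^ N * m) + Y * (2 * q ^ N * m) := by gcongr
    _ ≤ X * (2 * q ^ N * Λ) + Y * (2 * q ^ N * (3 * Real.sqrt Λ)) + Y * (2 * q ^ N * (3 * Real.sqrt Λ)) := by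
        gcongr
    _ = 2 * q ^ N * (Λ * X) + 12 * q ^ N * (Real.sqrt Λ * Y) := by ring
    _ ≤ 2 * q ^ N * Λ ^ (15 / 8 : ℝ) + 12 * q ^ N * Λ ^ (15 / 8 : ℝ) := by
        rw [j1]
        gcongr
    _ = 14 * q ^ N * Λ ^ (15 / 8 : ℝ) := by ring

private theorem sm_log {i j N : ℕ} (h : i + j ≤ N) :
    0 ≤ Real.log (2 + max ((2 : ℝ) ^ i) (2 ^ j)) ∧ Real.log (2 + max ((2 : ℝ) ^ i) (2 ^ j)) ≤ 2 * (1 + N) := by
  have h2i : (1 : ℝ) ≤ 2 ^ i := one_le_pow₀ (by norm_num)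
  have hmx : (1 : ℝ) ≤ max ((2 : ℝ) ^ i) (2 ^ j) := h2i.trans (le_max_left _ _)
  refine ⟨Real.log_nonneg (by linarith), ?_⟩
  have h1 : max ((2 : ℝ) ^ i) (2 ^ j) ≤ 2 ^ N :=
    max_le (pow_le_pow_right₀ (by norm_num) (by omega)) (pow_le_pow_right₀ (by norm_num) (by omega))
  have h2N : (1 : ℝ) ≤ 2 ^ N := one_le_pow₀ (by norm_num)
  have h3 : Real.log (2 + max ((2 : ℝ) ^ i) (2 ^ j)) ≤ Real.log (3 * 2 ^ N) :=
    Real.log_le_log (by linarith) (by linarith)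
  rw [Real.log_mul (by norm_num) (by positivity), Real.log_pow] at h3
  have h4 : Real.log 3 ≤ 2 := by
    have := Real.log_le_sub_one_of_pos (show (0 : ℝ) < 3 by norm_num)
    linarith
  have h5 : Real.log 2 ≤ 1 := by
    have := Real.log_le_sub_one_of_pos (show (0 : ℝ) < 2 by norm_num)
    linarith
  have h6 : (N : ℝ) * Real.log 2 ≤ N * 1 := mul_le_mul_of_nonneg_left h5 (Nat.cast_nonneg N)
  have h7 : (0 : ℝ) ≤ N := Nat.cast_nonneg N
  linarith

theorem core_sharp_of (ζ : K) (hζ : IsPrimitiveRoot ζ 3)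
    (h1 : ReductionStmt K) (h2 : AllStmt K) (h3 : Deg2Stmt K) (h4 : EZ2Stmt K)
    (h5 : EZeroAlgStmt K) : H48.T3.CoreSharp K := by
  classical
  intro M C₀ hM _
  have hdpos : 0 < Module.finrank ℚ K := Module.finrank_pos
  obtain ⟨C₁, hC₁⟩ : ∃ C₁ : ℝ, C₁ = max C₀ 1 := ⟨_, rfl⟩
  have hC1 : 1 ≤ C₁ := by
    rw [hC₁]
    exact le_max_right _ _
  obtain ⟨C', hC', hfs⟩ := fixed2_all K ζ hζ h1 h2 h3 h4 h5 (M ^ M) (pow_ne_zero _ hM)
    (8 * C₁) (by linarith)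
  have hl2 : 1 / 2 ≤ Real.log 2 := by
    have := Real.log_two_gt_d9
    linarith
  refine ⟨C' * (14 * 4 ^ (15 / 8 : ℝ)), 1 / 8, by norm_num, fun R hR S hS huniq => ?_⟩
  have hR0 : 0 < R := by linarith
  -- sizes
  have hsz : ∀ x ∈ S, 1 ≤ sz K x.1 ∧ 1 ≤ sz K x.2.1 ∧
      (sz K x.1 * sz K x.2.1) ^ (3 * Module.finrank ℚ K) ≤ R := by
    intro x hx
    obtain ⟨hadm, hN, -, -⟩ := hS x hx
    refine ⟨one_le_sz K _ hadm.u0, one_le_sz K _ hadm.v0, ?_⟩
    rw [mul_pow, sz_pow, sz_pow, ← nm_mul, ← map_mul]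
    have h6 : nm ((x.1 * x.2.1 : 𝓞 K) : K) =
        |((Algebra.norm ℤ (x.1 * x.2.1) : ℤ) : ℝ)| := by
      rw [nm_eq, Ideal.absNorm_span_singleton, Nat.cast_natAbs, Int.cast_abs]
    rw [h6]
    exact_mod_cast hN
  let f : 𝓞 K × 𝓞 K × QBar → ℕ × ℕ := fun x =>
    (Nat.log 2 ⌊sz K x.1⌋₊, Nat.log 2 ⌊sz K x.2.1⌋₊)
  obtain ⟨N, hN⟩ : ∃ N : ℕ, N = Nat.log 2 ⌊R⌋₊ / (3 * Module.finrank ℚ K) := ⟨_, rfl⟩
  obtain ⟨q, hq⟩ : ∃ q : ℝ, q = (2 : ℝ) ^ (3 * Module.finrank ℚ K) := ⟨_, rfl⟩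
  have hq2 : 2 ≤ q := by
    rw [hq]
    calc (2 : ℝ) = 2 ^ 1 := (pow_one 2).symm
      _ ≤ 2 ^ (3 * Module.finrank ℚ K) := pow_le_pow_right₀ (by norm_num) (by omega)
  have hfl : ⌊R⌋₊ ≠ 0 := by
    have : 1 ≤ ⌊R⌋₊ := Nat.le_floor (by exact_mod_cast hR)
    omega
  have hNR : 3 * Module.finrank ℚ K * N ≤ Nat.log 2 ⌊R⌋₊ := by
    rw [hN]
    exact Nat.mul_div_le _ _
  have hqN : q ^ N ≤ R := by
    rw [hq, ← pow_mul]
    calc (2 : ℝ) ^ (3 * Module.finrank ℚ K * N) ≤ 2 ^ Nat.log 2 ⌊R⌋₊ :=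
          pow_le_pow_right₀ (by norm_num) hNR
      _ ≤ R := (csum_log hR).1
  -- nonempty classes
  have hcls : ∀ x ∈ S, (f x).1 + (f x).2 ≤ N := by
    intro x hx
    obtain ⟨hs, ht, hst⟩ := hsz x hx
    have e1 := (csum_log hs).1
    have e2 := (csum_log ht).1
    have e3 : (2 : ℝ) ^ (3 * Module.finrank ℚ K * ((f x).1 + (f x).2)) ≤ R := by
      refine le_trans ?_ hst
      rw [mul_comm (3 * Module.finrank ℚ K), pow_mul, pow_add]
      exact pow_le_pow_left₀ (by positivity) (mul_le_mul e1 e2 (by positivity) (by linarith)) _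
    have e4 : 2 ^ (3 * Module.finrank ℚ K * ((f x).1 + (f x).2)) ≤ ⌊R⌋₊ := by
      refine Nat.le_floor ?_
      push_cast
      exact e3
    have e5 : 3 * Module.finrank ℚ K * ((f x).1 + (f x).2) ≤ Nat.log 2 ⌊R⌋₊ :=
      (Nat.le_log_iff_pow_le (by norm_num) hfl).2 e4
    rw [hN, Nat.le_div_iff_mul_le (by omega)]
    rw [mul_comm]
    exact e5
  have hmaps : ∀ x ∈ S, f x ∈ smT N := by
    intro x hx
    have h6 := hcls x hx
    unfold smT
    rw [Finset.mem_filter, Finset.mem_product, Finset.mem_range, Finset.mem_range]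
    omega
  obtain ⟨Λ, hΛ⟩ : ∃ Λ : ℝ, Λ = 2 * (1 + N) := ⟨_, rfl⟩
  have hN0 : (0 : ℝ) ≤ N := Nat.cast_nonneg N
  have hΛ1 : 1 ≤ Λ := by rw [hΛ]; linarith
  have hsΛ : 1 ≤ Real.sqrt Λ := Real.one_le_sqrt.2 hΛ1
  obtain ⟨m, hm⟩ : ∃ m : ℕ, m = ⌈2 * Real.sqrt Λ⌉₊ := ⟨_, rfl⟩
  have hm1 : 2 * Real.sqrt Λ ≤ m := by
    rw [hm]
    exact Nat.le_ceil _
  have hm2 : (m : ℝ) ≤ 3 * Real.sqrt Λ := by
    have := Nat.ceil_lt_add_one (show 0 ≤ 2 * Real.sqrt Λ by positivity)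
    rw [← hm] at this
    linarith
  have hfib : ∀ b ∈ smT N,
      ((S.filter (fun x => f x = b)).card : ℝ) ≤ C' * (q ^ (b.1 + b.2) * smB Λ m b.1 b.2) := by
    rintro ⟨i, j⟩ hb
    have hij : i + j ≤ N := (Finset.mem_filter.1 hb).2
    have h2i : (1 : ℝ) ≤ 2 ^ i := one_le_pow₀ (by norm_num)
    have h2j : (1 : ℝ) ≤ 2 ^ j := one_le_pow₀ (by norm_num)
    obtain ⟨hcard1, hcard2⟩ := hfs ((2 : ℝ) ^ i) ((2 : ℝ) ^ j) (by nlinarith) (by nlinarith)
      (S.filter (fun x => f x = (i, j))) (by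
        intro x hx
        obtain ⟨hxS, hxf⟩ := Finset.mem_filter.1 hx
        have hi : Nat.log 2 ⌊sz K x.1⌋₊ = i := congrArg Prod.fst hxf
        have hj : Nat.log 2 ⌊sz K x.2.1⌋₊ = j := congrArg Prod.snd hxf
        obtain ⟨hs, ht, -⟩ := hsz x hxS
        obtain ⟨e1, e1'⟩ := csum_log hs
        obtain ⟨e2, e2'⟩ := csum_log ht
        rw [hi] at e1 e1'
        rw [hj] at e2 e2'
        have hdat := hS x hxS
        have hadm := adm_of K hM hdat.1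
        rw [← hC₁] at hadm
        exact ⟨csum_adm (by linarith) (by positivity) (by positivity) e1 e1' e2 e2' hadm,
          dat_of K hdat⟩) (by
        intro u v a b ha hb hab
        exact huniq u v a b (Finset.mem_filter.1 ha).1 (Finset.mem_filter.1 hb).1 hab)
    have hqe : ((2 : ℝ) ^ i * 2 ^ j) ^ (3 * Module.finrank ℚ K) = q ^ (i + j) := by
      rw [hq, ← pow_add, ← pow_mul, ← pow_mul, mul_comm]
    obtain ⟨l1, l2⟩ := sm_log hij
    rw [← hΛ] at l2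
    rw [hqe] at hcard1 hcard2
    have hΛ0 : 0 ≤ Λ := by linarith
    have hqij : 0 ≤ C' * q ^ (i + j) := by positivity
    have hA : 0 ≤ Λ ^ (7 / 8 : ℝ) := by positivity
    have hB : 0 ≤ Λ ^ (5 / 4 : ℝ) := by positivity
    have hthird : 0 ≤ (if j < m then Λ ^ (5 / 4 : ℝ) else 0) := by
      split_ifs
      · exact hB
      · exact le_rfl
    have hsecond : 0 ≤ (if i < m then Λ ^ (5 / 4 : ℝ) else 0) := by
      split_ifs
      · exact hB
      · exact le_rfl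
    show _ ≤ C' * (q ^ (i + j) * smB Λ m i j)
    rw [← mul_assoc]
    by_cases hmin : i < m ∨ j < m
    · refine hcard1.trans (mul_le_mul_of_nonneg_left ?_ hqij)
      refine (Real.rpow_le_rpow l1 l2 (by norm_num)).trans ?_
      unfold smB
      rcases hmin with h | h
      · rw [if_pos h]
        linarith
      · rw [if_pos h]
        linarith
    · push Not at hmin
      obtain ⟨hmi, hmj⟩ := hmin
      have hex : ∀ k : ℕ, m ≤ k →
          Real.exp (Real.sqrt (Real.log (2 + max ((2 : ℝ) ^ i) (2 ^ j)))) ≤ 2 ^ k := by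
        intro k hk
        have h6 : (2 : ℝ) ^ k = Real.exp (k * Real.log 2) := by
          rw [mul_comm, ← Real.rpow_def_of_pos (by norm_num), Real.rpow_natCast]
        rw [h6]
        refine Real.exp_le_exp.2 ((Real.sqrt_le_sqrt l2).trans ?_)
        have h7 : (m : ℝ) ≤ k := by exact_mod_cast hk
        have h8 : (k : ℝ) * (1 / 2) ≤ k * Real.log 2 := mul_le_mul_of_nonneg_left hl2 (Nat.cast_nonneg k)
        linarith
      refine (hcard2 (le_min (hex i hmi) (hex j hmj))).trans (mul_le_mul_of_nonneg_left ?_ hqij)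
      refine (Real.rpow_le_rpow l1 l2 (by norm_num)).trans ?_
      unfold smB
      linarith
  have hcardS : (S.card : ℝ) ≤ C' * (14 * q ^ N * Λ ^ (15 / 8 : ℝ)) := by
    rw [Finset.card_eq_sum_card_fiberwise hmaps]
    push_cast
    refine (Finset.sum_le_sum hfib).trans ?_
    rw [← Finset.mul_sum]
    exact mul_le_mul_of_nonneg_left (sm_total hq2 N m hΛ hm2) hC'.le
  -- `Λ ≤ 4 (1 + log R)`
  have hlogR : 0 ≤ Real.log R := Real.log_nonneg hR
  have hΛR : Λ ≤ 4 * (1 + Real.log R) := by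
    have e1 := (csum_log hR).1
    have e2 : (Nat.log 2 ⌊R⌋₊ : ℝ) * Real.log 2 ≤ Real.log R := by
      rw [← Real.log_pow]
      exact Real.log_le_log (by positivity) e1
    have e3 : N ≤ Nat.log 2 ⌊R⌋₊ := by
      refine le_trans ?_ hNR
      exact Nat.le_mul_of_pos_left _ (by omega)
    have e4 : (N : ℝ) ≤ (Nat.log 2 ⌊R⌋₊ : ℝ) := by exact_mod_cast e3
    have e5 : (Nat.log 2 ⌊R⌋₊ : ℝ) * (1 / 2) ≤ (Nat.log 2 ⌊R⌋₊ : ℝ) * Real.log 2 :=
      mul_le_mul_of_nonneg_left hl2 (Nat.cast_nonneg _)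
    rw [hΛ]
    linarith
  have hΛp : Λ ^ (15 / 8 : ℝ) ≤ 4 ^ (15 / 8 : ℝ) * (1 + Real.log R) ^ (15 / 8 : ℝ) := by
    rw [← Real.mul_rpow (by norm_num) (by linarith)]
    exact Real.rpow_le_rpow (by linarith) hΛR (by norm_num)
  have h28 : (2 : ℝ) - 1 / 8 = 15 / 8 := by norm_num
  rw [h28]
  calc (S.card : ℝ) ≤ C' * (14 * q ^ N * Λ ^ (15 / 8 : ℝ)) := hcardS
    _ ≤ C' * (14 * R * (4 ^ (15 / 8 : ℝ) * (1 + Real.log R) ^ (15 / 8 : ℝ))) := by
        have hΛ0 : 0 ≤ Λ := by linarith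
        gcongr
    _ = C' * (14 * 4 ^ (15 / 8 : ℝ)) * R * (1 + Real.log R) ^ (15 / 8 : ℝ) := by ring

end H88.WS
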