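import Pool.Agent.H88.WS.Bf1
import Pool.Agent.H88.WS.Bf2
import Pool.Agent.H88.WS.Bs
import Pool.Agent.H88.WS.Cnt
import Pool.Agent.H88.WS.Los
import Pool.Agent.H88.WS.Ca
import Pool.Agent.H88.WS.Gen
import Pool.Agent.H88.WS.Bd
import Pool.Agent.H88.WS.Ndc
import Pool.Agent.H88.WS.Cb
import Pool.Agent.H88.WS.Cx
import Pool.Agent.H88.WS.Cs
import Pool.Agent.H88.WS.Blk
import Pool.Agent.H88.WS.Mai
import Pool.Agent.H88.WS.Sm
import Pool.Agent.H51.CM.Com
import Pool.Agent.H88.A4.Fin1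

/-!
# (W1#): assembly of the chapters (MP_b39724)
-/

open scoped NumberField
open H88.A4 Pool.Agent.H67.WA

noncomputable section

namespace H88.WS

/-- BLK and MAIN from the chapters -/
theorem main2_of (K : Type) [Field K] [NumberField K] (hL : Loc2Stmt K) (hA : AvgStmt K)
    (hV : AvcStmt K) (hS : SwStmt K) (hOA : OlAStmt K) (hOZ : OlZStmt K) (hOd : OdStmt K)
    (hE : ExbStmt K) : Main2Stmt K := by
  have c1 := cnt_of K (H51.CM.com2 K hL)
  have c2 := los_of K c1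
  have c3 := ca_of K hOA hOZ
  have c4 := nd_of K hS
  exact main_of K (blk_of K (gen_of K c2 hOA hOZ) (bd1_of K c2 c3 hOZ hOd)
    (bd2_of K c2 c3 hOA hOZ hOd) (bs_of K c1 (bf1_of K hA hS) (bf2_of K hA hS hE))
    (cs_of K c4 (cb_of K hOA hOZ hOd) (cx_of K c4 hV hS)))

open H38.ML H63.MA in
/-- `CoreSharp K` from the chapters -/
theorem core_sharp_chapters (K : IntermediateField ℚ QBar) [NumberField K] (ζ : K)
    (hζ : IsPrimitiveRoot ζ 3) (hL : Loc2Stmt K) (hA : AvgStmt K)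
    (hV : AvcStmt K) (hS : SwStmt K) (hOA : OlAStmt K) (hOZ : OlZStmt K) (hOd : OdStmt K)
    (hE : ExbStmt K) (hD : Deg2Stmt K) (hEZ : EZ2Stmt K) : H48.T3.CoreSharp K :=
  core_sharp_of K ζ hζ
    (reduction K (redField K (Pool.Agent.H67.WA.mink K)) (Pool.Agent.H67.WA.block_red K))
    (all_of K (main2_of K hL hA hV hS hOA hOZ hOd hE)) hD hEZ (Pool.Agent.H12.WM.eZeroAlg K)

end H88.WS
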