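import Pool.Agent.H88.WS.Rho
import Pool.Agent.H88.A4.CSt

/-!
# [H88 WS FS] The count of the triples `(u, v, a)` for fixed sizes `s, t`, sharp (W1#, MP_b39724)

PROOF. Copy `H88/A4/CSt.lean` (theorem `fixed_size`, with its private lemmas), with these changes. `L = log (2 + s)`, `V = (s t)^(3d)`. All bounds `C' (s t)^(3d + ε)` become `C' V L^(5/4)` and, if `exp (√L) ≤ t`, `C' V L^(7/8)`:
both follow for a part which is `≤ C' V` (as `L ≥ log 2 > 0`, `s > 0`).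
(0) trivial `a`: at most one for each `(u, v)`: `≤ C' V`. (s ≤ s0): `≤ C'` (all entries bounded) and `V ≥ c` (`s, t ≥ 1/C`).
(Main) `AllStmt` instead of `main_all`; (Deg) `Deg2Stmt`: `≤ C' V t^(-κ) L^(5/4)`: `t^(-κ) ≤ C^κ`, and for `exp (√L) ≤ t`: `t^(-κ) L^(5/4) ≤ exp (-κ √L) L^(5/4) ≤ C'' ≤ C''' L^(7/8)`. (EZ) `EZ2Stmt` with `ε = 1/4`:
`(s t)^(5d/2 + 1/4) ≤ C' V` since `s t ≥ 1/C^2` and `5d/2 + 1/4 ≤ 3 d`.
NEW: `AllStmt` and `Deg2Stmt` need `Inj` for the finite sets `S'` of the `(u', v', β)` belonging to one pair `(k, m)`. In the lemma `cls` of `CSt.lean` replace the hypothesis `hB` by `∀ S' : Finset Y, (∀ y ∈ S', Q y) → R S' → card ≤ B` with the additional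
information `R` (here `Inj`), which must be proved for `S' = image (fun x => (f x).2) (T.filter (fun a => (f a).1 = b))`: let `y = (f x).2`, `y' = (f x').2` with `y.1 = y'.1`, `y.2.1 = y'.2.1` and equal `D1, D2, D3`. Since `(k, m)` is the same, `k u = m u'` gives
`x.1 = x'.1`, `x.2.1 = x'.2.1` (as in `rd_inj`); `zz u v t1 t2 β` depends only on `u, v, t1, t2, D1, D2, D3` (definition of `zz`), so both `a zz`, `a' zz` are squares with the same `zz ≠ 0` (`t_unique`, `sq_cancel` as in `rd_inj`), hence `a = a'`, `x = x'`, `y = y'`.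
-/

open scoped NumberField
open H88.A4 Pool.Agent.H67.WA

noncomputable section

namespace H88.WS

open H38.ML H63.MA

section gen

variable (L : Type) [Field L] [NumberField L]

/-- the number of integers in a box -/
private theorem bd_card : ∃ C0 : ℝ, 0 < C0 ∧ ∀ R : ℝ, 0 < R →
    ∀ S : Finset (𝓞 L), (∀ x ∈ S, Bd R x) →
    (S.card : ℝ) ≤ C0 * (1 + R ^ Module.finrank ℚ L) := by
  classical
  obtain ⟨C, hC, h⟩ := box_card L
  refine ⟨C * 2 ^ Module.finrank ℚ L, by positivity, fun R hR S hS => ?_⟩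
  have hinj : Function.Injective (fun x : 𝓞 L => (x : L)) := NumberField.RingOfIntegers.coe_injective
  have h1 := h 1 one_pos (fun _ => 2 * R) (fun _ => by positivity)
    (S.image (fun x : 𝓞 L => (x : L))) (by
      intro x hx y hy hxy
      obtain ⟨x0, hx0, rfl⟩ := Finset.mem_image.1 hx
      obtain ⟨y0, hy0, rfl⟩ := Finset.mem_image.1 hy
      have h2 : x0 - y0 ≠ 0 := fun h0 => hxy (by rw [sub_eq_zero.1 h0])
      have h3 := one_le_nm L (x0 - y0) h2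
      simpa using h3) (by
      intro x hx y hy φ
      obtain ⟨x0, hx0, rfl⟩ := Finset.mem_image.1 hx
      obtain ⟨y0, hy0, rfl⟩ := Finset.mem_image.1 hy
      have h3 := hS x0 hx0 φ
      have h4 := hS y0 hy0 φ
      rw [map_sub]
      calc _ ≤ ‖φ (x0 : L)‖ + ‖φ (y0 : L)‖ := norm_sub_le _ _
        _ ≤ 2 * R := by linarith)
  rw [Finset.card_image_of_injective _ hinj, Finset.prod_const, Finset.card_univ,
    NumberField.Embeddings.card, div_one, mul_pow] at h1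
  refine h1.trans ?_
  rw [mul_assoc]
  refine mul_le_mul_of_nonneg_left ?_ hC.le
  have h5 : (1 : ℝ) ≤ 2 ^ Module.finrank ℚ L := one_le_pow₀ (by norm_num)
  have h6 : 0 < R ^ Module.finrank ℚ L := pow_pos hR _
  nlinarith

/-- the number of vectors of integers in a box -/
private theorem pi_card : ∃ C0 : ℝ, 0 < C0 ∧
    ∀ (α : Type) (S : Finset α) (n : ℕ) (g : α → Fin n → 𝓞 L) (R : Fin n → ℝ), (∀ i, 0 < R i) →
    (∀ x ∈ S, ∀ y ∈ S, g x = g y → x = y) → (∀ x ∈ S, ∀ i, Bd (R i) (g x i)) →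
    (S.card : ℝ) ≤ ∏ i, (C0 * (1 + R i ^ Module.finrank ℚ L)) := by
  classical
  obtain ⟨C0, h0, h⟩ := bd_card L
  refine ⟨C0, h0, fun α S n g R hR hinj hb => ?_⟩
  have h1 : S.card ≤ (Fintype.piFinset (fun i => S.image (fun x => g x i))).card := by
    rw [← Finset.card_image_of_injOn (s := S) (f := g) (fun x hx y hy => hinj x hx y hy)]
    apply Finset.card_le_card
    intro y hy
    obtain ⟨x, hx, rfl⟩ := Finset.mem_image.1 hy
    exact Fintype.mem_piFinset.2 (fun i => Finset.mem_image_of_mem _ hx)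
  rw [Fintype.card_piFinset] at h1
  calc (S.card : ℝ) ≤ ((∏ i, (S.image (fun x => g x i)).card : ℕ) : ℝ) := by exact_mod_cast h1
    _ = ∏ i, ((S.image (fun x => g x i)).card : ℝ) := by push_cast; rfl
    _ ≤ _ := by
      refine Finset.prod_le_prod (fun i _ => by positivity) (fun i _ => h (R i) (hR i) _ ?_)
      intro y hy
      obtain ⟨x, hx, rfl⟩ := Finset.mem_image.1 hy
      exact hb x hx i

/-- counting over the classes of `(k, m)` -/
private theorem cls {X Y : Type} (C0 C2 : ℝ) (hC2 : 0 < C2)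
    (hpi : ∀ (α : Type) (S : Finset α) (n : ℕ) (g : α → Fin n → 𝓞 L) (R : Fin n → ℝ),
      (∀ i, 0 < R i) → (∀ x ∈ S, ∀ y ∈ S, g x = g y → x = y) →
      (∀ x ∈ S, ∀ i, Bd (R i) (g x i)) →
      (S.card : ℝ) ≤ ∏ i, (C0 * (1 + R i ^ Module.finrank ℚ L)))
    (T : Finset X) (f : X → (𝓞 L × 𝓞 L) × Y)
    (hf : ∀ x ∈ T, ∀ y ∈ T, f x = f y → x = y)
    (hk : ∀ x ∈ T, Bd C2 (f x).1.1 ∧ Bd C2 (f x).1.2) (Q : Y → Prop) (P : Y → Y → Prop) (B : ℝ)
    (hB : ∀ S' : Finset Y, (∀ y ∈ S', Q y) → (∀ y ∈ S', ∀ y' ∈ S', P y y' → y = y') →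
      (S'.card : ℝ) ≤ B) (hQ : ∀ x ∈ T, Q (f x).2)
    (hP : ∀ x ∈ T, ∀ x' ∈ T, (f x).1 = (f x').1 → P (f x).2 (f x').2 → (f x).2 = (f x').2) :
    (T.card : ℝ) ≤ (∏ _i : Fin 2, (C0 * (1 + C2 ^ Module.finrank ℚ L))) * B := by
  classical
  have hB0 : 0 ≤ B := by simpa using hB ∅ (by simp) (by simp)
  have h1 := Finset.card_eq_sum_card_image (fun x => (f x).1) T
  rw [h1]
  push_cast
  have h2 : ∀ b ∈ T.image (fun x => (f x).1),
      (((T.filter (fun a => (f a).1 = b)).card : ℕ) : ℝ) ≤ B := by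
    intro b _
    rw [← Finset.card_image_of_injOn (s := T.filter (fun a => (f a).1 = b)) (f := fun x => (f x).2)]
    · refine hB _ ?_ ?_
      · intro y hy
        obtain ⟨x, hx, rfl⟩ := Finset.mem_image.1 hy
        exact hQ x (Finset.mem_filter.1 hx).1
      · intro y hy y' hy'
        obtain ⟨x, hx, rfl⟩ := Finset.mem_image.1 hy
        obtain ⟨x', hx', rfl⟩ := Finset.mem_image.1 hy'
        rw [Finset.mem_filter] at hx hx'
        exact hP x hx.1 x' hx'.1 (hx.2.trans hx'.2.symm)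
    · intro x hx y hy hxy
      have hx' := Finset.mem_filter.1 hx
      have hy' := Finset.mem_filter.1 hy
      exact hf x hx'.1 y hy'.1 (Prod.ext (hx'.2.trans hy'.2.symm) hxy)
  refine (Finset.sum_le_sum h2).trans ?_
  rw [Finset.sum_const, nsmul_eq_mul]
  refine mul_le_mul_of_nonneg_right ?_ hB0
  refine hpi _ (T.image (fun x => (f x).1)) 2 (fun x => ![x.1, x.2]) (fun _ => C2)
    (fun _ => hC2) ?_ ?_
  · intro x _ y _ hxy
    have h3 := congrFun hxy 0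
    have h4 := congrFun hxy 1
    exact Prod.ext h3 h4
  · intro x hx i
    obtain ⟨z, hz, rfl⟩ := Finset.mem_image.1 hx
    fin_cases i
    · exact (hk z hz).1
    · exact (hk z hz).2

end gen

section mono

variable {L : Type} [Field L] [NumberField L]

private theorem bd_mono {H H' : ℝ} (h : H ≤ H') {x : 𝓞 L} (hx : Bd H x) : Bd H' x :=
  fun φ => (hx φ).trans h

private theorem ball_mono {H H' : ℝ} (h : H ≤ H') {β : Blk (𝓞 L)} (hx : β.All (Bd H)) :
    β.All (Bd H') :=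
  ⟨bd_mono h hx.1, bd_mono h hx.2.1, bd_mono h hx.2.2.1, bd_mono h hx.2.2.2.1,
    bd_mono h hx.2.2.2.2.1, bd_mono h hx.2.2.2.2.2⟩

private theorem rep_mono {H H' : ℝ} (h : H ≤ H') {β : Blk (𝓞 L)} {u v : 𝓞 L} (hx : Rep H β u v) :
    Rep H' β u v := by
  obtain ⟨π, r, r', h1, h2⟩ := hx
  exact ⟨π, r, r', ⟨bd_mono h h1.1, bd_mono h h1.2.1, bd_mono h h1.2.2.1, bd_mono h h1.2.2.2⟩, h2⟩

private theorem hp_mono {C C' s : ℝ} (hC : 0 ≤ C) (h : C ≤ C') (hs : 0 ≤ s) (A : ℕ) :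
    Hp C A s ≤ Hp C' A s := by
  unfold Hp
  exact pow_le_pow_left₀ (by positivity) (mul_le_mul_of_nonneg_right h (by positivity)) A

private theorem adm_mono {M : ℕ} {C C' s t : ℝ} (h : C ≤ C') (hs : 0 ≤ s) (ht : 0 ≤ t)
    {u v : 𝓞 L} (hx : Adm M C s t u v) : Adm M C' s t u v where
  u0 := hx.u0
  v0 := hx.v0
  ule φ := (hx.ule φ).trans (mul_le_mul_of_nonneg_right h (by positivity))
  uge φ := (hx.uge φ).trans (mul_le_mul_of_nonneg_right h (norm_nonneg _))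
  vle φ := (hx.vle φ).trans (mul_le_mul_of_nonneg_right h (by positivity))
  vge φ := (hx.vge φ).trans (mul_le_mul_of_nonneg_right h (norm_nonneg _))
  squ := hx.squ
  sqv := hx.sqv
  cop := hx.cop

private theorem span_dvd (M N : ℕ) {I : Ideal (𝓞 L)} (h : I ∣ Ideal.span {(M : 𝓞 L)}) :
    I ∣ Ideal.span {((M * N : ℕ) : 𝓞 L)} := by
  refine h.trans ?_
  rw [Ideal.dvd_span_singleton]
  push_cast
  exact Ideal.mul_mem_right _ _ (Ideal.mem_span_singleton_self _)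

private theorem adm_monoM {M : ℕ} (N : ℕ) {C s t : ℝ}
    {u v : 𝓞 L} (hx : Adm M C s t u v) : Adm (M * N) C s t u v where
  u0 := hx.u0
  v0 := hx.v0
  ule := hx.ule
  uge := hx.uge
  vle := hx.vle
  vge := hx.vge
  squ I hI := span_dvd M N (hx.squ I hI)
  sqv I hI := span_dvd M N (hx.sqv I hI)
  cop := by
    push_cast
    exact Ideal.mul_mem_right _ _ hx.cop

private theorem pq_mono {M : ℕ} (N : ℕ) {C C' s t : ℝ} (h : C ≤ C') (hs : 0 ≤ s) (ht : 0 ≤ t)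
    {u v p q : 𝓞 L} (hx : PQ M C s t u v p q) : PQ (N * M) C' s t u v p q := by
  obtain ⟨h1, h2, h3, h4, h5, h6, b0, g1, g2, m, h7, h8, h9⟩ := hx
  refine ⟨h1, h2, bd_mono (mul_le_mul_of_nonneg_right h hs) h3,
    bd_mono (mul_le_mul_of_nonneg_right h ht) h4, ?_, h6, b0, g1, g2, m, h7, ?_, h9⟩
  · push_cast
    exact Ideal.mul_mem_left _ _ h5
  · rw [mul_comm]
    exact span_dvd M N h8

private theorem rho_mono {C C' ρ1 ρ2 : ℝ} (h : C ≤ C') (hx : Rho C ρ1 ρ2) : Rho C' ρ1 ρ2 :=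
  ⟨hx.1, hx.2.1, hx.2.2.1.trans h, hx.2.2.2.trans h⟩

private theorem main_mono {C C' s t ρ1 ρ2 : ℝ} (h : C ≤ C') (hs : 0 ≤ s) (ht : 0 ≤ t)
    (h1 : 0 < ρ1) (h2 : 0 < ρ2) {β : Blk (𝓞 L)} (hx : Main C s t ρ1 ρ2 β) :
    Main C' s t ρ1 ρ2 β := by
  obtain ⟨⟨a1, a2, a3, a4, a5, a6⟩, hx⟩ := hx
  refine ⟨⟨bd_mono ?_ a1, bd_mono ?_ a2, bd_mono ?_ a3, bd_mono ?_ a4, bd_mono ?_ a5,
    bd_mono ?_ a6⟩, hx⟩ <;> gcongr

private theorem deg_mono {C C' s t : ℝ} (h : C ≤ C') (hs : 0 ≤ s) (ht : 0 ≤ t)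
    {β : Blk (𝓞 L)} (hx : Deg C s t β) : Deg C' s t β := by
  obtain ⟨h1, h2, h3, h4, h5, h6, h7, h8⟩ := hx
  refine ⟨h1, h2, h3, h4, h5, fun φ => (h6 φ).trans (mul_le_mul_of_nonneg_right h (norm_nonneg _)),
    bd_mono ?_ h7, bd_mono ?_ h8⟩ <;> gcongr

private theorem ez_mono {C C' s t : ℝ} (h : C ≤ C')
    {β : Blk (𝓞 L)} (hx : EZ C s t β) : EZ C' s t β := by
  obtain ⟨h1, h2, h3, h4, h5⟩ := hx
  refine ⟨h1, h2, h3, bd_mono ?_ h4, bd_mono ?_ h5⟩ <;> gcongr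

end mono

private theorem sq_cancel {F : Type} [Field F] {a b w : F} (hb : b ≠ 0) (hw : w ≠ 0)
    (h1 : IsSquare (a * w)) (h2 : IsSquare (b * w)) : ∃ c : F, a = b * c ^ 2 := by
  obtain ⟨x, hx⟩ := h1
  obtain ⟨y, hy⟩ := h2
  have hy0 : y ≠ 0 := by
    rintro rfl
    exact mul_ne_zero hb hw (by simpa using hy)
  refine ⟨x / y, ?_⟩
  have h3 : a * (y * y) = b * (x * x) := by rw [← hx, ← hy]; ring
  field_simp
  linear_combination h3

private theorem t1_ne {K F : Type} [Field K] [NumberField K] [Field F] [NumberField F]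
    [Algebra K F] {u v : 𝓞 K} {t1 t2 a : F} (hu : u ≠ 0) (hv : v ≠ 0) (h : Dat F u v t1 t2 a) :
    t1 ≠ 0 := by
  rintro rfl
  have h1 := h.cub
  rw [zero_pow (by norm_num)] at h1
  have h2 : ((u : K) * (v : K) ^ 2) = 0 := (map_eq_zero (algebraMap K F)).1 h1.symm
  rcases mul_eq_zero.1 h2 with h3 | h3
  · exact hu (by exact_mod_cast h3)
  · exact hv (by exact_mod_cast (pow_eq_zero_iff (by norm_num)).1 h3)

private theorem eta_ne {K F : Type} [Field K] [NumberField K] [Field F] [NumberField F]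
    [Algebra K F] {u v p q : 𝓞 K} {t1 t2 a : F} (hu : u ≠ 0) (hv : v ≠ 0) (h : Dat F u v t1 t2 a)
    (hn : v * p ^ 3 + u * q ^ 3 ≠ 0) :
    algebraMap K F ((u * v * (v * p ^ 3 + u * q ^ 3) : 𝓞 K) : K) *
      (algebraMap K F (p : K) * t1 + algebraMap K F (q : K) * t2) ≠ 0 := by
  have hinj : ∀ x : 𝓞 K, algebraMap K F (x : K) = 0 → x = 0 := by
    intro x hx
    have h1 := (map_eq_zero (algebraMap K F)).1 hx
    exact_mod_cast h1
  have ht := t1_ne hu hv h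
  refine mul_ne_zero (fun h0 => mul_ne_zero (mul_ne_zero hu hv) hn (hinj _ h0)) (fun h0 => ?_)
  refine mul_ne_zero (mul_ne_zero hu hv) hn (hinj _ ?_)
  have hc := h.cub
  have hp := h.prd
  push_cast
  simp only [map_mul, map_pow] at hc hp ⊢
  set U := algebraMap K F (u : K)
  set V := algebraMap K F (v : K)
  set P := algebraMap K F (p : K)
  set Q := algebraMap K F (q : K)
  -- `P t1 = - Q t2`
  have h1 : P * t1 = -(Q * t2) := by linear_combination h0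
  have hU : U ≠ 0 := fun h2 => hu (hinj _ h2)
  have hV : V ≠ 0 := fun h2 => hv (hinj _ h2)
  -- cubes
  have h2 : (P * t1) ^ 3 = -(Q * t2) ^ 3 := by rw [h1]; ring
  -- `t1^3 t2^3 = U^3 V^3`, so `t2^3 = U^2 V`
  have h3 : t2 ^ 3 = U ^ 2 * V := by
    have h4 : t1 ^ 3 * t2 ^ 3 = (U * V) ^ 3 := by rw [← mul_pow, hp]
    rw [hc] at h4
    have h5 : U * V ^ 2 ≠ 0 := mul_ne_zero hU (pow_ne_zero _ hV)
    refine mul_left_cancel₀ h5 ?_
    rw [h4]; ring
  rw [mul_pow, mul_pow, hc, h3] at h2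
  linear_combination h2

/-- the data of the reduction for the triple `x` -/
private structure Rd (K : IntermediateField ℚ QBar) [NumberField K] (M' A : ℕ) (C s t : ℝ)
    (x : 𝓞 K × 𝓞 K × QBar)
    (y : (𝓞 K × 𝓞 K) × (𝓞 K × 𝓞 K × Blk (𝓞 K))) : Prop where
  k0 : y.1.1 ≠ 0
  m0 : y.1.2 ≠ 0
  bk : Bd C y.1.1
  bm : Bd C y.1.2
  eu : y.1.2 * y.2.1 = y.1.1 * x.1
  ev : y.1.2 * y.2.2.1 = y.1.1 * x.2.1
  adm : Adm M' C s t y.2.1 y.2.2.1
  al : y.2.2.2.All (Bd (Hp C A s))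
  rep : Rep (Hp C A s) y.2.2.2 y.2.1 y.2.2.1
  sq : ∃ t1 t2 a' : H38.WM.Fd K x.1 x.2.1,
        (t1 : QBar) = H38.WM.rt K x.1 x.2.1 ∧ (a' : QBar) = x.2.2 ∧
          Dat (H38.WM.Fd K x.1 x.2.1) x.1 x.2.1 t1 t2 a' ∧
          zz x.1 x.2.1 t1 t2 y.2.2.2 ≠ 0 ∧ IsSquare (a' * zz x.1 x.2.1 t1 t2 y.2.2.2)

variable (K : IntermediateField ℚ QBar) [NumberField K]

private theorem t_unique {u v : 𝓞 K} (hu : u ≠ 0) (hv : v ≠ 0)
    {t1 t2 a t1' t2' a' : H38.WM.Fd K u v} (h1 : (t1 : QBar) = H38.WM.rt K u v)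
    (h1' : (t1' : QBar) = H38.WM.rt K u v) (h : Dat (H38.WM.Fd K u v) u v t1 t2 a)
    (h' : Dat (H38.WM.Fd K u v) u v t1' t2' a') : t1 = t1' ∧ t2 = t2' := by
  have h2 : t1 = t1' := Subtype.ext (h1.trans h1'.symm)
  subst h2
  refine ⟨rfl, mul_left_cancel₀ (t1_ne hu hv h) ?_⟩
  rw [h.prd, h'.prd]

private theorem rd_inj {M' A : ℕ} {C s t : ℝ} {x x' : 𝓞 K × 𝓞 K × QBar}
    {y : (𝓞 K × 𝓞 K) × (𝓞 K × 𝓞 K × Blk (𝓞 K))} (h : Rd K M' A C s t x y)
    (h' : Rd K M' A C s t x' y) (hu : x.1 ≠ 0) (hv : x.2.1 ≠ 0)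
    (hsq : x.1 = x'.1 → x.2.1 = x'.2.1 →
      (∃ c ∈ H38.WM.Fd K x.1 x.2.1, x.2.2 = x'.2.2 * c ^ 2) → x.2.2 = x'.2.2) : x = x' := by
  obtain ⟨u, v, a⟩ := x
  obtain ⟨u', v', b⟩ := x'
  have e1 : u = u' := mul_left_cancel₀ h.k0 (h.eu.symm.trans h'.eu)
  have e2 : v = v' := mul_left_cancel₀ h.k0 (h.ev.symm.trans h'.ev)
  subst e1
  subst e2
  obtain ⟨t1, t2, a1, h1, h2, h3, h4, h5⟩ := h.sq
  obtain ⟨t1', t2', a1', h1', h2', h3', h4', h5'⟩ := h'.sq
  simp only at h1 h2 h3 h4 h5 h1' h2' h3' h4' h5' hu hv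
  obtain ⟨e3, e4⟩ := t_unique K hu hv h1 h1' h3 h3'
  subst e3
  subst e4
  obtain ⟨c, hc⟩ := sq_cancel h3'.a0 h4 h5 h5'
  have h6 : a = b := hsq rfl rfl ⟨c, c.2, by rw [← h2, ← h2', hc]; push_cast; rfl⟩
  rw [h6]

private theorem rd_inj2 {M' A : ℕ} {C s t : ℝ} {x x' : 𝓞 K × 𝓞 K × QBar}
    {y y' : (𝓞 K × 𝓞 K) × (𝓞 K × 𝓞 K × Blk (𝓞 K))} (h : Rd K M' A C s t x y)
    (h' : Rd K M' A C s t x' y') (hy : y.1 = y'.1) (hy1 : y.2.1 = y'.2.1)
    (hy2 : y.2.2.1 = y'.2.2.1) (hd1 : y.2.2.2.D1 = y'.2.2.2.D1)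
    (hd2 : y.2.2.2.D2 = y'.2.2.2.D2) (hd3 : y.2.2.2.D3 = y'.2.2.2.D3)
    (hu : x.1 ≠ 0) (hv : x.2.1 ≠ 0)
    (hsq : x.1 = x'.1 → x.2.1 = x'.2.1 →
      (∃ c ∈ H38.WM.Fd K x.1 x.2.1, x.2.2 = x'.2.2 * c ^ 2) → x.2.2 = x'.2.2) : x = x' := by
  obtain ⟨u, v, a⟩ := x
  obtain ⟨u', v', b⟩ := x'
  have eu' := h'.eu
  have ev' := h'.ev
  rw [← hy, ← hy1] at eu'
  rw [← hy, ← hy2] at ev'
  have e1 : u = u' := mul_left_cancel₀ h.k0 (h.eu.symm.trans eu')
  have e2 : v = v' := mul_left_cancel₀ h.k0 (h.ev.symm.trans ev')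
  subst e1
  subst e2
  obtain ⟨t1, t2, a1, h1, h2, h3, h4, h5⟩ := h.sq
  obtain ⟨t1', t2', a1', h1', h2', h3', h4', h5'⟩ := h'.sq
  simp only at h1 h2 h3 h4 h5 h1' h2' h3' h4' h5' hu hv
  obtain ⟨e3, e4⟩ := t_unique K hu hv h1 h1' h3 h3'
  subst e3
  subst e4
  have hz : zz u v t1 t2 y.2.2.2 = zz u v t1 t2 y'.2.2.2 := by
    unfold zz
    rw [hd1, hd2, hd3]
  rw [← hz] at h5'
  obtain ⟨c, hc⟩ := sq_cancel h3'.a0 h4 h5 h5'
  have h6 : a = b := hsq rfl rfl ⟨c, c.2, by rw [← h2, ← h2', hc]; push_cast; rfl⟩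
  rw [h6]

/-- the factor `t ^ (-κ)` against the logarithm -/
private theorem deg_log {κ L t : ℝ} (hκ : 0 < κ) (hL : 0 < L) (ht : Real.exp (Real.sqrt L) ≤ t) :
    t ^ (-κ) * L ^ (5 / 4 : ℝ) ≤ (1 + 1 / κ) * L ^ (7 / 8 : ℝ) := by
  have hy : 0 ≤ Real.sqrt L := Real.sqrt_nonneg L
  have h1 : t ^ (-κ) ≤ Real.exp (-(κ * Real.sqrt L)) := by
    have h2 : Real.exp (-(κ * Real.sqrt L)) = (Real.exp (Real.sqrt L)) ^ (-κ) := by
      rw [← Real.exp_mul]
      congr 1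
      ring
    rw [h2]
    exact Real.rpow_le_rpow_of_nonpos (Real.exp_pos _) ht (by linarith)
  have h3 : L ^ (3 / 8 : ℝ) ≤ 1 + Real.sqrt L := by
    rcases le_total L 1 with h | h
    · have h4 : L ^ (3 / 8 : ℝ) ≤ 1 := Real.rpow_le_one hL.le h (by norm_num)
      linarith
    · have h4 : L ^ (3 / 8 : ℝ) ≤ L ^ (1 / 2 : ℝ) :=
        Real.rpow_le_rpow_of_exponent_le h (by norm_num)
      rw [Real.sqrt_eq_rpow]
      linarith
  have h5 : 1 + Real.sqrt L ≤ (1 + 1 / κ) * Real.exp (κ * Real.sqrt L) := by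
    have h6 := Real.add_one_le_exp (κ * Real.sqrt L)
    have h7 : 0 ≤ κ * Real.sqrt L := by positivity
    have h8 : 1 ≤ Real.exp (κ * Real.sqrt L) := by linarith
    have h9 : 1 / κ * (κ * Real.sqrt L) ≤ 1 / κ * Real.exp (κ * Real.sqrt L) := by
      refine mul_le_mul_of_nonneg_left ?_ (by positivity)
      linarith
    have h10 : 1 / κ * (κ * Real.sqrt L) = Real.sqrt L := by
      field_simp
    rw [h10] at h9
    linarith
  have h11 : L ^ (5 / 4 : ℝ) = L ^ (3 / 8 : ℝ) * L ^ (7 / 8 : ℝ) := by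
    rw [← Real.rpow_add hL]
    norm_num
  have h12 : 0 ≤ L ^ (7 / 8 : ℝ) := Real.rpow_nonneg hL.le _
  have h13 : 0 ≤ L ^ (3 / 8 : ℝ) := Real.rpow_nonneg hL.le _
  rw [h11, ← mul_assoc]
  refine mul_le_mul_of_nonneg_right ?_ h12
  calc t ^ (-κ) * L ^ (3 / 8 : ℝ) ≤ Real.exp (-(κ * Real.sqrt L)) *
        ((1 + 1 / κ) * Real.exp (κ * Real.sqrt L)) :=
        mul_le_mul h1 (h3.trans h5) h13 (Real.exp_pos _).le
    _ = (1 + 1 / κ) * (Real.exp (-(κ * Real.sqrt L)) * Real.exp (κ * Real.sqrt L)) := by ring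
    _ = _ := by
        rw [← Real.exp_add, neg_add_cancel, Real.exp_zero, mul_one]

theorem fixed2 (h1 : ReductionStmt K) (h2 : AllStmt K) (h3 : Deg2Stmt K) (h4 : EZ2Stmt K)
    (h5 : EZeroAlgStmt K) (M : ℕ) (hM : M ≠ 0) (C : ℝ) (hC : 1 ≤ C) :
    ∃ C' : ℝ, 0 < C' ∧ ∀ s t : ℝ, Rg C s t → ∀ S : Finset (𝓞 K × 𝓞 K × QBar),
      (∀ x ∈ S, Adm M C s t x.1 x.2.1 ∧ ∃ t1 t2 a' : H38.WM.Fd K x.1 x.2.1,
        (t1 : QBar) = H38.WM.rt K x.1 x.2.1 ∧ (a' : QBar) = x.2.2 ∧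
          Dat (H38.WM.Fd K x.1 x.2.1) x.1 x.2.1 t1 t2 a') →
      (∀ u v a b, (u, v, a) ∈ S → (u, v, b) ∈ S →
        (∃ c ∈ H38.WM.Fd K u v, a = b * c ^ 2) → a = b) →
      (S.card : ℝ) ≤ C' * (s * t) ^ (3 * Module.finrank ℚ K) * Real.log (2 + s) ^ (5 / 4 : ℝ) ∧
      (Real.exp (Real.sqrt (Real.log (2 + s))) ≤ t →
        (S.card : ℝ) ≤ C' * (s * t) ^ (3 * Module.finrank ℚ K) *
          Real.log (2 + s) ^ (7 / 8 : ℝ)) := by
  classical
  obtain ⟨C0, hC0, hpi⟩ := pi_card K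
  obtain ⟨M', A, C1, s0, hM', hC1, hred⟩ := h1 M hM C hC
  obtain ⟨C2, hC2d⟩ : ∃ C2 : ℝ, C2 = max C C1 := ⟨_, rfl⟩
  have hCC2 : C ≤ C2 := hC2d ▸ le_max_left _ _
  have hC1C2 : C1 ≤ C2 := hC2d ▸ le_max_right _ _
  have hC2 : 1 ≤ C2 := hC.trans hCC2
  obtain ⟨Cm, hCm, hm⟩ := h2 M' hM' C2 hC2 A
  obtain ⟨Cd0, κ, hCd0, hκ, hd⟩ := h3 M' hM' C2 hC2 A
  obtain ⟨M'', C'', hM'', hC'', halg⟩ := h5 M M' hM hM' C2 hC2
  obtain ⟨C3, hC3d⟩ : ∃ C3 : ℝ, C3 = max C2 C'' := ⟨_, rfl⟩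
  have hC2C3 : C2 ≤ C3 := hC3d ▸ le_max_left _ _
  have hC''C3 : C'' ≤ C3 := hC3d ▸ le_max_right _ _
  have hC3 : 1 ≤ C3 := hC2.trans hC2C3
  obtain ⟨Ce, hCe, he⟩ := h4 (M * M'') (mul_ne_zero hM hM'') C3 hC3 (1 / 4) (by norm_num)
  obtain ⟨d, hdd⟩ : ∃ d : ℕ, d = Module.finrank ℚ K := ⟨_, rfl⟩
  have hd1 : 1 ≤ d := hdd ▸ Module.finrank_pos
  obtain ⟨N, hN⟩ : ∃ N : ℝ, N = ∏ _i : Fin 2, (C0 * (1 + C2 ^ Module.finrank ℚ K)) := ⟨_, rfl⟩
  have hN0 : 0 < N := by rw [hN]; positivity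
  obtain ⟨s1, hs1⟩ : ∃ s1 : ℝ, s1 = max s0 1 := ⟨_, rfl⟩
  have hs1' : 1 ≤ s1 := hs1 ▸ le_max_right _ _
  have hs01 : s0 ≤ s1 := hs1 ▸ le_max_left _ _
  obtain ⟨R8, hR8⟩ : ∃ R8 : ℝ, R8 = max (C2 * s1 ^ 3) ((C2 * (1 + s1)) ^ A) := ⟨_, rfl⟩
  have hR80 : 0 < R8 := by rw [hR8]; exact lt_max_of_lt_left (by positivity)
  obtain ⟨N8, hN8⟩ : ∃ N8 : ℝ, N8 = ∏ _i : Fin 8, (C0 * (1 + R8 ^ Module.finrank ℚ K)) := ⟨_, rfl⟩
  have hN80 : 0 < N8 := by rw [hN8]; positivity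
  have hC0' : 0 < C := by linarith
  obtain ⟨Cd, hCdd⟩ : ∃ Cd : ℝ, Cd = Cd0 * (C2 ^ κ + (1 + 1 / κ)) := ⟨_, rfl⟩
  have hCd : 0 < Cd := by rw [hCdd]; positivity
  have hl2 : 0 < Real.log 2 := Real.log_pos (by norm_num)
  have hl21 : Real.log 2 ≤ 1 := by
    have := Real.log_le_sub_one_of_pos (by norm_num : (0 : ℝ) < 2)
    linarith
  obtain ⟨c1, hc1⟩ : ∃ c1 : ℝ, c1 = (Real.log 2 ^ (5 / 4 : ℝ))⁻¹ := ⟨_, rfl⟩
  have hc10 : 0 < c1 := by rw [hc1]; positivity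
  refine ⟨(2 * C0 * C ^ (3 * d)) ^ 2 * c1 + N * N8 * (C ^ 2) ^ (3 * d) * c1 + N * Cm +
    N * Cd + Ce * (C ^ 2) ^ (3 * d) * c1, by positivity, fun s t hst S hS hsq => ?_⟩
  have ht0 : 0 < t := by
    by_contra h0
    have := hst.1
    nlinarith [not_lt.1 h0]
  have hs0 : 0 < s := ht0.trans_le hst.2
  have hst2 : Rg C2 s t := ⟨hst.1.trans (mul_le_mul_of_nonneg_right hCC2 ht0.le), hst.2⟩
  have hL : Real.log 2 ≤ Real.log (2 + s) := Real.log_le_log (by norm_num) (by linarith)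
  have hL0 : 0 < Real.log (2 + s) := hl2.trans_le hL
  obtain ⟨V, hV⟩ : ∃ V : ℝ, V = (s * t) ^ (3 * Module.finrank ℚ K) := ⟨_, rfl⟩
  have hV0 : 0 < V := by rw [hV]; positivity
  rw [← hV]
  have hCst : 1 ≤ C ^ 2 * (s * t) := by
    have h6 : 1 ≤ C * s := hst.1.trans (by nlinarith [hst.2])
    have h7 := hst.1
    have : C ^ 2 * (s * t) = (C * s) * (C * t) := by ring
    rw [this]
    exact one_le_mul_of_one_le_of_one_le h6 h7
  have genl : ∀ q : ℝ, 0 < q → 1 ≤ c1 * q →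
      (∀ S' : Finset (𝓞 K × 𝓞 K × Blk (𝓞 K)), Inj S' →
        (∀ y ∈ S', Adm M' C2 s t y.1 y.2.1 ∧
          (∃ ρ1 ρ2 : ℝ, Rho C2 ρ1 ρ2 ∧ Main C2 s t ρ1 ρ2 y.2.2) ∧ y.2.2.All (Bd (Hp C2 A s)) ∧
          Rep (Hp C2 A s) y.2.2 y.1 y.2.1) → (S'.card : ℝ) ≤ Cm * (V * q)) →
      (∀ S' : Finset (𝓞 K × 𝓞 K × Blk (𝓞 K)), Inj S' →
        (∀ y ∈ S', Adm M' C2 s t y.1 y.2.1 ∧ Deg C2 s t y.2.2 ∧ y.2.2.All (Bd (Hp C2 A s)) ∧
          Rep (Hp C2 A s) y.2.2 y.1 y.2.1) → (S'.card : ℝ) ≤ Cd * (V * q)) →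
      (S.card : ℝ) ≤ ((2 * C0 * C ^ (3 * d)) ^ 2 * c1 + N * N8 * (C ^ 2) ^ (3 * d) * c1 + N * Cm +
        N * Cd + Ce * (C ^ 2) ^ (3 * d) * c1) * V * q := by
    intro q hq hcq hqm hqd
    obtain ⟨B, hB⟩ : ∃ B : ℝ, B = V * q := ⟨_, rfl⟩
    have hB0 : 0 < B := by rw [hB]; positivity
    rw [← hB] at hqm hqd
    rw [mul_assoc _ V q, ← hB]
    have hVB : V ≤ c1 * B := by
      rw [hB]
      calc V = V * 1 := (mul_one V).symm
        _ ≤ V * (c1 * q) := mul_le_mul_of_nonneg_left hcq hV0.le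
        _ = _ := by ring
    have hBge : 1 ≤ (C ^ 2) ^ (3 * d) * c1 * B := by
      have e1 : 1 ≤ (C ^ 2) ^ (3 * d) * V := by
        rw [hV, ← hdd, ← mul_pow]
        exact one_le_pow₀ hCst
      refine e1.trans ?_
      rw [mul_assoc]
      exact mul_le_mul_of_nonneg_left hVB (by positivity)
    -- the trivial classes
    let triv : 𝓞 K × 𝓞 K × QBar → Prop := fun x => ∃ c ∈ H38.WM.Fd K x.1 x.2.1, x.2.2 = c ^ 2
    have ha0 : ∀ x ∈ S, x.2.2 ≠ 0 := by
      intro x hx h0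
      obtain ⟨_, t1, t2, a', _, h7, h8⟩ := hS x hx
      refine h8.a0 (Subtype.ext ?_)
      rw [h7, h0]
      rfl
    have hS0 : ((S.filter triv).card : ℝ) ≤ (2 * C0 * C ^ (3 * d)) ^ 2 * c1 * B := by
      have h6 := hpi _ (S.filter triv) 2 (fun x => ![x.1, x.2.1]) ![C * s ^ 3, C * t ^ 3] (by
          intro i
          fin_cases i
          · simpa using (by positivity : 0 < C * s ^ 3)
          · simpa using (by positivity : 0 < C * t ^ 3)) (by
          intro x hx y hy hxy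
          have e1 : x.1 = y.1 := congrFun hxy 0
          have e2 : x.2.1 = y.2.1 := congrFun hxy 1
          obtain ⟨hxS, c, hc, hxc⟩ := Finset.mem_filter.1 hx
          obtain ⟨hyS, c', hc', hyc⟩ := Finset.mem_filter.1 hy
          obtain ⟨u, v, a⟩ := x
          obtain ⟨u', v', b⟩ := y
          simp only at e1 e2 hxc hyc hc hc'
          subst e1
          subst e2
          have h7 : c' ≠ 0 := by
            rintro rfl
            exact ha0 _ hyS (by simpa using hyc)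
          have h8 := hsq u v a b hxS hyS ⟨c / c', div_mem hc hc', by
            rw [hxc, hyc]
            field_simp⟩
          rw [h8]) (by
          intro x hx i
          have h7 := (hS x (Finset.mem_filter.1 hx).1).1
          fin_cases i
          · exact fun φ => h7.ule φ
          · exact fun φ => h7.vle φ)
      rw [Fin.prod_univ_two, ← hdd] at h6
      simp only [Matrix.cons_val_zero, Matrix.cons_val_one] at h6
      have h9 : ∀ r : ℝ, 0 < r → 1 ≤ C * r → 1 + (C * r ^ 3) ^ d ≤ 2 * C ^ (3 * d) * r ^ (3 * d) := by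
        intro r hr hr1
        have e1 : (C * r ^ 3) ^ d ≤ C ^ (3 * d) * r ^ (3 * d) := by
          rw [← mul_pow, pow_mul, mul_pow C r 3]
          refine pow_le_pow_left₀ (by positivity) ?_ d
          refine mul_le_mul_of_nonneg_right ?_ (by positivity)
          calc C = C * 1 := by ring
            _ ≤ C * C ^ 2 := mul_le_mul_of_nonneg_left (one_le_pow₀ hC) hC0'.le
            _ = C ^ 3 := by ring
        have e2 : (1 : ℝ) ≤ C ^ (3 * d) * r ^ (3 * d) := by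
          rw [← mul_pow]
          exact one_le_pow₀ hr1
        linarith
      have hCs : 1 ≤ C * s := hst.1.trans (mul_le_mul_of_nonneg_left hst.2 hC0'.le)
      have h10 : ((S.filter triv).card : ℝ) ≤ (2 * C0 * C ^ (3 * d)) ^ 2 * V := by
        refine h6.trans ?_
        calc _ ≤ (C0 * (2 * C ^ (3 * d) * s ^ (3 * d))) * (C0 * (2 * C ^ (3 * d) * t ^ (3 * d))) := by
              refine mul_le_mul (mul_le_mul_of_nonneg_left (h9 s hs0 hCs) hC0.le)
                (mul_le_mul_of_nonneg_left (h9 t ht0 hst.1) hC0.le) (by positivity) (by positivity)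
          _ = _ := by rw [hV, ← hdd, mul_pow s t]; ring
      refine h10.trans ?_
      rw [mul_assoc ((2 * C0 * C ^ (3 * d)) ^ 2) c1 B]
      exact mul_le_mul_of_nonneg_left hVB (by positivity)
    have hS1 : ((S.filter (fun x => ¬ triv x)).card : ℝ) ≤
        N * N8 * ((C ^ 2) ^ (3 * d) * c1 * B) + N * Cm * B + N * Cd * B +
          Ce * (C ^ 2) ^ (3 * d) * c1 * B := by
      obtain ⟨T, hT⟩ : ∃ T, T = S.filter (fun x => ¬ triv x) := ⟨_, rfl⟩
      rw [← hT]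
      have hTS : ∀ x ∈ T, x ∈ S ∧ ¬ triv x := fun x hx => Finset.mem_filter.1 (hT ▸ hx)
      have : Nonempty ((𝓞 K × 𝓞 K) × (𝓞 K × 𝓞 K × Blk (𝓞 K))) :=
        ⟨((0, 0), (0, 0, ⟨0, 0, 0, 0, 0, 0⟩))⟩
      have key : ∀ x ∈ T, ∃ y, Rd K M' A C2 s t x y ∧
          ((∃ ρ1 ρ2 : ℝ, Rho C2 ρ1 ρ2 ∧ Main C2 s t ρ1 ρ2 y.2.2.2) ∨ Deg C2 s t y.2.2.2 ∨
            EZ C2 s t y.2.2.2 ∨ s ≤ s0) := by
        intro x hx
        obtain ⟨hxS, hxt⟩ := hTS x hx
        obtain ⟨hadm, t1, t2, a', e1, e2, hdat⟩ := hS x hxS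
        have hns : ¬ IsSquare a' := by
          rintro ⟨c, hc⟩
          refine hxt ⟨c, c.2, ?_⟩
          rw [← e2, hc]
          push_cast
          ring
        obtain ⟨k, m, u', v', β, r1, r2, r3, r4, r5, r6, r7, r8, r9, r10, r11, r12⟩ :=
          hred s t hst x.1 x.2.1 hadm (H38.WM.Fd K x.1 x.2.1) t1 t2 a' hdat hns
        have hhp : Hp C1 A s ≤ Hp C2 A s := hp_mono (by linarith) hC1C2 hs0.le A
        refine ⟨((k, m), (u', v', β)), ⟨r1, r2, bd_mono hC1C2 r3, bd_mono hC1C2 r4, r5, r6,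
          adm_mono hC1C2 hs0.le ht0.le r7, ball_mono hhp r8, rep_mono hhp r9,
          ⟨t1, t2, a', e1, e2, hdat, r10, r11⟩⟩, ?_⟩
        rcases r12 with ⟨ρ1, ρ2, w1, w2⟩ | w | w | w
        · exact Or.inl ⟨ρ1, ρ2, rho_mono hC1C2 w1,
            main_mono hC1C2 hs0.le ht0.le w1.1 (w1.1.trans_le w1.2.1) w2⟩
        · exact Or.inr (Or.inl (deg_mono hC1C2 hs0.le ht0.le w))
        · exact Or.inr (Or.inr (Or.inl (ez_mono hC1C2 w)))
        · exact Or.inr (Or.inr (Or.inr w))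
      choose! f hf using key
      have hsq' : ∀ x ∈ S, ∀ x' ∈ S, x.1 = x'.1 → x.2.1 = x'.2.1 →
          (∃ c ∈ H38.WM.Fd K x.1 x.2.1, x.2.2 = x'.2.2 * c ^ 2) → x.2.2 = x'.2.2 := by
        intro x hx x' hx' e1 e2 e3
        obtain ⟨u, v, a⟩ := x
        obtain ⟨u', v', b⟩ := x'
        simp only at e1 e2 e3 ⊢
        subst e1
        subst e2
        exact hsq u v a b hx hx' e3
      have hfi : ∀ x ∈ T, ∀ y ∈ T, f x = f y → x = y := by
        intro x hx y hy hxy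
        have h6 := (hS x (hTS x hx).1).1
        refine rd_inj K (hf x hx).1 (hxy ▸ (hf y hy).1) h6.u0 h6.v0 ?_
        exact hsq' x (hTS x hx).1 y (hTS y hy).1
      have hfj : ∀ x ∈ T, ∀ y ∈ T, (f x).1 = (f y).1 → (f x).2.1 = (f y).2.1 →
          (f x).2.2.1 = (f y).2.2.1 → (f x).2.2.2.D1 = (f y).2.2.2.D1 →
          (f x).2.2.2.D2 = (f y).2.2.2.D2 → (f x).2.2.2.D3 = (f y).2.2.2.D3 →
          (f x).2 = (f y).2 := by
        intro x hx y hy g1 g2 g3 g4 g5 g6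
        have h6 := (hS x (hTS x hx).1).1
        have h7 : x = y := rd_inj2 K (hf x hx).1 (hf y hy).1 g1 g2 g3 g4 g5 g6 h6.u0 h6.v0
          (hsq' x (hTS x hx).1 y (hTS y hy).1)
        rw [h7]
      have hfk : ∀ x ∈ T, Bd C2 (f x).1.1 ∧ Bd C2 (f x).1.2 :=
        fun x hx => ⟨(hf x hx).1.bk, (hf x hx).1.bm⟩
      -- the general bound for one class
      have gen : ∀ (P : 𝓞 K × 𝓞 K × QBar → Prop) (Q : 𝓞 K × 𝓞 K × Blk (𝓞 K) → Prop) (B' : ℝ),
          (∀ S' : Finset (𝓞 K × 𝓞 K × Blk (𝓞 K)), Inj S' → (∀ y ∈ S', Q y) →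
            (S'.card : ℝ) ≤ B') →
          (∀ x ∈ T, P x → Q (f x).2) → ((T.filter P).card : ℝ) ≤ N * B' := by
        intro P Q B' hB' hQ
        rw [hN]
        refine cls K C0 C2 (by linarith) hpi (T.filter P) f ?_ ?_ Q
          (fun y y' => y.1 = y'.1 ∧ y.2.1 = y'.2.1 ∧ y.2.2.D1 = y'.2.2.D1 ∧
            y.2.2.D2 = y'.2.2.D2 ∧ y.2.2.D3 = y'.2.2.D3) B' ?_ ?_ ?_
        · exact fun x hx y hy => hfi x (Finset.mem_filter.1 hx).1 y (Finset.mem_filter.1 hy).1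
        · exact fun x hx => hfk x (Finset.mem_filter.1 hx).1
        · intro S' h6 h7
          exact hB' S' (fun x hx y hy g1 g2 g3 g4 g5 => h7 x hx y hy ⟨g1, g2, g3, g4, g5⟩) h6
        · exact fun x hx => hQ x (Finset.mem_filter.1 hx).1 (Finset.mem_filter.1 hx).2
        · intro x hx y hy g0 ⟨g1, g2, g3, g4, g5⟩
          exact hfj x (Finset.mem_filter.1 hx).1 y (Finset.mem_filter.1 hy).1 g0 g1 g2 g3 g4 g5
      have ga : ((T.filter (fun _ => s ≤ s0)).card : ℝ) ≤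
          N * N8 * ((C ^ 2) ^ (3 * d) * c1 * B) := by
        have h6 := gen (fun _ => s ≤ s0)
          (fun y => Bd R8 y.1 ∧ Bd R8 y.2.1 ∧ y.2.2.All (Bd R8)) N8 (by
            intro S' _ hS'
            rw [hN8]
            refine hpi _ S' 8 (fun y => ![y.1, y.2.1, y.2.2.b1, y.2.2.b2, y.2.2.b3, y.2.2.c1,
              y.2.2.c2, y.2.2.c3]) (fun _ => R8) (fun _ => hR80) ?_ ?_
            · intro x _ y _ hxy
              have e0 : x.1 = y.1 := congrFun hxy 0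
              have e1 : x.2.1 = y.2.1 := congrFun hxy 1
              have e2 : x.2.2.b1 = y.2.2.b1 := congrFun hxy 2
              have e3 : x.2.2.b2 = y.2.2.b2 := congrFun hxy 3
              have e4 : x.2.2.b3 = y.2.2.b3 := congrFun hxy 4
              have e5 : x.2.2.c1 = y.2.2.c1 := congrFun hxy 5
              have e6 : x.2.2.c2 = y.2.2.c2 := congrFun hxy 6
              have e7 : x.2.2.c3 = y.2.2.c3 := congrFun hxy 7
              exact Prod.ext e0 (Prod.ext e1 (Blk.ext e2 e3 e4 e5 e6 e7))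
            · intro x hx i
              obtain ⟨w0, w1, w2, w3, w4, w5, w6, w7⟩ := hS' x hx
              fin_cases i
              · exact w0
              · exact w1
              · exact w2
              · exact w3
              · exact w4
              · exact w5
              · exact w6
              · exact w7) (by
            intro x hx hss
            have h7 := (hf x hx).1
            have hs1s : s ≤ s1 := hss.trans hs01
            have b1 : C2 * s ^ 3 ≤ R8 := by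
              rw [hR8]
              exact le_max_of_le_left (by gcongr)
            have b2 : C2 * t ^ 3 ≤ R8 := le_trans (by gcongr; exact hst.2) b1
            have b3 : Hp C2 A s ≤ R8 := by
              rw [hR8]
              unfold Hp
              exact le_max_of_le_right (by gcongr)
            exact ⟨fun φ => (h7.adm.ule φ).trans b1, fun φ => (h7.adm.vle φ).trans b2,
              ball_mono b3 h7.al⟩)
        refine h6.trans ?_
        exact le_mul_of_one_le_right (by positivity) hBge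
      have gb : ((T.filter (fun x => ∃ ρ1 ρ2 : ℝ, Rho C2 ρ1 ρ2 ∧
          Main C2 s t ρ1 ρ2 (f x).2.2.2)).card : ℝ) ≤ N * Cm * B := by
        rw [mul_assoc]
        refine gen _ (fun y => Adm M' C2 s t y.1 y.2.1 ∧
          (∃ ρ1 ρ2 : ℝ, Rho C2 ρ1 ρ2 ∧ Main C2 s t ρ1 ρ2 y.2.2) ∧ y.2.2.All (Bd (Hp C2 A s)) ∧
          Rep (Hp C2 A s) y.2.2 y.1 y.2.1) (Cm * B) ?_ ?_
        · intro S' hI hS'
          exact hqm S' hI hS'
        · intro x hx hP
          have h7 := (hf x hx).1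
          exact ⟨h7.adm, hP, h7.al, h7.rep⟩
      have gc : ((T.filter (fun x => Deg C2 s t (f x).2.2.2)).card : ℝ) ≤ N * Cd * B := by
        rw [mul_assoc]
        refine gen _ (fun y => Adm M' C2 s t y.1 y.2.1 ∧ Deg C2 s t y.2.2 ∧
          y.2.2.All (Bd (Hp C2 A s)) ∧ Rep (Hp C2 A s) y.2.2 y.1 y.2.1) (Cd * B) ?_ ?_
        · intro S' hI hS'
          exact hqd S' hI hS'
        · intro x hx hP
          have h7 := (hf x hx).1
          exact ⟨h7.adm, hP, h7.al, h7.rep⟩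
      have ge : ((T.filter (fun x => EZ C2 s t (f x).2.2.2)).card : ℝ) ≤
          Ce * (C ^ 2) ^ (3 * d) * c1 * B := by
        have key2 : ∀ x ∈ T.filter (fun x => EZ C2 s t (f x).2.2.2), ∃ z : 𝓞 K × 𝓞 K,
            PQ M'' C'' s t x.1 x.2.1 z.1 z.2 ∧ ∃ t1 t2 a' : H38.WM.Fd K x.1 x.2.1,
              (t1 : QBar) = H38.WM.rt K x.1 x.2.1 ∧ (a' : QBar) = x.2.2 ∧
              Dat (H38.WM.Fd K x.1 x.2.1) x.1 x.2.1 t1 t2 a' ∧
              IsSquare (a' * algebraMap K (H38.WM.Fd K x.1 x.2.1)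
                ((x.1 * x.2.1 * (x.2.1 * z.1 ^ 3 + x.1 * z.2 ^ 3) : 𝓞 K) : K) *
                (algebraMap K (H38.WM.Fd K x.1 x.2.1) (z.1 : K) * t1 +
                  algebraMap K (H38.WM.Fd K x.1 x.2.1) (z.2 : K) * t2)) := by
          intro x hx
          obtain ⟨hxT, hEZ⟩ := Finset.mem_filter.1 hx
          have h7 := (hf x hxT).1
          obtain ⟨t1, t2, a', e1, e2, hdat, _, hsqz⟩ := h7.sq
          obtain ⟨p, q', w1, w2⟩ := halg s t hst2 x.1 x.2.1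
            (adm_mono hCC2 hs0.le ht0.le (hS x (hTS x hxT).1).1) (H38.WM.Fd K x.1 x.2.1) t1 t2 a' hdat
            (f x).2.1 (f x).2.2.1 (f x).1.1 (f x).1.2 (f x).2.2.2 h7.k0 h7.m0 h7.bk h7.bm h7.eu h7.ev
            h7.adm ⟨_, h7.rep⟩ hsqz hEZ
          exact ⟨(p, q'), w1, t1, t2, a', e1, e2, hdat, w2⟩
        choose! g hg using key2
        have hinj : Set.InjOn (fun x : 𝓞 K × 𝓞 K × QBar => (x.1, x.2.1, (g x).1, (g x).2))
            (T.filter (fun x => EZ C2 s t (f x).2.2.2)) := by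
          intro x hx y hy hxy
          have e1 : x.1 = y.1 := congrArg (fun z => z.1) hxy
          have e2 : x.2.1 = y.2.1 := congrArg (fun z => z.2.1) hxy
          have e3 : (g x).1 = (g y).1 := congrArg (fun z => z.2.2.1) hxy
          have e4 : (g x).2 = (g y).2 := congrArg (fun z => z.2.2.2) hxy
          have hx1 := hg x hx
          have hy1 := hg y hy
          have hxS := (hTS x (Finset.mem_filter.1 hx).1).1
          have hyS := (hTS y (Finset.mem_filter.1 hy).1).1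
          have hxu := (hS x hxS).1.u0
          have hxv := (hS x hxS).1.v0
          rw [← e3, ← e4] at hy1
          obtain ⟨p, hp⟩ : ∃ p, p = (g x).1 := ⟨_, rfl⟩
          obtain ⟨q', hq'⟩ : ∃ q', q' = (g x).2 := ⟨_, rfl⟩
          rw [← hp, ← hq'] at hx1 hy1
          obtain ⟨u, v, a⟩ := x
          obtain ⟨u', v', b⟩ := y
          simp only at e1 e2 hx1 hy1 hxu hxv
          subst e1
          subst e2
          obtain ⟨hpq, t1, t2, a1, h1, h2, h3, h4⟩ := hx1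
          obtain ⟨_, t1', t2', a1', h1', h2', h3', h4'⟩ := hy1
          obtain ⟨e3, e4⟩ := t_unique K hxu hxv h1 h1' h3 h3'
          subst e3
          subst e4
          rw [mul_assoc] at h4 h4'
          obtain ⟨c, hc⟩ := sq_cancel h3'.a0 (eta_ne hxu hxv h3 hpq.2.2.2.2.2.1) h4 h4'
          have h6 := hsq u v a b hxS hyS ⟨c, c.2, by rw [← h2, ← h2', hc]; push_cast; rfl⟩
          rw [h6]
        rw [← Finset.card_image_of_injOn hinj]
        have hez := he s t ⟨hst2.1.trans (mul_le_mul_of_nonneg_right hC2C3 ht0.le), hst.2⟩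
          (Finset.image (fun x : 𝓞 K × 𝓞 K × QBar => (x.1, x.2.1, (g x).1, (g x).2))
            (T.filter (fun x => EZ C2 s t (f x).2.2.2))) (by
          intro z hz
          obtain ⟨x, hx, rfl⟩ := Finset.mem_image.1 hz
          have hxS := (hTS x (Finset.mem_filter.1 hx).1).1
          exact ⟨adm_monoM M'' (adm_mono (hCC2.trans hC2C3) hs0.le ht0.le (hS x hxS).1),
            pq_mono M hC''C3 hs0.le ht0.le (hg x hx).1⟩)
        refine hez.trans ?_
        rw [mul_assoc (Ce * (C ^ 2) ^ (3 * d)) c1 B, mul_assoc Ce]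
        refine mul_le_mul_of_nonneg_left ?_ hCe.le
        have hst0 : 0 < s * t := mul_pos hs0 ht0
        rw [← hdd]
        calc (s * t) ^ (5 / 2 * (d : ℝ) + 1 / 4) ≤ (C ^ 2 * (s * t)) ^ (5 / 2 * (d : ℝ) + 1 / 4) := by
              refine Real.rpow_le_rpow hst0.le ?_ (by positivity)
              exact le_mul_of_one_le_left hst0.le (one_le_pow₀ hC)
          _ ≤ (C ^ 2 * (s * t)) ^ ((3 * d : ℕ) : ℝ) := by
              refine Real.rpow_le_rpow_of_exponent_le hCst ?_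
              have : (1 : ℝ) ≤ d := by exact_mod_cast hd1
              push_cast
              linarith
          _ = (C ^ 2) ^ (3 * d) * V := by
              rw [Real.rpow_natCast, mul_pow, hV, ← hdd]
          _ ≤ _ := mul_le_mul_of_nonneg_left hVB (by positivity)
      have hcov : T ⊆ T.filter (fun _ => s ≤ s0) ∪ T.filter (fun x => ∃ ρ1 ρ2 : ℝ, Rho C2 ρ1 ρ2 ∧
          Main C2 s t ρ1 ρ2 (f x).2.2.2) ∪ T.filter (fun x => Deg C2 s t (f x).2.2.2) ∪
          T.filter (fun x => EZ C2 s t (f x).2.2.2) := by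
        intro x hx
        simp only [Finset.mem_union, Finset.mem_filter]
        rcases (hf x hx).2 with w | w | w | w
        · exact Or.inl (Or.inl (Or.inr ⟨hx, w⟩))
        · exact Or.inl (Or.inr ⟨hx, w⟩)
        · exact Or.inr ⟨hx, w⟩
        · exact Or.inl (Or.inl (Or.inl ⟨hx, w⟩))
      have hcard : (T.card : ℝ) ≤ (T.filter (fun _ => s ≤ s0)).card +
          (T.filter (fun x => ∃ ρ1 ρ2 : ℝ, Rho C2 ρ1 ρ2 ∧
          Main C2 s t ρ1 ρ2 (f x).2.2.2)).card + (T.filter (fun x => Deg C2 s t (f x).2.2.2)).card +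
          (T.filter (fun x => EZ C2 s t (f x).2.2.2)).card := by
        have h6 := (Finset.card_le_card hcov).trans ((Finset.card_union_le _ _).trans
          (Nat.add_le_add_right ((Finset.card_union_le _ _).trans
            (Nat.add_le_add_right (Finset.card_union_le _ _) _)) _))
        exact_mod_cast h6
      linarith
    have hsum : (S.card : ℝ) = (S.filter triv).card + (S.filter (fun x => ¬ triv x)).card := by
      rw [← Finset.card_filter_add_card_filter_not (s := S) triv]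
      push_cast
      rfl
    rw [hsum]
    calc _ ≤ _ := add_le_add hS0 hS1
      _ = _ := by ring
  have hcq1 : ∀ e : ℝ, 0 ≤ e → e ≤ 5 / 4 → 1 ≤ c1 * Real.log (2 + s) ^ e := by
    intro e he0 he1
    have g1 : Real.log 2 ^ (5 / 4 : ℝ) ≤ Real.log (2 + s) ^ e :=
      (Real.rpow_le_rpow_of_exponent_ge hl2 hl21 he1).trans (Real.rpow_le_rpow hl2.le hL he0)
    have g2 : 0 < Real.log 2 ^ (5 / 4 : ℝ) := by positivity
    rw [hc1, ← div_eq_inv_mul, le_div_iff₀ g2, one_mul]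
    exact g1
  constructor
  · refine genl _ (by positivity) (hcq1 _ (by norm_num) (by norm_num)) ?_ ?_
    · intro S' hI hS'
      have g1 := (hm s t hst2 S' hI hS').1
      rw [← hV, mul_assoc] at g1
      exact g1
    · intro S' hI hS'
      have g1 := hd s t hst2 S' hI hS'
      rw [← hV] at g1
      refine g1.trans ?_
      have g2 : t ^ (-κ) ≤ C2 ^ κ := by
        have g3 : C2⁻¹ ≤ t := by
          rw [inv_le_iff_one_le_mul₀ (by linarith)]
          rw [mul_comm]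
          exact hst2.1
        have g4 := Real.rpow_le_rpow_of_nonpos (by positivity) g3 (by linarith : -κ ≤ 0)
        rwa [Real.inv_rpow (by linarith), ← Real.rpow_neg (by linarith), neg_neg] at g4
      have g5 : t ^ (-κ) ≤ C2 ^ κ + (1 + 1 / κ) := by
        have : 0 ≤ 1 + 1 / κ := by positivity
        linarith
      calc Cd0 * V * t ^ (-κ) * Real.log (2 + s) ^ (5 / 4 : ℝ) ≤
          Cd0 * V * (C2 ^ κ + (1 + 1 / κ)) * Real.log (2 + s) ^ (5 / 4 : ℝ) := by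
            gcongr
        _ = _ := by
            rw [hCdd]
            ring
  · intro ht
    refine genl _ (by positivity) (hcq1 _ (by norm_num) (by norm_num)) ?_ ?_
    · intro S' hI hS'
      have g1 := (hm s t hst2 S' hI hS').2 ht
      rw [← hV, mul_assoc] at g1
      exact g1
    · intro S' hI hS'
      have g1 := hd s t hst2 S' hI hS'
      rw [← hV] at g1
      refine g1.trans ?_
      have g2 := deg_log hκ hL0 ht
      calc Cd0 * V * t ^ (-κ) * Real.log (2 + s) ^ (5 / 4 : ℝ) =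
          Cd0 * V * (t ^ (-κ) * Real.log (2 + s) ^ (5 / 4 : ℝ)) := by ring
        _ ≤ Cd0 * V * ((1 + 1 / κ) * Real.log (2 + s) ^ (7 / 8 : ℝ)) := by
            gcongr
        _ ≤ Cd0 * V * ((C2 ^ κ + (1 + 1 / κ)) * Real.log (2 + s) ^ (7 / 8 : ℝ)) := by
            have g3 : 0 ≤ C2 ^ κ := by positivity
            refine mul_le_mul_of_nonneg_left (mul_le_mul_of_nonneg_right ?_ (by positivity))
              (by positivity)
            linarith
        _ = _ := by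
            rw [hCdd]
            ring

end H88.WS
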