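import Pool.Agent.H88.WS.Iface

/-!
# (W1#): the statements of the parts of BLK (think 1204 A, MP_b39724)

`ix n b` is the index of the cube of side `n` (in the coordinates of the fixed basis of `𝓞 K`) which
contains `b`. `Blo` collects the conditions on `(u, v, β)` in the main case.
-/

open scoped NumberField
open H88.A4 Pool.Agent.H67.WA

noncomputable section

namespace H88.WS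

variable {K : Type} [Field K] [NumberField K]

/-- the index of the cube of side `n` which contains `b` -/
def ix (n : ℕ) (b : T3 K) : Module.Free.ChooseBasisIndex ℤ (𝓞 K) → ℤ × ℤ × ℤ := fun i =>
  ((NumberField.RingOfIntegers.basis K).repr b.1 i / (n : ℤ),
    (NumberField.RingOfIntegers.basis K).repr b.2.1 i / (n : ℤ),
    (NumberField.RingOfIntegers.basis K).repr b.2.2 i / (n : ℤ))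

/-- the conditions on `(u, v, β)` in the main case -/
def Blo (M : ℕ) (C : ℝ) (A : ℕ) (s t ρ1 ρ2 : ℝ) (x : 𝓞 K × 𝓞 K × Blk (𝓞 K)) : Prop :=
  Adm M C s t x.1 x.2.1 ∧ Main C s t ρ1 ρ2 x.2.2 ∧ x.2.2.All (Bd (Hp C A s)) ∧
    Rep (Hp C A s) x.2.2 x.1 x.2.1

/-- nondegenerate triples for the size `s` -/
def Ndg (s : ℝ) (b : T3 K) : Prop :=
  (∀ φ : K →+* ℂ, s ^ (2 - 1 / 50 : ℝ) ≤ sz φ (dt b)) ∧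
    ni (cn b) ≤ s ^ ((Module.finrank ℚ K : ℝ) / 50)

variable (K)

/-- CNT: the number of `(u, v)` over a block -/
def CntStmt : Prop :=
  ∀ M : ℕ, M ≠ 0 → ∃ m : ℕ, m ≠ 0 ∧ 6 ∣ m ∧ ∀ C : ℝ, 1 ≤ C → ∀ A : ℕ, ∃ C' : ℝ, 0 < C' ∧
    ∀ s t ρ1 ρ2 : ℝ, Rg C s t → Rho C ρ1 ρ2 → ∀ β : Blk (𝓞 K), Main C s t ρ1 ρ2 β →
    β.All (Bd (Hp C A s)) →
      ∃ h : Ideal (𝓞 K), h ≠ ⊥ ∧ IsCoprime h (cn (tc β)) ∧ T3.All (fun x => x ∈ h) (tb β) ∧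
        ∀ S : Finset (𝓞 K × 𝓞 K), (∀ x ∈ S, Adm M C s t x.1 x.2 ∧ Rep (Hp C A s) β x.1 x.2) →
          (S.card : ℝ) ≤ C' * Fc m β.D3 h β.E * Real.log (2 + s) ^ Module.finrank ℚ K *
            (ni h * Wt (3 / 4) s (tb β)) * (ni (cn (tc β)) * Wt (3 / 4) t (tc β)) ∧
          ∀ μ : ℝ, 0 < μ → μ ≤ 1 →
            (∀ φ : K →+* ℂ, μ ^ 2 * (s * sx φ (tc β)) ^ 2 ≤ sz φ (Ec (tc β) (tb β)) ∧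
              μ ^ 2 * (s * sx φ (tc β)) ^ 2 ≤ sz φ (dl (tc β) (tb β))) →
            (S.card : ℝ) ≤ C' * Fc m β.D3 h β.E * (1 + Real.log (1 / μ)) ^ Module.finrank ℚ K *
              (2 + ρ2) ^ ((Module.finrank ℚ K : ℝ) / 20) *
              (ni h * Wt (4 / 5) s (tb β)) * (ni (cn (tc β)) * Wt (4 / 5) t (tc β))

/-- LOS: the lossy bound, `b` and `c` separated -/
def LosStmt : Prop :=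
  ∀ M : ℕ, M ≠ 0 → ∀ C : ℝ, 1 ≤ C → ∀ A : ℕ, ∀ ε : ℝ, 0 < ε → ∃ C' : ℝ, 0 < C' ∧
    ∀ s t ρ1 ρ2 : ℝ, Rg C s t → Rho C ρ1 ρ2 → ∀ (S : Finset (𝓞 K × 𝓞 K × Blk (𝓞 K)))
      (T1 T2 : Finset (T3 K)),
      (∀ x ∈ S, Blo M C A s t ρ1 ρ2 x ∧ tb x.2.2 ∈ T1 ∧ tc x.2.2 ∈ T2) →
      (S.card : ℝ) ≤ C' * s ^ ε * (∑ b ∈ T1, ni (cn b) * Wt (3 / 4) s b) *
        (∑ c ∈ T2, ni (cn c) * Wt (3 / 4) t c)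

/-- CA: all `b` (or `c`) of a box, lossy -/
def CaStmt : Prop :=
  ∀ C : ℝ, 1 ≤ C → ∀ ε : ℝ, 0 < ε → ∃ C' : ℝ, 0 < C' ∧
    ∀ s ρ1 ρ2 : ℝ, 1 ≤ C * s → Rho C ρ1 ρ2 → ∀ S : Finset (T3 K),
      (∀ b ∈ S, Bx C s ρ1 ρ2 b ∧ dt b ≠ 0) →
      ∑ b ∈ S, ni (cn b) * Wt (3 / 4) s b ≤
        C' * s ^ ε * s ^ (3 * Module.finrank ℚ K) * (ρ2 / ρ1) ^ Module.finrank ℚ K

/-- GEN: the lossy bound for all shapes -/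
def GenStmt : Prop :=
  ∀ M : ℕ, M ≠ 0 → ∀ C : ℝ, 1 ≤ C → ∀ A : ℕ, ∀ ε : ℝ, 0 < ε → ∃ C' : ℝ, 0 < C' ∧
    ∀ s t ρ1 ρ2 : ℝ, Rg C s t → Rho C ρ1 ρ2 → ∀ S : Finset (𝓞 K × 𝓞 K × Blk (𝓞 K)),
      (∀ x ∈ S, Blo M C A s t ρ1 ρ2 x) →
      (S.card : ℝ) ≤ C' * s ^ ε * (s * t) ^ (3 * Module.finrank ℚ K) *
        (ρ2 / ρ1) ^ Module.finrank ℚ K * ρ1 ^ (3 / 2 * (Module.finrank ℚ K : ℝ))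

/-- BD1: `b` degenerate or `b1 = 0`, fat shape -/
def Bd1Stmt : Prop :=
  ∀ M : ℕ, M ≠ 0 → ∀ C : ℝ, 1 ≤ C → ∀ A : ℕ, ∃ C' κ : ℝ, 0 < C' ∧ 0 < κ ∧
    ∀ s t ρ1 ρ2 : ℝ, 1 ≤ s → Rg C s t → Rho C ρ1 ρ2 → s ^ (-(1 / 200) : ℝ) ≤ ρ1 →
    ∀ S : Finset (𝓞 K × 𝓞 K × Blk (𝓞 K)),
      (∀ x ∈ S, Blo M C A s t ρ1 ρ2 x ∧ (x.2.2.b1 = 0 ∨ ¬ Ndg s (tb x.2.2))) →
      (S.card : ℝ) ≤ C' * (s * t) ^ (3 * Module.finrank ℚ K) *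
        (ρ2 / ρ1) ^ Module.finrank ℚ K * s ^ (-κ)

/-- BD2: `c` with large content, fat shape -/
def Bd2Stmt : Prop :=
  ∀ M : ℕ, M ≠ 0 → ∀ C : ℝ, 1 ≤ C → ∀ A : ℕ, ∃ C' κ : ℝ, 0 < C' ∧ 0 < κ ∧
    ∀ s t ρ1 ρ2 : ℝ, 1 ≤ s → Rg C s t → Rho C ρ1 ρ2 → s ^ (-(1 / 200) : ℝ) ≤ ρ1 →
    ∀ S : Finset (𝓞 K × 𝓞 K × Blk (𝓞 K)),
      (∀ x ∈ S, Blo M C A s t ρ1 ρ2 x ∧ x.2.2.b1 ≠ 0 ∧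
        s ^ ((Module.finrank ℚ K : ℝ) / 10) < ni (cn (tc x.2.2))) →
      (S.card : ℝ) ≤ C' * (s * t) ^ (3 * Module.finrank ℚ K) *
        (ρ2 / ρ1) ^ Module.finrank ℚ K * s ^ (-κ)

/-- BF1: sum over `b` -/
def Bf1Stmt : Prop :=
  ∀ m : ℕ, m ≠ 0 → 6 ∣ m → ∀ C : ℝ, 1 ≤ C → ∀ ε : ℝ, 0 < ε → ∃ C' s1 : ℝ, 0 < C' ∧ 3 ≤ s1 ∧
    ∀ s t ρ1 ρ2 : ℝ, s1 ≤ s → Rg C s t → Rho C ρ1 ρ2 → s ^ (-(1 / 200) : ℝ) ≤ ρ1 →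
    ∀ c : T3 K, Bx C t ρ1 ρ2 c → dt c ≠ 0 → ni (cn c) ≤ s ^ ((Module.finrank ℚ K : ℝ) / 10) →
    ∀ h : Ideal (𝓞 K), h ≠ ⊥ → IsCoprime h (cn c) → ni h ≤ s ^ ((Module.finrank ℚ K : ℝ) / 50) →
    ∀ S : Finset (T3 K), (∀ b ∈ S, Bx C s ρ1 ρ2 b ∧ T3.All (fun x => x ∈ h) b ∧
      (∀ φ : K →+* ℂ, s ^ (2 - 1 / 50 : ℝ) ≤ sz φ (dt b)) ∧ Ec c b ≠ 0) →
      ∑ b ∈ S, (Fc m (dt c) h (Ec c b) : ℝ) * Wt (4 / 5) s b ≤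
        C' * s ^ (3 * Module.finrank ℚ K) * (ρ1 * ρ2) ^ (7 / 5 * (Module.finrank ℚ K : ℝ)) *
          (ni h)⁻¹ ^ 3 * ni (cn c) ^ ε * Real.log (2 + s) ^ ε * Hc m (2 + s) (dt c)

/-- BF2: sum over the exceptional `b` -/
def Bf2Stmt : Prop :=
  ∀ m : ℕ, m ≠ 0 → 6 ∣ m → ∀ C : ℝ, 1 ≤ C → ∀ ε : ℝ, 0 < ε → ∀ B : ℕ,
    ∃ C' s1 : ℝ, 0 < C' ∧ 3 ≤ s1 ∧
    ∀ s t ρ1 ρ2 μ : ℝ, s1 ≤ s → Rg C s t → Rho C ρ1 ρ2 → s ^ (-(1 / 200) : ℝ) ≤ ρ1 →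
    (Real.log (2 + s) ^ B)⁻¹ ≤ μ → μ ≤ 1 →
    ∀ c : T3 K, Bx C t ρ1 ρ2 c → dt c ≠ 0 → ni (cn c) ≤ s ^ ((Module.finrank ℚ K : ℝ) / 10) →
    ∀ h : Ideal (𝓞 K), h ≠ ⊥ → IsCoprime h (cn c) → ni h ≤ s ^ ((Module.finrank ℚ K : ℝ) / 50) →
    ∀ S : Finset (T3 K), (∀ b ∈ S, Bx C s ρ1 ρ2 b ∧ T3.All (fun x => x ∈ h) b ∧
      (∀ φ : K →+* ℂ, s ^ (2 - 1 / 50 : ℝ) ≤ sz φ (dt b)) ∧ Ec c b ≠ 0 ∧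
      ∃ φ : K →+* ℂ, sz φ (Ec c b) < μ ^ 2 * (s * sx φ c) ^ 2 ∨
        sz φ (dl c b) < μ ^ 2 * (s * sx φ c) ^ 2) →
      ∑ b ∈ S, (Fc m (dt c) h (Ec c b) : ℝ) * Wt (3 / 4) s b ≤
        C' * s ^ (3 * Module.finrank ℚ K) * (ρ1 * ρ2) ^ (3 / 2 * (Module.finrank ℚ K : ℝ)) *
          (μ ^ (1 / 6 : ℝ) * ρ1 ^ (-(1 / 3) : ℝ)) *
          (ni h)⁻¹ ^ 3 * ni (cn c) ^ ε * Real.log (2 + s) ^ ε * Hc m (2 + s) (dt c)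

/-- BS: the sum over `(u, v)` and `b` for fixed `c` -/
def BsStmt : Prop :=
  ∀ M : ℕ, M ≠ 0 → ∃ m : ℕ, m ≠ 0 ∧ 6 ∣ m ∧ ∀ C : ℝ, 1 ≤ C → ∀ A : ℕ, ∀ ε : ℝ, 0 < ε →
    ∃ C' s1 : ℝ, 0 < C' ∧ 3 ≤ s1 ∧
    ∀ s t ρ1 ρ2 : ℝ, s1 ≤ s → Rg C s t → Rho C ρ1 ρ2 → s ^ (-(1 / 200) : ℝ) ≤ ρ1 →
    ∀ c : T3 K, ni (cn c) ≤ s ^ ((Module.finrank ℚ K : ℝ) / 10) →
    ∀ S : Finset (𝓞 K × 𝓞 K × Blk (𝓞 K)),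
      (∀ x ∈ S, Blo M C A s t ρ1 ρ2 x ∧ tc x.2.2 = c ∧ Ndg s (tb x.2.2)) →
      (S.card : ℝ) ≤ C' * s ^ (3 * Module.finrank ℚ K) *
        ((ρ1 * ρ2) ^ (7 / 5 * (Module.finrank ℚ K : ℝ)) *
          ρ1 ^ (-(2 / 5) * (Module.finrank ℚ K : ℝ))) * Real.log (2 + s) ^ ε *
        (ni (cn c) ^ (1 + ε) * Wt (4 / 5) t c * Hc m (2 + s) (dt c))

/-- ND: sum over the nondegenerate `c` -/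
def NdStmt : Prop :=
  ∀ C : ℝ, 1 ≤ C → ∃ C' : ℝ, 0 < C' ∧ ∀ t ρ1 ρ2 : ℝ, 1 ≤ t → Rho C ρ1 ρ2 →
    t ^ (-(1 / 200) : ℝ) ≤ ρ1 → ∀ S : Finset (T3 K), (∀ c ∈ S, Bx C t ρ1 ρ2 c ∧ Ndg t c) →
      ∑ c ∈ S, ni (cn c) ^ (9 / 5 : ℝ) * Wt (4 / 5) t c ≤
        C' * t ^ (3 * Module.finrank ℚ K) * (ρ1 * ρ2) ^ (7 / 5 * (Module.finrank ℚ K : ℝ))

/-- CB: sum over the other `c`, with a saving -/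
def CbStmt : Prop :=
  ∀ C : ℝ, 1 ≤ C → ∃ C' κ ε : ℝ, 0 < C' ∧ 0 < κ ∧ 0 < ε ∧ ε ≤ 1 / 5 ∧
    ∀ t ρ1 ρ2 : ℝ, 1 ≤ C * t → Rho C ρ1 ρ2 → ∀ S : Finset (T3 K),
      (∀ c ∈ S, Bx C t ρ1 ρ2 c ∧ dt c ≠ 0 ∧
        (t < 1 ∨ c.1 = 0 ∨ ¬ Ndg t c ∨ ρ1 < t ^ (-(1 / 200) : ℝ))) →
      (∑ c ∈ S, ni (cn c) ^ (1 + ε) * Wt (4 / 5) t c) *
        ((ρ1 * ρ2) ^ (7 / 5 * (Module.finrank ℚ K : ℝ)) *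
          ρ1 ^ (-(2 / 5) * (Module.finrank ℚ K : ℝ))) ≤
        C' * t ^ (3 * Module.finrank ℚ K) * (ρ2 / ρ1) ^ Module.finrank ℚ K *
          ρ1 ^ (1 / 2 : ℝ) * t ^ (-κ)

/-- CX: sum over the nondegenerate `c`, `t` not too small -/
def CxStmt : Prop :=
  ∀ m : ℕ, m ≠ 0 → 6 ∣ m → ∀ C : ℝ, 1 ≤ C → ∃ C' : ℝ, 0 < C' ∧
    ∀ s t ρ1 ρ2 : ℝ, 3 ≤ s → Rg C s t → Rho C ρ1 ρ2 → t ^ (-(1 / 200) : ℝ) ≤ ρ1 →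
    Real.exp (Real.sqrt (Real.log (2 + s))) ≤ t → ∀ S : Finset (T3 K),
      (∀ c ∈ S, Bx C t ρ1 ρ2 c ∧ Ndg t c) →
      ∑ c ∈ S, ni (cn c) ^ (6 / 5 : ℝ) * Wt (4 / 5) t c * Hc m (2 + s) (dt c) ≤
        C' * t ^ (3 * Module.finrank ℚ K) * (ρ1 * ρ2) ^ (7 / 5 * (Module.finrank ℚ K : ℝ)) *
          Real.log (2 + s) ^ (3 / 4 + 1 / 100 : ℝ)

/-- CS: sum over `c` -/
def CsStmt : Prop :=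
  ∀ m : ℕ, m ≠ 0 → 6 ∣ m → ∀ C : ℝ, 1 ≤ C → ∃ C' ε : ℝ, 0 < C' ∧ 0 < ε ∧ ε ≤ 1 / 100 ∧
    ∀ s t ρ1 ρ2 : ℝ, 3 ≤ s → Rg C s t → Rho C ρ1 ρ2 → ∀ S : Finset (T3 K),
      (∀ c ∈ S, Bx C t ρ1 ρ2 c ∧ dt c ≠ 0) →
      (∑ c ∈ S, ni (cn c) ^ (1 + ε) * Wt (4 / 5) t c * Hc m (2 + s) (dt c)) *
          ((ρ1 * ρ2) ^ (7 / 5 * (Module.finrank ℚ K : ℝ)) *
            ρ1 ^ (-(2 / 5) * (Module.finrank ℚ K : ℝ))) ≤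
        C' * t ^ (3 * Module.finrank ℚ K) * (ρ2 / ρ1) ^ Module.finrank ℚ K *
          ρ1 ^ (1 / 2 : ℝ) * Real.log (2 + s) ∧
      (Real.exp (Real.sqrt (Real.log (2 + s))) ≤ t →
        (∑ c ∈ S, ni (cn c) ^ (1 + ε) * Wt (4 / 5) t c * Hc m (2 + s) (dt c)) *
          ((ρ1 * ρ2) ^ (7 / 5 * (Module.finrank ℚ K : ℝ)) *
            ρ1 ^ (-(2 / 5) * (Module.finrank ℚ K : ℝ))) ≤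
        C' * t ^ (3 * Module.finrank ℚ K) * (ρ2 / ρ1) ^ Module.finrank ℚ K *
          ρ1 ^ (1 / 2 : ℝ) * Real.log (2 + s) ^ (3 / 4 + 1 / 100 : ℝ))

end H88.WS
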